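import Pool.Agent.URing.Base

/-!
# The Brauer homomorphism (module BRM)

`br π Q x` keeps the coefficients at the centraliser of `Q`, reduced by `π`.
-/

set_option autoImplicit false

namespace Pool.Agent.URing

open MonoidAlgebra Pool.Agent.UBlocks

variable {R k X : Type*} [CommRing R] [CommRing k] [Group X] [Fintype X] (π : R →+* k)
  (Q : Subgroup X)

private theorem BrMul_coeff (x : MonoidAlgebra R X) (g : X) [Decidable
    (g ∈ Subgroup.centralizer (Q : Set X))] :
    (br π Q x).coeff g = if g ∈ Subgroup.centralizer (Q : Set X) then π (x.coeff g) else 0 := by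
  classical
  unfold br
  rw [coeff_sum, Finset.sum_apply', Finset.sum_eq_single g]
  · rw [coeff_smul, Finsupp.smul_apply, coeff_dl, if_pos rfl, smul_eq_mul, mul_one]
    congr
  · intro h _ hne
    rw [coeff_smul, Finsupp.smul_apply, coeff_dl, if_neg hne, smul_zero]
  · intro h
    exact absurd (Finset.mem_univ g) h

/-- Only the summand of `g` contributes (`coeff_dl`). -/
theorem coeff_br_of_mem (x : MonoidAlgebra R X) {g : X}
    (hg : g ∈ Subgroup.centralizer (Q : Set X)) : (br π Q x).coeff g = π (x.coeff g) := by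
  classical
  rw [BrMul_coeff, if_pos hg]

theorem coeff_br_of_not_mem (x : MonoidAlgebra R X) {g : X}
    (hg : g ∉ Subgroup.centralizer (Q : Set X)) : (br π Q x).coeff g = 0 := by
  classical
  rw [BrMul_coeff, if_neg hg]

theorem br_add (x y : MonoidAlgebra R X) : br π Q (x + y) = br π Q x + br π Q y := by
  classical
  ext g
  rw [coeff_add, Finsupp.add_apply]
  by_cases hg : g ∈ Subgroup.centralizer (Q : Set X)
  · rw [coeff_br_of_mem _ _ _ hg, coeff_br_of_mem _ _ _ hg, coeff_br_of_mem _ _ _ hg, coeff_add,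
      Finsupp.add_apply, map_add]
  · rw [coeff_br_of_not_mem _ _ _ hg, coeff_br_of_not_mem _ _ _ hg,
      coeff_br_of_not_mem _ _ _ hg, add_zero]

theorem br_smul (c : R) (x : MonoidAlgebra R X) : br π Q (c • x) = π c • br π Q x := by
  classical
  ext g
  rw [coeff_smul, Finsupp.smul_apply]
  by_cases hg : g ∈ Subgroup.centralizer (Q : Set X)
  · rw [coeff_br_of_mem _ _ _ hg, coeff_br_of_mem _ _ _ hg, coeff_smul, Finsupp.smul_apply,
      smul_eq_mul, smul_eq_mul, map_mul]
  · rw [coeff_br_of_not_mem _ _ _ hg, coeff_br_of_not_mem _ _ _ hg, smul_zero]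

theorem br_eq_zero_iff (x : MonoidAlgebra R X) :
    br π Q x = 0 ↔ ∀ g ∈ Subgroup.centralizer (Q : Set X), π (x.coeff g) = 0 := by
  classical
  constructor
  · intro h g hg
    rw [← coeff_br_of_mem π Q x hg, h]
    simp
  · intro h
    ext g
    by_cases hg : g ∈ Subgroup.centralizer (Q : Set X)
    · rw [coeff_br_of_mem _ _ _ hg, h g hg]
      simp
    · rw [coeff_br_of_not_mem _ _ _ hg]
      simp

/-- The Brauer homomorphism is multiplicative on the elements fixed by `Q`.
Proof (as in `UBlocks.br_mul_zero`): for `h` in the centraliser of `Q` the coefficient of `x * y`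
at `h` is `∑ g, x_g y_(g⁻¹h)` (`coeff_mul_eq`); the summand is invariant under conjugation of `g`
by `Q` (`coeff_of_fixed`, and `h` commutes with `Q`), so by `sum_fixed` (with `conjMulAction Q`)
the sum may be restricted, after `π`, to the `g` in the centraliser; for those `g⁻¹ h` is in the
centraliser too.  The coefficient of `br x * br y` at `h` is the same sum; at `h` outside the
centraliser both sides are zero (`g` and `g⁻¹ h` in the centraliser imply `h` is). -/
theorem br_mul {ℓ : ℕ} [Fact ℓ.Prime] [CharP k ℓ] (hQ : IsPGroup ℓ Q) {x y : MonoidAlgebra R X}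
    (hx : ∀ d ∈ Q, cj d x = x) (hy : ∀ d ∈ Q, cj d y = y) :
    br π Q (x * y) = br π Q x * br π Q y := by
  classical
  ext h
  rw [coeff_mul_eq]
  by_cases hh : h ∈ Subgroup.centralizer (Q : Set X)
  · rw [coeff_br_of_mem _ _ _ hh, coeff_mul_eq, map_sum]
    rw [@sum_fixed Q X k _ (conjMulAction Q) _ ℓ _ hQ _ _
      (fun g => π (x.coeff g * y.coeff (g⁻¹ * h))) ?_ _]
    · have hfix : ∀ g : X, (∀ d : Q, (d : X) * g * (d : X)⁻¹ = g) ↔
          g ∈ Subgroup.centralizer (Q : Set X) := by
        intro g
        rw [Subgroup.mem_centralizer_iff]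
        constructor
        · intro h1 d hd
          exact mul_inv_eq_iff_eq_mul.1 (h1 ⟨d, hd⟩)
        · intro h1 d
          exact mul_inv_eq_iff_eq_mul.2 (h1 d d.2)
      have hz : ∀ g ∉ Subgroup.centralizer (Q : Set X),
          (br π Q x).coeff g * (br π Q y).coeff (g⁻¹ * h) = 0 := by
        intro g hg
        rw [coeff_br_of_not_mem _ _ _ hg, zero_mul]
      rw [← Finset.sum_filter_add_sum_filter_not Finset.univ
        (fun g => g ∈ Subgroup.centralizer (Q : Set X))
        (fun g => (br π Q x).coeff g * (br π Q y).coeff (g⁻¹ * h))]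
      rw [Finset.sum_eq_zero (s := Finset.univ.filter
        (fun g => ¬ g ∈ Subgroup.centralizer (Q : Set X)))
        (fun g hg => hz g (Finset.mem_filter.1 hg).2), add_zero]
      refine Finset.sum_congr ?_ fun g hg => ?_
      · ext g
        simp only [Finset.mem_filter, Finset.mem_univ, true_and]
        exact hfix g
      · have hg' := (Finset.mem_filter.1 hg).2
        rw [map_mul, coeff_br_of_mem _ _ _ hg',
          coeff_br_of_mem _ _ _ (Subgroup.mul_mem _ (Subgroup.inv_mem _ hg') hh)]
    · intro d g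
      show π (x.coeff ((d : X) * g * (d : X)⁻¹) * y.coeff (((d : X) * g * (d : X)⁻¹)⁻¹ * h)) = _
      have h1 : ((d : X) * g * (d : X)⁻¹)⁻¹ * h = (d : X) * (g⁻¹ * h) * (d : X)⁻¹ := by
        have := Subgroup.mem_centralizer_iff.1 hh d⁻¹ (Q.inv_mem d.2)
        calc ((d : X) * g * (d : X)⁻¹)⁻¹ * h = (d : X) * g⁻¹ * ((d : X)⁻¹ * h) := by group
          _ = _ := by rw [this]; group
      rw [h1, coeff_of_fixed hx d.2, coeff_of_fixed hy d.2]
  · rw [coeff_br_of_not_mem _ _ _ hh]
    symm
    refine Finset.sum_eq_zero fun g _ => ?_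
    by_cases hg : g ∈ Subgroup.centralizer (Q : Set X)
    · have h2 : g⁻¹ * h ∉ Subgroup.centralizer (Q : Set X) := by
        intro h3
        apply hh
        have := Subgroup.mul_mem _ hg h3
        rwa [mul_inv_cancel_left] at this
      rw [coeff_br_of_not_mem _ _ _ h2, mul_zero]
    · rw [coeff_br_of_not_mem _ _ _ hg, zero_mul]

end Pool.Agent.URing
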