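import Pool.Agent.URing.Base

/-!
# Transport of blocks along isomorphisms of groups (module CONJ)
-/

set_option autoImplicit false

namespace Pool.Agent.URing

open MonoidAlgebra IsLocalRing Pool.Agent.UBlocks

universe u

section Aux

variable {Λ : Type*} [CommRing Λ] {X X' : Type*} [Group X] [Group X'] (φ : X ≃* X')

private noncomputable def conj_F : MonoidAlgebra Λ X ≃ₐ[Λ] MonoidAlgebra Λ X' :=
  MonoidAlgebra.domCongr Λ Λ φ

private theorem conj_F_eq (z : MonoidAlgebra Λ X) :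
    conj_F φ z = MonoidAlgebra.mapDomainAlgHom Λ Λ φ.toMonoidHom z := rfl

private theorem conj_F_coeff (z : MonoidAlgebra Λ X) (x : X) :
    (conj_F φ z).coeff (φ x) = z.coeff x := by
  show (Finsupp.mapDomain φ z.coeff) (φ x) = z.coeff x
  exact Finsupp.mapDomain_apply φ.injective _ _

private theorem conj_F_dl (g : X) : conj_F φ (dl Λ g) = dl Λ (φ g) := by
  show MonoidAlgebra.mapDomain φ (single g 1) = single (φ g) 1
  rw [mapDomain_single]

private theorem conj_F_cj (g : X) (z : MonoidAlgebra Λ X) :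
    conj_F φ (cj g z) = cj (φ g) (conj_F φ z) := by
  unfold cj
  rw [map_mul, map_mul, conj_F_dl, conj_F_dl, map_inv]

private theorem conj_isBlk {b : MonoidAlgebra Λ X} (hb : IsBlk b) : IsBlk (conj_F φ b) := by
  refine ⟨by rw [← map_mul, hb.idem], ?_, ?_, ?_⟩
  · intro x
    obtain ⟨y, rfl⟩ := (conj_F (Λ := Λ) φ).surjective x
    rw [← map_mul, ← map_mul, hb.central]
  · intro h
    exact hb.ne_zero ((map_eq_zero_iff _ (conj_F (Λ := Λ) φ).injective).1 h)
  · intro f hf hc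
    obtain ⟨y, rfl⟩ := (conj_F (Λ := Λ) φ).surjective f
    have h1 : y * y = y := (conj_F (Λ := Λ) φ).injective (by rw [map_mul, hf])
    have h2 : ∀ x, x * y = y * x := fun x =>
      (conj_F (Λ := Λ) φ).injective (by rw [map_mul, map_mul, hc])
    rcases hb.prim y h1 h2 with h3 | h3
    · left
      rw [← map_mul, h3, map_zero]
    · right
      rw [← map_mul, h3]

private noncomputable def conj_cor {b : MonoidAlgebra Λ X} (hb : IsBlk b)
    {b' : MonoidAlgebra Λ X'} (hb' : IsBlk b') (h : conj_F φ b = b') :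
    BlkAlg hb ≃+* BlkAlg hb' where
  toFun a := ⟨conj_F φ a.1, by
    have h1 := mem_cor hb a
    exact (Subsemigroup.mem_corner_iff hb'.idem).2 ⟨by rw [← h, ← map_mul, h1.1],
      by rw [← h, ← map_mul, h1.2]⟩⟩
  invFun a := ⟨(conj_F φ).symm a.1, by
    have h1 := mem_cor hb' a
    refine (Subsemigroup.mem_corner_iff hb.idem).2 ⟨?_, ?_⟩
    · apply (conj_F (Λ := Λ) φ).injective
      rw [map_mul, h, AlgEquiv.apply_symm_apply, h1.1]
    · apply (conj_F (Λ := Λ) φ).injective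
      rw [map_mul, h, AlgEquiv.apply_symm_apply, h1.2]⟩
  left_inv a := Subtype.ext ((conj_F φ).symm_apply_apply a.1)
  right_inv a := Subtype.ext ((conj_F φ).apply_symm_apply a.1)
  map_mul' a c := Subtype.ext (map_mul (conj_F φ) a.1 c.1)
  map_add' a c := Subtype.ext (map_add (conj_F φ) a.1 c.1)

private theorem conj_mem_map {D : Subgroup X} {x : X} :
    φ x ∈ D.map φ.toMonoidHom ↔ x ∈ D :=
  ⟨fun ⟨_, hd, he⟩ => φ.injective he ▸ hd, fun hx => ⟨x, hx, rfl⟩⟩

private theorem conj_mem_cent {D : Subgroup X} {x : X} :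
    φ x ∈ Subgroup.centralizer (D.map φ.toMonoidHom : Set X') ↔
      x ∈ Subgroup.centralizer (D : Set X) := by
  simp only [Subgroup.mem_centralizer_iff, SetLike.mem_coe]
  constructor
  · intro h y hy
    apply φ.injective
    rw [map_mul, map_mul]
    exact h _ ((conj_mem_map φ).2 hy)
  · rintro h _ ⟨y, hy, rfl⟩
    have h1 := congrArg φ (h y hy)
    rw [map_mul, map_mul] at h1
    exact h1

private theorem conj_mem_nz {D : Subgroup X} {x : X} :
    φ x ∈ nz (D.map φ.toMonoidHom) ↔ x ∈ nz D := by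
  simp only [Subgroup.mem_normalizer_iff]
  constructor
  · intro h y
    have h1 := h (φ y)
    rw [conj_mem_map, ← map_inv, ← map_mul, ← map_mul, conj_mem_map] at h1
    exact h1
  · intro h y
    obtain ⟨z, rfl⟩ := φ.surjective y
    rw [conj_mem_map, ← map_inv, ← map_mul, ← map_mul, conj_mem_map]
    exact h z

private def conj_nz (D : Subgroup X) : nz D ≃* nz (D.map φ.toMonoidHom) where
  toFun g := ⟨φ g, (conj_mem_nz φ).2 g.2⟩
  invFun g := ⟨φ.symm g, (conj_mem_nz φ).1 (by rw [MulEquiv.apply_symm_apply]; exact g.2)⟩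
  left_inv g := Subtype.ext (φ.symm_apply_apply _)
  right_inv g := Subtype.ext (φ.apply_symm_apply _)
  map_mul' g h := Subtype.ext (map_mul φ _ _)

private theorem conj_trFrom [Finite X] {b : MonoidAlgebra Λ X} {D : Subgroup X}
    (h : TrFrom b D) : TrFrom (conj_F φ b) (D.map φ.toMonoidHom) := by
  have : Finite X' := Finite.of_equiv _ φ.toEquiv
  have : Fintype (X ⧸ D) := Fintype.ofFinite _
  have : Fintype (X' ⧸ D.map φ.toMonoidHom) := Fintype.ofFinite _
  rw [trFrom_iff] at h ⊢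
  obtain ⟨a, ha, rfl⟩ := h
  have ha' : ∀ t ∈ D.map φ.toMonoidHom, cj t (conj_F φ a) = conj_F φ a := by
    rintro _ ⟨q, hq, rfl⟩
    have h1 := conj_F_cj φ q a
    rw [ha q hq] at h1
    exact h1.symm
  refine ⟨conj_F φ a, ha', ?_⟩
  rw [tr_transversal ha' (fun q : X ⧸ D => φ (Quotient.out q))]
  · unfold tr
    rw [map_sum]
    exact Finset.sum_congr rfl fun q _ => conj_F_cj φ _ _
  · constructor
    · intro p q hpq
      have h1 := QuotientGroup.eq.1 hpq
      rw [← map_inv, ← map_mul, conj_mem_map] at h1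
      have h2 := QuotientGroup.eq.2 h1
      rwa [QuotientGroup.out_eq', QuotientGroup.out_eq'] at h2
    · intro y
      obtain ⟨x', rfl⟩ := QuotientGroup.mk_surjective y
      obtain ⟨x, rfl⟩ := φ.surjective x'
      refine ⟨(x : X ⧸ D), ?_⟩
      show ((φ (Quotient.out (x : X ⧸ D)) : X') : X' ⧸ D.map φ.toMonoidHom) = (φ x : X')
      rw [QuotientGroup.eq, ← map_inv, ← map_mul, conj_mem_map, ← QuotientGroup.eq,
        QuotientGroup.out_eq']

end Aux

/-- Transport of structure: `D' = φ(D)`, `b' = φ(b)`, `φ` restricts to an isomorphism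
`N_X(D) ≃ N_X'(D')`, `c' = φ(c)`; the block algebras are isomorphic rings (`Mor.of_ringEquiv`). -/
theorem Triple.exists_map {ℓ : ℕ} {Λ : Type u} {X X' : Type} [CommRing Λ] [IsLocalRing Λ]
    [Group X] [Group X'] [Finite X] (τ : Triple ℓ Λ X) (φ : X ≃* X') :
    ∃ τ' : Triple ℓ Λ X', τ'.b = MonoidAlgebra.mapDomainAlgHom Λ Λ φ.toMonoidHom τ.b ∧
      τ'.D = τ.D.map φ.toMonoidHom ∧ Rel τ τ' := by
  refine ⟨{
    b := conj_F φ τ.b
    hb := conj_isBlk φ τ.hb
    D := τ.D.map φ.toMonoidHom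
    c := conj_F (conj_nz φ τ.D) τ.c
    hc := conj_isBlk _ τ.hc
    defect := ⟨τ.defect.pgroup.map _, conj_trFrom φ τ.defect.trace, by
      obtain ⟨g, hg, hg'⟩ := τ.defect.br
      exact ⟨φ g, (conj_mem_cent φ).2 hg, by rwa [conj_F_coeff]⟩⟩
    comm := by
      rintro _ ⟨x, hx, rfl⟩ _ ⟨y, hy, rfl⟩
      rw [← map_mul, ← map_mul, τ.comm x hx y hy]
    corr := by
      intro g hg
      obtain ⟨h, rfl⟩ := (conj_nz φ τ.D).surjective g
      rw [conj_F_coeff]
      have h1 : ((conj_nz φ τ.D h : nz (τ.D.map φ.toMonoidHom)) : X') = φ h := rfl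
      rw [h1] at hg ⊢
      rw [conj_F_coeff]
      exact τ.corr h ((conj_mem_cent φ).1 hg) }, conj_F_eq φ τ.b, rfl, ?_, ?_, ?_⟩
  · exact Mor.of_ringEquiv (conj_cor φ τ.hb _ rfl)
  · exact Mor.of_ringEquiv (conj_cor (conj_nz φ τ.D) τ.hc _ rfl)
  · exact ⟨τ.D.equivMapOfInjective φ.toMonoidHom φ.injective⟩

/-- The case of an inner automorphism: `b` is central, so `φ(b) = b`. -/
theorem Triple.exists_conj {ℓ : ℕ} {Λ : Type u} {X : Type} [CommRing Λ] [IsLocalRing Λ]
    [Group X] [Finite X] (τ : Triple ℓ Λ X) (x : X) :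
    ∃ τ' : Triple ℓ Λ X, τ'.b = τ.b ∧ τ'.D = τ.D.map (MulAut.conj x).toMonoidHom ∧
      Rel τ τ' := by
  obtain ⟨τ', h1, h2, h3⟩ := τ.exists_map (MulAut.conj x : X ≃* X)
  refine ⟨τ', ?_, h2, h3⟩
  rw [h1, ← conj_F_eq]
  have hc : cj x τ.b = τ.b := (cj_eq_iff x τ.b).2 (τ.hb.central _)
  ext g
  conv_rhs => rw [← hc, coeff_cj]
  have h4 : (MulAut.conj x : X ≃* X) (x⁻¹ * g * x) = g := by
    rw [MulAut.conj_apply]
    group
  conv_lhs => rw [← h4]
  rw [conj_F_coeff]

end Pool.Agent.URing
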