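import Pool.Agent.URing.XfA

/-!
# Transfer data: Morita equivalence of the block algebras (module XFM)
-/

set_option autoImplicit false

namespace Pool.Agent.URing

open MonoidAlgebra Pool.Agent.UBlocks

universe u

namespace Xf

section

variable {R : Type*} {Y X : Type*} [CommRing R] [Group Y] [Group X]
    (C : Xf R Y X) {b : MonoidAlgebra R X} {b' : MonoidAlgebra R Y} (hb : IsBlk b)
    (hb' : IsBlk b') (hΨ : C.Ψ b' = b * C.Ψ 1)

include hb hb' hΨ in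
private theorem XfM_left {a : MonoidAlgebra R Y} (ha : b' * a = a) : b * C.Ψ a = C.Ψ a := by
  have h1 : C.Ψ a = b * C.Ψ a := by
    conv_lhs => rw [← ha, C.mul, hΨ, mul_assoc, C.one_mul_Ψ]
  exact h1.symm

/-- The inclusion of the block algebra of `b'` in the block algebra of `b`. -/
private noncomputable def XfM_j : BlkAlg hb' →ₙ+* BlkAlg hb where
  toFun a := ⟨C.Ψ a.1 * C.ε, (Subsemigroup.mem_corner_iff hb.idem).2 (by
    have h1 := XfM_left C hb hb' hΨ (mem_cor hb' a).1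
    have h2 : b * (C.Ψ a.1 * C.ε) = C.Ψ a.1 * C.ε := by rw [← mul_assoc, h1]
    exact ⟨h2, by rw [hb.central, h2]⟩)⟩
  map_zero' := Subtype.ext (by
    show C.Ψ 0 * C.ε = 0
    rw [map_zero, zero_mul])
  map_add' a c := Subtype.ext (by
    show C.Ψ (a.1 + c.1) * C.ε = C.Ψ a.1 * C.ε + C.Ψ c.1 * C.ε
    rw [map_add, add_mul])
  map_mul' a c := Subtype.ext (by
    show C.Ψ (a.1 * c.1) * C.ε = (C.Ψ a.1 * C.ε) * (C.Ψ c.1 * C.ε)
    calc C.Ψ (a.1 * c.1) * C.ε = C.Ψ a.1 * C.Ψ c.1 * (C.ε * C.ε) := by rw [C.mul, C.ε_idem]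
      _ = C.Ψ a.1 * (C.Ψ c.1 * C.ε) * C.ε := by simp only [mul_assoc]
      _ = C.Ψ a.1 * (C.ε * C.Ψ c.1) * C.ε := by rw [C.ε_comm]
      _ = _ := by simp only [mul_assoc])

end

end Xf

/-- T4.  `a ↦ Ψ(a) ε` embeds `R Y b'` as the corner of `R X b` at the idempotent
`Ψ(b') ε = b ε` (note `b Ψ(1) ε = b ε`), like `UBlocks.Eps.corHom` and `UBlocks.Eps.fullCorner`.
Multiplicative since `ε` commutes with `Ψ`; injective by `eq_of_ε`, `eq_of_Ψ` and `a e = a`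
(`a = a b'`); surjective onto the corner: for `x = b x b`, `Ψ(b') ε x ε Ψ(b') = Ψ(b') Ψ(a) ε Ψ(b') =
Ψ(b' a b') ε` (`corner'`).  Full: index set `(X ⧸ σ(Y)) × ι`, `x_(q,i) = u⁻¹ q m_i b`,
`y_(q,i) = b m'_i q⁻¹`: `∑ u⁻¹ q m_i (b ε) m'_i q⁻¹ = u⁻¹ ∑ cj q (b Ψ(1)) = up(b') = b`.
Use `Mor.of_fullCorner`. -/
theorem Xf.mor {R : Type u} {Y X : Type} [CommRing R] [Group Y] [Group X] [Finite X]
    (C : Xf R Y X) {b : MonoidAlgebra R X} {b' : MonoidAlgebra R Y} (hb : IsBlk b)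
    (hb' : IsBlk b') (he : b' * C.e = b') (hΨ : C.Ψ b' = b * C.Ψ 1) (hup : C.up b' = b) :
    Mor (BlkAlg hb) (BlkAlg hb') := by
  classical
  letI : Fintype (X ⧸ C.σ.range) := Fintype.ofFinite _
  letI := C.fin
  have hbΨ : b * (C.Ψ b' * C.ε) = C.Ψ b' * C.ε := by
    rw [← mul_assoc, XfM_left C hb hb' hΨ hb'.idem]
  have hΨb : (C.Ψ b' * C.ε) * b = C.Ψ b' * C.ε := by rw [hb.central, hbΨ]
  refine Mor.of_fullCorner
    { j := XfM_j C hb hb' hΨ
      inj := ?_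
      surj := ?_
      I := (X ⧸ C.σ.range) × C.ι
      fin := inferInstance
      x := fun p => ⟨b * (((C.u⁻¹ : Rˣ) : R) • (dl R (Quotient.out p.1) * C.m p.2)) * b, _, rfl⟩
      y := fun p => ⟨b * (C.m' p.2 * dl R (Quotient.out p.1)⁻¹) * b, _, rfl⟩
      full := ?_ }
  · intro a c h
    have h1 : C.Ψ a.1 * C.ε = C.Ψ c.1 * C.ε := congrArg Subtype.val h
    have h2 := C.eq_of_Ψ (C.eq_of_ε h1)
    have h3 : ∀ a : BlkAlg hb', a.1 * C.e = a.1 := by
      intro a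
      calc a.1 * C.e = (a.1 * b') * C.e := by rw [(mem_cor hb' a).2]
        _ = a.1 * (b' * C.e) := by rw [mul_assoc]
        _ = a.1 := by rw [he, (mem_cor hb' a).2]
    rw [h3, h3] at h2
    exact Subtype.ext h2
  · intro x
    obtain ⟨a, ha⟩ := C.corner' x.1
    refine ⟨⟨b' * a * b', a, rfl⟩, ?_⟩
    apply Subtype.ext
    show C.Ψ (b' * a * b') * C.ε = C.Ψ b' * C.ε * x.1 * (C.Ψ b' * C.ε)
    calc C.Ψ (b' * a * b') * C.ε = C.Ψ b' * C.Ψ a * (C.Ψ b' * C.ε) := by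
          rw [C.mul, C.mul, mul_assoc]
      _ = C.Ψ b' * (C.Ψ a * C.ε) * C.Ψ b' := by rw [← C.ε_comm]; simp only [mul_assoc]
      _ = C.Ψ b' * (C.ε * x.1 * C.ε) * C.Ψ b' := by rw [ha]
      _ = C.Ψ b' * C.ε * x.1 * (C.ε * C.Ψ b') := by simp only [mul_assoc]
      _ = _ := by rw [C.ε_comm]
  · apply Subtype.ext
    rw [sum_cor]
    show ∑ p : (X ⧸ C.σ.range) × C.ι,
      (b * (((C.u⁻¹ : Rˣ) : R) • (dl R (Quotient.out p.1) * C.m p.2)) * b) *
      (C.Ψ b' * C.ε) * (b * (C.m' p.2 * dl R (Quotient.out p.1)⁻¹) * b) = b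
    have h1 : ∀ p : (X ⧸ C.σ.range) × C.ι,
        (b * (((C.u⁻¹ : Rˣ) : R) • (dl R (Quotient.out p.1) * C.m p.2)) * b) *
        (C.Ψ b' * C.ε) * (b * (C.m' p.2 * dl R (Quotient.out p.1)⁻¹) * b) =
        b * (((C.u⁻¹ : Rˣ) : R) • (dl R (Quotient.out p.1) *
          (C.m p.2 * (C.Ψ b' * C.ε) * C.m' p.2) * dl R (Quotient.out p.1)⁻¹)) * b := by
      intro p
      calc (b * (((C.u⁻¹ : Rˣ) : R) • (dl R (Quotient.out p.1) * C.m p.2)) * b) *
            (C.Ψ b' * C.ε) * (b * (C.m' p.2 * dl R (Quotient.out p.1)⁻¹) * b) =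
          (b * (((C.u⁻¹ : Rˣ) : R) • (dl R (Quotient.out p.1) * C.m p.2))) *
            (b * (C.Ψ b' * C.ε) * b) * ((C.m' p.2 * dl R (Quotient.out p.1)⁻¹) * b) := by
            simp only [mul_assoc]
        _ = (b * (((C.u⁻¹ : Rˣ) : R) • (dl R (Quotient.out p.1) * C.m p.2))) *
            (C.Ψ b' * C.ε) * ((C.m' p.2 * dl R (Quotient.out p.1)⁻¹) * b) := by
            rw [hbΨ, hΨb]
        _ = _ := by
            simp only [mul_smul_comm, smul_mul_assoc, mul_assoc]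
    rw [Finset.sum_congr rfl fun p _ => h1 p, ← Finset.sum_mul, ← Finset.mul_sum,
      Fintype.sum_prod_type]
    have h2 : ∀ q : X ⧸ C.σ.range, ∑ i : C.ι, ((C.u⁻¹ : Rˣ) : R) • (dl R (Quotient.out q) *
        (C.m i * (C.Ψ b' * C.ε) * C.m' i) * dl R (Quotient.out q)⁻¹) =
        ((C.u⁻¹ : Rˣ) : R) • cj (Quotient.out q) (C.Ψ b') := by
      intro q
      rw [← Finset.smul_sum, ← Finset.sum_mul, ← Finset.mul_sum]
      congr 1
      unfold cj
      congr 2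
      calc ∑ i, C.m i * (C.Ψ b' * C.ε) * C.m' i = ∑ i, C.Ψ b' * (C.m i * C.ε * C.m' i) := by
            refine Finset.sum_congr rfl fun i _ => ?_
            calc C.m i * (C.Ψ b' * C.ε) * C.m' i = (C.m i * C.Ψ b') * C.ε * C.m' i := by
                  simp only [mul_assoc]
              _ = (C.Ψ b' * C.m i) * C.ε * C.m' i := by rw [C.m_comm]
              _ = _ := by simp only [mul_assoc]
        _ = C.Ψ b' := by rw [← Finset.mul_sum, C.span, C.Ψ_mul_one]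
    rw [Finset.sum_congr rfl fun q _ => h2 q, ← Finset.smul_sum]
    have h3 : ((C.u⁻¹ : Rˣ) : R) • ∑ q : X ⧸ C.σ.range, cj (Quotient.out q) (C.Ψ b') = b := by
      rw [← hup]
      unfold Xf.up
      rw [finsum_eq_sum_of_fintype]
    rw [h3, hb.idem, hb.idem]

end Pool.Agent.URing
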