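import Pool.Agent.URing.XfA

/-!
# Transfer data: relative traces (module XFT)
-/

set_option autoImplicit false

namespace Pool.Agent.URing

open MonoidAlgebra Pool.Agent.UBlocks

private theorem Xf.transversalT {R Y X : Type*} [CommRing R] [Group Y] [Group X]
    (C : Xf R Y X) (D : Subgroup Y) :
    Function.Bijective (fun t : (X ⧸ C.σ.range) × (Y ⧸ D) =>
      ((Quotient.out t.1 * C.σ (Quotient.out t.2) : X) : X ⧸ D.map C.σ)) := by
  constructor
  · rintro ⟨p, q⟩ ⟨p', q'⟩ h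
    obtain ⟨d, hd, hdd⟩ := QuotientGroup.eq.1 h
    have h2 : (Quotient.out p : X)⁻¹ * Quotient.out p' =
        C.σ (Quotient.out q * d * (Quotient.out q')⁻¹) := by
      rw [map_mul, map_mul, hdd, map_inv]; group
    have h3 : p = p' := by
      rw [← QuotientGroup.out_eq' p, ← QuotientGroup.out_eq' p']
      apply QuotientGroup.eq.2
      rw [h2]
      exact ⟨_, rfl⟩
    subst h3
    rw [inv_mul_cancel] at h2
    have h4 : Quotient.out q * d * (Quotient.out q')⁻¹ = 1 := by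
      apply C.inj
      rw [← h2, map_one]
    have h5 : q = q' := by
      rw [← QuotientGroup.out_eq' q, ← QuotientGroup.out_eq' q']
      apply QuotientGroup.eq.2
      have : (Quotient.out q)⁻¹ * Quotient.out q' = d := by
        have h6 := mul_inv_eq_one.1 h4
        rw [← h6]; group
      rw [this]
      exact hd
    rw [h5]
  · intro h
    obtain ⟨h, rfl⟩ := QuotientGroup.mk_surjective h
    have h1 : (Quotient.out (h : X ⧸ C.σ.range))⁻¹ * h ∈ C.σ.range := by
      rw [← QuotientGroup.eq, QuotientGroup.out_eq']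
    obtain ⟨g, hg⟩ := h1
    have h2 : (Quotient.out (g : Y ⧸ D))⁻¹ * g ∈ D := by
      rw [← QuotientGroup.eq, QuotientGroup.out_eq']
    refine ⟨((h : X ⧸ C.σ.range), (g : Y ⧸ D)), ?_⟩
    apply QuotientGroup.eq.2
    refine ⟨_, h2, ?_⟩
    dsimp only
    have h4 : h = Quotient.out (h : X ⧸ C.σ.range) * C.σ g := by rw [hg]; group
    set y := Quotient.out (g : Y ⧸ D)
    set x := Quotient.out (h : X ⧸ C.σ.range)
    rw [h4, map_mul, map_inv]
    group

/-- T6.  `b' = Tr_D^Y(a)`, so `up(b') = u⁻¹ Tr_(σY)^X(Ψ(Tr_D^Y(a))) = Tr_(σD)^X(u⁻¹ Ψ(a))` by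
transitivity of the trace and `equi`; same proof as `UBlocks.Eps.transversal`,
`UBlocks.Eps.tr_up`, `UBlocks.Eps.trFrom_up`. -/
theorem Xf.trFrom_up {R Y X : Type*} [CommRing R] [Group Y] [Group X] [Finite X]
    (C : Xf R Y X) {b' : MonoidAlgebra R Y} {D : Subgroup Y} (h : TrFrom b' D) :
    TrFrom (C.up b') (D.map C.σ) := by
  have : Finite Y := Finite.of_injective C.σ C.inj
  have : Fintype (Y ⧸ D) := Fintype.ofFinite _
  have : Fintype (X ⧸ D.map C.σ) := Fintype.ofFinite _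
  have : Fintype (X ⧸ C.σ.range) := Fintype.ofFinite _
  rw [trFrom_iff] at h ⊢
  obtain ⟨a, ha, rfl⟩ := h
  have hfix : ∀ t ∈ D.map C.σ, cj t (((C.u⁻¹ : Rˣ) : R) • C.Ψ a) =
      ((C.u⁻¹ : Rˣ) : R) • C.Ψ a := by
    rintro _ ⟨d, hd, rfl⟩
    rw [cj_smul, C.equi, ha d hd]
  refine ⟨((C.u⁻¹ : Rˣ) : R) • C.Ψ a, hfix, ?_⟩
  rw [tr_transversal hfix (fun t : (X ⧸ C.σ.range) × (Y ⧸ D) =>
      Quotient.out t.1 * C.σ (Quotient.out t.2)) (C.transversalT D),
    Fintype.sum_prod_type]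
  unfold Xf.up
  rw [finsum_eq_sum_of_fintype, Finset.smul_sum]
  refine Finset.sum_congr rfl fun p _ => ?_
  unfold tr
  rw [map_sum, cj_sum, Finset.smul_sum]
  refine Finset.sum_congr rfl fun q _ => ?_
  rw [cj_smul, ← cj_cj, C.equi]

end Pool.Agent.URing
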