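import Pool.Agent.URing.LocA
import Pool.Agent.URing.XfM
import Pool.Agent.URing.XfTr

/-!
# Brauer correspondents under transfer (module CORR)
-/

set_option autoImplicit false

namespace Pool.Agent.URing

open MonoidAlgebra IsLocalRing Pool.Agent.UBlocks

open Classical in
private theorem CORR_sum {G k : Type*} [Group G] [CommRing k] [Fintype G] {N Z : Subgroup G}
    [Fintype N] (hZ : Z ≤ N) (F : G → k) :
    ∑ g : N, (if (g : G) ∈ Z then F g else 0) = ∑ g : G, (if g ∈ Z then F g else 0) := by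
  refine Finset.sum_of_injOn (fun g : N => (g : G)) ?_ ?_ ?_ ?_
  · intro a _ b _ h
    exact Subtype.ext h
  · intro a _
    exact Finset.mem_coe.2 (Finset.mem_univ _)
  · intro g _ hg
    rw [if_neg]
    intro hz
    exact hg ⟨⟨g, hZ hz⟩, Finset.mem_coe.2 (Finset.mem_univ _), rfl⟩
  · intro g _
    rfl

open Classical in
private theorem CORR_mul {ℓ : ℕ} [Fact ℓ.Prime] {R k G : Type*} [CommRing R] [CommRing k]
    [CharP k ℓ] [Group G] [Fintype G] (π : R →+* k) {Q : Subgroup G} (hQ : IsPGroup ℓ Q)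
    {x y : MonoidAlgebra R G} (hx : ∀ d ∈ Q, cj d x = x) (hy : ∀ d ∈ Q, cj d y = y) {h : G}
    (hh : h ∈ Subgroup.centralizer (Q : Set G)) :
    π ((x * y).coeff h) = ∑ g : G, (if g ∈ Subgroup.centralizer (Q : Set G) then
      π (x.coeff g) * π (y.coeff (g⁻¹ * h)) else 0) := by
  rw [← coeff_br_of_mem π Q (x * y) hh, br_mul π Q hQ hx hy, coeff_mul_eq]
  refine Finset.sum_congr rfl fun g _ => ?_
  by_cases hg : g ∈ Subgroup.centralizer (Q : Set G)
  · rw [if_pos hg, coeff_br_of_mem π Q x hg, coeff_br_of_mem π Q y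
      (Subgroup.mul_mem _ (Subgroup.inv_mem _ hg) hh)]
  · rw [if_neg hg, coeff_br_of_not_mem π Q x hg, zero_mul]

private theorem CORR_cen {G : Type*} [Group G] {D : Subgroup G} (g : nz D) :
    g ∈ Subgroup.centralizer ((D.subgroupOf (nz D) : Subgroup (nz D)) : Set (nz D)) ↔
      (g : G) ∈ Subgroup.centralizer (D : Set G) := by
  rw [Subgroup.mem_centralizer_iff, Subgroup.mem_centralizer_iff]
  constructor
  · intro h1 d hd
    exact congrArg Subtype.val (h1 ⟨d, Subgroup.le_normalizer hd⟩ hd)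
  · intro h1 d hd
    exact Subtype.ext (h1 _ hd)

section

variable {R k Y X : Type*} [CommRing R] [CommRing k]
  [Group Y] [Group X] (π : R →+* k) (C : Xf R Y X)
  {D : Subgroup Y} (L : XfLoc π C D)

open Classical in
/-- the element with the coefficients `w` at the centraliser of `D` -/
private noncomputable def CORR_sm (R : Type*) [CommRing R] (D : Subgroup Y) [Fintype (nz D)]
    (w : nz D → R) : MonoidAlgebra R (nz D) :=
  ∑ t : nz D, (if (t : Y) ∈ Subgroup.centralizer (D : Set Y) then w t else 0) • dl R t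

open Classical in
private theorem CORR_sm_coeff [Fintype (nz D)] (w : nz D → R) (t : nz D) :
    (CORR_sm R D w).coeff t =
      if (t : Y) ∈ Subgroup.centralizer (D : Set Y) then w t else 0 := by
  unfold CORR_sm
  rw [coeff_sum, Finset.sum_apply', Finset.sum_eq_single t]
  · rw [coeff_smul, Finsupp.smul_apply, coeff_dl, if_pos rfl, smul_eq_mul, mul_one]
  · intro s _ hs
    rw [coeff_smul, Finsupp.smul_apply, coeff_dl, if_neg hs, smul_zero]
  · intro h; exact absurd (Finset.mem_univ _) h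

include L

open Classical in
private theorem CORR_psi [Fintype (nz D)] (w : nz D → R) (x : nz (D.map C.σ)) :
    π ((L.E.Ψ (CORR_sm R D w)).coeff x) =
      if (x : X) ∈ Subgroup.centralizer (D.map C.σ : Set X) then
        ∑ t : nz D, (if (t : Y) ∈ Subgroup.centralizer (D : Set Y) then
          π (w t) * π ((C.Ψ (dl R (t : Y))).coeff (x : X)) else 0) else 0 := by
  have h0 : (L.E.Ψ (CORR_sm R D w)).coeff x = ∑ t : nz D,
      (if (t : Y) ∈ Subgroup.centralizer (D : Set Y) then w t else 0) *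
        (L.E.Ψ (dl R t)).coeff x := by
    unfold CORR_sm
    rw [map_sum, coeff_sum, Finset.sum_apply']
    refine Finset.sum_congr rfl fun t _ => ?_
    rw [map_smul, coeff_smul, Finsupp.smul_apply, smul_eq_mul]
  rw [h0, map_sum]
  by_cases hx : (x : X) ∈ Subgroup.centralizer (D.map C.σ : Set X)
  · rw [if_pos hx]
    refine Finset.sum_congr rfl fun t _ => ?_
    by_cases ht : (t : Y) ∈ Subgroup.centralizer (D : Set Y)
    · rw [if_pos ht, if_pos ht, map_mul, L.psi t ht x hx]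
    · rw [if_neg ht, if_neg ht, zero_mul, map_zero]
  · rw [if_neg hx]
    refine Finset.sum_eq_zero fun t _ => ?_
    by_cases ht : (t : Y) ∈ Subgroup.centralizer (D : Set Y)
    · rw [if_pos ht, map_mul, L.supp t ht x hx, mul_zero]
    · rw [if_neg ht, zero_mul, map_zero]

open Classical in
private theorem CORR_sm_e [Fintype (nz D)] (w : nz D → R) (t : nz D) :
    π ((CORR_sm R D w * L.E.e).coeff t) =
      ∑ s : nz D, (if (s : Y) ∈ Subgroup.centralizer (D : Set Y) then
        π (w s) * π (L.E.e.coeff (s⁻¹ * t)) else 0) := by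
  rw [coeff_mul_eq, map_sum]
  refine Finset.sum_congr rfl fun s _ => ?_
  rw [CORR_sm_coeff]
  by_cases hs : (s : Y) ∈ Subgroup.centralizer (D : Set Y)
  · rw [if_pos hs, if_pos hs, map_mul]
  · rw [if_neg hs, if_neg hs, zero_mul, map_zero]

/-- the case of `c'` -/
private theorem CORR_e1 [Fintype (nz D)] {c' : MonoidAlgebra R (nz D)} (hce : c' * L.E.e = c')
    {t : nz D} (ht : (t : Y) ∈ Subgroup.centralizer (D : Set Y)) :
    π ((CORR_sm R D (fun s => c'.coeff s) * L.E.e).coeff t) = π (c'.coeff t) := by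
  classical
  rw [CORR_sm_e π C L]
  conv_rhs => rw [← hce, coeff_mul_eq, map_sum]
  refine Finset.sum_congr rfl fun s _ => ?_
  by_cases hs : (s : Y) ∈ Subgroup.centralizer (D : Set Y)
  · rw [if_pos hs, map_mul π]
  · rw [if_neg hs, map_mul π, L.e0 (s⁻¹ * t), mul_zero]
    intro h
    apply hs
    have h1 : (s : Y) = t * ((s⁻¹ * t : nz D) : Y)⁻¹ := by
      rw [Subgroup.coe_mul, Subgroup.coe_inv]; group
    rw [h1]
    exact Subgroup.mul_mem _ ht (Subgroup.inv_mem _ h)

variable [Finite X]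

/-- the case of `b'` -/
private theorem CORR_e2 {ℓ : ℕ} [Fact ℓ.Prime] [CharP k ℓ] [Fintype Y] [Fintype (nz D)]
    (hD : IsPGroup ℓ D) {b' : MonoidAlgebra R Y} (hb' : ∀ x, x * b' = b' * x)
    (he : b' * C.e = b') {t : nz D} (ht : (t : Y) ∈ Subgroup.centralizer (D : Set Y)) :
    π ((CORR_sm R D (fun s => b'.coeff (s : Y)) * L.E.e).coeff t) = π (b'.coeff (t : Y)) := by
  classical
  rw [CORR_sm_e π C L]
  conv_rhs => rw [← he]
  rw [CORR_mul π hD (fun d _ => (central_iff b').1 hb' d)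
    (fun d _ => (central_iff C.e).1 C.e_central d) ht,
    ← CORR_sum (N := nz D) (Subgroup.centralizer_le_normalizer _)
      (fun g => π (b'.coeff g) * π (C.e.coeff (g⁻¹ * t)))]
  refine Finset.sum_congr rfl fun s _ => ?_
  by_cases hs : (s : Y) ∈ Subgroup.centralizer (D : Set Y)
  · rw [if_pos hs, if_pos hs, L.e1 (s⁻¹ * t)]
    · rfl
    · exact Subgroup.mul_mem _ (Subgroup.inv_mem _ hs) ht
  · rw [if_neg hs, if_neg hs]

/-- comparison of `E.Ψ(a)` and `C.Ψ(y)` -/
private theorem CORR_cmp {ℓ : ℕ} [Fact ℓ.Prime] [CharP k ℓ] [Fintype Y] [Fintype (nz D)]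
    (hD : IsPGroup ℓ D) {y : MonoidAlgebra R Y} (hy : ∀ x, x * y = y * x)
    {x : nz (D.map C.σ)} (hx : (x : X) ∈ Subgroup.centralizer (D.map C.σ : Set X)) :
    π ((L.E.Ψ (CORR_sm R D (fun s => y.coeff (s : Y)))).coeff x) =
      π ((C.Ψ y).coeff (x : X)) := by
  classical
  rw [CORR_psi π C L, if_pos hx, C.coeff_Ψ π hD (fun d _ => (central_iff y).1 hy d) hx,
    CORR_sum (N := nz D) (Subgroup.centralizer_le_normalizer _)
      (fun g => π (y.coeff g) * π ((C.Ψ (dl R g)).coeff (x : X))), Finset.sum_filter]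

/-- comparison of `E.Ψ(c')` and its restriction -/
private theorem CORR_cmp' {ℓ : ℕ} [Fact ℓ.Prime] [CharP k ℓ] [Fintype (nz D)]
    (hD : IsPGroup ℓ D) {c' : MonoidAlgebra R (nz D)} (hc' : ∀ x, x * c' = c' * x)
    {x : nz (D.map C.σ)} (hx : (x : X) ∈ Subgroup.centralizer (D.map C.σ : Set X)) :
    π ((L.E.Ψ (CORR_sm R D (fun s => c'.coeff s))).coeff x) = π ((L.E.Ψ c').coeff x) := by
  classical
  have hD' : IsPGroup ℓ (D.subgroupOf (nz D)) := hD.comap_subtype
  have hx' : x ∈ Subgroup.centralizer ((D.subgroupOf (nz D)).map L.E.σ : Set _) := by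
    rw [Subgroup.mem_centralizer_iff] at hx ⊢
    rintro _ ⟨y, hy, rfl⟩
    apply Subtype.ext
    show ((L.E.σ y : nz (D.map C.σ)) : X) * x = x * ((L.E.σ y : nz (D.map C.σ)) : X)
    rw [L.sig]
    exact hx _ ⟨_, hy, rfl⟩
  rw [CORR_psi π C L, if_pos hx, L.E.coeff_Ψ π hD' (fun d _ => (central_iff c').1 hc' d) hx',
    Finset.sum_filter]
  refine Finset.sum_congr rfl fun t _ => ?_
  by_cases ht : (t : Y) ∈ Subgroup.centralizer (D : Set Y)
  · rw [if_pos ht, if_pos ((CORR_cen t).2 ht), L.psi t ht x hx]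
  · rw [if_neg ht, if_neg fun h => ht ((CORR_cen t).1 h)]

/-- comparison of `c E.Ψ(1)` and `b Ψ(1)` -/
private theorem CORR_cb {ℓ : ℕ} [Fact ℓ.Prime] [CharP k ℓ]
    (hD : IsPGroup ℓ D) {b : MonoidAlgebra R X} (hb : ∀ x, x * b = b * x)
    {c : MonoidAlgebra R (nz (D.map C.σ))} (hc : ∀ x, x * c = c * x)
    (hbc : ∀ g : nz (D.map C.σ), (g : X) ∈ Subgroup.centralizer (D.map C.σ : Set X) →
      π (c.coeff g) = π (b.coeff (g : X)))
    {x : nz (D.map C.σ)} (hx : (x : X) ∈ Subgroup.centralizer (D.map C.σ : Set X)) :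
    π ((c * L.E.Ψ 1).coeff x) = π ((b * C.Ψ 1).coeff (x : X)) := by
  classical
  have := Fintype.ofFinite X
  have := Fintype.ofFinite (nz (D.map C.σ))
  have hK : IsPGroup ℓ (D.map C.σ) := hD.map _
  have hK' : IsPGroup ℓ ((D.map C.σ).subgroupOf (nz (D.map C.σ))) := hK.comap_subtype
  have h1 : ∀ d ∈ D.map C.σ, cj d (C.Ψ 1) = C.Ψ 1 := by
    rintro _ ⟨d, hd, rfl⟩
    rw [C.equi]
    congr 1
    simp [cj]
  have h2 : ∀ d ∈ (D.map C.σ).subgroupOf (nz (D.map C.σ)), cj d (L.E.Ψ 1) = L.E.Ψ 1 := by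
    rintro ⟨d, hd'⟩ hd
    obtain ⟨y, hy, hyd⟩ := hd
    have h3 : (⟨d, hd'⟩ : nz (D.map C.σ)) = L.E.σ ⟨y, Subgroup.le_normalizer hy⟩ := by
      apply Subtype.ext
      rw [L.sig]
      exact hyd.symm
    rw [h3, L.E.equi]
    congr 1
    simp [cj]
  rw [CORR_mul π hK' (fun d _ => (central_iff c).1 hc d) h2 ((CORR_cen x).2 hx),
    CORR_mul π hK (fun d _ => (central_iff b).1 hb d) h1 hx,
    ← CORR_sum (N := nz (D.map C.σ)) (Subgroup.centralizer_le_normalizer _)
      (fun g => π (b.coeff g) * π ((C.Ψ 1).coeff (g⁻¹ * x)))]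
  refine Finset.sum_congr rfl fun s _ => ?_
  by_cases hs : (s : X) ∈ Subgroup.centralizer (D.map C.σ : Set X)
  · rw [if_pos hs, if_pos ((CORR_cen s).2 hs), hbc s hs]
    have h4 := L.psi 1 (Subgroup.one_mem _) (s⁻¹ * x)
      (Subgroup.mul_mem _ (Subgroup.inv_mem _ hs) hx)
    rw [dl_one] at h4
    rw [h4]
    rfl
  · rw [if_neg hs, if_neg fun h => hs ((CORR_cen s).1 h)]

/-- If `Ψ(b')` is zero at the centraliser of `σ(D)` then `b'` is zero at the centraliser of `D`. -/
private theorem CORR_zero {ℓ : ℕ} [Fact ℓ.Prime] [CharP k ℓ]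
    (hD : IsPGroup ℓ D) {b' : MonoidAlgebra R Y} (hb' : ∀ x, x * b' = b' * x)
    (he : b' * C.e = b')
    (h0 : ∀ x : nz (D.map C.σ), (x : X) ∈ Subgroup.centralizer (D.map C.σ : Set X) →
      π ((C.Ψ b').coeff (x : X)) = 0) :
    ∀ g ∈ Subgroup.centralizer (D : Set Y), π (b'.coeff g) = 0 := by
  classical
  have hfY : Finite Y := Finite.of_injective C.σ C.inj
  have := Fintype.ofFinite Y
  have := Fintype.ofFinite (nz D)
  intro g hg
  have h1 : ∀ x, π ((L.E.Ψ (CORR_sm R D (fun s => b'.coeff (s : Y)))).coeff x) = 0 := by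
    intro x
    by_cases hx : (x : X) ∈ Subgroup.centralizer (D.map C.σ : Set X)
    · rw [CORR_cmp π C L hD hb' hx, h0 x hx]
    · rw [CORR_psi π C L, if_neg hx]
  have h2 := L.E.ker_mod π h1 ⟨g, Subgroup.centralizer_le_normalizer _ hg⟩
  rwa [CORR_e2 π C L hD hb' he (t := ⟨g, Subgroup.centralizer_le_normalizer _ hg⟩) hg] at h2

end

variable {ℓ : ℕ} [Fact ℓ.Prime] {R k Y X : Type*} [CommRing R] [CommRing k] [CharP k ℓ]
  [Group Y] [Group X] [Finite X] (π : R →+* k) (C : Xf R Y X)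
  {D : Subgroup Y} (L : XfLoc π C D)

include L in
/-- T8, first part.  Suppose `π (b.coeff g) = 0` for all `g` in the centraliser of `σ(D)`.  Then by
`br_mul_zero` (or `br_mul`; `b` is central, `Ψ(1)` is fixed by `σ(D)` by `equi`)
the coefficients of `Ψ(b') = b Ψ(1)` at the centraliser of `σ(D)` are zero modulo `ker π`.  Let
`a ∈ R N_Y(D)` be `b'` restricted to the centraliser of `D`.  By `coeff_Ψ` and `psi` the coefficient
of `E.Ψ(a)` at an element of the centraliser of `σ(D)` is the one of `Ψ(b')`, so zero; at the other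
elements it is zero by `supp`.  By `ker_mod` for `E`, `a e_D = 0` mod `ker π`.  But
`a e_D = b'` on the centraliser, modulo `ker π`: `b' = b' e`, both fixed by `D`, so (`br_mul`)
`b'_g = ∑ b'_h e_(h⁻¹g)` over `h` in the centraliser of `D`, and `e1`.  Contradiction. -/
theorem br_ne (hD : IsPGroup ℓ D) {b : MonoidAlgebra R X} {b' : MonoidAlgebra R Y}
    (hb : ∀ x, x * b = b * x) (hb' : ∀ x, x * b' = b' * x) (he : b' * C.e = b')
    (hΨ : C.Ψ b' = b * C.Ψ 1)
    (hne : ∃ g ∈ Subgroup.centralizer (D : Set Y), π (b'.coeff g) ≠ 0) :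
    ∃ g ∈ Subgroup.centralizer (D.map C.σ : Set X), π (b.coeff g) ≠ 0 := by
  classical
  have := Fintype.ofFinite X
  by_contra hcon
  push Not at hcon
  obtain ⟨g, hg, hgne⟩ := hne
  apply hgne
  refine CORR_zero π C L hD hb' he ?_ g hg
  intro x hx
  rw [hΨ]
  refine br_mul_zero π (hD.map C.σ) (fun d _ => (central_iff b).1 hb d) ?_ hcon hx
  rintro _ ⟨d, hd, rfl⟩
  rw [C.equi]
  congr 1
  simp [cj]

/-- T8, second part.  The coefficients of `c E.Ψ(1)` at the centraliser of `σ(D)` are, modulo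
`ker π`, those of `b Ψ(1) = Ψ(b')`
(multiplicativity of the Brauer homomorphism in `N_X(σD)` and in `X`, `hbc`, and `psi` at `t = 1`).  If
`c E.f = 0` then `c E.Ψ(1) = c E.f E.Ψ(1) = 0`, and as in `br_ne` this contradicts `hne`. -/
theorem corr_ne (hD : IsPGroup ℓ D) {b : MonoidAlgebra R X} {b' : MonoidAlgebra R Y}
    (hb : ∀ x, x * b = b * x) (hb' : ∀ x, x * b' = b' * x) (he : b' * C.e = b')
    (hΨ : C.Ψ b' = b * C.Ψ 1)
    (hne : ∃ g ∈ Subgroup.centralizer (D : Set Y), π (b'.coeff g) ≠ 0)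
    {c : MonoidAlgebra R (nz (D.map C.σ))} (hc : ∀ x, x * c = c * x)
    (hbc : ∀ g : nz (D.map C.σ), (g : X) ∈ Subgroup.centralizer (D.map C.σ : Set X) →
      π (c.coeff g) = π (b.coeff (g : X))) : c * L.E.f ≠ 0 := by
  intro hcf
  obtain ⟨g, hg, hgne⟩ := hne
  apply hgne
  refine CORR_zero π C L hD hb' he ?_ g hg
  intro x hx
  rw [hΨ, ← CORR_cb π C L hD hb hc hbc hx, ← L.E.f_one, ← mul_assoc, hcf, zero_mul]
  simp

/-- T8, third part.  Let `a ∈ R N_Y(D)` be the restriction of `b'` to the centraliser of `D`.  By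
`coeff_Ψ` for `E` (the subgroup `D` of `N_Y(D)`) and for `C`, and `psi`, `supp`: the coefficients of
`E.Ψ(a₁)`, `a₁` = restriction of `c'` to the centraliser of `D`, at the centraliser of `σ(D)`, are
those of `E.Ψ(c') = c E.Ψ(1)`, and those of `E.Ψ(a)` are those of `Ψ(b') = b Ψ(1)`; they agree as in
`corr_ne`.  At the elements outside the centraliser of `σ(D)` both are zero by `supp`.  So `E.Ψ(a₁ - a) = 0` modulo `ker π`,
`(a₁ - a) e_D = 0` by `ker_mod`, and `a₁ e_D = a₁`, `a e_D = a` modulo `ker π` (as in `br_ne`; for `a₁`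
use `c' e_D = c'`). -/
theorem corr_down (hD : IsPGroup ℓ D) {b : MonoidAlgebra R X} {b' : MonoidAlgebra R Y}
    (hb : ∀ x, x * b = b * x) (hb' : ∀ x, x * b' = b' * x) (he : b' * C.e = b')
    (hΨ : C.Ψ b' = b * C.Ψ 1)
    {c : MonoidAlgebra R (nz (D.map C.σ))} (hc : ∀ x, x * c = c * x)
    (hbc : ∀ g : nz (D.map C.σ), (g : X) ∈ Subgroup.centralizer (D.map C.σ : Set X) →
      π (c.coeff g) = π (b.coeff (g : X)))
    {c' : MonoidAlgebra R (nz D)} (hc' : ∀ x, x * c' = c' * x) (hce : c' * L.E.e = c')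
    (hcΨ : L.E.Ψ c' = c * L.E.Ψ 1) :
    ∀ g : nz D, (g : Y) ∈ Subgroup.centralizer (D : Set Y) →
      π (c'.coeff g) = π (b'.coeff (g : Y)) := by
  classical
  have hfY : Finite Y := Finite.of_injective C.σ C.inj
  have := Fintype.ofFinite Y
  have := Fintype.ofFinite (nz D)
  intro g hg
  set a := CORR_sm R D (fun s => b'.coeff (s : Y)) with ha
  set a₁ := CORR_sm R D (fun s => c'.coeff s) with ha₁
  have h1 : ∀ x, π ((L.E.Ψ (a₁ - a)).coeff x) = 0 := by
    intro x
    rw [map_sub, coeff_sub, Finsupp.sub_apply, map_sub]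
    by_cases hx : (x : X) ∈ Subgroup.centralizer (D.map C.σ : Set X)
    · rw [ha, ha₁, CORR_cmp π C L hD hb' hx, CORR_cmp' π C L hD hc' hx, hcΨ, hΨ,
        CORR_cb π C L hD hb hc hbc hx, sub_self]
    · rw [ha, ha₁, CORR_psi π C L, CORR_psi π C L, if_neg hx, if_neg hx, sub_self]
  have h2 := L.E.ker_mod π h1 g
  rw [sub_mul, coeff_sub, Finsupp.sub_apply, map_sub, ha, ha₁,
    CORR_e2 π C L hD hb' he hg, CORR_e1 π C L hce hg] at h2
  exact sub_eq_zero.1 h2

end Pool.Agent.URing
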