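import Pool.Agent.URing.Base

/-!
# Defect groups are conjugate (module DEFA)
-/

set_option autoImplicit false

namespace Pool.Agent.URing

open MonoidAlgebra IsLocalRing Pool.Agent.UBlocks

variable {ℓ : ℕ} [Fact ℓ.Prime] {Λ X : Type*} [CommRing Λ] [IsLocalRing Λ]
  [CharP (ResidueField Λ) ℓ] [Group X] [Finite X]

/-- By `UBlocks.br_zero` (with `π = residue Λ`): if `b` is a trace from `D` and `Br_Q(b) ≠ 0`, then
some conjugate of `Q` is contained in `D`. -/
theorem le_of_br {b : MonoidAlgebra Λ X} {D Q : Subgroup X} (hD : TrFrom b D)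
    (hQ : IsPGroup ℓ Q)
    (hb : ∃ g ∈ Subgroup.centralizer (Q : Set X), residue Λ (b.coeff g) ≠ 0) :
    ∃ x : X, Q.map (MulAut.conj x).toMonoidHom ≤ D := by
  classical
  obtain ⟨_⟩ := nonempty_fintype X
  by_contra hcon
  push Not at hcon
  obtain ⟨g, hg, hne⟩ := hb
  apply hne
  refine br_zero (ℓ := ℓ) (residue Λ) hD hQ (fun x => ?_) hg
  obtain ⟨z, hz, hzD⟩ := SetLike.not_le_iff_exists.1 (hcon x⁻¹)
  obtain ⟨y, hy, rfl⟩ := Subgroup.mem_map.1 hz
  refine ⟨y, hy, ?_⟩
  simpa using hzD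

/-- `D` is contained in a conjugate of `D'` and conversely, so they have the same order. -/
theorem conj_of_defect {b : MonoidAlgebra Λ X} {D D' : Subgroup X} (h : IsDefectGroup ℓ b D)
    (h' : IsDefectGroup ℓ b D') : ∃ x : X, D.map (MulAut.conj x).toMonoidHom = D' := by
  obtain ⟨x, hx⟩ := le_of_br h'.trace h.pgroup h.br
  obtain ⟨y, hy⟩ := le_of_br h.trace h'.pgroup h'.br
  have hc : ∀ (E : Subgroup X) (z : X), Nat.card (E.map (MulAut.conj z).toMonoidHom) =
      Nat.card E := fun E z => Subgroup.card_map_of_injective (MulAut.conj z).injective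
  refine ⟨x, Subgroup.eq_of_le_of_card_ge hx ?_⟩
  rw [hc D x, ← hc D' y]
  exact Subgroup.card_le_of_le hy

end Pool.Agent.URing
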