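import Pool.Agent.URing.LocR

/-!
# Every block has a defect group (module DEFE)
-/

set_option autoImplicit false

namespace Pool.Agent.URing

open MonoidAlgebra IsLocalRing Pool.Agent.UBlocks

section Aux

variable {R X : Type*} [CommRing R] [Group X]

private theorem DefE_transversal {D : Subgroup X} (S : Subgroup D) :
    Function.Bijective (fun t : (X ⧸ D) × (D ⧸ S) =>
      ((Quotient.out t.1 * ((Quotient.out t.2 : D) : X) : X) : X ⧸ S.map D.subtype)) := by
  constructor
  · rintro ⟨p, q⟩ ⟨p', q'⟩ h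
    obtain ⟨d, hd, hdd⟩ := QuotientGroup.eq.1 h
    have h2 : (Quotient.out p : X)⁻¹ * Quotient.out p' =
        ((Quotient.out q * d * (Quotient.out q')⁻¹ : D) : X) := by
      rw [Subgroup.coe_mul, Subgroup.coe_mul, Subgroup.coe_inv]
      have : (d : X) = D.subtype d := rfl
      rw [this, hdd]; group
    have h3 : p = p' := by
      rw [← QuotientGroup.out_eq' p, ← QuotientGroup.out_eq' p']
      apply QuotientGroup.eq.2
      rw [h2]
      exact Subtype.property _
    subst h3
    rw [inv_mul_cancel] at h2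
    have h4 : Quotient.out q * d * (Quotient.out q')⁻¹ = 1 := by
      apply Subtype.ext
      rw [← h2]; rfl
    have h5 : q = q' := by
      rw [← QuotientGroup.out_eq' q, ← QuotientGroup.out_eq' q']
      apply QuotientGroup.eq.2
      have : (Quotient.out q)⁻¹ * Quotient.out q' = d := by
        have h6 := mul_inv_eq_one.1 h4
        rw [← h6]; group
      rw [this]
      exact hd
    rw [h5]
  · intro h
    obtain ⟨h, rfl⟩ := QuotientGroup.mk_surjective h
    have h1 : (Quotient.out (h : X ⧸ D))⁻¹ * h ∈ D := by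
      rw [← QuotientGroup.eq, QuotientGroup.out_eq']
    set g : D := ⟨_, h1⟩ with hg
    have h2 : (Quotient.out (g : D ⧸ S))⁻¹ * g ∈ S := by
      rw [← QuotientGroup.eq, QuotientGroup.out_eq']
    refine ⟨((h : X ⧸ D), (g : D ⧸ S)), ?_⟩
    apply QuotientGroup.eq.2
    refine ⟨_, h2, ?_⟩
    dsimp only
    have h4 : h = Quotient.out (h : X ⧸ D) * (g : X) := by rw [hg]; group
    set y := Quotient.out (g : D ⧸ S)
    set x := Quotient.out (h : X ⧸ D)
    rw [map_mul, map_inv]
    show (y : X)⁻¹ * (g : X) = (x * (y : X))⁻¹ * h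
    rw [h4]
    group

private theorem DefE_tr [Finite X] {D : Subgroup X} (S : Subgroup D) [Fintype (X ⧸ D)]
    [Fintype (D ⧸ S)] [Fintype (X ⧸ S.map D.subtype)] {w : MonoidAlgebra R X}
    (hw : ∀ t ∈ S.map D.subtype, cj t w = w) :
    tr D (∑ q : D ⧸ S, cj ((Quotient.out q : D) : X) w) = tr (S.map D.subtype) w := by
  rw [tr_transversal hw (fun t : (X ⧸ D) × (D ⧸ S) =>
      Quotient.out t.1 * ((Quotient.out t.2 : D) : X)) (DefE_transversal S),
    Fintype.sum_prod_type]
  unfold tr
  refine Finset.sum_congr rfl fun p _ => ?_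
  rw [cj_sum]
  refine Finset.sum_congr rfl fun q _ => ?_
  rw [cj_cj]

private theorem DefE_top [Finite X] {b : MonoidAlgebra R X} (hb : ∀ g, cj g b = b) :
    TrFrom b (⊤ : Subgroup X) := by
  classical
  have := Fintype.ofFinite (X ⧸ (⊤ : Subgroup X))
  rw [trFrom_iff]
  refine ⟨b, fun q _ => hb q, ?_⟩
  unfold tr
  have : Subsingleton (X ⧸ (⊤ : Subgroup X)) := QuotientGroup.subsingleton_quotient_top
  have h1 : (Finset.univ : Finset (X ⧸ (⊤ : Subgroup X))) = {((1 : X) : X ⧸ (⊤ : Subgroup X))} := by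
    ext q
    simp [Subsingleton.elim q ((1 : X) : X ⧸ (⊤ : Subgroup X))]
  rw [h1, Finset.sum_singleton, hb]

private theorem DefE_orb {G Y M : Type*} [Group G] [MulAction G Y] [Fintype Y] [AddCommMonoid M]
    [Fintype (MulAction.orbitRel.Quotient G Y)] [∀ y : Y, Fintype (G ⧸ MulAction.stabilizer G y)]
    (φ : Y → M) :
    ∑ y, φ y = ∑ ω : MulAction.orbitRel.Quotient G Y,
      ∑ q : G ⧸ MulAction.stabilizer G (Quotient.out ω : Y),
        φ ((Quotient.out q : G) • (Quotient.out ω : Y)) := by
  classical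
  have hbij : Function.Bijective (fun t : (Σ ω : MulAction.orbitRel.Quotient G Y,
      G ⧸ MulAction.stabilizer G (Quotient.out ω : Y)) =>
      ((Quotient.out t.2 : G) • (Quotient.out t.1 : Y) : Y)) := by
    constructor
    · rintro ⟨ω, q⟩ ⟨ω', q'⟩ h
      dsimp only at h
      have h1 : ω = ω' := by
        have h2 : MulAction.orbitRel G Y (Quotient.out ω) (Quotient.out ω') := by
          rw [MulAction.orbitRel_apply]
          refine ⟨(Quotient.out q : G)⁻¹ * Quotient.out q', ?_⟩
          show ((Quotient.out q : G)⁻¹ * Quotient.out q') • (Quotient.out ω' : Y) = _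
          rw [mul_smul, ← h, inv_smul_smul]
        have h3 := Quotient.sound h2
        rwa [Quotient.out_eq, Quotient.out_eq] at h3
      subst h1
      have h2 : (Quotient.out q : G)⁻¹ * Quotient.out q' ∈
          MulAction.stabilizer G (Quotient.out ω : Y) := by
        rw [MulAction.mem_stabilizer_iff, mul_smul, ← h, inv_smul_smul]
      have h3 : q = q' := by
        rw [← QuotientGroup.out_eq' q, ← QuotientGroup.out_eq' q']
        exact QuotientGroup.eq.2 h2
      rw [h3]
    · intro y
      set ω : MulAction.orbitRel.Quotient G Y := Quotient.mk _ y with hω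
      have h1 : MulAction.orbitRel G Y y (Quotient.out ω) := by
        apply Quotient.exact
        rw [Quotient.out_eq]
      rw [MulAction.orbitRel_apply] at h1
      obtain ⟨d, hd⟩ := h1
      have hd' : d • (Quotient.out ω : Y) = y := hd
      refine ⟨⟨ω, (d : G ⧸ MulAction.stabilizer G (Quotient.out ω : Y))⟩, ?_⟩
      dsimp only
      have h2 : (Quotient.out (d : G ⧸ MulAction.stabilizer G (Quotient.out ω : Y)))⁻¹ * d ∈
          MulAction.stabilizer G (Quotient.out ω : Y) := by
        rw [← QuotientGroup.eq, QuotientGroup.out_eq']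
      rw [MulAction.mem_stabilizer_iff, mul_smul, hd'] at h2
      rw [eq_comm, ← inv_smul_eq_iff]
      exact h2
  rw [← Equiv.sum_comp (Equiv.ofBijective _ hbij) φ, Fintype.sum_sigma]
  rfl

private theorem DefE_cj_dl (d g : X) : cj d (dl R g) = dl R (d * g * d⁻¹) := by
  unfold cj
  rw [dl_mul, dl_mul]

end Aux

/-- T5.  Let `D` be a subgroup of least order with `TrFrom b D` (`D = ⊤` has it: `b = Tr_⊤^X(b)`).
(i) `D` is an `ℓ`-group: let `P` be a Sylow `ℓ`-subgroup of `D`; for `a` fixed by `D`,
`Tr_P^D(a) = [D : P] a` with `[D : P]` a unit of `Λ`, so `b = Tr_P^X([D : P]⁻¹ a)`, and `D = P` by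
minimality.
(ii) `Br_D(b) ≠ 0`.  Suppose all coefficients of `b` at the centraliser of `D` are in `𝔪`.  Group the
elements of `X` in orbits under conjugation by `D`: `b = ∑_O b_O (∑_(g ∈ O) g)` where an orbit sum of
size `> 1` is `Tr_Q^D(g)` with `Q = C_D(g) < D`, and the orbits of size `1` are the elements of the
centraliser.  So `b = ∑_O Tr_(Q_O)^D(c_O) + m'` with `Q_O < D`, `c_O` fixed by `Q_O`, and `m'` fixed by
`D` with coefficients in `𝔪`.  With `b = Tr_D^X(a)`:
`b = b b = Tr_D^X(a b) = ∑_O Tr_D^X(a Tr_(Q_O)^D(c_O)) + Tr_D^X(a m') = ∑_O Tr_(Q_O)^X(a c_O) + m`,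
`m` central with coefficients in `𝔪`; multiply by `b` and apply `exists_unit_of_sum`: for some `O`
there is a central `w` with `b = w Tr_(Q_O)^X(a c_O) b = Tr_(Q_O)^X(w a c_O b)`, against the
minimality of `D`. -/
theorem exists_defect {ℓ : ℕ} [Fact ℓ.Prime] {Λ X : Type*} [CommRing Λ] [IsLocalRing Λ]
    [IsNoetherianRing Λ] [IsAdicComplete (maximalIdeal Λ) Λ] [CharP (ResidueField Λ) ℓ]
    [Group X] [Finite X] {b : MonoidAlgebra Λ X} (hb : IsBlk b) :
    ∃ D : Subgroup X, IsDefectGroup ℓ b D := by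
  classical
  have := Fintype.ofFinite X
  have hfq : ∀ D : Subgroup X, Fintype (X ⧸ D) := fun D => Fintype.ofFinite _
  have hbc : ∀ g, cj g b = b := (central_iff b).1 hb.central
  -- a subgroup of least order
  obtain ⟨D, hD, hmin⟩ : ∃ D : Subgroup X, TrFrom b D ∧
      ∀ Q : Subgroup X, TrFrom b Q → Nat.card D ≤ Nat.card Q := by
    have hex : ∃ n, ∃ D : Subgroup X, TrFrom b D ∧ Nat.card D = n := ⟨_, ⊤, DefE_top hbc, rfl⟩
    obtain ⟨D, hD, hn⟩ := Nat.find_spec hex
    refine ⟨D, hD, fun Q hQ => ?_⟩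
    rw [hn]
    exact Nat.find_min' hex ⟨Q, hQ, rfl⟩
  have hfD : Fintype (X ⧸ D) := hfq D
  obtain ⟨a, ha, hba⟩ := (trFrom_iff b D).1 hD
  -- proper subgroups
  have hprop : ∀ S : Subgroup D, TrFrom b (S.map D.subtype) → S = ⊤ := by
    intro S hS
    have h1 := hmin _ hS
    have h2 : Nat.card (S.map D.subtype) = Nat.card S :=
      Nat.card_congr (S.equivMapOfInjective _ D.subtype_injective).toEquiv.symm
    rw [h2] at h1
    exact Subgroup.eq_top_of_le_card _ h1
  refine ⟨D, ?_, hD, ?_⟩
  · -- `D` is an `ℓ`-group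
    obtain ⟨P⟩ : Nonempty (Sylow ℓ D) := inferInstance
    have := Fintype.ofFinite (D ⧸ (P : Subgroup D))
    have := hfq ((P : Subgroup D).map D.subtype)
    have haP : ∀ t ∈ (P : Subgroup D).map D.subtype, cj t a = a := by
      rintro _ ⟨d, -, rfl⟩
      exact ha _ d.2
    have hsum : ∑ q : D ⧸ (P : Subgroup D), cj ((Quotient.out q : D) : X) a =
        (((P : Subgroup D).index : ℕ) : Λ) • a := by
      have h0 : ∀ q : D ⧸ (P : Subgroup D), cj ((Quotient.out q : D) : X) a = a := fun q =>
        ha _ (Quotient.out q : D).2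
      rw [Finset.sum_congr rfl fun q _ => h0 q, Finset.sum_const,
        Finset.card_univ, Subgroup.index_eq_card, Nat.card_eq_fintype_card,
        ← Nat.cast_smul_eq_nsmul Λ]
    have hunit : IsUnit (((P : Subgroup D).index : ℕ) : Λ) := by
      by_contra hcon
      have h1 : residue Λ (((P : Subgroup D).index : ℕ) : Λ) = 0 :=
        (residue_eq_zero_iff _).2 ((mem_maximalIdeal _).2 hcon)
      rw [map_natCast, CharP.cast_eq_zero_iff (ResidueField Λ) ℓ] at h1
      exact P.not_dvd_index h1
    obtain ⟨u, hu⟩ := hunit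
    have hP : TrFrom b ((P : Subgroup D).map D.subtype) := by
      rw [trFrom_iff]
      refine ⟨((u⁻¹ : Λˣ) : Λ) • a, ?_, ?_⟩
      · intro q hq
        rw [cj_smul, haP q hq]
      · rw [tr_smul, ← DefE_tr (P : Subgroup D) haP, hsum, ← hu, tr_smul, ← hba, smul_smul,
          Units.inv_mul, one_smul]
    have htop := hprop _ hP
    have h3 : IsPGroup ℓ (⊤ : Subgroup D) := by
      rw [← htop]; exact P.isPGroup'
    exact h3.of_equiv Subgroup.topEquiv
  · -- the Brauer homomorphism does not vanish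
    by_contra hcon
    push Not at hcon
    letI := conjMulAction D
    have := Fintype.ofFinite (MulAction.orbitRel.Quotient D X)
    have hfS : ∀ y : X, Fintype (D ⧸ MulAction.stabilizer D y) := fun y => Fintype.ofFinite _
    let g : MulAction.orbitRel.Quotient D X → X := fun ω => Quotient.out ω
    let S : MulAction.orbitRel.Quotient D X → Subgroup D := fun ω => MulAction.stabilizer D (g ω)
    have hS : ∀ ω (d : D), d ∈ S ω ↔ (d : X) * g ω * (d : X)⁻¹ = g ω := fun ω d => Iff.rfl
    have hfQ : ∀ ω, Fintype (X ⧸ (S ω).map D.subtype) := fun ω => hfq _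
    let w : MulAction.orbitRel.Quotient D X → MonoidAlgebra Λ X :=
      fun ω => b.coeff (g ω) • (a * dl Λ (g ω))
    have hw : ∀ ω, ∀ t ∈ (S ω).map D.subtype, cj t (w ω) = w ω := by
      rintro ω _ ⟨d, hd, rfl⟩
      have h1 := (hS ω d).1 hd
      show cj (d : X) (b.coeff (g ω) • (a * dl Λ (g ω))) = b.coeff (g ω) • (a * dl Λ (g ω))
      rw [cj_smul, cj_mul, ha _ d.2, DefE_cj_dl, h1]
    have hdec : a * b = ∑ ω, ∑ q : D ⧸ S ω, cj ((Quotient.out q : D) : X) (w ω) := by
      conv_lhs => rw [eq_sum_dl b]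
      rw [Finset.mul_sum, DefE_orb (G := D) (fun y : X => a * (b.coeff y • dl Λ y))]
      refine Finset.sum_congr rfl fun ω _ => Finset.sum_congr rfl fun q _ => ?_
      show a * (b.coeff (((Quotient.out q : D) : X) * g ω * ((Quotient.out q : D) : X)⁻¹) •
        dl Λ (((Quotient.out q : D) : X) * g ω * ((Quotient.out q : D) : X)⁻¹)) =
        cj ((Quotient.out q : D) : X) (b.coeff (g ω) • (a * dl Λ (g ω)))
      rw [cj_smul, cj_mul, ha _ (Quotient.out q : D).2, DefE_cj_dl, mul_smul_comm,
        coeff_of_fixed (D := D) (fun d _ => hbc d) (Quotient.out q : D).2]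
    have hbb : b = ∑ ω, tr ((S ω).map D.subtype) (w ω) := by
      calc b = b * b := hb.idem.symm
        _ = tr D a * b := by rw [← hba]
        _ = tr D (a * b) := by
          unfold tr
          rw [Finset.sum_mul]
          refine Finset.sum_congr rfl fun q _ => ?_
          rw [cj_mul, hbc]
        _ = ∑ ω, tr D (∑ q : D ⧸ S ω, cj ((Quotient.out q : D) : X) (w ω)) := by
          rw [hdec]
          unfold tr
          rw [Finset.sum_comm]
          refine Finset.sum_congr rfl fun q _ => ?_
          rw [cj_sum]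
        _ = _ := Finset.sum_congr rfl fun ω _ => DefE_tr (S ω) (hw ω)
    have hcen : ∀ ω, ∀ x, x * tr ((S ω).map D.subtype) (w ω) =
        tr ((S ω).map D.subtype) (w ω) * x := fun ω =>
      (central_iff _).2 fun g => cj_tr (hw ω) g
    obtain ⟨ω, hω, v, hv, hvb⟩ := exists_unit_of_sum hb
      (Finset.univ.filter fun ω => S ω ≠ ⊤) (fun ω => tr ((S ω).map D.subtype) (w ω))
      (fun ω _ => hcen ω)
      (∑ ω ∈ Finset.univ.filter (fun ω => ¬ S ω ≠ ⊤), tr ((S ω).map D.subtype) (w ω))
      (by
        intro x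
        rw [Finset.mul_sum, Finset.sum_mul]
        exact Finset.sum_congr rfl fun ω _ => hcen ω x)
      (by
        intro h
        rw [coeff_sum, Finset.sum_apply']
        refine Ideal.sum_mem _ fun ω hω => ?_
        have htop : S ω = ⊤ := not_not.1 (Finset.mem_filter.1 hω).2
        have hgc : g ω ∈ Subgroup.centralizer (D : Set X) := by
          rw [Subgroup.mem_centralizer_iff]
          intro d hd
          have h1 : (⟨d, hd⟩ : D) ∈ S ω := by rw [htop]; trivial
          exact mul_inv_eq_iff_eq_mul.1 ((hS ω _).1 h1)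
        have hm : b.coeff (g ω) ∈ maximalIdeal Λ := (residue_eq_zero_iff _).1 (hcon _ hgc)
        show (tr ((S ω).map D.subtype) (b.coeff (g ω) • (a * dl Λ (g ω)))).coeff h ∈ _
        rw [tr_smul, coeff_smul, Finsupp.smul_apply, smul_eq_mul]
        exact Ideal.mul_mem_right _ _ hm)
      (by
        rw [← Finset.sum_mul, ← add_mul]
        rw [Finset.sum_filter_add_sum_filter_not, ← hbb, hb.idem])
    have hne := (Finset.mem_filter.1 hω).2
    apply hne
    apply hprop
    rw [trFrom_iff]
    refine ⟨v * (w ω * b), ?_, ?_⟩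
    · intro t ht
      rw [cj_mul, cj_mul, hbc, hw ω t ht, (cj_eq_iff _ _).2 (hv _)]
    · refine hvb.symm.trans ?_
      unfold tr
      rw [Finset.sum_mul, Finset.mul_sum]
      refine Finset.sum_congr rfl fun q _ => ?_
      rw [cj_mul, cj_mul, hbc, (cj_eq_iff _ _).2 (hv _)]

end Pool.Agent.URing
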