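import Pool.Agent.URing.Corr
import Pool.Agent.URing.Conj
import Pool.Agent.URing.DefA
import Pool.Agent.URing.DefE

/-!
# Transfer data with local data relate blocks (module DOM)
-/

set_option autoImplicit false

namespace Pool.Agent.URing

open MonoidAlgebra IsLocalRing Pool.Agent.UBlocks

universe u

/-- the last step: local data at a defect group of `b'` -/
private theorem Xf.DOM_at {ℓ : ℕ} [Fact ℓ.Prime] {Λ : Type u} {Y X : Type} [CommRing Λ]
    [IsLocalRing Λ] [CharP (ResidueField Λ) ℓ]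
    [Group Y] [Group X] [Finite X] (C : Xf Λ Y X) (τ : Triple ℓ Λ X)
    {b' : MonoidAlgebra Λ Y} (hb' : IsBlk b') (he : b' * C.e = b')
    (hΨ : C.Ψ b' = τ.b * C.Ψ 1) (hup : C.up b' = τ.b) {D' : Subgroup Y}
    (hD' : IsDefectGroup ℓ b' D') (L : XfLoc (residue Λ) C D') :
    ∃ τ' : Triple ℓ Λ Y, Rel τ τ' := by
  have hdef : IsDefectGroup ℓ τ.b (D'.map C.σ) := by
    refine ⟨hD'.pgroup.map C.σ, ?_, ?_⟩
    · rw [← hup]
      exact C.trFrom_up hD'.trace
    · exact br_ne (residue Λ) C L hD'.pgroup τ.hb.central hb'.central he hΨ hD'.br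
  obtain ⟨x, hx⟩ := conj_of_defect τ.defect hdef
  obtain ⟨τ₁, hb₁, hD₁, hrel⟩ := τ.exists_conj x
  rw [hx] at hD₁
  rw [← hb₁] at hΨ hup
  clear hx hb₁ hdef
  obtain ⟨b₁, hbl₁, D₁, c₁, hc₁, def₁, comm₁, corr₁⟩ := τ₁
  dsimp only at hD₁ hΨ hup
  subst hD₁
  have hcne : c₁ * L.E.f ≠ 0 :=
    corr_ne (residue Λ) C L hD'.pgroup hbl₁.central hb'.central he hΨ hD'.br hc₁.central corr₁
  obtain ⟨c', hc', hce, hcΨ, hcup⟩ := L.E.exists_blk hc₁ hcne
  refine ⟨⟨b', hb', D', c', hc', hD', ?_, ?_⟩, hrel.trans ⟨?_, ?_, ?_⟩⟩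
  · intro y hy z hz
    apply C.inj
    rw [map_mul, map_mul]
    exact comm₁ _ ⟨y, hy, rfl⟩ _ ⟨z, hz, rfl⟩
  · exact corr_down (residue Λ) C L hD'.pgroup hbl₁.central hb'.central he hΨ hc₁.central corr₁
      hc'.central hce hcΨ
  · exact C.mor hbl₁ hb' he hΨ hup
  · exact L.E.mor hc₁ hc' hce hcΨ hcup
  · exact ⟨(D'.equivMapOfInjective C.σ C.inj).symm⟩

/-- Let `τ = (b, D, c)` with `b f ≠ 0`, `b'` from `exists_blk`, `D'` a defect group of `b'`
(`exists_defect`).  `σ(D')` is a defect group of `b`: `trFrom_up` and `up(b') = b`, `br_ne`.  By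
`conj_of_defect` and `Triple.exists_conj` we may assume `D = σ(D')` (replace `τ` by the conjugate
triple; `Rel.trans`); `D'` is abelian since `σ` is injective.  Take the local data `L` at `D'`;
`c E.f ≠ 0` by `corr_ne`, `c'` from `exists_blk` for `E`; `c'` is the Brauer correspondent of `b'` by
`corr_down`.  Morita equivalences: `Xf.mor` for `C` and for `L.E`; `D' ≃* σ(D')`. -/
theorem Xf.dom {ℓ : ℕ} [Fact ℓ.Prime] {Λ : Type u} {Y X : Type} [CommRing Λ] [IsLocalRing Λ]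
    [IsNoetherianRing Λ] [IsAdicComplete (maximalIdeal Λ) Λ] [CharP (ResidueField Λ) ℓ]
    [Group Y] [Group X] [Finite X] (C : Xf Λ Y X)
    (L : ∀ D : Subgroup Y, IsPGroup ℓ D → Nonempty (XfLoc (residue Λ) C D)) :
    Dom ℓ Λ Y C.f := by
  intro τ hτ
  have : Finite Y := Finite.of_injective C.σ C.inj
  obtain ⟨b', hb', he, hΨ, hup⟩ := C.exists_blk τ.hb hτ
  obtain ⟨D', hD'⟩ := exists_defect (ℓ := ℓ) hb'
  obtain ⟨L'⟩ := L D' hD'.pgroup
  exact C.DOM_at τ hb' he hΨ hup hD' L'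

/-! ### The descent of relative traces -/

namespace Xf

section

variable {R Y X : Type*} [CommRing R] [Group Y] [Group X] (C : Xf R Y X)

/-- the partial trace -/
private noncomputable def DOM_T (x : MonoidAlgebra R X) : MonoidAlgebra R X :=
  letI := C.fin
  ∑ i, C.ε * C.m' i * x * C.m i * C.ε

private theorem DOM_T_eq [Fintype C.ι] (x : MonoidAlgebra R X) :
    C.DOM_T x = ∑ i, C.ε * C.m' i * x * C.m i * C.ε := by
  unfold DOM_T
  refine Finset.sum_congr ?_ fun _ _ => rfl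
  exact congrArg (@Finset.univ C.ι) (Subsingleton.elim _ _)

private theorem DOM_ε_Ψ : C.ε * C.Ψ 1 = C.ε := by rw [C.ε_comm, C.one_ε]

private theorem DOM_m' (i : C.ι) : C.ε * C.m' i = C.ε * C.m' i * C.Ψ 1 := by
  rw [mul_assoc, C.m'_comm, ← mul_assoc, DOM_ε_Ψ]

private theorem DOM_m (i : C.ι) : C.m i * C.ε = C.Ψ 1 * (C.m i * C.ε) := by
  rw [← mul_assoc, ← C.m_comm, mul_assoc, C.one_ε]

private theorem DOM_dlΨ (y : Y) (a : MonoidAlgebra R Y) :
    dl R (C.σ y) * C.Ψ a = C.Ψ (cj y a) * dl R (C.σ y) := by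
  rw [← C.equi]
  unfold cj
  rw [mul_assoc _ (dl R (C.σ y)⁻¹), dl_inv_mul, mul_one]

private theorem DOM_T_cj [Finite X] (y : Y) (x : MonoidAlgebra R X) :
    C.DOM_T (cj (C.σ y) x) = C.Ψ (dl R y) * C.DOM_T x * C.Ψ (dl R y⁻¹) := by
  classical
  let _ := C.fin
  set w := C.Ψ (dl R y⁻¹) * dl R (C.σ y) with hw
  set w' := dl R (C.σ y)⁻¹ * C.Ψ (dl R y) with hw'
  have hwc : ∀ a, w * C.Ψ a = C.Ψ a * w := by
    intro a
    calc w * C.Ψ a = C.Ψ (dl R y⁻¹) * (dl R (C.σ y) * C.Ψ a) := by rw [hw, mul_assoc]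
      _ = C.Ψ (dl R y⁻¹ * cj y a) * dl R (C.σ y) := by
          rw [DOM_dlΨ, ← mul_assoc, ← C.mul]
      _ = C.Ψ (a * dl R y⁻¹) * dl R (C.σ y) := by
          congr 2
          unfold cj
          rw [← mul_assoc, ← mul_assoc, dl_inv_mul, one_mul]
      _ = _ := by rw [C.mul, hw, mul_assoc]
  have hw1 : C.Ψ (dl R y) * w = C.Ψ 1 * dl R (C.σ y) := by
    rw [hw, ← mul_assoc, ← C.mul, dl_mul_inv]
  have hw2 : w' * C.Ψ (dl R y⁻¹) = dl R (C.σ y)⁻¹ * C.Ψ 1 := by
    rw [hw', mul_assoc, ← C.mul, dl_mul_inv]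
  have hw3 : w' * w = C.Ψ 1 := by
    calc w' * w = dl R (C.σ y)⁻¹ * (C.Ψ (dl R y) * C.Ψ (dl R y⁻¹)) * dl R (C.σ y) := by
          rw [hw, hw']; simp only [mul_assoc]
      _ = dl R (C.σ y)⁻¹ * C.Ψ 1 * dl R (C.σ y) := by rw [← C.mul, dl_mul_inv]
      _ = cj (C.σ y⁻¹) (C.Ψ 1) := by
          unfold cj
          rw [map_inv, inv_inv]
      _ = C.Ψ 1 := by
          rw [C.equi]
          congr 1
          simp [cj]
  have hw4 : C.Ψ 1 * w = w := by rw [hw, ← mul_assoc, C.one_mul_Ψ]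
  have hw5 : w * C.Ψ 1 = w := by rw [hwc, hw4]
  -- the inner sum
  have hS : ∑ i, C.ε * C.m' i * (w * x * w') * C.m i * C.ε = C.DOM_T x := by
    have hz : ∀ i j, ∀ v : MonoidAlgebra R X,
        (C.ε * C.m' i * w * C.m j * C.ε) * (C.ε * v * C.ε) =
        (C.ε * v * C.ε) * (C.ε * C.m' i * w * C.m j * C.ε) := by
      intro i j v
      obtain ⟨c, hc⟩ := C.corner' v
      have h1 : (C.ε * C.m' i * w * C.m j * C.ε) * C.Ψ c =
          C.Ψ c * (C.ε * C.m' i * w * C.m j * C.ε) := by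
        calc (C.ε * C.m' i * w * C.m j * C.ε) * C.Ψ c =
            C.ε * C.m' i * w * C.m j * (C.ε * C.Ψ c) := by simp only [mul_assoc]
          _ = C.ε * C.m' i * w * (C.m j * C.Ψ c) * C.ε := by
              rw [C.ε_comm]; simp only [mul_assoc]
          _ = C.ε * C.m' i * (w * C.Ψ c) * C.m j * C.ε := by
              rw [C.m_comm]; simp only [mul_assoc]
          _ = C.ε * (C.m' i * C.Ψ c) * w * C.m j * C.ε := by
              rw [hwc]; simp only [mul_assoc]
          _ = (C.ε * C.Ψ c) * C.m' i * w * C.m j * C.ε := by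
              rw [C.m'_comm]; simp only [mul_assoc]
          _ = _ := by rw [C.ε_comm]; simp only [mul_assoc]
      rw [hc]
      calc (C.ε * C.m' i * w * C.m j * C.ε) * (C.Ψ c * C.ε) =
          ((C.ε * C.m' i * w * C.m j * C.ε) * C.Ψ c) * C.ε := (mul_assoc _ _ _).symm
        _ = C.Ψ c * (C.ε * C.m' i * w * C.m j * (C.ε * C.ε)) := by
            rw [h1]; simp only [mul_assoc]
        _ = C.Ψ c * ((C.ε * C.ε) * C.m' i * w * C.m j * C.ε) := by rw [C.ε_idem]
        _ = _ := by simp only [mul_assoc]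
    calc ∑ i, C.ε * C.m' i * (w * x * w') * C.m i * C.ε =
        ∑ i, ∑ j, (C.ε * C.m' i * w * C.m j * C.ε) *
          (C.ε * (C.m' j * x * w' * C.m i) * C.ε) := by
          refine Finset.sum_congr rfl fun i _ => ?_
          calc C.ε * C.m' i * (w * x * w') * C.m i * C.ε =
              C.ε * C.m' i * (w * C.Ψ 1) * (x * w' * C.m i * C.ε) := by
                rw [hw5]; simp only [mul_assoc]
            _ = C.ε * C.m' i * w * (∑ j, C.m j * C.ε * C.m' j) * (x * w' * C.m i * C.ε) := by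
                rw [C.span]; simp only [mul_assoc]
            _ = ∑ j, C.ε * C.m' i * w * (C.m j * (C.ε * C.ε) * C.m' j) *
                  (x * w' * C.m i * C.ε) := by
                rw [Finset.mul_sum, Finset.sum_mul, C.ε_idem]
            _ = _ := by
                refine Finset.sum_congr rfl fun j _ => ?_
                simp only [mul_assoc]
      _ = ∑ i, ∑ j, (C.ε * (C.m' j * x * w' * C.m i) * C.ε) *
            (C.ε * C.m' i * w * C.m j * C.ε) := by
          refine Finset.sum_congr rfl fun i _ => Finset.sum_congr rfl fun j _ => ?_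
          rw [hz]
      _ = ∑ j, ∑ i, (C.ε * (C.m' j * x * w' * C.m i) * C.ε) *
            (C.ε * C.m' i * w * C.m j * C.ε) := Finset.sum_comm
      _ = ∑ j, C.ε * C.m' j * x * C.m j * C.ε := by
          refine Finset.sum_congr rfl fun j _ => ?_
          calc ∑ i, (C.ε * (C.m' j * x * w' * C.m i) * C.ε) * (C.ε * C.m' i * w * C.m j * C.ε) =
              ∑ i, C.ε * C.m' j * x * w' * (C.m i * (C.ε * C.ε) * C.m' i) *
                (w * C.m j * C.ε) := by
                refine Finset.sum_congr rfl fun i _ => ?_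
                simp only [mul_assoc]
            _ = C.ε * C.m' j * x * w' * C.Ψ 1 * (w * C.m j * C.ε) := by
                rw [← Finset.sum_mul, ← Finset.mul_sum, C.ε_idem, C.span]
            _ = C.ε * C.m' j * x * (w' * (C.Ψ 1 * w)) * (C.m j * C.ε) := by
                simp only [mul_assoc]
            _ = C.ε * C.m' j * x * (C.Ψ 1 * (C.m j * C.ε)) := by
                rw [hw4, hw3]; simp only [mul_assoc]
            _ = _ := by rw [← DOM_m]; simp only [mul_assoc]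
      _ = _ := (C.DOM_T_eq x).symm
  rw [← hS, DOM_T_eq, Finset.mul_sum, Finset.sum_mul]
  refine Finset.sum_congr rfl fun i _ => ?_
  unfold cj
  calc C.ε * C.m' i * (dl R (C.σ y) * x * dl R (C.σ y)⁻¹) * C.m i * C.ε =
      (C.ε * C.m' i) * dl R (C.σ y) * x * dl R (C.σ y)⁻¹ * (C.m i * C.ε) := by
        simp only [mul_assoc]
    _ = (C.ε * C.m' i * C.Ψ 1) * dl R (C.σ y) * x * dl R (C.σ y)⁻¹ *
          (C.Ψ 1 * (C.m i * C.ε)) := by rw [← DOM_m', ← DOM_m]
    _ = C.ε * C.m' i * (C.Ψ 1 * dl R (C.σ y)) * x * (dl R (C.σ y)⁻¹ * C.Ψ 1) *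
          (C.m i * C.ε) := by simp only [mul_assoc]
    _ = C.ε * C.m' i * (C.Ψ (dl R y) * w) * x * (w' * C.Ψ (dl R y⁻¹)) * (C.m i * C.ε) := by
        rw [hw1, hw2]
    _ = C.ε * (C.m' i * C.Ψ (dl R y)) * w * x * w' * (C.Ψ (dl R y⁻¹) * C.m i) * C.ε := by
        simp only [mul_assoc]
    _ = (C.ε * C.Ψ (dl R y)) * C.m' i * w * x * w' * C.m i * (C.Ψ (dl R y⁻¹) * C.ε) := by
        rw [C.m'_comm, ← C.m_comm]; simp only [mul_assoc]
    _ = _ := by rw [← C.ε_comm (dl R y⁻¹), C.ε_comm]; simp only [mul_assoc]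

private theorem DOM_T_add (x y : MonoidAlgebra R X) : C.DOM_T (x + y) = C.DOM_T x + C.DOM_T y := by
  let _ := C.fin
  rw [DOM_T_eq, DOM_T_eq, DOM_T_eq, ← Finset.sum_add_distrib]
  exact Finset.sum_congr rfl fun i _ => by simp only [mul_add, add_mul]

private theorem DOM_T_zero : C.DOM_T 0 = 0 := by
  let _ := C.fin
  rw [DOM_T_eq]
  exact Finset.sum_eq_zero fun i _ => by simp only [mul_zero, zero_mul]

private theorem DOM_T_sum {I : Type*} (s : Finset I) (f : I → MonoidAlgebra R X) :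
    C.DOM_T (∑ i ∈ s, f i) = ∑ i ∈ s, C.DOM_T (f i) := by
  classical
  induction s using Finset.induction_on with
  | empty => simp [DOM_T_zero]
  | insert a s ha ih => rw [Finset.sum_insert ha, Finset.sum_insert ha, DOM_T_add, ih]

private theorem DOM_T_mem [Finite X] (x : MonoidAlgebra R X) :
    ∃ a, a * C.e = a ∧ C.Ψ a * C.ε = C.DOM_T x := by
  let _ := C.fin
  have h := fun i => C.corner' (C.m' i * x * C.m i)
  choose f hf using h
  refine ⟨(∑ i, f i) * C.e, by rw [mul_assoc, C.e_idem], ?_⟩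
  rw [C.Ψ_mul_e, map_sum, Finset.sum_mul, DOM_T_eq]
  refine Finset.sum_congr rfl fun i _ => ?_
  rw [← hf]
  simp only [mul_assoc]

/-- the element of `R Y` describing the partial trace -/
private noncomputable def DOM_u [Finite X] (x : MonoidAlgebra R X) : MonoidAlgebra R Y :=
  (C.DOM_T_mem x).choose

private theorem DOM_u_e [Finite X] (x : MonoidAlgebra R X) : C.DOM_u x * C.e = C.DOM_u x :=
  (C.DOM_T_mem x).choose_spec.1

private theorem DOM_u_Ψ [Finite X] (x : MonoidAlgebra R X) :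
    C.Ψ (C.DOM_u x) * C.ε = C.DOM_T x := (C.DOM_T_mem x).choose_spec.2

private theorem DOM_eq {a c : MonoidAlgebra R Y} (ha : a * C.e = a) (hc : c * C.e = c)
    (h : C.Ψ a * C.ε = C.Ψ c * C.ε) : a = c := by
  have h1 := C.eq_of_Ψ (C.eq_of_ε h)
  rwa [ha, hc] at h1

private theorem DOM_u_cj [Finite X] (y : Y) (x : MonoidAlgebra R X) :
    C.DOM_u (cj (C.σ y) x) = cj y (C.DOM_u x) := by
  apply C.DOM_eq (C.DOM_u_e _)
  · unfold cj
    calc dl R y * C.DOM_u x * dl R y⁻¹ * C.e = dl R y * C.DOM_u x * (dl R y⁻¹ * C.e) := by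
          rw [mul_assoc]
      _ = dl R y * (C.DOM_u x * C.e) * dl R y⁻¹ := by
          rw [C.e_central]; simp only [mul_assoc]
      _ = _ := by rw [C.DOM_u_e]
  · rw [C.DOM_u_Ψ, C.DOM_T_cj, ← C.DOM_u_Ψ]
    unfold cj
    rw [C.mul, C.mul]
    calc C.Ψ (dl R y) * (C.Ψ (C.DOM_u x) * C.ε) * C.Ψ (dl R y⁻¹) =
        C.Ψ (dl R y) * C.Ψ (C.DOM_u x) * (C.ε * C.Ψ (dl R y⁻¹)) := by simp only [mul_assoc]
      _ = _ := by rw [C.ε_comm]; simp only [mul_assoc]

/-- the stabiliser in `Y` of a point -/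
private def DOM_st {Q : Subgroup X} (y : X ⧸ Q) : Subgroup Y :=
  (MulAction.stabilizer X y).comap C.σ

private theorem DOM_mem_st {Q : Subgroup X} {y : X ⧸ Q} {g : Y} :
    g ∈ C.DOM_st y ↔ C.σ g • y = y := Iff.rfl

private theorem DOM_orbit {Q : Subgroup X} (y : X ⧸ Q) :
    Set.BijOn (fun q : Y ⧸ C.DOM_st y => C.σ (Quotient.out q) • y) Set.univ
      {x | ∃ t ∈ C.σ.range, t • y = x} := by
  refine ⟨?_, ?_, ?_⟩
  · intro q _
    exact ⟨_, ⟨_, rfl⟩, rfl⟩
  · intro q _ q' _ h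
    dsimp only at h
    have h1 : (Quotient.out q')⁻¹ * Quotient.out q ∈ C.DOM_st y := by
      rw [DOM_mem_st, map_mul, map_inv, mul_smul, h, inv_smul_smul]
    rw [← QuotientGroup.eq, QuotientGroup.out_eq', QuotientGroup.out_eq'] at h1
    exact h1.symm
  · rintro x ⟨t, ⟨g, rfl⟩, rfl⟩
    refine ⟨(g : Y ⧸ C.DOM_st y), Set.mem_univ _, ?_⟩
    have h2 : (Quotient.out (g : Y ⧸ C.DOM_st y))⁻¹ * g ∈ C.DOM_st y := by
      rw [← QuotientGroup.eq, QuotientGroup.out_eq']
    rw [DOM_mem_st, map_mul, map_inv, mul_smul] at h2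
    dsimp only
    exact (inv_smul_eq_iff.1 h2).symm

end

/-- Descent of relative traces, when the partial trace of `1` is a unit. -/
theorem trFrom_down {Λ Y X : Type*} [CommRing Λ] [IsLocalRing Λ]
    [IsNoetherianRing Λ] [IsAdicComplete (maximalIdeal Λ) Λ] [Group Y] [Group X] [Finite X]
    (C : Xf Λ Y X) {r : Λ} (hr : IsUnit r)
    (hrank : @Finset.sum C.ι _ _ (@Finset.univ C.ι C.fin) (fun i => C.ε * C.m' i * C.m i * C.ε) =
      r • C.ε)
    {b : MonoidAlgebra Λ X} (hb : ∀ x, x * b = b * x) {b' : MonoidAlgebra Λ Y} (hb' : IsBlk b')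
    (he : b' * C.e = b') (hΨ : C.Ψ b' = b * C.Ψ 1) {Q : Subgroup X} (h : TrFrom b Q) :
    ∃ Q' : Subgroup Y, TrFrom b' Q' ∧ ∃ x : X, ∀ g ∈ Q', x⁻¹ * C.σ g * x ∈ Q := by
  classical
  have hfY : Finite Y := Finite.of_injective C.σ C.inj
  have : Fintype X := Fintype.ofFinite _
  have : Fintype Y := Fintype.ofFinite _
  have : Fintype (X ⧸ Q) := Fintype.ofFinite _
  let _ := C.fin
  obtain ⟨v, rfl⟩ := hr
  rw [trFrom_iff] at h
  obtain ⟨A, hA, hbA⟩ := h
  let F : X ⧸ Q → MonoidAlgebra Λ X := fun x => cj (Quotient.out x) A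
  have hF : ∀ (g : X) (x : X ⧸ Q), F (g • x) = cj g (F x) := by
    intro g x
    simp only [F]
    rw [cj_cj]
    have : g • x = ((g * Quotient.out x : X) : X ⧸ Q) := by
      conv_lhs => rw [← QuotientGroup.out_eq' x]
      rfl
    rw [this, cj_out hA]
  let u : X ⧸ Q → MonoidAlgebra Λ Y := fun x => C.DOM_u (F x)
  have hu1 : ∀ g x, u (C.σ g • x) = cj g (u x) := by
    intro g x
    simp only [u]
    rw [hF, C.DOM_u_cj]
  have hTb : C.DOM_T b = C.Ψ ((v : Λ) • b') * C.ε := by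
    rw [DOM_T_eq, map_smul, hΨ]
    calc ∑ i, C.ε * C.m' i * b * C.m i * C.ε = ∑ i, b * (C.ε * C.m' i * C.m i * C.ε) := by
          refine Finset.sum_congr rfl fun i _ => ?_
          rw [hb (C.ε * C.m' i)]
          simp only [mul_assoc]
      _ = b * ((v : Λ) • C.ε) := by rw [← Finset.mul_sum, hrank]
      _ = _ := by
          rw [mul_smul_comm, smul_mul_assoc, mul_assoc b, C.one_ε]
  have hbu : (v : Λ) • b' = ∑ x, u x := by
    apply C.DOM_eq
    · rw [smul_mul_assoc, he]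
    · rw [Finset.sum_mul]
      exact Finset.sum_congr rfl fun x _ => C.DOM_u_e _
    · rw [map_sum, Finset.sum_mul, ← hTb, hbA]
      unfold tr
      rw [DOM_T_sum]
      exact Finset.sum_congr rfl fun x _ => (C.DOM_u_Ψ _).symm
  let Z : MulAction.orbitRel.Quotient C.σ.range (X ⧸ Q) → MonoidAlgebra Λ Y := fun ω =>
    ∑ x ∈ Finset.univ.filter (fun x : X ⧸ Q => Quotient.mk _ x = ω), u x
  have hZ : ∀ ω g, cj g (Z ω) = Z ω := by
    intro ω g
    simp only [Z]
    rw [cj_sum]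
    refine Finset.sum_bij (fun x _ => C.σ g • x) ?_ ?_ ?_ ?_
    · intro x hx
      rw [Finset.mem_filter] at hx ⊢
      refine ⟨Finset.mem_univ _, ?_⟩
      rw [← hx.2]
      apply Quotient.sound
      exact ⟨⟨C.σ g, ⟨g, rfl⟩⟩, rfl⟩
    · intro x _ y _ hxy
      exact MulAction.injective (C.σ g) hxy
    · intro y hy
      rw [Finset.mem_filter] at hy
      refine ⟨(C.σ g)⁻¹ • y, ?_, by simp⟩
      rw [Finset.mem_filter]
      refine ⟨Finset.mem_univ _, ?_⟩
      rw [← hy.2]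
      apply Quotient.sound
      exact ⟨⟨(C.σ g)⁻¹, C.σ.range.inv_mem ⟨g, rfl⟩⟩, rfl⟩
    · intro x _
      exact (hu1 g x).symm
  have : Fintype (MulAction.orbitRel.Quotient C.σ.range (X ⧸ Q)) := Fintype.ofFinite _
  have hbZ : (v : Λ) • b' = ∑ ω, Z ω := by
    rw [hbu]
    simp only [Z]
    rw [Finset.sum_fiberwise]
  have hbcj : ∀ g, cj g b' = b' := (central_iff b').1 hb'.central
  have hsum : b' = ∑ ω ∈ Finset.univ, (((v⁻¹ : Λˣ) : Λ) • Z ω) * b' + 0 * b' := by
    have h1 : ((v⁻¹ : Λˣ) : Λ) • ((v : Λ) • b') = b' := by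
      rw [smul_smul, Units.inv_mul, one_smul]
    calc b' = b' * b' := hb'.idem.symm
      _ = (((v⁻¹ : Λˣ) : Λ) • ((v : Λ) • b')) * b' := by rw [h1]
      _ = _ := by
          rw [hbZ, Finset.smul_sum, Finset.sum_mul, zero_mul, add_zero]
  obtain ⟨ω, -, w, hw, hwb⟩ := exists_unit_of_sum hb' Finset.univ
    (fun ω => ((v⁻¹ : Λˣ) : Λ) • Z ω)
    (fun ω _ => (central_iff _).2 fun g => by rw [cj_smul, hZ]) 0
    (fun x => by rw [mul_zero, zero_mul])
    (fun g => by
      have : (0 : MonoidAlgebra Λ Y).coeff g = 0 := by simp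
      rw [this]
      exact Ideal.zero_mem _) hsum
  have hwcj : ∀ g, cj g w = w := (central_iff w).1 hw
  obtain ⟨y, hy⟩ := Quotient.exists_rep ω
  have : Fintype (Y ⧸ C.DOM_st y) := Fintype.ofFinite _
  have hZy : Z ω = ∑ q : Y ⧸ C.DOM_st y, cj (Quotient.out q) (u y) := by
    have h1 : Z ω = ∑ q : Y ⧸ C.DOM_st y, u (C.σ (Quotient.out q) • y) := by
      simp only [Z]
      symm
      have hset : (Finset.univ.filter (fun x : X ⧸ Q => Quotient.mk _ x = ω) : Set (X ⧸ Q)) =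
          {x | ∃ t ∈ C.σ.range, t • y = x} := by
        ext x
        simp only [Finset.coe_filter, Finset.mem_univ, true_and, Set.mem_ofPred_eq]
        rw [← hy]
        constructor
        · intro hx
          obtain ⟨m, hm⟩ := Quotient.exact hx
          exact ⟨m, m.2, hm⟩
        · rintro ⟨t, ht, hx⟩
          apply Quotient.sound
          exact ⟨⟨t, ht⟩, hx⟩
      have hbij := C.DOM_orbit y
      rw [← hset] at hbij
      refine Finset.sum_bij (fun q _ => C.σ (Quotient.out q) • y) ?_ ?_ ?_ ?_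
      · intro t _
        exact hbij.1 (Set.mem_univ t)
      · intro t _ t' _ htt
        exact hbij.2.1 (Set.mem_univ t) (Set.mem_univ t') htt
      · intro x hx
        obtain ⟨t, -, ht⟩ := hbij.2.2 hx
        exact ⟨t, Finset.mem_univ _, ht⟩
      · intro t _
        rfl
    rw [h1]
    exact Finset.sum_congr rfl fun q _ => hu1 _ _
  have hyinv : ∀ g ∈ C.DOM_st y, cj g (u y) = u y := by
    intro g hg
    rw [← hu1, C.DOM_mem_st.1 hg]
  refine ⟨C.DOM_st y, ?_, Quotient.out y, ?_⟩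
  · rw [trFrom_iff]
    refine ⟨((v⁻¹ : Λˣ) : Λ) • (u y * (w * b')), ?_, ?_⟩
    · intro g hg
      rw [cj_smul, cj_mul, hyinv g hg, cj_mul, hwcj, hbcj]
    · unfold tr
      conv_lhs => rw [← hwb, smul_mul_assoc, mul_smul_comm, ← mul_assoc, ← hw (Z ω), mul_assoc, hZy,
        Finset.sum_mul, Finset.smul_sum]
      refine Finset.sum_congr rfl fun q _ => ?_
      rw [cj_smul, cj_mul _ (u y), cj_mul _ w, hwcj, hbcj]
  · intro g hg
    have h1 := C.DOM_mem_st.1 hg
    exact (smul_out_iff _ _).1 h1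

/-- The variant of `Xf.dom` with local data only at abelian subgroups, when the partial trace of
`1` is a unit: the defect groups of `b'` are abelian by `trFrom_down`. -/
theorem dom_ab {ℓ : ℕ} [Fact ℓ.Prime] {Λ : Type u} {Y X : Type} [CommRing Λ] [IsLocalRing Λ]
    [IsNoetherianRing Λ] [IsAdicComplete (maximalIdeal Λ) Λ] [CharP (ResidueField Λ) ℓ]
    [Group Y] [Group X] [Finite X] (C : Xf Λ Y X) {r : Λ} (hr : IsUnit r)
    (hrank : @Finset.sum C.ι _ _ (@Finset.univ C.ι C.fin) (fun i => C.ε * C.m' i * C.m i * C.ε) =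
      r • C.ε)
    (L : ∀ D : Subgroup Y, IsPGroup ℓ D → (∀ x ∈ D, ∀ y ∈ D, x * y = y * x) →
      Nonempty (XfLoc (residue Λ) C D)) : Dom ℓ Λ Y C.f := by
  intro τ hτ
  have : Finite Y := Finite.of_injective C.σ C.inj
  obtain ⟨b', hb', he, hΨ, hup⟩ := C.exists_blk τ.hb hτ
  obtain ⟨D', hD'⟩ := exists_defect (ℓ := ℓ) hb'
  obtain ⟨Q', hQ', x, hx⟩ := C.trFrom_down hr hrank τ.hb.central hb' he hΨ τ.defect.trace
  obtain ⟨y, hy⟩ := le_of_br hQ' hD'.pgroup hD'.br
  have hab : ∀ g ∈ D', ∀ h ∈ D', g * h = h * g := by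
    intro g hg h hh
    have h1 := hx _ (hy ⟨g, hg, rfl⟩)
    have h2 := hx _ (hy ⟨h, hh, rfl⟩)
    have h3 := τ.comm _ h1 _ h2
    have h4 : C.σ (y * (g * h) * y⁻¹) = C.σ (y * (h * g) * y⁻¹) := by
      have h5 : x⁻¹ * C.σ (y * (g * h) * y⁻¹) * x = x⁻¹ * C.σ (y * (h * g) * y⁻¹) * x := by
        have e : ∀ p q : Y, x⁻¹ * C.σ (y * (p * q) * y⁻¹) * x =
            (x⁻¹ * C.σ ((MulAut.conj y).toMonoidHom p) * x) *
            (x⁻¹ * C.σ ((MulAut.conj y).toMonoidHom q) * x) := by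
          intro p q
          simp only [MulEquiv.toMonoidHom_eq_coe, MonoidHom.coe_coe, MulAut.conj_apply, map_mul,
            map_inv]
          group
        rw [e, e, h3]
      simpa using h5
    have h6 := C.inj h4
    simpa using h6
  obtain ⟨L'⟩ := L D' hD'.pgroup hab
  exact C.DOM_at τ hb' he hΨ hup hD' L'

end Xf

end Pool.Agent.URing
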