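import Pool.Agent.URing.Lin

/-!
# Extensions of linear characters under a block (module LEXT)
-/

set_option autoImplicit false

namespace Pool.Agent.URing

open MonoidAlgebra Pool.Agent.UBlocks

private theorem lext_conj_mem {X : Type*} [Group X] [Finite X] (N : Subgroup X) {g : X}
    (hn : ∀ n ∈ N, g * n * g⁻¹ ∈ N) {n : X} (h : n ∈ N) : g⁻¹ * n * g ∈ N := by
  have hinj : Function.Injective (fun n : N => (⟨g * n * g⁻¹, hn n n.2⟩ : N)) := by
    intro a b hab
    have h1 : g * (a : X) * g⁻¹ = g * b * g⁻¹ := congrArg Subtype.val hab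
    exact Subtype.ext (mul_left_cancel (mul_right_cancel h1))
  obtain ⟨m, hm⟩ := (Finite.injective_iff_surjective.1 hinj) ⟨n, h⟩
  have h2 : g * (m : X) * g⁻¹ = n := congrArg Subtype.val hm
  have h3 : g⁻¹ * n * g = m := by
    rw [← h2]
    group
  rw [h3]
  exact m.2

private theorem lext_comm_idp {R X : Type*} [CommRing R] [Group X] [Finite X]
    (N : Subgroup X) (χ : N →* Rˣ) {g : X}
    (hn : ∀ n (h : n ∈ N), ∃ h' : g * n * g⁻¹ ∈ N, χ ⟨_, h'⟩ = χ ⟨n, h⟩) :
    dl R g * idp N χ = idp N χ * dl R g := by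
  rw [← cj_eq_iff]
  ext h
  rw [coeff_cj]
  by_cases hh : h ∈ N
  · have h1 : g⁻¹ * h * g ∈ N := lext_conj_mem N (fun n hn' => (hn n hn').1) hh
    have h2 := coeff_idp (R := R) N χ ⟨_, h1⟩
    have h3 := coeff_idp (R := R) N χ ⟨_, hh⟩
    rw [show ((⟨g⁻¹ * h * g, h1⟩ : N) : X) = g⁻¹ * h * g from rfl] at h2
    rw [show ((⟨h, hh⟩ : N) : X) = h from rfl] at h3
    rw [h2, h3]
    congr 2
    obtain ⟨h4, h5⟩ := hn _ (N.inv_mem h1)
    have h6 : (⟨h, hh⟩ : N)⁻¹ = ⟨_, h4⟩ := by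
      apply Subtype.ext
      simp only [InvMemClass.coe_inv]
      group
    rw [h6, h5]
    rfl
  · have h1 : g⁻¹ * h * g ∉ N := by
      intro h1
      apply hh
      have := (hn _ h1).1
      have h2 : g * (g⁻¹ * h * g) * g⁻¹ = h := by group
      rwa [h2] at this
    rw [coeff_idp_zero N χ hh, coeff_idp_zero N χ h1]

private theorem lext_smul_inj {R X : Type*} [CommRing R] [IsDomain R] [Group X]
    {w : MonoidAlgebra R X} (hw : w ≠ 0) {r s : R} (h : r • w = s • w) : r = s := by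
  obtain ⟨x, hx⟩ : ∃ x, w.coeff x ≠ 0 := by
    by_contra hcon
    push Not at hcon
    apply hw
    ext x
    rw [hcon x]
    simp
  have h1 := congrArg (fun z : MonoidAlgebra R X => z.coeff x) h
  simp only [coeff_smul, Finsupp.smul_apply, smul_eq_mul] at h1
  exact mul_right_cancel₀ hx h1

/-- the projection on an eigenspace of `g` -/
private noncomputable def lext_f {R X : Type*} [CommRing R] [Group X] (g : X) (ω : R) (i : ℕ) :
    MonoidAlgebra R X :=
  Ring.inverse ((orderOf g : ℕ) : R) •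
    ∑ j ∈ Finset.range (orderOf g), (ω ^ i) ^ j • dl R (g ^ j)

private theorem lext_f_mul {R X : Type*} [CommRing R] [Group X] (g : X) {ω : R}
    (hω : IsPrimitiveRoot ω (orderOf g)) (i : ℕ) :
    ω ^ i • (dl R g * lext_f g ω i) = lext_f g ω i := by
  unfold lext_f
  rw [mul_smul_comm, smul_comm, Finset.mul_sum, Finset.smul_sum]
  congr 1
  have h1 : ∀ j ∈ Finset.range (orderOf g), ω ^ i • (dl R g * ((ω ^ i) ^ j • dl R (g ^ j))) =
      (ω ^ i) ^ (j + 1) • dl R (g ^ (j + 1)) := by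
    intro j _
    rw [mul_smul_comm, smul_smul, ← dl_mul, ← pow_succ', ← pow_succ']
  rw [Finset.sum_congr rfl h1]
  have h2 := Finset.sum_range_succ (fun j => (ω ^ i) ^ j • dl R (g ^ j)) (orderOf g)
  have h3 := Finset.sum_range_succ' (fun j => (ω ^ i) ^ j • dl R (g ^ j)) (orderOf g)
  rw [h2] at h3
  have h4 : (ω ^ i) ^ orderOf g • dl R (g ^ orderOf g) = (ω ^ i) ^ 0 • dl R (g ^ 0) := by
    rw [pow_orderOf_eq_one, ← pow_mul, mul_comm i, pow_mul, hω.pow_eq_one, one_pow, pow_zero,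
      pow_zero]
  rw [h4] at h3
  exact (add_right_cancel h3).symm

private theorem lext_f_sum {R X : Type*} [CommRing R] [IsDomain R] [Group X] (g : X) {ω : R}
    (ho : 0 < orderOf g) (hu : IsUnit ((orderOf g : ℕ) : R))
    (hω : IsPrimitiveRoot ω (orderOf g)) :
    ∑ i ∈ Finset.range (orderOf g), lext_f g ω i = 1 := by
  unfold lext_f
  rw [← Finset.smul_sum, Finset.sum_comm]
  have h1 : ∀ j ∈ Finset.range (orderOf g),
      ∑ i ∈ Finset.range (orderOf g), (ω ^ i) ^ j • dl R (g ^ j) =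
        if j = 0 then ((orderOf g : ℕ) : R) • (1 : MonoidAlgebra R X) else 0 := by
    intro j hj
    rw [← Finset.sum_smul]
    split_ifs with h0
    · subst h0
      simp [dl_one]
    · have h2 : ∑ i ∈ Finset.range (orderOf g), (ω ^ i) ^ j = 0 := by
        have h3 : ∀ i ∈ Finset.range (orderOf g), (ω ^ i) ^ j = (ω ^ j) ^ i := by
          intro i _
          rw [← pow_mul, ← pow_mul, mul_comm]
        rw [Finset.sum_congr rfl h3]
        have h4 := geom_sum_mul (ω ^ j) (orderOf g)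
        rw [← pow_mul, mul_comm j, pow_mul, hω.pow_eq_one, one_pow, sub_self] at h4
        rcases mul_eq_zero.1 h4 with h5 | h5
        · exact h5
        · exfalso
          have h6 : ω ^ j = 1 := sub_eq_zero.1 h5
          have h7 := hω.dvd_of_pow_eq_one j h6
          exact absurd (Nat.le_of_dvd (Nat.pos_of_ne_zero h0) h7)
            (not_le.2 (Finset.mem_range.1 hj))
      rw [h2, zero_smul]
  rw [Finset.sum_congr rfl h1, Finset.sum_ite_eq' , if_pos (Finset.mem_range.2 ho), smul_smul,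
    Ring.inverse_mul_cancel _ hu, one_smul]

private theorem lext_idp_mul {R X : Type*} [CommRing R] [Group X] [Finite X]
    (N : Subgroup X) (ν : N →* Rˣ) (hu : IsUnit ((Nat.card N : ℕ) : R)) {w : MonoidAlgebra R X}
    (hw : ∀ n : N, dl R (n : X) * w = ((ν n : Rˣ) : R) • w) : idp N ν * w = w := by
  have : Fintype N := Fintype.ofFinite N
  unfold idp
  rw [finsum_eq_sum_of_fintype, smul_mul_assoc, Finset.sum_mul]
  have h1 : ∀ n ∈ (Finset.univ : Finset N),
      ((ν n⁻¹ : Rˣ) : R) • dl R (n : X) * w = w := by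
    intro n _
    rw [smul_mul_assoc, hw, smul_smul, ← Units.val_mul, ← map_mul, inv_mul_cancel, map_one,
      Units.val_one, one_smul]
  rw [Finset.sum_congr rfl h1, Finset.sum_const, Finset.card_univ, ← Nat.card_eq_fintype_card,
    ← Nat.cast_smul_eq_nsmul R, smul_smul, Ring.inverse_mul_cancel _ hu, one_smul]

/-- One step: `N ≤ N'`, `N'` generated by `N` and `g`, where `g` normalises `N` and
`χ(g n g⁻¹) = χ(n)`.  Let `m` be the least positive integer with `g^m ∈ N`, `c = χ(g^m)`.  Let `o` be the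
order of `g`; `m` divides `o` and `c^(o/m) = 1`; if `ω` is a primitive `o`-th root of unity then
`c = ω^(m j)` and the `m` elements `r = ω^(j + i o/m)`, `i < m`, satisfy `r^m = c`.  For each of them
there is a homomorphism `ν_r : N' → Rˣ`, `ν_r(n g^i) = χ(n) r^i`, and the sum of the idempotents of
the `ν_r` is the idempotent of `χ` (coefficient at `n g^i`: `∑ r^(-i) = 0` for `0 < i < m`).  So if
`b e_χ ≠ 0` then `b e_(ν_r) ≠ 0` for one of them. -/
theorem exists_ext_step {R X : Type*} [CommRing R] [IsDomain R] [Group X] [Finite X]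
    (N N' : Subgroup X) (hle : N ≤ N')
    (hu : IsUnit ((Nat.card N' : ℕ) : R)) (χ : N →* Rˣ) {g : X}
    (hζ : ∃ ω : R, IsPrimitiveRoot ω (orderOf g))
    (hgen : N' = N ⊔ Subgroup.zpowers g) (hn : ∀ n (h : n ∈ N), ∃ h' : g * n * g⁻¹ ∈ N,
      χ ⟨_, h'⟩ = χ ⟨n, h⟩)
    {b : MonoidAlgebra R X} (hb : b * idp N χ ≠ 0) :
    ∃ ν : N' →* Rˣ, (∀ n (h : n ∈ N), ν ⟨n, hle h⟩ = χ ⟨n, h⟩) ∧ b * idp N' ν ≠ 0 := by
  obtain ⟨ω, hω⟩ := hζ
  have hg : g ∈ N' := by
    rw [hgen]
    exact (le_sup_right : _ ≤ N ⊔ Subgroup.zpowers g) (Subgroup.mem_zpowers g)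
  have ho : 0 < orderOf g := orderOf_pos g
  have hou : IsUnit ((orderOf g : ℕ) : R) := by
    have h1 : orderOf g ∣ Nat.card N' := by
      have := orderOf_dvd_natCard (⟨g, hg⟩ : N')
      rwa [Subgroup.orderOf_mk] at this
    exact isUnit_of_dvd_unit (Nat.cast_dvd_cast h1) hu
  -- choose the eigenvalue
  obtain ⟨i, hi⟩ : ∃ i, b * idp N χ * lext_f g ω i ≠ 0 := by
    by_contra hcon
    push Not at hcon
    apply hb
    calc b * idp N χ = b * idp N χ * ∑ i ∈ Finset.range (orderOf g), lext_f g ω i := by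
          rw [lext_f_sum g ho hou hω, mul_one]
      _ = 0 := by
          rw [Finset.mul_sum]
          exact Finset.sum_eq_zero fun i _ => hcon i
  set w : MonoidAlgebra R X := idp N χ * lext_f g ω i with hw
  have hbw : b * w ≠ 0 := by
    rw [hw, ← mul_assoc]
    exact hi
  have hw0 : w ≠ 0 := by
    intro h0
    apply hbw
    rw [h0, mul_zero]
  have hωu : IsUnit ω := hω.isUnit ho.ne'
  let S : Subgroup X :=
    { carrier := {x | ∃ r : Rˣ, dl R x * w = (r : R) • w}
      mul_mem' := by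
        rintro x y ⟨r, hr⟩ ⟨s, hs⟩
        refine ⟨s * r, ?_⟩
        rw [dl_mul, mul_assoc, hs, mul_smul_comm, hr, smul_smul, Units.val_mul]
      one_mem' := ⟨1, by rw [dl_one, one_mul, Units.val_one, one_smul]⟩
      inv_mem' := by
        rintro x ⟨r, hr⟩
        refine ⟨r⁻¹, ?_⟩
        have h1 : dl R x⁻¹ * (dl R x * w) = dl R x⁻¹ * ((r : R) • w) := by rw [hr]
        rw [← mul_assoc, dl_inv_mul, one_mul, mul_smul_comm] at h1
        conv_rhs => rw [h1]
        rw [smul_smul, Units.inv_mul, one_smul] }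
  have hNS : N ≤ S := fun n hnn => ⟨χ ⟨n, hnn⟩, by
    rw [hw, ← mul_assoc]
    have := dl_mul_idp (R := R) N χ ⟨n, hnn⟩
    rw [show ((⟨n, hnn⟩ : N) : X) = n from rfl] at this
    rw [this, smul_mul_assoc]⟩
  have hgS : g ∈ S := by
    refine ⟨(hωu.unit ^ i)⁻¹, ?_⟩
    have h1 : ω ^ i • (dl R g * w) = w := by
      rw [hw, ← mul_assoc, lext_comm_idp N χ hn, mul_assoc, ← mul_smul_comm, lext_f_mul g hω]
    have h2 : (((hωu.unit ^ i : Rˣ) : R)) = ω ^ i := by
      rw [Units.val_pow_eq_pow_val, IsUnit.unit_spec]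
    conv_rhs => rw [← h1, ← h2, smul_smul, Units.inv_mul, one_smul]
  have hS : N' ≤ S := by
    rw [hgen]
    exact sup_le hNS (by rw [Subgroup.zpowers_le]; exact hgS)
  choose r hr using fun x : N' => hS x.2
  let ν : N' →* Rˣ :=
    { toFun := r
      map_one' := by
        apply Units.ext
        apply lext_smul_inj hw0
        rw [← hr 1, Subgroup.coe_one, dl_one, one_mul, Units.val_one, one_smul]
      map_mul' := by
        intro x y
        apply Units.ext
        apply lext_smul_inj hw0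
        rw [← hr (x * y), Subgroup.coe_mul, dl_mul, mul_assoc, hr y, mul_smul_comm, hr x,
          smul_smul, Units.val_mul, mul_comm] }
  have hν : ∀ x : N', dl R (x : X) * w = ((ν x : Rˣ) : R) • w := hr
  refine ⟨ν, ?_, ?_⟩
  · intro n hnn
    apply Units.ext
    apply lext_smul_inj hw0
    rw [← hν ⟨n, hle hnn⟩]
    have := dl_mul_idp (R := R) N χ ⟨n, hnn⟩
    rw [show ((⟨n, hnn⟩ : N) : X) = n from rfl] at this
    rw [show ((⟨n, hle hnn⟩ : N') : X) = n from rfl, hw, ← mul_assoc, this, smul_mul_assoc]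
  · intro h0
    apply hbw
    rw [← lext_idp_mul N' ν hu hν, ← mul_assoc, h0, zero_mul]

/-- By induction: all commutators of elements of `N'` are in `N` and in the kernel of `χ`, so
`N`, `N ⊔ ⟨g⟩`, .. all satisfy the hypothesis of `exists_ext_step` (for the extended character `ν`:
`ν(g n g⁻¹ n⁻¹) = χ(g n g⁻¹ n⁻¹) = 1`).  The order of `g ∈ N'` divides `|N'|`, so a power of `ζ` is a
primitive root of this order. -/
theorem exists_ext {R X : Type*} [CommRing R] [IsDomain R] [Group X] [Finite X]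
    (N N' : Subgroup X) (hle : N ≤ N') (hζ : ∃ ζ : R, IsPrimitiveRoot ζ (Nat.card N'))
    (hu : IsUnit ((Nat.card N' : ℕ) : R)) (χ : N →* Rˣ)
    (hc : ∀ g ∈ N', ∀ h ∈ N', ∃ h' : g * h * g⁻¹ * h⁻¹ ∈ N, χ ⟨_, h'⟩ = 1)
    {b : MonoidAlgebra R X} (hb : b * idp N χ ≠ 0) :
    ∃ ν : N' →* Rˣ, (∀ n (h : n ∈ N), ν ⟨n, hle h⟩ = χ ⟨n, h⟩) ∧ b * idp N' ν ≠ 0 := by
  obtain ⟨ζ, hζ⟩ := hζ
  suffices key : ∀ (k : ℕ) (N : Subgroup X) (hle : N ≤ N') (χ : N →* Rˣ),
      Nat.card N' - Nat.card N = k →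
      (∀ g ∈ N', ∀ h ∈ N', ∃ h' : g * h * g⁻¹ * h⁻¹ ∈ N, χ ⟨_, h'⟩ = 1) →
      b * idp N χ ≠ 0 →
      ∃ ν : N' →* Rˣ, (∀ n (h : n ∈ N), ν ⟨n, hle h⟩ = χ ⟨n, h⟩) ∧ b * idp N' ν ≠ 0 from
    key _ N hle χ rfl hc hb
  clear hb hc χ hle N
  intro k
  induction k using Nat.strong_induction_on with
  | _ k ih =>
    intro N hle χ hk hc hb
    by_cases hNN : N' ≤ N
    · have hNe : N = N' := le_antisymm hle hNN
      subst hNe
      exact ⟨χ, fun n h => rfl, hb⟩
    · obtain ⟨g, hg, hgN⟩ := SetLike.not_le_iff_exists.1 hNN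
      have hord : orderOf g ∣ Nat.card N' := by
        have := orderOf_dvd_natCard (⟨g, hg⟩ : N')
        rwa [Subgroup.orderOf_mk] at this
      set M : Subgroup X := N ⊔ Subgroup.zpowers g with hM
      have hNM : N ≤ M := le_sup_left
      have hgM : g ∈ M := (le_sup_right : _ ≤ N ⊔ Subgroup.zpowers g) (Subgroup.mem_zpowers g)
      have hMN : M ≤ N' := sup_le hle (by rw [Subgroup.zpowers_le]; exact hg)
      have hMu : IsUnit ((Nat.card M : ℕ) : R) :=
        isUnit_of_dvd_unit (Nat.cast_dvd_cast (Subgroup.card_dvd_of_le hMN)) hu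
      have hω : ∃ ω : R, IsPrimitiveRoot ω (orderOf g) := by
        obtain ⟨a, ha⟩ := hord
        exact ⟨ζ ^ a, hζ.pow Nat.card_pos (by rw [ha, mul_comm])⟩
      have hn : ∀ n (h : n ∈ N), ∃ h' : g * n * g⁻¹ ∈ N, χ ⟨_, h'⟩ = χ ⟨n, h⟩ := by
        intro n h
        obtain ⟨h1, h2⟩ := hc g hg n (hle h)
        have h3 : g * n * g⁻¹ = g * n * g⁻¹ * n⁻¹ * n := by group
        refine ⟨by rw [h3]; exact N.mul_mem h1 h, ?_⟩
        have h4 : (⟨g * n * g⁻¹, by rw [h3]; exact N.mul_mem h1 h⟩ : N) =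
            ⟨g * n * g⁻¹ * n⁻¹, h1⟩ * ⟨n, h⟩ := Subtype.ext h3
        rw [h4, map_mul, h2, one_mul]
      obtain ⟨μ, hμ1, hμ2⟩ := exists_ext_step N M hNM hMu χ hω hM hn hb
      have hlt : Nat.card N < Nat.card M := by
        have h1 : N < M := lt_of_le_of_ne hNM fun h => hgN (h ▸ hgM)
        exact Set.Finite.card_lt_card (Set.toFinite (M : Set X)) h1
      have hle2 : Nat.card M ≤ Nat.card N' :=
        Nat.le_of_dvd Nat.card_pos (Subgroup.card_dvd_of_le hMN)
      obtain ⟨ν, hν1, hν2⟩ := ih (Nat.card N' - Nat.card M) (by omega) M hMN μ rfl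
        (fun x hx y hy => by
          obtain ⟨h1, h2⟩ := hc x hx y hy
          exact ⟨hNM h1, by rw [hμ1 _ h1, h2]⟩) hμ2
      exact ⟨ν, fun n h => by rw [hν1 n (hNM h), hμ1 n h], hν2⟩

end Pool.Agent.URing
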