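import Pool.Agent.URing.Lin

/-!
# Coprime action (modules GLAU, NZL)
-/

set_option autoImplicit false

namespace Pool.Agent.URing

open Pool.Agent.UBlocks

variable {ℓ : ℕ} [Fact ℓ.Prime] {X : Type*} [Group X] [Finite X]

/-- `D` acts by conjugation on the coset `L x`, which has `|L|` elements, prime to `ℓ`; the number
of fixed points is congruent to `|L|` modulo `ℓ`, so there is one
(`IsPGroup.card_modEq_card_fixedPoints`). -/
theorem exists_fixed {L D : Subgroup X} (hL : ¬ ℓ ∣ Nat.card L) (hD : IsPGroup ℓ D)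
    (hn : ∀ d ∈ D, ∀ l ∈ L, d * l * d⁻¹ ∈ L) {x : X} (hx : ∀ d ∈ D, d * x * d⁻¹ * x⁻¹ ∈ L) :
    ∃ l ∈ L, l * x ∈ Subgroup.centralizer (D : Set X) := by
  let act : MulAction D L :=
    { smul := fun d l => ⟨(d : X) * (l : X) * (d : X)⁻¹ * ((d : X) * x * (d : X)⁻¹ * x⁻¹),
        L.mul_mem (hn d d.2 l l.2) (hx d d.2)⟩
      one_smul := fun l => Subtype.ext (by
        show ((1 : D) : X) * (l : X) * ((1 : D) : X)⁻¹ *
          (((1 : D) : X) * x * ((1 : D) : X)⁻¹ * x⁻¹) = l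
        simp)
      mul_smul := fun d e l => Subtype.ext (by
        show ((d * e : D) : X) * (l : X) * ((d * e : D) : X)⁻¹ *
          (((d * e : D) : X) * x * ((d * e : D) : X)⁻¹ * x⁻¹) =
          (d : X) * ((e : X) * (l : X) * (e : X)⁻¹ * ((e : X) * x * (e : X)⁻¹ * x⁻¹)) * (d : X)⁻¹ *
            ((d : X) * x * (d : X)⁻¹ * x⁻¹)
        rw [Subgroup.coe_mul]
        group) }
  have hsm : ∀ (d : D) (l : L), ((d • l : L) : X) =
      (d : X) * (l : X) * (d : X)⁻¹ * ((d : X) * x * (d : X)⁻¹ * x⁻¹) := fun _ _ => rfl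
  obtain ⟨l, hl⟩ := hD.nonempty_fixed_point_of_prime_not_dvd_card L hL
  refine ⟨l, l.2, ?_⟩
  rw [Subgroup.mem_centralizer_iff]
  intro d hd
  have h1 := congrArg Subtype.val (hl ⟨d, hd⟩)
  rw [hsm] at h1
  have h2 : d * (l : X) * d⁻¹ * (d * x * d⁻¹ * x⁻¹) = l := h1
  calc d * ((l : X) * x) = d * (l : X) * d⁻¹ * (d * x * d⁻¹ * x⁻¹) * x * d := by group
    _ = (l : X) * x * d := by rw [h2]

/-- the fixed points of `D` on `N` -/
theorem card_inf_centralizer {N D : Subgroup X} (hD : IsPGroup ℓ D)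
    (hn : ∀ d ∈ D, ∀ l ∈ N, d * l * d⁻¹ ∈ N) :
    Nat.card (N ⊓ Subgroup.centralizer (D : Set X) : Subgroup X) ≡ Nat.card N [MOD ℓ] := by
  let act : MulAction D N :=
    { smul := fun d l => ⟨(d : X) * (l : X) * (d : X)⁻¹, hn d d.2 l l.2⟩
      one_smul := fun l => Subtype.ext (by
        show ((1 : D) : X) * (l : X) * ((1 : D) : X)⁻¹ = l
        simp)
      mul_smul := fun d e l => Subtype.ext (by
        show ((d * e : D) : X) * (l : X) * ((d * e : D) : X)⁻¹ =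
          (d : X) * ((e : X) * (l : X) * (e : X)⁻¹) * (d : X)⁻¹
        rw [Subgroup.coe_mul]
        group) }
  have hsm : ∀ (d : D) (l : N), ((d • l : N) : X) = (d : X) * (l : X) * (d : X)⁻¹ :=
    fun _ _ => rfl
  have h1 := hD.card_modEq_card_fixedPoints N
  have h2 : Nat.card (MulAction.fixedPoints D N) =
      Nat.card (N ⊓ Subgroup.centralizer (D : Set X) : Subgroup X) := by
    refine Nat.card_congr
      { toFun := fun l => ⟨((l : N) : X), (l : N).2, ?_⟩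
        invFun := fun l => ⟨⟨(l : X), l.2.1⟩, ?_⟩
        left_inv := fun l => rfl
        right_inv := fun l => rfl }
    · refine Subgroup.mem_centralizer_iff.2 fun d hd => ?_
      have h3 := congrArg Subtype.val (l.2 ⟨d, hd⟩)
      rw [hsm] at h3
      have h4 : d * ((l : N) : X) * d⁻¹ = ((l : N) : X) := h3
      calc d * ((l : N) : X) = d * ((l : N) : X) * d⁻¹ * d := by group
        _ = _ := by rw [h4]
    · intro d
      apply Subtype.ext
      rw [hsm]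
      have h3 := (Subgroup.mem_centralizer_iff.1 l.2.2) d d.2
      show (d : X) * (l : X) * (d : X)⁻¹ = l
      rw [h3]
      group
  rw [← h2]
  exact h1.symm

private theorem Glau_disj {N D : Subgroup X} (hN : ¬ ℓ ∣ Nat.card N) (hD : IsPGroup ℓ D) {y : X}
    (h1 : y ∈ N) (h2 : y ∈ D) : y = 1 := by
  obtain ⟨k, hk⟩ := hD ⟨y, h2⟩
  have h3 : y ^ ℓ ^ k = 1 := congrArg Subtype.val hk
  have h4 : orderOf y ∣ ℓ ^ k := orderOf_dvd_of_pow_eq_one h3
  have h5 : orderOf y ∣ Nat.card N := Subgroup.orderOf_dvd_natCard N h1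
  have h6 : (Nat.card N).Coprime (ℓ ^ k) :=
    (((Fact.out : ℓ.Prime).coprime_iff_not_dvd.2 hN).symm).pow_right k
  rw [← orderOf_eq_one_iff]
  exact Nat.eq_one_of_dvd_coprimes h6 h5 h4

/-- `N` normal of order prime to `ℓ`: an element of `N` which normalises the `ℓ`-group `D`
centralises it: `[n, d]` is in `N ∩ D = 1`. -/
theorem mem_centralizer_of_nz {N D : Subgroup X} [N.Normal] (hN : ¬ ℓ ∣ Nat.card N)
    (hD : IsPGroup ℓ D) {n : X} (hn : n ∈ N) (hz : n ∈ nz D) :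
    n ∈ Subgroup.centralizer (D : Set X) := by
  rw [Subgroup.mem_centralizer_iff]
  intro d hd
  have h1 : n * d * n⁻¹ ∈ D := (Subgroup.mem_normalizer_iff.1 hz d).1 hd
  have h2 : n * d * n⁻¹ * d⁻¹ = 1 := by
    refine Glau_disj hN hD ?_ (D.mul_mem h1 (D.inv_mem hd))
    have h3 : d * n⁻¹ * d⁻¹ ∈ N := Subgroup.Normal.conj_mem inferInstance _ (N.inv_mem hn) d
    have h4 : n * d * n⁻¹ * d⁻¹ = n * (d * n⁻¹ * d⁻¹) := by group
    rw [h4]
    exact N.mul_mem hn h3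
  have h5 : n * d * n⁻¹ = d := by
    rwa [mul_inv_eq_one] at h2
  calc d * n = n * d * n⁻¹ * n := by rw [h5]
    _ = n * d := by group

/-- Two `D`-invariant homomorphisms of `N` to an abelian group which agree on the centraliser of
`D` are equal.  `λ = ν / ν'`, `L` = kernel of `λ` (as a subgroup of `X`), normalised by `D`, of order
prime to `ℓ`.  For `n ∈ N`: `λ(d n d⁻¹ n⁻¹) = 1`, so by `exists_fixed` there is `l ∈ L` with `l n` in the
centraliser and `1 = λ(l n) = λ(n)`. -/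
theorem hom_eq_of_centralizer {M : Type*} [CommGroup M] {N D : Subgroup X} [N.Normal]
    (hN : ¬ ℓ ∣ Nat.card N) (hD : IsPGroup ℓ D) {ν ν' : N →* M}
    (h : ∀ d ∈ D, ∀ n : N, ν (MulAut.conjNormal d n) = ν n)
    (h' : ∀ d ∈ D, ∀ n : N, ν' (MulAut.conjNormal d n) = ν' n)
    (he : ∀ n : N, (n : X) ∈ Subgroup.centralizer (D : Set X) → ν n = ν' n) : ν = ν' := by
  obtain ⟨μ, hμ⟩ : ∃ μ : N →* M, ∀ n, μ n = ν n / ν' n :=
    ⟨ν / ν', fun n => MonoidHom.div_apply ν ν' n⟩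
  have hμd : ∀ d ∈ D, ∀ n : N, μ (MulAut.conjNormal d n) = μ n := by
    intro d hd n
    rw [hμ, hμ, h d hd, h' d hd]
  have hmem : ∀ y : X, y ∈ μ.ker.map N.subtype ↔ ∃ hy : y ∈ N, μ ⟨y, hy⟩ = 1 := by
    intro y
    rw [Subgroup.mem_map]
    constructor
    · rintro ⟨z, hz, rfl⟩
      exact ⟨z.2, hz⟩
    · rintro ⟨hy, h1⟩
      exact ⟨⟨y, hy⟩, h1, rfl⟩
  have hL : ¬ ℓ ∣ Nat.card (μ.ker.map N.subtype) := by
    intro hc
    exact hN (hc.trans (Subgroup.card_dvd_of_le (Subgroup.map_subtype_le μ.ker)))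
  ext n
  have hfix := exists_fixed hL hD (x := (n : X)) (by
    intro d hd l hl
    rw [hmem] at hl ⊢
    obtain ⟨hy, h1⟩ := hl
    refine ⟨Subgroup.Normal.conj_mem inferInstance _ hy d, ?_⟩
    have h2 := hμd d hd ⟨l, hy⟩
    rw [h1] at h2
    have h3 : MulAut.conjNormal d (⟨l, hy⟩ : N) =
        ⟨d * l * d⁻¹, Subgroup.Normal.conj_mem inferInstance _ hy d⟩ := Subtype.ext rfl
    rwa [h3] at h2) (by
    intro d hd
    rw [hmem]
    have hy : d * (n : X) * d⁻¹ ∈ N := Subgroup.Normal.conj_mem inferInstance _ n.2 d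
    refine ⟨N.mul_mem hy (N.inv_mem n.2), ?_⟩
    have h3 : (⟨d * (n : X) * d⁻¹ * (n : X)⁻¹, N.mul_mem hy (N.inv_mem n.2)⟩ : N) =
        MulAut.conjNormal d n * n⁻¹ := Subtype.ext rfl
    rw [h3, map_mul, hμd d hd, map_inv, mul_inv_cancel])
  obtain ⟨l, hl, hc⟩ := hfix
  rw [hmem] at hl
  obtain ⟨hy, h1⟩ := hl
  have h2 := he (⟨l, hy⟩ * n) hc
  have h3 : μ (⟨l, hy⟩ * n) = 1 := by rw [hμ, h2, div_self']
  rw [map_mul, h1, one_mul, hμ, div_eq_one] at h3
  exact h3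

/-- `x` normalises `D` and fixes `ν` on the centraliser of `D` in `N`: apply
`hom_eq_of_centralizer` to `ν` and `n ↦ ν(x n x⁻¹)`; the latter is `D`-invariant since
`x d n d⁻¹ x⁻¹ = d' (x n x⁻¹) d'⁻¹`, `d' = x d x⁻¹ ∈ D`. -/
theorem mem_stb_of_nz {R : Type*} [CommRing R] {N D : Subgroup X} [N.Normal]
    (hN : ¬ ℓ ∣ Nat.card N) (hD : IsPGroup ℓ D) {ν : N →* Rˣ} (hDν : D ≤ stb N ν) {x : X}
    (hx : x ∈ nz D)
    (h : ∀ n : N, (n : X) ∈ Subgroup.centralizer (D : Set X) →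
      ν (MulAut.conjNormal x n) = ν n) : x ∈ stb N ν := by
  have key : ν.comp (MulAut.conjNormal x : MulAut N).toMonoidHom = ν := by
    refine hom_eq_of_centralizer hN hD ?_ (fun d hd n => hDν hd n) h
    intro d hd n
    have h1 : x * d * x⁻¹ ∈ D := (Subgroup.mem_normalizer_iff.1 hx d).1 hd
    have h2 : MulAut.conjNormal x (MulAut.conjNormal d n) =
        MulAut.conjNormal (x * d * x⁻¹) (MulAut.conjNormal x n) := by
      rw [← MulAut.mul_apply, ← map_mul, ← MulAut.mul_apply, ← map_mul]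
      congr 2
      group
    show ν (MulAut.conjNormal x (MulAut.conjNormal d n)) = ν (MulAut.conjNormal x n)
    rw [h2]
    exact hDν h1 _
  intro n
  exact congrArg (fun F : N →* Rˣ => F n) key

private theorem Glau_card {H K : Subgroup X} (h : H ≤ K) :
    Nat.card H * (H.subgroupOf K).index = Nat.card K := by
  rw [← Subgroup.card_mul_index (H.subgroupOf K)]
  congr 1
  exact Nat.card_congr (Subgroup.subgroupOfEquivOfLe h).toEquiv.symm

/-- Let `x D x⁻¹ ≤ D N`.  Both `D` and `x D x⁻¹` are Sylow `ℓ`-subgroups of `K = D N` (`|K| = |D| |N|`,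
`N` of order prime to `ℓ`), so `k x D x⁻¹ k⁻¹ = D` with `k = d n`, and `n x` normalises `D`. -/
theorem exists_mul_mem_nz {N D : Subgroup X} [N.Normal] (hN : ¬ ℓ ∣ Nat.card N)
    (hD : IsPGroup ℓ D) {x : X} (hx : ∀ d ∈ D, ∃ d' ∈ D, ∃ n ∈ N, x * d * x⁻¹ = d' * n) :
    ∃ n ∈ N, n * x ∈ nz D := by
  obtain ⟨K, hK⟩ : ∃ K : Subgroup X, K = D ⊔ N := ⟨_, rfl⟩
  have hDK : D ≤ K := hK ▸ le_sup_left
  have hNK : N ≤ K := hK ▸ le_sup_right
  obtain ⟨P, hP⟩ : ∃ P : Subgroup X, P = D.map (MulAut.conj x).toMonoidHom := ⟨_, rfl⟩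
  have hPK : P ≤ K := by
    rw [hP]
    rintro _ ⟨d, hd, rfl⟩
    obtain ⟨d', hd', n, hn, h⟩ := hx d hd
    show x * d * x⁻¹ ∈ K
    rw [h]
    exact K.mul_mem (hDK hd') (hNK hn)
  have hcardP : Nat.card P = Nat.card D := by
    rw [hP]
    exact Nat.card_congr (D.equivMapOfInjective _ (MulAut.conj x).injective).toEquiv.symm
  have hPp : IsPGroup ℓ P := by
    rw [hP]
    exact hD.map _
  -- orders
  have h1 : (N.subgroupOf K).index = N.relIndex D := by
    rw [hK]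
    exact Subgroup.relIndex_sup_right D N
  have h2 : N.relIndex D ∣ Nat.card D := N.relIndex_dvd_card D
  have h3 := Glau_card hNK
  have h4 := Glau_card hDK
  have h5 := Glau_card hPK
  have h6 : (D.subgroupOf K).index ∣ Nat.card N := by
    have h7 : Nat.card D * (D.subgroupOf K).index ∣ Nat.card D * Nat.card N := by
      rw [h4, ← h3, h1, mul_comm (Nat.card D)]
      exact Nat.mul_dvd_mul_left _ h2
    exact Nat.dvd_of_mul_dvd_mul_left Nat.card_pos h7
  have h8 : (P.subgroupOf K).index = (D.subgroupOf K).index := by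
    rw [hcardP, ← h4] at h5
    exact Nat.eq_of_mul_eq_mul_left Nat.card_pos h5
  have hD1 : IsPGroup ℓ (D.subgroupOf K) := hD.comap_of_injective _ K.subtype_injective
  have hP1 : IsPGroup ℓ (P.subgroupOf K) := hPp.comap_of_injective _ K.subtype_injective
  have hD2 : ¬ ℓ ∣ (D.subgroupOf K).index := fun h => hN (h.trans h6)
  have hP2 : ¬ ℓ ∣ (P.subgroupOf K).index := h8 ▸ hD2
  obtain ⟨g, hg⟩ := MulAction.exists_smul_eq K (hP1.toSylow hP2) (hD1.toSylow hD2)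
  have hg2 : ∀ y : K, (y : X) ∈ P → (g : X) * y * (g : X)⁻¹ ∈ D := by
    intro y hy
    have h9 : g * y * g⁻¹ ∈ ((g • hP1.toSylow hP2 : Sylow ℓ K) : Subgroup K) := by
      rw [Sylow.coe_subgroup_smul]
      exact ⟨y, hy, rfl⟩
    rw [hg] at h9
    exact h9
  obtain ⟨d₀, hd₀, n, hn, hgn⟩ : ∃ d₀ ∈ D, ∃ n ∈ N, d₀ * n = (g : X) := by
    have h9 : (g : X) ∈ D ⊔ N := hK ▸ g.2
    exact Subgroup.mem_sup_of_normal_right.1 h9
  refine ⟨n, hn, ?_⟩
  have hmap : ∀ d ∈ D, (n * x) * d * (n * x)⁻¹ ∈ D := by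
    intro d hd
    have h9 : x * d * x⁻¹ ∈ P := by
      rw [hP]
      exact ⟨d, hd, rfl⟩
    have h10 := hg2 ⟨x * d * x⁻¹, hPK h9⟩ h9
    have h11 : (n * x) * d * (n * x)⁻¹ = d₀⁻¹ * ((g : X) * (x * d * x⁻¹) * (g : X)⁻¹) * d₀ := by
      rw [← hgn]
      group
    rw [h11]
    exact D.mul_mem (D.mul_mem (D.inv_mem hd₀) h10) hd₀
  rw [Subgroup.mem_normalizer_iff_map_conj_eq]
  refine Subgroup.eq_of_le_of_card_ge ?_ ?_
  · rintro _ ⟨d, hd, rfl⟩
    exact hmap d hd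
  · exact (Nat.card_congr (D.equivMapOfInjective _ (MulAut.conj (n * x)).injective).toEquiv).le

end Pool.Agent.URing
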