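import Pool.Agent.URing.LinXf
import Pool.Agent.URing.Glau
import Pool.Agent.URing.Dom

/-!
# Clifford theory: local data (modules LLOC, LDOM)
-/

set_option autoImplicit false

namespace Pool.Agent.URing

open MonoidAlgebra IsLocalRing Pool.Agent.UBlocks

universe u

section lloc

variable {X Y : Type*} [Group X] [Group Y] {σ : Y →* X} (inj : Function.Injective σ)
  (D : Subgroup Y)

include inj in
private theorem lloc_map {y : Y} : σ y ∈ D.map σ ↔ y ∈ D :=
  ⟨fun ⟨_, hd, he⟩ => inj he ▸ hd, fun hy => ⟨y, hy, rfl⟩⟩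

include inj in
private theorem lloc_of_map {g : Y} (hg : σ g ∈ nz (D.map σ)) : g ∈ nz D := by
  rw [Subgroup.mem_normalizer_iff] at hg ⊢
  intro x
  have h1 : ∀ y : Y, σ y ∈ D.map σ ↔ y ∈ D := fun y => lloc_map inj D
  rw [← h1 x, hg, ← map_inv, ← map_mul, ← map_mul, h1]

include inj in
private theorem lloc_mem {g : Y} (hg : g ∈ nz D) : σ g ∈ nz (D.map σ) := by
  rw [Subgroup.mem_normalizer_iff] at hg ⊢
  intro x
  constructor
  · rintro ⟨d, hd, rfl⟩
    exact ⟨g * d * g⁻¹, (hg d).1 hd, by rw [map_mul, map_mul, map_inv]⟩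
  · rintro ⟨d, hd, h⟩
    refine ⟨g⁻¹ * d * g, ?_, ?_⟩
    · rw [SetLike.mem_coe, hg]
      have : g * (g⁻¹ * d * g) * g⁻¹ = d := by group
      rwa [this]
    · rw [map_mul, map_mul, h, map_inv]
      group

/-- the restriction of `σ` to the normalisers -/
private def llocHom : nz D →* nz (D.map σ) where
  toFun g := ⟨σ g, lloc_mem inj D g.2⟩
  map_one' := Subtype.ext (map_one σ)
  map_mul' _ _ := Subtype.ext (map_mul σ _ _)

private theorem lloc_inj : Function.Injective (llocHom inj D) := fun _ _ h =>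
  Subtype.ext (inj (congrArg Subtype.val h))

include inj in
private theorem lloc_cent {t : Y} :
    σ t ∈ Subgroup.centralizer (D.map σ : Set X) ↔ t ∈ Subgroup.centralizer (D : Set Y) := by
  rw [Subgroup.mem_centralizer_iff, Subgroup.mem_centralizer_iff]
  constructor
  · intro h d hd
    have := h (σ d) ⟨d, hd, rfl⟩
    rw [← map_mul, ← map_mul] at this
    exact inj this
  · rintro h _ ⟨d, hd, rfl⟩
    rw [← map_mul, ← map_mul, h d hd]

/-- the restriction of a linear character to the normaliser of `Q` -/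
private def llocChar {R : Type*} [CommRing R] (N : Subgroup X) (ν : N →* Rˣ) (Q : Subgroup X) :
    N.subgroupOf (nz Q) →* Rˣ where
  toFun n := ν ⟨((n : nz Q) : X), n.2⟩
  map_one' := map_one ν
  map_mul' a b := map_mul ν ⟨((a : nz Q) : X), a.2⟩ ⟨((b : nz Q) : X), b.2⟩

private theorem lloc_cent_le (Q : Subgroup X) : Subgroup.centralizer (Q : Set X) ≤ nz Q := by
  intro x hx
  rw [Subgroup.mem_normalizer_iff]
  rw [Subgroup.mem_centralizer_iff] at hx
  intro h
  constructor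
  · intro hh
    have := hx h hh
    have e : x * h * x⁻¹ = h := by rw [← this, mul_inv_cancel_right]
    rw [e]
    exact hh
  · intro hh
    have h1 := hx _ hh
    have e : x * h * x⁻¹ = h := by
      have h2 : x * h = x * (x * h * x⁻¹) := by
        rw [← h1]
        group
      exact (mul_left_cancel h2).symm
    rw [e] at hh
    exact hh

private theorem lloc_card {ℓ : ℕ} [Fact ℓ.Prime] [Finite X] {N Q : Subgroup X} [N.Normal]
    (hN : ¬ ℓ ∣ Nat.card N) (hQ : IsPGroup ℓ Q) :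
    Nat.card (N.subgroupOf (nz Q)) = Nat.card (N ⊓ Subgroup.centralizer (Q : Set X) : Subgroup X) := by
  refine Nat.card_congr
    { toFun := fun n => ⟨((n : nz Q) : X), n.2, mem_centralizer_of_nz hN hQ n.2 n.1.2⟩
      invFun := fun x => ⟨⟨x.1, lloc_cent_le Q x.2.2⟩, x.2.1⟩
      left_inv := fun n => rfl
      right_inv := fun x => rfl }

private theorem lloc_prime {ℓ : ℕ} [Finite X] {N Q : Subgroup X}
    (hN : ¬ ℓ ∣ Nat.card N) : ¬ ℓ ∣ Nat.card (N.subgroupOf (nz Q)) := by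
  intro h
  apply hN
  refine h.trans ?_
  have e : Nat.card (N.subgroupOf (nz Q)) = Nat.card ((N.subgroupOf (nz Q)).map (nz Q).subtype) :=
    Nat.card_congr ((N.subgroupOf (nz Q)).equivMapOfInjective _ (nz Q).subtype_injective).toEquiv
  rw [e]
  apply Subgroup.card_dvd_of_le
  rintro _ ⟨n, hn, rfl⟩
  exact hn

/-- the coefficients of the two idempotents at the centraliser -/
private theorem lloc_coeff {ℓ : ℕ} [Fact ℓ.Prime] {R k : Type*} [CommRing R] [Field k] [CharP k ℓ]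
    [Finite X] (π : R →+* k) {N Q : Subgroup X} [N.Normal] (ν : N →* Rˣ)
    (hR : ∀ n : ℕ, ¬ ℓ ∣ n → IsUnit ((n : ℕ) : R)) (hN : ¬ ℓ ∣ Nat.card N) (hQ : IsPGroup ℓ Q)
    (z : nz Q) (hz : (z : X) ∈ Subgroup.centralizer (Q : Set X)) (hQN : ∀ d ∈ Q, ∀ l ∈ N,
      d * l * d⁻¹ ∈ N) :
    π ((idp (N.subgroupOf (nz Q)) (llocChar N ν Q)).coeff z) = π ((idp N ν).coeff (z : X)) := by
  by_cases hzN : (z : X) ∈ N
  · have h1 := coeff_idp (N.subgroupOf (nz Q)) (llocChar N ν Q) ⟨z, hzN⟩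
    have h2 := coeff_idp N ν ⟨(z : X), hzN⟩
    simp only at h1 h2
    rw [h1, h2, map_mul, map_mul]
    have h3 : ((llocChar N ν Q) (⟨z, hzN⟩ : N.subgroupOf (nz Q))⁻¹ : Rˣ) =
        ν (⟨(z : X), hzN⟩ : N)⁻¹ := rfl
    rw [h3]
    congr 1
    have hi : ∀ n : ℕ, ¬ ℓ ∣ n → π (Ring.inverse (n : R)) = ((n : ℕ) : k)⁻¹ := by
      intro n hn
      have h4 := congrArg π (Ring.inverse_mul_cancel _ (hR n hn))
      rw [map_mul, map_one, map_natCast] at h4
      exact eq_inv_of_mul_eq_one_left h4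
    rw [hi _ (lloc_prime hN), hi _ hN, lloc_card hN hQ]
    congr 1
    have h5 := card_inf_centralizer (N := N) hQ hQN
    exact (CharP.natCast_eq_natCast k ℓ).2 h5
  · rw [coeff_idp_zero (N.subgroupOf (nz Q)) (llocChar N ν Q) (x := z) hzN,
      coeff_idp_zero N ν hzN]

private theorem lloc_inc {R : Type*} [CommRing R] (τ : Y →* X) (hτ : Function.Injective τ)
    (a : MonoidAlgebra R Y) (y : Y) : (inc R τ a).coeff (τ y) = a.coeff y := by
  unfold inc
  change (Finsupp.mapDomain τ a.coeff) (τ y) = _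
  exact Finsupp.mapDomain_apply hτ _ _

private theorem lloc_range {ℓ : ℕ} [Fact ℓ.Prime] {R : Type*} [CommRing R] [Finite X]
    (N : Subgroup X) [N.Normal] (ν : N →* Rˣ) (hℓ : ¬ ℓ ∣ Nat.card N)
    (hσ : σ.range = stb N ν) (hD : IsPGroup ℓ D) :
    (llocHom inj D).range = stb (N.subgroupOf (nz (D.map σ))) (llocChar N ν (D.map σ)) := by
  ext x
  constructor
  · rintro ⟨y, rfl⟩ n
    have h1 : σ y ∈ stb N ν := hσ ▸ ⟨(y : Y), rfl⟩
    exact h1 ⟨((n : nz (D.map σ)) : X), n.2⟩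
  · intro hx
    have h1 : (x : X) ∈ stb N ν := by
      refine mem_stb_of_nz (D := D.map σ) hℓ (hD.map σ) ?_ x.2 ?_
      · rintro _ ⟨d, _, rfl⟩
        exact hσ ▸ ⟨d, rfl⟩
      · intro n hn
        exact hx ⟨⟨(n : X), lloc_cent_le _ hn⟩, n.2⟩
    rw [← hσ] at h1
    obtain ⟨y, hy⟩ := h1
    exact ⟨⟨y, lloc_of_map inj D (by rw [hy]; exact x.2)⟩, Subtype.ext hy⟩

end lloc

/-- Local data: `X' = N_X(σD)`, `N' = N ∩ X'` (contained in the centraliser of `σD` by
`mem_centralizer_of_nz`), `ν'` the restriction of `ν`, `Y' = N_Y(D)`, `σ'` the restriction of `σ`.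
The range of `σ'` is the stabiliser of `ν'` in `X'`: `mem_stb_of_nz`; an element of `X'` in
`σ(Y)` comes from `N_Y(D)`.  So `E = linXf N' ν' σ'`.  `E.Ψ(t) = σ'(t) e_ν'`.  Coefficients at `x` in the
centraliser `C` of `σD`: `e_ν` at `σ(t)⁻¹ x ∈ C`: `|N|⁻¹ ν(..)⁻¹` if it is in `N`, and
`|N|⁻¹ = |N'|⁻¹` modulo `ℓ` (`card_inf_centralizer`).  `e_ν'` is supported on `N' ⊆ C`.
Same for `E.e` and `C.e`. -/
theorem lin_loc {ℓ : ℕ} [Fact ℓ.Prime] {R k X Y : Type*} [CommRing R] [IsDomain R] [Field k]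
    [CharP k ℓ] [Group X] [Group Y] [Finite X] (π : R →+* k)
    (N : Subgroup X) [N.Normal] (ν : N →* Rˣ) (σ : Y →* X)
    (hR : ∀ n : ℕ, ¬ ℓ ∣ n → IsUnit ((n : ℕ) : R)) (hℓ : ¬ ℓ ∣ Nat.card N)
    (inj : Function.Injective σ) (hσ : σ.range = stb N ν) (D : Subgroup Y)
    (hD : IsPGroup ℓ D) :
    Nonempty (XfLoc π (linXf N ν σ (hR _ hℓ) inj hσ) D) := by
  have hσ' := lloc_range inj D N ν hℓ hσ hD
  have hDσ := hD.map σ
  have hQN : ∀ d ∈ D.map σ, ∀ l ∈ N, d * l * d⁻¹ ∈ N := fun d _ l hl =>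
    Subgroup.Normal.conj_mem inferInstance l hl d
  have key := fun (z : nz (D.map σ)) (hz : (z : X) ∈ Subgroup.centralizer (D.map σ : Set X)) =>
    lloc_coeff π ν hR hℓ hDσ z hz hQN
  have hNn : (N.subgroupOf (nz (D.map σ))).Normal := Subgroup.normal_subgroupOf
  let E' : Xf R (nz D) (nz (D.map σ)) := linXf (N.subgroupOf (nz (D.map σ)))
    (llocChar N ν (D.map σ)) (llocHom inj D) (hR _ (lloc_prime hℓ)) (lloc_inj inj D) hσ'
  have eE : ∀ t : nz D, E'.Ψ (dl R t) =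
      dl R (llocHom inj D t) * idp (N.subgroupOf (nz (D.map σ))) (llocChar N ν (D.map σ)) := by
    intro t
    rw [← inc_dl]
    rfl
  have eC : ∀ t : Y, (linXf N ν σ (hR _ hℓ) inj hσ).Ψ (dl R t) = dl R (σ t) * idp N ν := by
    intro t
    rw [← inc_dl]
    rfl
  have f1 : ∀ t : nz D, (t : Y) ∈ Subgroup.centralizer (D : Set Y) → ∀ x : nz (D.map σ),
      (x : X) ∈ Subgroup.centralizer (D.map σ : Set X) → π ((E'.Ψ (dl R t)).coeff x) =
        π (((linXf N ν σ (hR _ hℓ) inj hσ).Ψ (dl R (t : Y))).coeff (x : X)) := by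
    intro t ht x hx
    rw [eE, eC, coeff_dl_mul, coeff_dl_mul]
    have h1 : σ t ∈ Subgroup.centralizer (D.map σ : Set X) := (lloc_cent inj D).2 ht
    exact key ((llocHom inj D t)⁻¹ * x)
      ((Subgroup.centralizer _).mul_mem ((Subgroup.centralizer _).inv_mem h1) hx)
  have f2 : ∀ t : nz D, (t : Y) ∈ Subgroup.centralizer (D : Set Y) → ∀ x : nz (D.map σ),
      (x : X) ∉ Subgroup.centralizer (D.map σ : Set X) → π ((E'.Ψ (dl R t)).coeff x) = 0 := by
    intro t ht x hx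
    rw [eE, coeff_dl_mul, coeff_idp_zero, map_zero]
    intro hmem
    apply hx
    have h1 : σ t ∈ Subgroup.centralizer (D.map σ : Set X) := (lloc_cent inj D).2 ht
    have h2 := mem_centralizer_of_nz hℓ hDσ hmem ((llocHom inj D t)⁻¹ * x).2
    have h3 := (Subgroup.centralizer (D.map σ : Set X)).mul_mem h1 h2
    have h4 : σ t * (((llocHom inj D t)⁻¹ * x : nz (D.map σ)) : X) = x := by
      change σ t * ((σ t)⁻¹ * (x : X)) = x
      rw [mul_inv_cancel_left]
    exact h4 ▸ h3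
  have g1 : ∀ t : nz D, (E'.e).coeff t =
      (idp (N.subgroupOf (nz (D.map σ))) (llocChar N ν (D.map σ))).coeff (llocHom inj D t) := by
    intro t
    have e1 := lloc_inc (llocHom inj D) (lloc_inj inj D)
      (idpY (N.subgroupOf (nz (D.map σ))) (llocChar N ν (D.map σ)) (llocHom inj D)) t
    rw [inc_idpY _ _ _ (lloc_inj inj D) hσ'] at e1
    exact e1.symm
  have g2 : ∀ t : Y, ((linXf N ν σ (hR _ hℓ) inj hσ).e).coeff t = (idp N ν).coeff (σ t) := by
    intro t
    have e2 := lloc_inc σ inj (idpY N ν σ) t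
    rw [inc_idpY _ _ _ inj hσ] at e2
    exact e2.symm
  have f3 : ∀ t : nz D, (t : Y) ∈ Subgroup.centralizer (D : Set Y) →
      π (E'.e.coeff t) = π ((linXf N ν σ (hR _ hℓ) inj hσ).e.coeff (t : Y)) := by
    intro t ht
    rw [g1, g2]
    exact key (llocHom inj D t) ((lloc_cent inj D).2 ht)
  have f4 : ∀ t : nz D, (t : Y) ∉ Subgroup.centralizer (D : Set Y) → π (E'.e.coeff t) = 0 := by
    intro t ht
    rw [g1, coeff_idp_zero, map_zero]
    intro hmem
    apply ht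
    exact (lloc_cent inj D).1 (mem_centralizer_of_nz hℓ hDσ hmem (llocHom inj D t).2)
  exact ⟨⟨E', fun _ => rfl, f1, f2, f3, f4⟩⟩

/-- Clifford theory: the blocks over `ν` are related to blocks of the stabiliser.
`Xf.dom` for `linXf` and `lin_loc`; `b e_ν ≠ 0` implies `b f ≠ 0` by `Xf.mul_f_ne`
(`Ψ(1) = e_ν`).  An integer prime to `ℓ` is a unit of `Λ` (its residue is not zero). -/
theorem lin_dom {ℓ : ℕ} [Fact ℓ.Prime] {Λ : Type u} {Y X : Type} [CommRing Λ] [IsDomain Λ]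
    [IsLocalRing Λ] [IsNoetherianRing Λ] [IsAdicComplete (maximalIdeal Λ) Λ]
    [CharP (ResidueField Λ) ℓ] [Group Y] [Group X] [Finite X]
    (N : Subgroup X) [N.Normal] (ν : N →* Λˣ) (σ : Y →* X) (hℓ : ¬ ℓ ∣ Nat.card N)
    (inj : Function.Injective σ) (hσ : σ.range = stb N ν) : Dom ℓ Λ Y (idp N ν) := by
  have hR : ∀ n : ℕ, ¬ ℓ ∣ n → IsUnit ((n : ℕ) : Λ) := by
    intro n hn
    rw [← IsLocalRing.residue_ne_zero_iff_isUnit, map_natCast]
    intro h
    exact hn ((CharP.cast_eq_zero_iff (ResidueField Λ) ℓ n).1 h)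
  have h1 : Dom ℓ Λ Y (linXf N ν σ (hR _ hℓ) inj hσ).f :=
    Xf.dom (linXf N ν σ (hR _ hℓ) inj hσ) fun D hD =>
      lin_loc (residue Λ) N ν σ hR hℓ inj hσ D hD
  intro τ hτ
  refine h1 τ ((linXf N ν σ (hR _ hℓ) inj hσ).mul_f_ne ?_)
  have h2 : (linXf N ν σ (hR _ hℓ) inj hσ).Ψ 1 = idp N ν := by
    change inc Λ σ 1 * idp N ν = idp N ν
    rw [map_one, one_mul]
  rw [h2]
  exact hτ

end Pool.Agent.URing
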