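import Pool.Agent.URing.Quo
import Pool.Agent.URing.Glau

/-!
# Quotients: blocks, defect groups, Brauer correspondents (modules QMOR, QDOM)
-/

set_option autoImplicit false

namespace Pool.Agent.URing

open MonoidAlgebra IsLocalRing Pool.Agent.UBlocks

universe u

/-- `P` restricts to an isomorphism of the block algebras (`Mor.of_ringEquiv`). -/
theorem quo_mor {R : Type u} {X A : Type} [CommRing R] [Group X] [Group A] [Finite X]
    (ρ : X →* A) (χ : X →* Rˣ) (hρ : Function.Surjective ρ)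
    (hN : IsUnit ((Nat.card ρ.ker : ℕ) : R)) {b : MonoidAlgebra R X} (hb : IsBlk b)
    (hbe : b * quoE ρ χ = b) (hb' : IsBlk (quoP ρ χ b)) :
    Mor (BlkAlg hb) (BlkAlg hb') := by
  let F : BlkAlg hb →+* BlkAlg hb' :=
    { toFun := fun a => ⟨quoP ρ χ a.1, (Subsemigroup.mem_corner_iff hb'.idem).2
        ⟨by rw [← map_mul, (mem_cor hb a).1], by rw [← map_mul, (mem_cor hb a).2]⟩⟩
      map_one' := Subtype.ext rfl
      map_zero' := Subtype.ext (by
        show quoP ρ χ 0 = 0
        rw [map_zero])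
      map_add' := fun a a' => Subtype.ext (by
        show quoP ρ χ (a.1 + a'.1) = quoP ρ χ a.1 + quoP ρ χ a'.1
        rw [map_add])
      map_mul' := fun a a' => Subtype.ext (by
        show quoP ρ χ (a.1 * a'.1) = quoP ρ χ a.1 * quoP ρ χ a'.1
        rw [map_mul]) }
  have hae : ∀ a : BlkAlg hb, a.1 * quoE ρ χ = a.1 := by
    intro a
    conv_lhs => rw [← (mem_cor hb a).2]
    rw [mul_assoc, hbe, (mem_cor hb a).2]
  have hinj : Function.Injective F := by
    intro a a' h
    have h1 : quoP ρ χ a.1 = quoP ρ χ a'.1 := congrArg Subtype.val h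
    have h2 : a.1 - a'.1 = 0 := by
      refine quoP_injOn ρ χ hN ?_ ?_
      · rw [sub_mul, hae, hae]
      · rw [map_sub, h1, sub_self]
    exact Subtype.ext (sub_eq_zero.1 h2)
  have hsurj : Function.Surjective F := by
    intro z
    obtain ⟨w, hw⟩ := quoP_surjective ρ χ hρ z.1
    refine ⟨⟨b * w * b, (Subsemigroup.mem_corner_iff hb.idem).2
      ⟨by rw [← mul_assoc, ← mul_assoc, hb.idem], by rw [mul_assoc, hb.idem]⟩⟩, ?_⟩
    apply Subtype.ext
    show quoP ρ χ (b * w * b) = z.1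
    rw [map_mul, map_mul, hw, (mem_cor hb' z).1, (mem_cor hb' z).2]
  exact Mor.of_ringEquiv (RingEquiv.ofBijective F ⟨hinj, hsurj⟩)

/-- Let `τ = (b, D, c)` with `b e ≠ 0`, so `b e = b`.  `D ∩ N = 1` as `|N|` is prime to `ℓ`.
`b' = P(b)`, `D' = ρ(D) ≃ D`: a defect group of `b'` by `quoP_trFrom` and `coeff_quoP` (an element of the
centraliser of `D` maps into the centraliser of `D'`).  `ρ' : N_X(D) → N_A(D')` is surjective by
`exists_mul_mem_nz` with kernel `N ∩ N_X(D)`, `χ'` = restriction of `χ`.  `c e' = c`: otherwise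
`c e' = 0` (`c` is primitive), but the Brauer homomorphism at `D` maps `c e'` to
`Br(c) Br(e') = Br(b) Br(e) = Br(b e) = Br(b) ≠ 0` (coefficients of `e'` and `e` at the centraliser
agree modulo `ℓ` by `card_inf_centralizer`; use `br_mul` in `N_X(D)` and in `X`, or the coefficient
formula `(y e')_x = |N'|⁻¹ ∑ χ(n) ..`).  `c' = P'(c)` is the Brauer correspondent of `b'`: an element of the centraliser of
`D'` lifts to an element `x` of the centraliser of `D` (`exists_fixed`), and `coeff_quoP` for `b` and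
for `c`: `|N| = |N'|` modulo `ℓ`.  Morita equivalences: `quo_mor`. -/
theorem quo_dom {ℓ : ℕ} [Fact ℓ.Prime] {Λ : Type u} {X A : Type} [CommRing Λ] [IsDomain Λ]
    [IsLocalRing Λ] [CharP (ResidueField Λ) ℓ] [Group X] [Group A] [Finite X]
    (ρ : X →* A) (χ : X →* Λˣ) (hρ : Function.Surjective ρ) (hℓ : ¬ ℓ ∣ Nat.card ρ.ker) :
    Dom ℓ Λ A (quoE ρ χ) := by
  classical
  intro τ hτ
  obtain ⟨b, hb, D, c, hc, hbD, hab, hbc⟩ := τ
  simp only at hτ
  have hunit : ∀ m : ℕ, ¬ ℓ ∣ m → IsUnit ((m : ℕ) : Λ) := by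
    intro m hm
    rw [← residue_ne_zero_iff_isUnit, map_natCast, Ne, CharP.cast_eq_zero_iff (ResidueField Λ) ℓ]
    exact hm
  have hN : IsUnit ((Nat.card ρ.ker : ℕ) : Λ) := hunit _ hℓ
  have hee : quoE ρ χ * quoE ρ χ = quoE ρ χ := idp_idem _ _ hN
  have hbe : b * quoE ρ χ = b := by
    rcases hb.prim (quoE ρ χ) hee (quoE_central ρ χ) with h | h
    · exact absurd (by rw [quoE_central, h]) hτ
    · rw [quoE_central, h]
  have hb' := quoP_isBlk ρ χ hρ hN hb hbe
  -- the kernel and the defect group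
  have hDN1 : ∀ y : X, y ∈ D → y ∈ ρ.ker → y = 1 := by
    intro y h1 h2
    obtain ⟨k, hk⟩ := hbD.pgroup ⟨y, h1⟩
    have h3 : y ^ ℓ ^ k = 1 := congrArg Subtype.val hk
    have h4 : orderOf y ∣ ℓ ^ k := orderOf_dvd_of_pow_eq_one h3
    have h5 : orderOf y ∣ Nat.card ρ.ker := Subgroup.orderOf_dvd_natCard ρ.ker h2
    have h6 : (Nat.card ρ.ker).Coprime (ℓ ^ k) :=
      (((Fact.out : ℓ.Prime).coprime_iff_not_dvd.2 hℓ).symm).pow_right k
    rw [← orderOf_eq_one_iff]
    exact Nat.eq_one_of_dvd_coprimes h6 h5 h4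
  have hDN : D ⊓ ρ.ker = ⊥ := by
    rw [Subgroup.eq_bot_iff_forall]
    exact fun y hy => hDN1 y hy.1 hy.2
  have hconj : ∀ d ∈ D, ∀ l ∈ ρ.ker, d * l * d⁻¹ ∈ ρ.ker := fun d _ l hl =>
    Subgroup.Normal.conj_mem inferInstance l hl d
  -- the centraliser
  have hcen : ∀ g ∈ Subgroup.centralizer (D : Set X),
      ρ g ∈ Subgroup.centralizer ((D.map ρ : Subgroup A) : Set A) := by
    intro g hg
    refine Subgroup.mem_centralizer_iff.2 ?_
    rintro _ ⟨d, hd, rfl⟩
    rw [← map_mul, Subgroup.mem_centralizer_iff.1 hg d hd, map_mul]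
  have hlift : ∀ a ∈ Subgroup.centralizer ((D.map ρ : Subgroup A) : Set A),
      ∃ x ∈ Subgroup.centralizer (D : Set X), ρ x = a := by
    intro a ha
    obtain ⟨x, rfl⟩ := hρ a
    obtain ⟨l, hl, h1⟩ := exists_fixed (x := x) hℓ hbD.pgroup hconj (by
      intro d hd
      have h2 := Subgroup.mem_centralizer_iff.1 ha (ρ d) ⟨d, hd, rfl⟩
      rw [MonoidHom.mem_ker, map_mul, map_mul, map_mul, map_inv, map_inv, h2]
      group)
    refine ⟨l * x, h1, ?_⟩
    rw [map_mul, MonoidHom.mem_ker.1 hl, one_mul]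
  have hdefect : IsDefectGroup ℓ (quoP ρ χ b) (D.map ρ) := by
    refine ⟨hbD.pgroup.map _, quoP_trFrom ρ χ hρ hDN hbD.trace, ?_⟩
    obtain ⟨g, hg, h1⟩ := hbD.br
    refine ⟨ρ g, hcen g hg, ?_⟩
    rw [coeff_quoP ρ χ hN hbe, map_mul, map_mul]
    refine mul_ne_zero ?_ (mul_ne_zero ?_ h1)
    · rwa [residue_ne_zero_iff_isUnit]
    · rw [residue_ne_zero_iff_isUnit]
      exact Units.isUnit _
  -- the normalisers
  have hnz : ∀ x ∈ nz D, ρ x ∈ nz (D.map ρ) := fun x hx =>
    Subgroup.le_normalizer_map ρ ⟨x, hx, rfl⟩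
  let ρ' : nz D →* nz (D.map ρ) := (ρ.comp (nz D).subtype).codRestrict (nz (D.map ρ))
    fun x => hnz x x.2
  have hρ'v : ∀ x : nz D, ((ρ' x : nz (D.map ρ)) : A) = ρ (x : X) := fun _ => rfl
  have hρ' : Function.Surjective ρ' := by
    intro a
    obtain ⟨x, hx⟩ := hρ (a : A)
    obtain ⟨n, hn, h1⟩ := exists_mul_mem_nz (x := x) hℓ hbD.pgroup (by
      intro d hd
      have h2 : ρ x * ρ d * (ρ x)⁻¹ ∈ D.map ρ := by
        rw [hx]
        exact (Subgroup.mem_normalizer_iff.1 a.2 (ρ d)).1 ⟨d, hd, rfl⟩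
      obtain ⟨d', hd', h3⟩ := h2
      refine ⟨d', hd', d'⁻¹ * (x * d * x⁻¹), ?_, by group⟩
      rw [MonoidHom.mem_ker, map_mul, map_inv, map_mul, map_mul, map_inv, h3]
      group)
    refine ⟨⟨n * x, h1⟩, Subtype.ext ?_⟩
    rw [hρ'v]
    show ρ (n * x) = a
    rw [map_mul, MonoidHom.mem_ker.1 hn, one_mul, hx]
  let χ' : nz D →* Λˣ := χ.comp (nz D).subtype
  have hker : ∀ x : nz D, x ∈ ρ'.ker ↔ (x : X) ∈ ρ.ker := by
    intro x
    rw [MonoidHom.mem_ker, MonoidHom.mem_ker, ← hρ'v]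
    constructor
    · intro h
      rw [h]
      rfl
    · intro h
      exact Subtype.ext h
  have hcar : Nat.card ρ'.ker =
      Nat.card (ρ.ker ⊓ Subgroup.centralizer (D : Set X) : Subgroup X) := by
    refine Nat.card_congr
      { toFun := fun x => ⟨((x : nz D) : X), (hker x).1 x.2,
          mem_centralizer_of_nz hℓ hbD.pgroup ((hker x).1 x.2) (x : nz D).2⟩
        invFun := fun x => ⟨⟨(x : X), Subgroup.centralizer_le_normalizer _ x.2.2⟩,
          (hker _).2 x.2.1⟩
        left_inv := fun x => rfl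
        right_inv := fun x => rfl }
  have hmod : ((Nat.card ρ'.ker : ℕ) : ResidueField Λ) = ((Nat.card ρ.ker : ℕ) : ResidueField Λ) := by
    rw [hcar]
    exact (CharP.natCast_eq_natCast' (ResidueField Λ) ℓ)
      (card_inf_centralizer hbD.pgroup hconj)
  have hN' : IsUnit ((Nat.card ρ'.ker : ℕ) : Λ) := by
    rw [← residue_ne_zero_iff_isUnit, map_natCast, hmod, ← map_natCast (residue Λ),
      residue_ne_zero_iff_isUnit]
    exact hN
  have hee' : quoE ρ' χ' * quoE ρ' χ' = quoE ρ' χ' := idp_idem _ _ hN'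
  -- coefficients of `b` and of `c`
  have hbn : ∀ n ∈ ρ.ker, ∀ g : X, b.coeff (n⁻¹ * g) = ((χ n : Λˣ) : Λ) * b.coeff g := by
    intro n hn g
    have h1 : dl Λ n * b = ((χ n : Λˣ) : Λ) • b := by
      conv_lhs => rw [← hbe, quoE_central, ← mul_assoc]
      unfold quoE
      rw [dl_mul_idp ρ.ker (χ.comp ρ.ker.subtype) ⟨n, hn⟩, smul_mul_assoc]
      have h3 : idp ρ.ker (χ.comp ρ.ker.subtype) * b = b := by
        have := quoE_central ρ χ b
        rw [hbe] at this
        exact this.symm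
      rw [h3]
      rfl
    have h2 := congrArg (fun z : MonoidAlgebra Λ X => z.coeff g) h1
    simpa only [coeff_dl_mul, coeff_smul, Finsupp.smul_apply, smul_eq_mul] using h2
  have hce : c * quoE ρ' χ' = c := by
    rcases hc.prim (quoE ρ' χ') hee' (quoE_central ρ' χ') with h | h
    · exfalso
      obtain ⟨g, hg, h1⟩ := hbD.br
      apply h1
      obtain ⟨g', hg'⟩ : ∃ g' : nz D, g' = ⟨g, Subgroup.centralizer_le_normalizer _ hg⟩ :=
        ⟨_, rfl⟩
      have hgv : (g' : X) = g := by rw [hg']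
      have : Fintype (nz D) := Fintype.ofFinite _
      have h2 := congrArg (fun z : MonoidAlgebra Λ (nz D) => z.coeff g') h
      simp only [coeff_mul_eq, coeff_zero, Finsupp.zero_apply] at h2
      have h3 : ∀ n : nz D, residue Λ ((quoE ρ' χ').coeff n * c.coeff (n⁻¹ * g')) =
          if n ∈ ρ'.ker then
            residue Λ (Ring.inverse ((Nat.card ρ'.ker : ℕ) : Λ)) * residue Λ (b.coeff g) else 0 := by
        intro n
        by_cases hn : n ∈ ρ'.ker
        · rw [if_pos hn]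
          have h4 : (quoE ρ' χ').coeff n = Ring.inverse ((Nat.card ρ'.ker : ℕ) : Λ) *
              (((χ (n : X))⁻¹ : Λˣ) : Λ) := by
            have := coeff_idp ρ'.ker (χ'.comp ρ'.ker.subtype) ⟨n, hn⟩
            refine this.trans ?_
            congr 2
            show χ ((((⟨n, hn⟩ : ρ'.ker)⁻¹ : ρ'.ker) : nz D) : X) = _
            rw [Subgroup.coe_inv, Subgroup.coe_inv, map_inv]
          have hnc : (n : X) ∈ Subgroup.centralizer (D : Set X) :=
            mem_centralizer_of_nz hℓ hbD.pgroup ((hker n).1 hn) n.2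
          have h5 : residue Λ (c.coeff (n⁻¹ * g')) = residue Λ (b.coeff ((n : X)⁻¹ * g)) := by
            have h6 := hbc (n⁻¹ * g') (by
              rw [Subgroup.coe_mul, Subgroup.coe_inv, hgv]
              exact Subgroup.mul_mem _ (Subgroup.inv_mem _ hnc) hg)
            rw [Subgroup.coe_mul, Subgroup.coe_inv, hgv] at h6
            exact h6
          rw [map_mul, h5, hbn _ ((hker n).1 hn), h4, map_mul, map_mul, mul_assoc,
            ← mul_assoc (residue Λ (((χ (n : X))⁻¹ : Λˣ) : Λ)), ← map_mul, Units.inv_mul, map_one,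
            one_mul]
        · rw [if_neg hn]
          have h4 : (quoE ρ' χ').coeff n = 0 := coeff_idp_zero _ _ hn
          rw [h4, zero_mul, map_zero]
      have h4 := congrArg (residue Λ) h2
      rw [map_sum, map_zero, Finset.sum_congr rfl fun n _ => h3 n, ← Finset.sum_filter,
        Finset.sum_const, nsmul_eq_mul, ← mul_assoc] at h4
      have h5 : ((Finset.univ.filter fun n : nz D => n ∈ ρ'.ker).card : ResidueField Λ) *
          residue Λ (Ring.inverse ((Nat.card ρ'.ker : ℕ) : Λ)) = 1 := by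
        have : Fintype ρ'.ker := Fintype.ofFinite _
        have h6 : (Finset.univ.filter fun n : nz D => n ∈ ρ'.ker).card = Nat.card ρ'.ker := by
          rw [Nat.card_eq_fintype_card]
          exact (Fintype.card_of_subtype (p := fun x => x ∈ ρ'.ker) _ fun x => by
            rw [Finset.mem_filter]
            exact ⟨fun h => h.2, fun h => ⟨Finset.mem_univ _, h⟩⟩).symm
        rw [h6, ← map_natCast (residue Λ), ← map_mul, Ring.mul_inverse_cancel _ hN', map_one]
      rwa [h5, one_mul] at h4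
    · rw [quoE_central, h]
  have hc' := quoP_isBlk ρ' χ' hρ' hN' hc hce
  refine ⟨⟨quoP ρ χ b, hb', D.map ρ, quoP ρ' χ' c, hc', hdefect, ?_, ?_⟩, ?_, ?_, ?_⟩
  · rintro _ ⟨x, hx, rfl⟩ _ ⟨y, hy, rfl⟩
    rw [← map_mul, ← map_mul, hab x hx y hy]
  · intro a ha
    obtain ⟨x, hx, hxa⟩ := hlift a ha
    obtain ⟨x', hx'⟩ : ∃ x' : nz D, x' = ⟨x, Subgroup.centralizer_le_normalizer _ hx⟩ :=
      ⟨_, rfl⟩
    have hxv : (x' : X) = x := by rw [hx']
    have h1 : ρ' x' = a := Subtype.ext (by rw [hρ'v, hxv, hxa])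
    have h2 := coeff_quoP ρ' χ' hN' hce x'
    have h3 := coeff_quoP ρ χ hN hbe x
    rw [h1] at h2
    rw [hxa] at h3
    rw [h2, h3, map_mul, map_mul, map_mul, map_mul, map_natCast, map_natCast, hmod,
      hbc x' (by rw [hxv]; exact hx), hxv]
    have h4 : χ' x' = χ x := by
      show χ (x' : X) = χ x
      rw [hxv]
    rw [h4]
  · exact quo_mor ρ χ hρ hN hb hbe hb'
  · exact quo_mor ρ' χ' hρ' hN' hc hce hc'
  · refine ⟨MulEquiv.ofBijective (ρ.subgroupMap D) ⟨?_, ρ.subgroupMap_surjective D⟩⟩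
    rw [injective_iff_map_eq_one]
    intro x hx
    have h1 : ρ (x : X) = 1 := congrArg Subtype.val hx
    exact Subtype.ext (hDN1 x x.2 (MonoidHom.mem_ker.2 h1))

end Pool.Agent.URing
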