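import Pool.Agent.URing.WDom
import Pool.Agent.URing.LinLoc
import Pool.Agent.URing.QuoDom
import Pool.Agent.URing.LinExt
import Pool.Agent.URingR.Main
import Pool.Agent.URingR.Glue

/-!
# Blocks of the unit groups of finite rings: reduction to semisimple rings
-/

set_option autoImplicit false

namespace Pool.Agent.URing

open MonoidAlgebra IsLocalRing Pool.Agent.UBlocks URingR

universe u

/-- An integer prime to `ℓ` is a unit of `Λ`. -/
theorem isUnit_natCast {ℓ : ℕ} {Λ : Type u} [CommRing Λ] [IsLocalRing Λ]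
    [CharP (ResidueField Λ) ℓ] (n : ℕ) (hn : ¬ ℓ ∣ n) : IsUnit ((n : ℕ) : Λ) := by
  by_contra h
  have h1 : ((n : ℕ) : Λ) ∈ maximalIdeal Λ := h
  have h2 : residue Λ ((n : ℕ) : Λ) = 0 := (residue_eq_zero_iff _).mpr h1
  rw [map_natCast] at h2
  exact hn ((CharP.cast_eq_zero_iff (ResidueField Λ) ℓ n).mp h2)

theorem exists_prim_of_dvd {R : Type*} [CommRing R] [IsDomain R] {n m : ℕ} (hn : n ≠ 0)
    (h : ∃ ζ : R, IsPrimitiveRoot ζ n) (hm : m ∣ n) : ∃ ζ : R, IsPrimitiveRoot ζ m := by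
  obtain ⟨ζ, hζ⟩ := h
  obtain ⟨d, hd⟩ := hm
  exact ⟨ζ ^ d, hζ.pow (Nat.pos_of_ne_zero hn) (by rw [hd, mul_comm])⟩

attribute [local instance] WOut.field WOut.finF WOut.ab WOut.mod WOut.finV WOut.nontriv WOut.two

section WD

variable {S : Type} [Ring S] [Finite S] {Λ : Type u} [CommRing Λ] [IsDomain Λ]

omit [Finite S] [IsDomain Λ] in
theorem q0_dvd {B : Ideal S} [B.IsTwoSided] {μ : oneAdd B →* Λˣ} (O : WOut B μ) :
    O.q0 ∣ Nat.card (oneAdd O.K) := by
  have h1 : Nat.card O.V ∣ Nat.card (oneAdd O.K) := by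
    have h := Subgroup.card_dvd_of_surjective O.θ O.θ_surj
    rwa [Nat.card_congr Multiplicative.toAdd] at h
  have h2 : Nat.card O.F ∣ Nat.card O.V := by
    rw [Module.natCard_eq_pow_finrank (K := O.F) (V := O.V)]
    exact dvd_pow_self _ (Module.finrank_pos).ne'
  rw [O.card_F] at h2
  exact (dvd_pow_self _ two_ne_zero).trans (h2.trans h1)

omit [IsDomain Λ] in
open Classical in
/-- the Weil data of the ring part -/
theorem exists_WD (hR : ∀ n : ℕ, n ∣ Nat.card S → IsUnit ((n : ℕ) : Λ)) {B : Ideal S}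
    [B.IsTwoSided] (μ : oneAdd B →* Λˣ)
    (hμ : ∀ (g : Sˣ) (n : oneAdd B), μ (conjE g n) = μ n) (O : WOut B μ) :
    ∃ W : WD Λ O.F O.V O.Tˣ Sˣ, W.N = oneAdd O.K ∧ W.e = idp (oneAdd B) μ := by
  have hle : oneAdd B ≤ oneAdd O.K := oneAdd_mono O.BK
  have hm : ∀ a (ha : a ∈ oneAdd B), (if h : a ∈ oneAdd B then μ ⟨a, h⟩ else 1) = μ ⟨a, ha⟩ :=
    fun a ha => dif_pos ha
  have hθ : ∀ a (ha : a ∈ oneAdd O.K),
      (if h : a ∈ oneAdd O.K then Multiplicative.toAdd (O.θ ⟨a, h⟩) else 0) =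
        Multiplicative.toAdd (O.θ ⟨a, ha⟩) := fun a ha => dif_pos ha
  refine ⟨{ q0 := O.q0
            card_F := O.card_F
            unit_q0 := hR _ ((q0_dvd O).trans (card_oneAdd_dvd O.KJ))
            N := oneAdd O.K
            Z := oneAdd B
            normal_N := inferInstance
            normal_Z := inferInstance
            le := hle
            unit_N := hR _ (card_oneAdd_dvd O.KJ)
            m := fun a => if h : a ∈ oneAdd B then μ ⟨a, h⟩ else 1
            m_mul := ?_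
            m_conj := ?_
            θ := fun a => if h : a ∈ oneAdd O.K then Multiplicative.toAdd (O.θ ⟨a, h⟩) else 0
            θ_mul := ?_
            θ_surj := ?_
            θ_ker := ?_
            σ := uinc O.T
            inj := uinc_injective O.T
            ρ := O.ρ
            θ_equi := ?_
            gen := ?_
            z := O.z
            z_central := fun y => (O.z_comm y).symm
            u0 := O.u0
            prim := O.prim
            ρ_z := O.ρ_z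
            nondeg := ?_ }, rfl, ?_⟩
  · intro a ha b hb
    rw [hm a ha, hm b hb, hm _ ((oneAdd B).mul_mem ha hb), ← map_mul]
    rfl
  · intro x a ha
    rw [hm a ha, hm _ ((oneAdd_normal B).conj_mem a ha x)]
    exact hμ x ⟨a, ha⟩
  · intro a ha b hb
    rw [hθ a ha, hθ b hb, hθ _ ((oneAdd O.K).mul_mem ha hb), ← toAdd_mul, ← map_mul]
    rfl
  · intro v
    obtain ⟨n, hn⟩ := O.θ_surj (Multiplicative.ofAdd v)
    refine ⟨n, n.2, ?_⟩
    rw [hθ n n.2]
    exact congrArg Multiplicative.toAdd hn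
  · intro a ha
    rw [hθ a ha]
    exact O.θ_ker ⟨a, ha⟩
  · intro y a ha
    rw [hθ a ha, hθ _ ((oneAdd_normal O.K).conj_mem a ha _)]
    exact congrArg Multiplicative.toAdd (O.equiv y ⟨a, ha⟩)
  · intro x
    obtain ⟨n, hn, y, hy⟩ := O.decomp x
    exact ⟨n, hn, y, hy⟩
  · intro a ha ha'
    obtain ⟨n', h, hne⟩ := O.nondeg ⟨a, ha⟩ ha'
    refine ⟨n', n'.2, ?_⟩
    rw [hm _ h]
    exact hne
  · show idp (oneAdd B) (MonoidHom.mk' _ _) = idp (oneAdd B) μ
    congr 1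
    ext a
    exact congrArg _ (hm a a.2)

end WD

theorem idp_of_trivial {R X : Type*} [CommRing R] [Group X] [Finite X] (N : Subgroup X)
    (hN : ∀ x ∈ N, x = 1) (ν : N →* Rˣ) : idp N ν = 1 := by
  have hsub : Subsingleton N := ⟨fun a b => Subtype.ext ((hN a a.2).trans (hN b b.2).symm)⟩
  have hu : Unique N := ⟨⟨1⟩, fun a => Subsingleton.elim _ _⟩
  rw [idp, Nat.card_unique, Nat.cast_one, Ring.inverse_one, one_smul,
    finsum_eq_single _ (1 : N) (fun x hx => absurd (Subsingleton.elim x 1) hx)]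
  rw [inv_one, map_one, Units.val_one, one_smul]
  exact dl_one

theorem idp_congr {R X : Type*} [CommRing R] [Group X] [Finite X] {N N' : Subgroup X}
    (hN : N = N') {ν : N →* Rˣ} {ν' : N' →* Rˣ}
    (h : ∀ x (h1 : x ∈ N) (h2 : x ∈ N'), ν ⟨x, h1⟩ = ν' ⟨x, h2⟩) : idp N ν = idp N' ν' := by
  subst hN
  congr 1
  ext x
  exact congrArg Units.val (h x x.2 x.2)

/-- The reduction. -/
theorem reduction {ℓ : ℕ} [Fact ℓ.Prime] {Λ : Type u} [CommRing Λ] [IsDomain Λ] [CharZero Λ]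
    [IsLocalRing Λ] [IsNoetherianRing Λ] [IsAdicComplete (maximalIdeal Λ) Λ]
    [CharP (ResidueField Λ) ℓ] (n : ℕ) : ∀ (S : Type) [Ring S] [Finite S], Nat.card S = n →
      ¬ ℓ ∣ n → (∃ ζ : Λ, IsPrimitiveRoot ζ n) → ∀ τ : Triple ℓ Λ Sˣ,
        ∃ (A : Type) (_ : Ring A) (_ : Finite A), IsSemisimpleRing A ∧ Nat.card A ∣ n ∧
          ∃ τ' : Triple ℓ Λ Aˣ, Rel τ τ' := by
  induction n using Nat.strong_induction_on with
  | _ n ih =>
    intro S _ _ hS hℓ hζ τ
    have hn0 : n ≠ 0 := by rintro rfl; exact hℓ (dvd_zero _)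
    have hR : ∀ m : ℕ, m ∣ Nat.card S → IsUnit ((m : ℕ) : Λ) := fun m hm =>
      isUnit_natCast (ℓ := ℓ) m (fun h => hℓ (h.trans (hS ▸ hm)))
    have hne : ∀ (I : Ideal S) [I.IsTwoSided], I ≤ Ring.jacobson S →
        ¬ ℓ ∣ Nat.card (oneAdd I) := fun I _ hI h =>
      hℓ (h.trans (hS ▸ card_oneAdd_dvd hI))
    have hsub : ∀ T : Subring S, T ≠ ⊤ → ∀ τ1 : Triple ℓ Λ Tˣ, Rel τ τ1 →
        ∃ (A : Type) (_ : Ring A) (_ : Finite A), IsSemisimpleRing A ∧ Nat.card A ∣ n ∧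
          ∃ τ' : Triple ℓ Λ Aˣ, Rel τ τ' := by
      intro T hT τ1 h1
      have hd : Nat.card T ∣ n := hS ▸ card_subring_dvd T
      obtain ⟨A, hA1, hA2, hA3, hA4, τ2, h2⟩ := ih (Nat.card T) (hS ▸ card_subring_lt hT) T rfl
        (fun h => hℓ (h.trans hd)) (exists_prim_of_dvd hn0 hζ hd) τ1
      exact ⟨A, hA1, hA2, hA3, hA4.trans hd, τ2, h1.trans h2⟩
    let Ov : ∀ (I : Ideal S) [I.IsTwoSided], (oneAdd I →* Λˣ) → Prop :=
      fun I _ χ => τ.b * idp (oneAdd I) χ ≠ 0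
    have hax : OvAx Ov := by
      constructor
      · show τ.b * idp (oneAdd ⊥) 1 ≠ 0
        rw [idp_of_trivial, mul_one]
        · exact τ.hb.ne_zero
        · intro x hx
          exact Units.ext (sub_eq_zero.mp hx)
      · intro I I' _ _ hII' hI' χ hinv hc hO
        obtain ⟨ν, h1, h2⟩ := exists_ext (oneAdd I) (oneAdd I') (oneAdd_mono hII')
          (exists_prim_of_dvd hn0 hζ (hS ▸ card_oneAdd_dvd hI'))
          (hR _ (card_oneAdd_dvd hI')) χ hc hO
        exact ⟨ν, fun m => h1 m m.2, h2⟩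
    obtain ⟨I, hI2, hIJ, χ, hOv, h⟩ := ring_main hax
    rcases h with h | ⟨rfl, F, hF⟩ | ⟨hst, ⟨O⟩⟩
    · have hσ : (uinc (stab hIJ χ)).range = stb (oneAdd I) χ := by
        ext u
        exact mem_range_uinc_stab hIJ χ u
      obtain ⟨τ1, h1⟩ := lin_dom (oneAdd I) χ (uinc (stab hIJ χ)) (hne I hIJ)
        (uinc_injective _) hσ τ hOv
      exact hsub _ h τ1 h1
    · obtain ⟨τ1, h1⟩ := quo_dom
        (Units.map (Ideal.Quotient.mk (Ring.jacobson S)).toMonoidHom) F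
        units_map_mk_surjective (ker_units_map_mk (S := S) ▸ hne _ hIJ) τ (by
          have : quoE (Units.map (Ideal.Quotient.mk (Ring.jacobson S)).toMonoidHom) F =
              idp (oneAdd (Ring.jacobson S)) χ := by
            refine idp_congr ker_units_map_mk (fun x h h' => ?_)
            exact Units.ext (congrArg Units.val (hF ⟨x, h'⟩))
          rw [this]
          exact hOv)
      exact ⟨S ⧸ Ring.jacobson S, inferInstance,
        Finite.of_surjective _ Ideal.Quotient.mk_surjective, isSemisimpleRing_quotient,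
        hS ▸ card_quotient_dvd, τ1, h1⟩
    · obtain ⟨W, hW1, hW2⟩ := exists_WD hR χ (conj_of_stab_top hIJ χ hst) O
      obtain ⟨τ1, h1⟩ := W.dom (ℓ := ℓ) (hW1 ▸ hne O.K O.KJ)
        (hW1 ▸ exists_prim_of_dvd hn0 hζ (hS ▸ card_oneAdd_dvd O.KJ)) τ (hW2 ▸ hOv)
      exact hsub _ O.T_ne τ1 h1

/-- the unit group of a semisimple finite ring is a product of general linear groups -/
theorem exists_GL (A : Type) [Ring A] [Finite A] [IsSemisimpleRing A] :
    ∃ (r : ℕ) (n : Fin r → ℕ) (F : Fin r → Type) (_ : ∀ i, Field (F i)) (_ : ∀ i, Finite (F i)),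
      Nat.card ((i : Fin r) → Matrix (Fin (n i)) (Fin (n i)) (F i)) = Nat.card A ∧
      ∃ ρ : Aˣ →* ((i : Fin r) → Matrix.GeneralLinearGroup (Fin (n i)) (F i)),
        Function.Bijective ρ := by
  obtain ⟨W⟩ := exists_wedd A
  have hinj : Function.Injective W.π := by
    rw [RingHom.injective_iff_ker_eq_bot, W.ker]
    exact IsSemisimpleRing.jacobson_eq_bot A
  let e : A ≃+* ((i : Fin W.n) → Matrix (Fin (W.d i)) (Fin (W.d i)) (W.F i)) :=
    RingEquiv.ofBijective W.π ⟨hinj, W.surj⟩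
  refine ⟨W.n, W.d, W.F, W.field, W.fin, (Nat.card_congr e.toEquiv).symm,
    ((Units.mapEquiv e.toMulEquiv).trans MulEquiv.piUnits).toMonoidHom, ?_⟩
  exact ((Units.mapEquiv e.toMulEquiv).trans MulEquiv.piUnits).bijective

/-- Isomorphic groups have related blocks. -/
theorem dom_of_bijective {ℓ : ℕ} [Fact ℓ.Prime] {Λ : Type u} [CommRing Λ] [IsDomain Λ]
    [IsLocalRing Λ] [CharP (ResidueField Λ) ℓ] {X A : Type} [Group X] [Group A] [Finite X]
    (ρ : X →* A) (hρ : Function.Bijective ρ) (τ : Triple ℓ Λ X) :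
    ∃ τ' : Triple ℓ Λ A, Rel τ τ' := by
  have hk : ∀ x ∈ ρ.ker, x = 1 := fun x hx => by
    rw [(MonoidHom.ker_eq_bot_iff ρ).mpr hρ.1] at hx
    exact hx
  have hc : Nat.card ρ.ker = 1 := by
    rw [(MonoidHom.ker_eq_bot_iff ρ).mpr hρ.1]
    exact Subgroup.card_bot
  have hℓ : ¬ ℓ ∣ Nat.card ρ.ker := by
    rw [hc]
    intro h
    exact (Fact.out : ℓ.Prime).one_lt.ne' (Nat.dvd_one.mp h)
  refine quo_dom ρ 1 hρ.2 hℓ τ ?_
  rw [quoE, idp_of_trivial _ hk, mul_one]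
  exact τ.hb.ne_zero

/-- The reduction to products of general linear groups. -/
theorem reduction_GL {ℓ : ℕ} [Fact ℓ.Prime] {Λ : Type u} [CommRing Λ] [IsDomain Λ] [CharZero Λ]
    [IsLocalRing Λ] [IsNoetherianRing Λ] [IsAdicComplete (maximalIdeal Λ) Λ]
    [CharP (ResidueField Λ) ℓ] (S : Type) [Ring S] [Finite S] (hS : ¬ ℓ ∣ Nat.card S)
    (hζ : ∃ ζ : Λ, IsPrimitiveRoot ζ (Nat.card S)) (τ : Triple ℓ Λ Sˣ) :
    ∃ (r : ℕ) (n : Fin r → ℕ) (F : Fin r → Type) (_ : ∀ i, Field (F i)) (_ : ∀ i, Finite (F i)),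
      Nat.card ((i : Fin r) → Matrix (Fin (n i)) (Fin (n i)) (F i)) ∣ Nat.card S ∧
      ∃ τ' : Triple ℓ Λ ((i : Fin r) → Matrix.GeneralLinearGroup (Fin (n i)) (F i)),
        Rel τ τ' := by
  obtain ⟨A, h1, h2, h3, h4, τ1, h5⟩ := reduction (Nat.card S) S rfl hS hζ τ
  obtain ⟨r, n, F, f1, f2, h6, ρ, hρ⟩ := exists_GL A
  obtain ⟨τ2, h7⟩ := dom_of_bijective ρ hρ τ1
  exact ⟨r, n, F, f1, f2, h6 ▸ h4, τ2, h5.trans h7⟩

end Pool.Agent.URing
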