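import Pool.Agent.URing.Base

/-!
# The idempotent of a linear character of a subgroup (module LIN)
-/

set_option autoImplicit false

namespace Pool.Agent.URing

open MonoidAlgebra Pool.Agent.UBlocks

variable {R X : Type*} [CommRing R] [Group X]

/-- `|N|⁻¹ ∑ ν(n⁻¹) n` -/
noncomputable def idp (N : Subgroup X) (ν : N →* Rˣ) : MonoidAlgebra R X :=
  Ring.inverse ((Nat.card N : ℕ) : R) • ∑ᶠ n : N, ((ν n⁻¹ : Rˣ) : R) • dl R (n : X)

/-- the stabiliser of a linear character of a normal subgroup -/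
def stb (N : Subgroup X) [N.Normal] (ν : N →* Rˣ) : Subgroup X where
  carrier := {x | ∀ n : N, ν (MulAut.conjNormal x n) = ν n}
  mul_mem' {x y} hx hy n := by
    rw [map_mul, MulAut.mul_apply, hx, hy]
  one_mem' n := by rw [map_one, MulAut.one_apply]
  inv_mem' {x} hx n := by
    have h := hx (MulAut.conjNormal x⁻¹ n)
    rw [← MulAut.mul_apply, ← map_mul, mul_inv_cancel, map_one, MulAut.one_apply] at h
    exact h.symm

theorem mem_stb {N : Subgroup X} [N.Normal] {ν : N →* Rˣ} {x : X} :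
    x ∈ stb N ν ↔ ∀ n : N, ν (MulAut.conjNormal x n) = ν n := Iff.rfl

/-- `ν (x⁻¹ n x)` -/
def cjc {N : Subgroup X} [N.Normal] (x : X) (ν : N →* Rˣ) : N →* Rˣ :=
  ν.comp (MulAut.conjNormal x⁻¹).toMonoidHom

variable [Finite X] (N : Subgroup X) (ν : N →* Rˣ)

omit [Finite X] in
private theorem lin_eq [Fintype N] : idp N ν =
    Ring.inverse ((Nat.card N : ℕ) : R) • ∑ n : N, ((ν n⁻¹ : Rˣ) : R) • dl R (n : X) := by
  rw [idp, finsum_eq_sum_of_fintype]

theorem coeff_idp (n : N) :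
    (idp N ν).coeff (n : X) = Ring.inverse ((Nat.card N : ℕ) : R) * ((ν n⁻¹ : Rˣ) : R) := by
  classical
  have : Fintype N := Fintype.ofFinite N
  rw [lin_eq, coeff_smul, Finsupp.smul_apply, coeff_sum, Finsupp.finsetSum_apply,
    Finset.sum_eq_single n]
  · rw [coeff_smul, Finsupp.smul_apply, coeff_dl, if_pos rfl, smul_eq_mul, smul_eq_mul, mul_one]
  · intro b _ hb
    rw [coeff_smul, Finsupp.smul_apply, coeff_dl, if_neg, smul_zero]
    intro h
    exact hb (Subtype.ext h)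
  · intro h
    exact absurd (Finset.mem_univ _) h

theorem coeff_idp_zero {x : X} (hx : x ∉ N) : (idp N ν).coeff x = 0 := by
  classical
  have : Fintype N := Fintype.ofFinite N
  rw [lin_eq, coeff_smul, Finsupp.smul_apply, coeff_sum, Finsupp.finsetSum_apply,
    Finset.sum_eq_zero, smul_zero]
  intro b _
  rw [coeff_smul, Finsupp.smul_apply, coeff_dl, if_neg, smul_zero]
  intro h
  exact hx (h ▸ b.2)

theorem dl_mul_idp (n : N) : dl R (n : X) * idp N ν = ((ν n : Rˣ) : R) • idp N ν := by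
  have : Fintype N := Fintype.ofFinite N
  rw [lin_eq, mul_smul_comm, Finset.mul_sum, smul_comm ((ν n : Rˣ) : R)]
  congr 1
  rw [Finset.smul_sum]
  refine Fintype.sum_equiv (Equiv.mulLeft n) _ _ fun c => ?_
  rw [mul_smul_comm, ← dl_mul, smul_smul]
  congr 1
  have h1 : (Equiv.mulLeft n) c = n * c := rfl
  rw [h1, mul_inv_rev, map_mul, Units.val_mul, mul_comm ((ν c⁻¹ : Rˣ) : R), ← mul_assoc,
    ← Units.val_mul, ← map_mul, mul_inv_cancel, map_one, Units.val_one, one_mul]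

theorem idp_mul_dl (n : N) : idp N ν * dl R (n : X) = ((ν n : Rˣ) : R) • idp N ν := by
  have : Fintype N := Fintype.ofFinite N
  rw [lin_eq, smul_mul_assoc, Finset.sum_mul, smul_comm ((ν n : Rˣ) : R)]
  congr 1
  rw [Finset.smul_sum]
  refine Fintype.sum_equiv (Equiv.mulRight n) _ _ fun c => ?_
  rw [smul_mul_assoc, ← dl_mul, smul_smul]
  congr 1
  have h1 : (Equiv.mulRight n) c = c * n := rfl
  rw [h1, mul_inv_rev, map_mul, Units.val_mul, ← mul_assoc, ← Units.val_mul, ← map_mul,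
    mul_inv_cancel, map_one, Units.val_one, one_mul]

theorem idp_idem (hN : IsUnit ((Nat.card N : ℕ) : R)) : idp N ν * idp N ν = idp N ν := by
  have : Fintype N := Fintype.ofFinite N
  conv_lhs => rw [lin_eq N ν, mul_smul_comm, Finset.mul_sum, ← lin_eq N ν]
  have h1 : ∀ b : N, idp N ν * (((ν b⁻¹ : Rˣ) : R) • dl R (b : X)) = idp N ν := by
    intro b
    rw [mul_smul_comm, idp_mul_dl, smul_smul, ← Units.val_mul, ← map_mul, inv_mul_cancel, map_one,
      Units.val_one, one_smul]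
  rw [Finset.sum_congr rfl fun b _ => h1 b, Finset.sum_const, Finset.card_univ,
    ← Nat.cast_smul_eq_nsmul R, smul_smul, ← Nat.card_eq_fintype_card, Ring.inverse_mul_cancel _ hN,
    one_smul]

theorem idp_ne_zero [Nontrivial R] (hN : IsUnit ((Nat.card N : ℕ) : R)) : idp N ν ≠ 0 := by
  intro h
  have h1 := coeff_idp N ν 1
  rw [h, inv_one, map_one, Units.val_one, mul_one] at h1
  have h2 := Ring.inverse_mul_cancel _ hN
  rw [← h1] at h2
  simp at h2

/-- `ν(n) e_ν e_ν' = e_ν n e_ν' = ν'(n) e_ν e_ν'` -/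
theorem idp_mul_idp [IsDomain R] {ν ν' : N →* Rˣ} (h : ν ≠ ν') : idp N ν * idp N ν' = 0 := by
  obtain ⟨n, hn⟩ : ∃ n, ν n ≠ ν' n := by
    by_contra hcon
    push Not at hcon
    exact h (MonoidHom.ext hcon)
  have h1 : ((ν n : Rˣ) : R) • (idp N ν * idp N ν') = ((ν' n : Rˣ) : R) • (idp N ν * idp N ν') := by
    rw [← smul_mul_assoc, ← idp_mul_dl, mul_assoc, dl_mul_idp, mul_smul_comm]
  have h2 : (((ν n : Rˣ) : R) - ((ν' n : Rˣ) : R)) • (idp N ν * idp N ν') = 0 := by
    rw [sub_smul, h1, sub_self]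
  rcases smul_eq_zero.1 h2 with h3 | h3
  · exact absurd (Units.ext (sub_eq_zero.1 h3)) hn
  · exact h3

theorem cj_idp [N.Normal] (x : X) : cj x (idp N ν) = idp N (cjc x ν) := by
  have : Fintype N := Fintype.ofFinite N
  rw [lin_eq, lin_eq, cj_smul, cj_sum]
  congr 1
  refine Fintype.sum_equiv (MulAut.conjNormal x).toEquiv _ _ fun n => ?_
  rw [cj_smul, cj, ← dl_mul, ← dl_mul]
  have h1 : (cjc x ν) ((MulAut.conjNormal x).toEquiv n)⁻¹ = ν n⁻¹ := by
    change ν (MulAut.conjNormal x⁻¹ ((MulAut.conjNormal x n)⁻¹)) = _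
    rw [← map_inv (MulAut.conjNormal x), ← MulAut.mul_apply, ← map_mul, inv_mul_cancel, map_one,
      MulAut.one_apply]
  rw [h1]
  rfl

theorem cj_idp_of_mem [N.Normal] {x : X} (hx : x ∈ stb N ν) : cj x (idp N ν) = idp N ν := by
  rw [cj_idp]
  congr 1
  ext n
  have h := (stb N ν).inv_mem hx n
  exact congrArg Units.val h

theorem cjc_ne [N.Normal] {x : X} (hx : x ∉ stb N ν) : cjc x ν ≠ ν := by
  intro h
  apply hx
  have h1 : x⁻¹ ∈ stb N ν := by
    intro n
    exact DFunLike.congr_fun h n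
  exact inv_mem_iff.1 h1

/-- `N ≤ stb N ν` -/
theorem le_stb [N.Normal] : N ≤ stb N ν := by
  intro x hx n
  have h1 : MulAut.conjNormal x n = (⟨x, hx⟩ : N) * n * (⟨x, hx⟩ : N)⁻¹ := Subtype.ext rfl
  rw [h1, map_mul, map_mul, map_inv, mul_comm (ν ⟨x, hx⟩), mul_inv_cancel_right]

end Pool.Agent.URing
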