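import Pool.Agent.URing.Base

/-!
# Transfer data: elementary consequences, central elements (module XFA)
-/

set_option autoImplicit false

namespace Pool.Agent.URing

open MonoidAlgebra Pool.Agent.UBlocks

namespace Xf

variable {R Y X : Type*} [CommRing R] [Group Y] [Group X] (C : Xf R Y X)

/-- `Ψ(a) Ψ(e) = Ψ(a) Ψ(1) = Ψ(a)`. -/
theorem Ψ_mul_e (a : MonoidAlgebra R Y) : C.Ψ (a * C.e) = C.Ψ a := by
  rw [C.mul, C.Ψ_e, ← C.mul, mul_one]

theorem one_mul_Ψ (a : MonoidAlgebra R Y) : C.Ψ 1 * C.Ψ a = C.Ψ a := by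
  rw [← C.mul, one_mul]

theorem Ψ_mul_one (a : MonoidAlgebra R Y) : C.Ψ a * C.Ψ 1 = C.Ψ a := by
  rw [← C.mul, mul_one]

/-- If `Ψ(c) ε = 0` then `Ψ(c) = Ψ(c) Ψ(1) = ∑ m (Ψ(c) ε) m' = 0`. -/
theorem eq_of_ε {a b : MonoidAlgebra R Y} (h : C.Ψ a * C.ε = C.Ψ b * C.ε) : C.Ψ a = C.Ψ b := by
  letI := C.fin
  have key : ∀ c : MonoidAlgebra R Y, C.Ψ c = ∑ i, C.m i * (C.Ψ c * C.ε) * C.m' i := by
    intro c
    calc C.Ψ c = C.Ψ c * C.Ψ 1 := (C.Ψ_mul_one c).symm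
      _ = C.Ψ c * ∑ i, C.m i * C.ε * C.m' i := by rw [C.span]
      _ = ∑ i, C.m i * (C.Ψ c * C.ε) * C.m' i := by
        rw [Finset.mul_sum]
        refine Finset.sum_congr rfl fun i _ => ?_
        calc C.Ψ c * (C.m i * C.ε * C.m' i) = (C.Ψ c * C.m i) * C.ε * C.m' i := by
              simp only [mul_assoc]
          _ = (C.m i * C.Ψ c) * C.ε * C.m' i := by rw [C.m_comm]
          _ = _ := by simp only [mul_assoc]
  rw [key a, key b, h]

theorem eq_of_Ψ {a b : MonoidAlgebra R Y} (h : C.Ψ a = C.Ψ b) : a * C.e = b * C.e := by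
  have h1 : C.Ψ (a - b) = 0 := by rw [map_sub, h, sub_self]
  have h2 := C.ker _ h1
  rw [sub_mul] at h2
  exact sub_eq_zero.1 h2

/-- linear extension of `corner` (`eq_sum_dl`) -/
theorem corner' [Finite X] (y : MonoidAlgebra R X) : ∃ a, C.ε * y * C.ε = C.Ψ a * C.ε := by
  have := Fintype.ofFinite X
  choose f hf using C.corner
  refine ⟨∑ x, y.coeff x • f x, ?_⟩
  conv_lhs => rw [eq_sum_dl y]
  rw [Finset.mul_sum, Finset.sum_mul, map_sum, Finset.sum_mul]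
  refine Finset.sum_congr rfl fun x _ => ?_
  rw [mul_smul_comm, smul_mul_assoc, hf, map_smul, smul_mul_assoc]

/-- T1: `z ε = ε z ε = Ψ(a) ε` and `z Ψ(1) = ∑ m (z ε) m' = Ψ(a) ∑ m ε m' = Ψ(a)`; replace `a` by
`a e`.  Centrality of `a e`: `Ψ(x a) = Ψ(x) z Ψ(1) = z Ψ(x) = Ψ(a x)`, so `x a e = a x e` by
`eq_of_Ψ`. -/
theorem exists_down [Finite X] {z : MonoidAlgebra R X} (hz : ∀ x, x * z = z * x) :
    ∃ a, (∀ x, x * a = a * x) ∧ a * C.e = a ∧ C.Ψ a = z * C.Ψ 1 := by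
  letI := C.fin
  obtain ⟨a, ha⟩ := C.corner' z
  have h1 : z * C.ε = C.Ψ a * C.ε := by
    rw [← ha, hz C.ε, mul_assoc, C.ε_idem]
  have h2 : C.Ψ a = z * C.Ψ 1 := by
    symm
    calc z * C.Ψ 1 = z * ∑ i, C.m i * C.ε * C.m' i := by rw [C.span]
      _ = ∑ i, C.m i * (z * C.ε) * C.m' i := by
        rw [Finset.mul_sum]
        refine Finset.sum_congr rfl fun i _ => ?_
        calc z * (C.m i * C.ε * C.m' i) = (z * C.m i) * C.ε * C.m' i := by
              simp only [mul_assoc]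
          _ = (C.m i * z) * C.ε * C.m' i := by rw [hz]
          _ = _ := by simp only [mul_assoc]
      _ = ∑ i, C.Ψ a * (C.m i * C.ε * C.m' i) := by
        rw [h1]
        refine Finset.sum_congr rfl fun i _ => ?_
        calc C.m i * (C.Ψ a * C.ε) * C.m' i = (C.m i * C.Ψ a) * C.ε * C.m' i := by
              simp only [mul_assoc]
          _ = (C.Ψ a * C.m i) * C.ε * C.m' i := by rw [C.m_comm]
          _ = _ := by simp only [mul_assoc]
      _ = C.Ψ a := by rw [← Finset.mul_sum, C.span, C.Ψ_mul_one]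
  have hc : ∀ x, x * a * C.e = a * x * C.e := by
    intro x
    apply C.eq_of_Ψ
    rw [C.mul, C.mul, h2]
    calc C.Ψ x * (z * C.Ψ 1) = (C.Ψ x * z) * C.Ψ 1 := by rw [mul_assoc]
      _ = (z * C.Ψ x) * C.Ψ 1 := by rw [hz]
      _ = z * (C.Ψ x * C.Ψ 1) := by rw [mul_assoc]
      _ = z * (C.Ψ 1 * C.Ψ x) := by rw [C.Ψ_mul_one, C.one_mul_Ψ]
      _ = _ := by rw [mul_assoc]
  refine ⟨a * C.e, ?_, ?_, ?_⟩
  · intro x
    calc x * (a * C.e) = x * a * C.e := by rw [mul_assoc]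
      _ = a * x * C.e := hc x
      _ = a * (x * C.e) := by rw [mul_assoc]
      _ = a * (C.e * x) := by rw [C.e_central]
      _ = _ := by rw [mul_assoc]
  · rw [mul_assoc, C.e_idem]
  · rw [C.Ψ_mul_e, h2]

/-- T2: insert `Ψ(1) = ∑ m ε m'` on both sides of `y`:
`Ψ(a) y Ψ(1) = ∑ m_i Ψ(a) (ε m'_i y m_j ε) m'_j`, `ε m'_i y m_j ε = Ψ(c) ε`, and
`Ψ(a) Ψ(c) ε = Ψ(c) Ψ(a) ε = (Ψ(c) ε) Ψ(a)`. -/
theorem swap [Finite X] {a : MonoidAlgebra R Y} (ha : ∀ x, x * a = a * x)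
    (y : MonoidAlgebra R X) : C.Ψ a * y * C.Ψ 1 = C.Ψ 1 * y * C.Ψ a := by
  letI := C.fin
  have key : ∀ w : MonoidAlgebra R X, C.Ψ a * (C.ε * w * C.ε) = (C.ε * w * C.ε) * C.Ψ a := by
    intro w
    obtain ⟨c, hc⟩ := C.corner' w
    rw [hc]
    calc C.Ψ a * (C.Ψ c * C.ε) = C.Ψ (a * c) * C.ε := by rw [C.mul, mul_assoc]
      _ = C.Ψ (c * a) * C.ε := by rw [ha]
      _ = C.Ψ c * (C.Ψ a * C.ε) := by rw [C.mul, mul_assoc]
      _ = C.Ψ c * (C.ε * C.Ψ a) := by rw [C.ε_comm]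
      _ = _ := by rw [mul_assoc]
  have e1 : C.Ψ 1 * y * C.Ψ 1 =
      ∑ i, ∑ j, C.m i * (C.ε * (C.m' i * y * C.m j) * C.ε) * C.m' j := by
    conv_lhs => rw [← C.span]
    rw [Finset.sum_mul, Finset.sum_mul]
    refine Finset.sum_congr rfl fun i _ => ?_
    rw [Finset.mul_sum]
    refine Finset.sum_congr rfl fun j _ => ?_
    simp only [mul_assoc]
  calc C.Ψ a * y * C.Ψ 1 = C.Ψ a * (C.Ψ 1 * y * C.Ψ 1) := by
        simp only [← mul_assoc]
        rw [C.Ψ_mul_one]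
    _ = ∑ i, ∑ j, C.Ψ a * (C.m i * (C.ε * (C.m' i * y * C.m j) * C.ε) * C.m' j) := by
        rw [e1, Finset.mul_sum]
        refine Finset.sum_congr rfl fun i _ => ?_
        rw [Finset.mul_sum]
    _ = ∑ i, ∑ j, (C.m i * (C.ε * (C.m' i * y * C.m j) * C.ε) * C.m' j) * C.Ψ a := by
        refine Finset.sum_congr rfl fun i _ => Finset.sum_congr rfl fun j _ => ?_
        set w := C.m' i * y * C.m j
        calc C.Ψ a * (C.m i * (C.ε * w * C.ε) * C.m' j) =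
            (C.Ψ a * C.m i) * (C.ε * w * C.ε) * C.m' j := by simp only [mul_assoc]
          _ = (C.m i * C.Ψ a) * (C.ε * w * C.ε) * C.m' j := by rw [C.m_comm]
          _ = C.m i * (C.Ψ a * (C.ε * w * C.ε)) * C.m' j := by simp only [mul_assoc]
          _ = C.m i * ((C.ε * w * C.ε) * C.Ψ a) * C.m' j := by rw [key]
          _ = C.m i * (C.ε * w * C.ε) * (C.Ψ a * C.m' j) := by simp only [mul_assoc]
          _ = C.m i * (C.ε * w * C.ε) * (C.m' j * C.Ψ a) := by rw [C.m'_comm]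
          _ = _ := by simp only [mul_assoc]
    _ = (C.Ψ 1 * y * C.Ψ 1) * C.Ψ a := by
        rw [e1, Finset.sum_mul]
        refine Finset.sum_congr rfl fun i _ => ?_
        rw [Finset.sum_mul]
    _ = C.Ψ 1 * y * C.Ψ a := by
        rw [mul_assoc (C.Ψ 1 * y), C.one_mul_Ψ]

/-- the transfer of elements of `R Y` to `R X` -/
noncomputable def up (a : MonoidAlgebra R Y) : MonoidAlgebra R X :=
  ((C.u⁻¹ : Rˣ) : R) • ∑ᶠ q : X ⧸ C.σ.range, cj (Quotient.out q) (C.Ψ a)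

variable [Finite X]

private theorem XfA_fix {a : MonoidAlgebra R Y} (ha : ∀ x, x * a = a * x) :
    ∀ t ∈ C.σ.range, cj t (C.Ψ a) = C.Ψ a := by
  rintro _ ⟨y, rfl⟩
  rw [C.equi]
  congr 1
  rw [cj_eq_iff]
  exact ha _

private theorem XfA_up [Fintype (X ⧸ C.σ.range)] (a : MonoidAlgebra R Y) :
    C.up a = ((C.u⁻¹ : Rˣ) : R) • tr C.σ.range (C.Ψ a) := by
  unfold up tr
  rw [finsum_eq_sum_of_fintype]

private theorem XfA_tr [Fintype (X ⧸ C.σ.range)] :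
    tr C.σ.range (C.Ψ 1) = (C.u : R) • C.f := by
  rw [← C.trace, finsum_eq_sum_of_fintype]
  rfl

private theorem XfA_cj_up {a : MonoidAlgebra R Y} (ha : ∀ x, x * a = a * x) (x : X) :
    cj x (C.up a) = C.up a := by
  classical
  have := Fintype.ofFinite X
  have := Fintype.ofFinite (X ⧸ C.σ.range)
  rw [XfA_up, cj_smul, cj_tr (C.XfA_fix ha)]

/-- `Ψ(a)` is fixed by the conjugation with `σ(Y)` (`equi`; `Y` is finite as `σ` is injective, use
`central_iff`), so the trace is fixed by `X` (`cj_tr`). -/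
theorem up_central {a : MonoidAlgebra R Y} (ha : ∀ x, x * a = a * x) (y : MonoidAlgebra R X) :
    y * C.up a = C.up a * y := by
  classical
  have := Fintype.ofFinite X
  exact (central_iff _).2 (C.XfA_cj_up ha) y

/-- `cj q (Ψ(a)) Ψ(1) = q (Ψ(a) q⁻¹ Ψ(1)) = q (Ψ(1) q⁻¹ Ψ(a)) = cj q (Ψ(1)) Ψ(a)` by `swap`; sum over
`q`: `u up(a) Ψ(1) = u f Ψ(a) = u f Ψ(1) Ψ(a) = u Ψ(a)`. -/
theorem up_mul_one {a : MonoidAlgebra R Y} (ha : ∀ x, x * a = a * x) :
    C.up a * C.Ψ 1 = C.Ψ a := by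
  classical
  have := Fintype.ofFinite X
  have := Fintype.ofFinite (X ⧸ C.σ.range)
  have key : ∀ q : X, cj q (C.Ψ a) * C.Ψ 1 = cj q (C.Ψ 1) * C.Ψ a := by
    intro q
    unfold cj
    calc dl R q * C.Ψ a * dl R q⁻¹ * C.Ψ 1 = dl R q * (C.Ψ a * dl R q⁻¹ * C.Ψ 1) := by
          simp only [mul_assoc]
      _ = dl R q * (C.Ψ 1 * dl R q⁻¹ * C.Ψ a) := by rw [C.swap ha]
      _ = _ := by simp only [mul_assoc]
  have h1 : tr C.σ.range (C.Ψ a) * C.Ψ 1 = tr C.σ.range (C.Ψ 1) * C.Ψ a := by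
    unfold tr
    rw [Finset.sum_mul, Finset.sum_mul]
    exact Finset.sum_congr rfl fun q _ => key _
  rw [XfA_up, smul_mul_assoc, h1, XfA_tr, smul_mul_assoc, smul_smul, Units.inv_mul, one_smul]
  rw [← C.one_mul_Ψ a, ← mul_assoc, C.f_one]

/-- `cj q (Ψ(a)) up(b) = cj q (Ψ(a) up(b)) = cj q (Ψ(a) Ψ(1) up(b)) = cj q (Ψ(a) Ψ(b))`. -/
theorem up_mul {a b : MonoidAlgebra R Y} (ha : ∀ x, x * a = a * x) (hb : ∀ x, x * b = b * x) :
    C.up (a * b) = C.up a * C.up b := by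
  classical
  have := Fintype.ofFinite X
  have := Fintype.ofFinite (X ⧸ C.σ.range)
  have h1 : ∀ q : X, cj q (C.Ψ a) * C.up b = cj q (C.Ψ (a * b)) := by
    intro q
    have h2 : cj q (C.up b) = C.up b := C.XfA_cj_up hb q
    conv_lhs => rw [← h2]
    rw [← cj_mul]
    congr 1
    calc C.Ψ a * C.up b = (C.Ψ a * C.Ψ 1) * C.up b := by rw [C.Ψ_mul_one]
      _ = C.Ψ a * (C.Ψ 1 * C.up b) := by rw [mul_assoc]
      _ = C.Ψ a * (C.up b * C.Ψ 1) := by rw [C.up_central hb]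
      _ = C.Ψ a * C.Ψ b := by rw [C.up_mul_one hb]
      _ = _ := (C.mul a b).symm
  rw [XfA_up C a, XfA_up C (a * b), smul_mul_assoc]
  congr 1
  unfold tr
  rw [Finset.sum_mul]
  exact Finset.sum_congr rfl fun q _ => (h1 _).symm

theorem up_one : C.up 1 = C.f := by
  classical
  have := Fintype.ofFinite X
  have := Fintype.ofFinite (X ⧸ C.σ.range)
  rw [XfA_up, XfA_tr, smul_smul, Units.inv_mul, one_smul]

theorem f_central (y : MonoidAlgebra R X) : y * C.f = C.f * y := by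
  rw [← C.up_one]
  exact C.up_central (by simp) y

/-- `z f = u⁻¹ ∑ cj q (z Ψ(1)) = up(a)` if `Ψ(a) = z Ψ(1)` and `z` is central. -/
theorem mul_f {z : MonoidAlgebra R X} (hz : ∀ x, x * z = z * x) {a : MonoidAlgebra R Y}
    (h : C.Ψ a = z * C.Ψ 1) : z * C.f = C.up a := by
  classical
  have := Fintype.ofFinite X
  have := Fintype.ofFinite (X ⧸ C.σ.range)
  have h1 : tr C.σ.range (C.Ψ a) = z * tr C.σ.range (C.Ψ 1) := by
    unfold tr
    rw [Finset.mul_sum]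
    refine Finset.sum_congr rfl fun q _ => ?_
    rw [h, cj_mul, (cj_eq_iff _ _).2 (hz _)]
  rw [XfA_up, h1, XfA_tr, mul_smul_comm, smul_smul, Units.inv_mul, one_smul]

omit [Finite X] in
/-- `b Ψ(1) = b f Ψ(1)` -/
theorem mul_f_ne {b : MonoidAlgebra R X} (h : b * C.Ψ 1 ≠ 0) : b * C.f ≠ 0 := by
  intro h1
  apply h
  rw [← C.f_one, ← mul_assoc, h1, zero_mul]

/-- T3.  `b f = b` as `b` is primitive and `f` a central idempotent.  Take `b'` from `exists_down`.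
It is idempotent by `ker` (`Ψ(b' b') = Ψ(b')`, `b' e = b'`), central, nonzero since `b = b f = up(b')`
by `mul_f`.  Primitive: for a central idempotent `g` of `R Y`, `up(g)` is a central idempotent
(`up_mul`, `up_central`), so `up(g) b` is `0` or `b`; multiply by `Ψ(1)`:
`up(g) b Ψ(1) = Ψ(g) Ψ(b') = Ψ(g b')` is `0` or `Ψ(b')`, so `g b' = g b' e` is `0` or `b'`. -/
theorem exists_blk {b : MonoidAlgebra R X} (hb : IsBlk b) (hf : b * C.f ≠ 0) :
    ∃ b' : MonoidAlgebra R Y, IsBlk b' ∧ b' * C.e = b' ∧ C.Ψ b' = b * C.Ψ 1 ∧ C.up b' = b := by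
  have hbf : b * C.f = b := by
    rcases hb.prim C.f C.f_idem C.f_central with h | h
    · exact absurd (by rw [← hb.central, h]) hf
    · rw [← hb.central, h]
  obtain ⟨a, ha, hae, hΨ⟩ := C.exists_down hb.central
  have hup : C.up a = b := by
    rw [← C.mul_f hb.central hΨ, hbf]
  have hΨb : C.Ψ a * C.Ψ a = C.Ψ a := by
    rw [hΨ]
    calc b * C.Ψ 1 * (b * C.Ψ 1) = b * (C.Ψ 1 * b) * C.Ψ 1 := by simp only [mul_assoc]
      _ = b * (b * C.Ψ 1) * C.Ψ 1 := by rw [hb.central]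
      _ = (b * b) * (C.Ψ 1 * C.Ψ 1) := by simp only [mul_assoc]
      _ = _ := by rw [hb.idem, C.Ψ_mul_one]
  refine ⟨a, ⟨?_, ha, ?_, ?_⟩, hae, hΨ, hup⟩
  · have h1 : a * a * C.e = a * C.e := C.eq_of_Ψ (by rw [C.mul, hΨb])
    rw [mul_assoc, hae] at h1
    exact h1
  · intro h0
    apply hb.ne_zero
    rw [← hup, h0]
    unfold up
    simp [cj]
  · intro g hg hgc
    have hga : ∀ x, x * (g * a) = (g * a) * x := by
      intro x
      rw [← mul_assoc, hgc, mul_assoc, ha, mul_assoc]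
    have h2 : C.up g * C.up g = C.up g := by rw [← C.up_mul hgc hgc, hg]
    have h3 : C.up g * b * C.Ψ 1 = C.Ψ (g * a) := by
      calc C.up g * b * C.Ψ 1 = C.up g * C.Ψ a := by rw [mul_assoc, ← hΨ]
        _ = C.up g * (C.Ψ 1 * C.Ψ a) := by rw [C.one_mul_Ψ]
        _ = (C.up g * C.Ψ 1) * C.Ψ a := by rw [mul_assoc]
        _ = C.Ψ g * C.Ψ a := by rw [C.up_mul_one hgc]
        _ = _ := (C.mul g a).symm
    rcases hb.prim (C.up g) h2 (C.up_central hgc) with h | h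
    · left
      rw [h, zero_mul] at h3
      have h4 := C.ker _ h3.symm
      rwa [mul_assoc, hae] at h4
    · right
      rw [h, ← hΨ] at h3
      have h4 := C.eq_of_Ψ h3
      rw [mul_assoc, hae] at h4
      exact h4.symm

end Xf

end Pool.Agent.URing
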