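import Pool.Agent.URing.Lin
import Pool.Agent.URing.XfA

/-!
# Clifford theory over a linear character: transfer data (module LXF)
-/

set_option autoImplicit false

namespace Pool.Agent.URing

open MonoidAlgebra Pool.Agent.UBlocks

variable {R X Y : Type*} [CommRing R] [Group X] [Group Y]

/-- The idempotent of `R Y`. -/
noncomputable def idpY (N : Subgroup X) (ν : N →* Rˣ) (σ : Y →* X) : MonoidAlgebra R Y :=
  idp (N.comap σ) (ν.comp (σ.subgroupComap N))

variable [Finite X] (N : Subgroup X) [N.Normal] (ν : N →* Rˣ) (σ : Y →* X)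

omit [Finite X] in
private theorem lxf_bij (inj : Function.Injective σ) (hσ : σ.range = stb N ν) :
    Function.Bijective (σ.subgroupComap N) := by
  constructor
  · intro a b h
    exact Subtype.ext (inj (congrArg Subtype.val h))
  · rintro ⟨x, hx⟩
    have h1 : x ∈ σ.range := hσ ▸ (show x ∈ stb N ν from by
      intro n
      have h1 : MulAut.conjNormal x n = (⟨x, hx⟩ : N) * n * (⟨x, hx⟩ : N)⁻¹ := Subtype.ext rfl
      rw [h1, map_mul, map_mul, map_inv, mul_comm (ν ⟨x, hx⟩), mul_inv_cancel_right])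
    obtain ⟨y, rfl⟩ := h1
    exact ⟨⟨y, hx⟩, rfl⟩

omit [Finite X] in
private theorem lxf_inj (inj : Function.Injective σ) : Function.Injective (inc R σ) :=
  MonoidAlgebra.mapDomain_injective inj

/-- `σ` is injective with range `stb N ν ≥ N`, so `N.comap σ ≃ N`. -/
theorem inc_idpY (inj : Function.Injective σ) (hσ : σ.range = stb N ν) :
    inc R σ (idpY N ν σ) = idp N ν := by
  have : Finite Y := Finite.of_injective σ inj
  have : Fintype N := Fintype.ofFinite N
  have : Fintype (N.comap σ) := Fintype.ofFinite _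
  have hb := lxf_bij N ν σ inj hσ
  have hc : Nat.card (N.comap σ) = Nat.card N := Nat.card_congr (Equiv.ofBijective _ hb)
  rw [idpY, idp, idp, finsum_eq_sum_of_fintype, finsum_eq_sum_of_fintype, map_smul, map_sum, hc]
  congr 1
  refine Fintype.sum_bijective _ hb _ _ fun m => ?_
  rw [map_smul, inc_dl, MonoidHom.comp_apply, map_inv (σ.subgroupComap N)]
  rfl

theorem inc_comm (inj : Function.Injective σ) (hσ : σ.range = stb N ν) (a : MonoidAlgebra R Y) :
    inc R σ a * idp N ν = idp N ν * inc R σ a := by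
  have : Finite Y := Finite.of_injective σ inj
  have : Fintype Y := Fintype.ofFinite Y
  rw [eq_sum_dl a, map_sum, Finset.sum_mul, Finset.mul_sum]
  refine Finset.sum_congr rfl fun y _ => ?_
  have hy : σ y ∈ stb N ν := hσ ▸ ⟨y, rfl⟩
  rw [map_smul, inc_dl, smul_mul_assoc, mul_smul_comm,
    (cj_eq_iff _ _).1 (cj_idp_of_mem N ν hy)]

theorem lin_mul (hN : IsUnit ((Nat.card N : ℕ) : R)) (inj : Function.Injective σ)
    (hσ : σ.range = stb N ν) (a b : MonoidAlgebra R Y) :
    inc R σ (a * b) * idp N ν = (inc R σ a * idp N ν) * (inc R σ b * idp N ν) := by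
  rw [map_mul, mul_assoc (inc R σ a) (idp N ν), ← mul_assoc (idp N ν), ← inc_comm N ν σ inj hσ b,
    mul_assoc (inc R σ b), idp_idem N ν hN, ← mul_assoc]

theorem lin_equi (inj : Function.Injective σ) (hσ : σ.range = stb N ν) (y : Y)
    (a : MonoidAlgebra R Y) : cj (σ y) (inc R σ a * idp N ν) = inc R σ (cj y a) * idp N ν := by
  have hy : σ y ∈ stb N ν := hσ ▸ ⟨y, rfl⟩
  rw [cj_mul, cj_inc, cj_idp_of_mem N ν hy]

theorem idpY_idem (hN : IsUnit ((Nat.card N : ℕ) : R)) (inj : Function.Injective σ)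
    (hσ : σ.range = stb N ν) : idpY N ν σ * idpY N ν σ = idpY N ν σ := by
  apply lxf_inj σ inj
  rw [map_mul, inc_idpY N ν σ inj hσ, idp_idem N ν hN]

/-- by `inc_comm`, `inc_idpY` and injectivity of `inc` -/
theorem idpY_central (inj : Function.Injective σ) (hσ : σ.range = stb N ν)
    (a : MonoidAlgebra R Y) : a * idpY N ν σ = idpY N ν σ * a := by
  apply lxf_inj σ inj
  rw [map_mul, map_mul, inc_idpY N ν σ inj hσ, inc_comm N ν σ inj hσ]

theorem lin_ker (inj : Function.Injective σ) (hσ : σ.range = stb N ν) (a : MonoidAlgebra R Y)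
    (h : inc R σ a * idp N ν = 0) : a * idpY N ν σ = 0 := by
  apply lxf_inj σ inj
  rw [map_mul, inc_idpY N ν σ inj hσ, h, map_zero]

private theorem lxf_orth [IsDomain R] {x : X} (hx : x ∉ stb N ν) :
    idp N ν * cj x (idp N ν) = 0 := by
  rw [cj_idp]
  exact idp_mul_idp N (cjc_ne N ν hx).symm

private theorem lxf_orth' [IsDomain R] {x : X} (hx : x ∉ stb N ν) :
    cj x (idp N ν) * idp N ν = 0 := by
  rw [cj_idp]
  exact idp_mul_idp N (cjc_ne N ν hx)

/-- For `x = σ(y)`: `e x e = x e`.  For `x` outside the stabiliser: `e x e = (e (cj x e)) x = 0`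
(`cj_idp`, `cjc_ne`, `idp_mul_idp`). -/
theorem lin_corner [IsDomain R] (hN : IsUnit ((Nat.card N : ℕ) : R))
    (inj : Function.Injective σ) (hσ : σ.range = stb N ν) (x : X) :
    ∃ a : MonoidAlgebra R Y,
      idp N ν * dl R x * idp N ν = (inc R σ a * idp N ν) * idp N ν := by
  by_cases hx : x ∈ σ.range
  · obtain ⟨y, rfl⟩ := hx
    refine ⟨dl R y, ?_⟩
    rw [inc_comm N ν σ inj hσ, inc_dl]
  · refine ⟨0, ?_⟩
    rw [map_zero, zero_mul, zero_mul]
    have h1 : dl R x * idp N ν = cj x (idp N ν) * dl R x := by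
      rw [cj, mul_assoc _ (dl R x⁻¹), dl_inv_mul, mul_one]
    rw [mul_assoc, h1, ← mul_assoc, lxf_orth N ν (hσ ▸ hx), zero_mul]

/-- The conjugates of `e` by representatives of the cosets of the stabiliser are orthogonal
idempotents. -/
theorem lin_f_idem [IsDomain R] (hN : IsUnit ((Nat.card N : ℕ) : R))
    (inj : Function.Injective σ) (hσ : σ.range = stb N ν) :
    (∑ᶠ q : X ⧸ σ.range, cj (Quotient.out q) (idp N ν)) *
      (∑ᶠ q : X ⧸ σ.range, cj (Quotient.out q) (idp N ν)) =
      ∑ᶠ q : X ⧸ σ.range, cj (Quotient.out q) (idp N ν) := by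
  classical
  have : Fintype (X ⧸ σ.range) := Fintype.ofFinite _
  rw [finsum_eq_sum_of_fintype, Finset.sum_mul]
  refine Finset.sum_congr rfl fun q _ => ?_
  rw [Finset.mul_sum, Finset.sum_eq_single q]
  · rw [← cj_mul, idp_idem N ν hN]
  · intro q' _ hq
    have h1 : (Quotient.out q : X)⁻¹ * Quotient.out q' ∉ stb N ν := by
      rw [← hσ]
      intro h
      apply hq
      have h2 : ((Quotient.out q : X) : X ⧸ σ.range) = ((Quotient.out q' : X) : X ⧸ σ.range) :=
        QuotientGroup.eq.2 h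
      rw [QuotientGroup.out_eq', QuotientGroup.out_eq'] at h2
      exact h2.symm
    have h2 : cj (Quotient.out q') (idp N ν) =
        cj (Quotient.out q) (cj ((Quotient.out q : X)⁻¹ * Quotient.out q') (idp N ν)) := by
      rw [cj_cj, mul_inv_cancel_left]
    rw [h2, ← cj_mul, lxf_orth N ν h1]
    simp [cj]
  · intro h
    exact absurd (Finset.mem_univ _) h

theorem lin_f_one [IsDomain R] (hN : IsUnit ((Nat.card N : ℕ) : R))
    (inj : Function.Injective σ) (hσ : σ.range = stb N ν) :
    (∑ᶠ q : X ⧸ σ.range, cj (Quotient.out q) (idp N ν)) * idp N ν = idp N ν := by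
  classical
  have : Fintype (X ⧸ σ.range) := Fintype.ofFinite _
  rw [finsum_eq_sum_of_fintype, Finset.sum_mul,
    Finset.sum_eq_single ((1 : X) : X ⧸ σ.range)]
  · have h1 : (Quotient.out ((1 : X) : X ⧸ σ.range) : X) ∈ stb N ν := by
      rw [← hσ]
      have h2 : ((Quotient.out ((1 : X) : X ⧸ σ.range) : X) : X ⧸ σ.range) = ((1 : X) : X ⧸ σ.range) :=
        QuotientGroup.out_eq' _
      rw [eq_comm, QuotientGroup.eq, inv_one, one_mul] at h2
      exact h2
    rw [cj_idp_of_mem N ν h1, idp_idem N ν hN]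
  · intro q _ hq
    apply lxf_orth'
    rw [← hσ]
    intro h
    apply hq
    have h2 : ((1 : X) : X ⧸ σ.range) = ((Quotient.out q : X) : X ⧸ σ.range) := by
      rw [QuotientGroup.eq, inv_one, one_mul]
      exact h
    rw [QuotientGroup.out_eq'] at h2
    exact h2.symm
  · intro h
    exact absurd (Finset.mem_univ _) h

/-- The transfer data of Clifford theory: `Ψ(a) = a e_ν`. -/
noncomputable def linXf [IsDomain R] (hN : IsUnit ((Nat.card N : ℕ) : R))
    (inj : Function.Injective σ) (hσ : σ.range = stb N ν) : Xf R Y X where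
  σ := σ
  inj := inj
  Ψ := (LinearMap.mulRight R (idp N ν)).comp (inc R σ).toLinearMap
  mul a b := lin_mul N ν σ hN inj hσ a b
  equi y a := lin_equi N ν σ inj hσ y a
  e := idpY N ν σ
  e_idem := idpY_idem N ν σ hN inj hσ
  e_central := idpY_central N ν σ inj hσ
  Ψ_e := by
    show inc R σ (idpY N ν σ) * idp N ν = inc R σ 1 * idp N ν
    rw [inc_idpY N ν σ inj hσ, map_one, one_mul, idp_idem N ν hN]
  ker a h := lin_ker N ν σ inj hσ a h
  ε := idp N ν
  ε_idem := idp_idem N ν hN
  ε_comm a := by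
    show idp N ν * (inc R σ a * idp N ν) = inc R σ a * idp N ν * idp N ν
    rw [← mul_assoc, ← inc_comm N ν σ inj hσ]
  one_ε := by
    show inc R σ 1 * idp N ν * idp N ν = idp N ν
    rw [map_one, one_mul, idp_idem N ν hN]
  corner x := lin_corner N ν σ hN inj hσ x
  ι := Unit
  fin := inferInstance
  m _ := 1
  m' _ := 1
  m_comm _ a := by rw [one_mul, mul_one]
  m'_comm _ a := by rw [one_mul, mul_one]
  span := by
    show ∑ _i : Unit, 1 * idp N ν * 1 = inc R σ 1 * idp N ν
    simp
  u := 1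
  f := ∑ᶠ q : X ⧸ σ.range, cj (Quotient.out q) (idp N ν)
  f_idem := lin_f_idem N ν σ hN inj hσ
  f_one := by
    show _ * (inc R σ 1 * idp N ν) = inc R σ 1 * idp N ν
    rw [map_one, one_mul, lin_f_one N ν σ hN inj hσ]
  trace := by
    show ∑ᶠ q : X ⧸ σ.range, cj (Quotient.out q) (inc R σ 1 * idp N ν) = ((1 : Rˣ) : R) • _
    rw [map_one, one_mul, Units.val_one, one_smul]

end Pool.Agent.URing
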