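import Pool.Agent.URing.BrMul
import Pool.Agent.URing.XfA

/-!
# Transfer data and the Brauer homomorphism (module LOCA)
-/

set_option autoImplicit false

namespace Pool.Agent.URing

open MonoidAlgebra Pool.Agent.UBlocks

namespace Xf

variable {R k Y X : Type*} [CommRing R] [CommRing k] [Group Y] [Group X] [Finite X]
  (π : R →+* k) (C : Xf R Y X)

/-- L2: if `Ψ(a)` is zero modulo `ker π` then so is `a e`.  Proof: `Ψ(a) = ∑ m_x x` with
`m_x ∈ ker π`.  `Ψ(a) ε = ε Ψ(a) ε = ∑ m_x ε x ε = ∑ m_x Ψ(c_x) ε = Ψ(a') ε`, `a' = ∑ m_x c_x`, all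
coefficients of `a'` in `ker π`.  So `Ψ(a) = Ψ(a')` (`eq_of_ε`), `a e = a' e`, and the coefficients
of `a' e` are in `ker π`. -/
theorem ker_mod {a : MonoidAlgebra R Y} (h : ∀ x, π ((C.Ψ a).coeff x) = 0) (y : Y) :
    π ((a * C.e).coeff y) = 0 := by
  have := Fintype.ofFinite X
  choose f hf using C.corner
  have h1 : C.Ψ a * C.ε = C.Ψ (∑ x, (C.Ψ a).coeff x • f x) * C.ε := by
    calc C.Ψ a * C.ε = C.ε * C.Ψ a * C.ε := by
          rw [C.ε_comm, mul_assoc, C.ε_idem]
      _ = C.ε * (∑ x, (C.Ψ a).coeff x • dl R x) * C.ε := by rw [← eq_sum_dl]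
      _ = ∑ x, (C.Ψ a).coeff x • (C.ε * dl R x * C.ε) := by
          rw [Finset.mul_sum, Finset.sum_mul]
          exact Finset.sum_congr rfl fun x _ => by rw [mul_smul_comm, smul_mul_assoc]
      _ = _ := by
          rw [map_sum, Finset.sum_mul]
          exact Finset.sum_congr rfl fun x _ => by rw [hf, map_smul, smul_mul_assoc]
  have h2 := C.eq_of_Ψ (C.eq_of_ε h1)
  rw [h2, Finset.sum_mul, coeff_sum, Finset.sum_apply', map_sum]
  refine Finset.sum_eq_zero fun x _ => ?_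
  rw [smul_mul_assoc, coeff_smul, Finsupp.smul_apply, smul_eq_mul, map_mul, h, zero_mul]

/-- L1: let `y` be fixed by the `ℓ`-group `D`, `x` in the centraliser of `σ(D)`.  The
coefficient of `Ψ(y) = ∑ y_t Ψ(t)` at `x` is, after `π`, the sum over the `t` in the centraliser
of `D`: the summand is invariant under `D` since the coefficient of `Ψ(d t d⁻¹) = cj σ(d) (Ψ(t))` at
`x` is the one of `Ψ(t)` at `σ(d)⁻¹ x σ(d) = x`; use `sum_fixed` with `conjMulAction D`. -/
theorem coeff_Ψ {ℓ : ℕ} [Fact ℓ.Prime] [CharP k ℓ] [Fintype Y] {D : Subgroup Y}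
    (hD : IsPGroup ℓ D) {y : MonoidAlgebra R Y} (hy : ∀ d ∈ D, cj d y = y) {x : X}
    (hx : x ∈ Subgroup.centralizer (D.map C.σ : Set X))
    [DecidablePred (· ∈ Subgroup.centralizer (D : Set Y))] :
    π ((C.Ψ y).coeff x) = ∑ t : Y with t ∈ Subgroup.centralizer (D : Set Y),
      π (y.coeff t) * π ((C.Ψ (dl R t)).coeff x) := by
  classical
  have h0 : (C.Ψ y).coeff x = ∑ t, y.coeff t * (C.Ψ (dl R t)).coeff x := by
    conv_lhs => rw [eq_sum_dl y]
    rw [map_sum, coeff_sum, Finset.sum_apply']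
    refine Finset.sum_congr rfl fun t _ => ?_
    rw [map_smul, coeff_smul, Finsupp.smul_apply, smul_eq_mul]
  rw [h0, map_sum]
  rw [@sum_fixed D Y k _ (conjMulAction D) _ ℓ _ hD _ _
    (fun t => π (y.coeff t * (C.Ψ (dl R t)).coeff x)) ?_ _]
  · refine Finset.sum_congr ?_ fun g _ => map_mul _ _ _
    ext g
    simp only [Finset.mem_filter, Finset.mem_univ, true_and]
    rw [Subgroup.mem_centralizer_iff]
    constructor
    · intro h1 d hd
      have h2 : (d : Y) * g * (d : Y)⁻¹ = g := h1 (⟨d, hd⟩ : D)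
      exact mul_inv_eq_iff_eq_mul.1 h2
    · intro h1 d
      exact mul_inv_eq_iff_eq_mul.2 (h1 d d.2)
  · intro d t
    show π (y.coeff ((d : Y) * t * (d : Y)⁻¹) *
      (C.Ψ (dl R ((d : Y) * t * (d : Y)⁻¹))).coeff x) = _
    have h1 : dl R ((d : Y) * t * (d : Y)⁻¹) = cj (d : Y) (dl R t) := by
      unfold cj
      rw [dl_mul, dl_mul]
    have h2 : (C.σ d)⁻¹ * x * C.σ d = x := by
      have := Subgroup.mem_centralizer_iff.1 hx (C.σ d) ⟨d, d.2, rfl⟩
      rw [mul_assoc, ← this, inv_mul_cancel_left]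
    rw [h1, ← C.equi, coeff_cj, h2, coeff_of_fixed hy d.2]

end Xf

end Pool.Agent.URing
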