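import Pool.Agent.URing.Lin
import Pool.Agent.URing.BrMul

/-!
# Quotients by a normal subgroup in the kernel of a linear character, twisted (module QUO)

`ρ : X → A` is surjective, `χ : X → Rˣ` a linear character, `e` the idempotent of the restriction of
`χ` to the kernel `N` of `ρ`.
-/

set_option autoImplicit false

namespace Pool.Agent.URing

open MonoidAlgebra IsLocalRing Pool.Agent.UBlocks

universe u

variable {R X A : Type*} [CommRing R] [Group X] [Group A] [Finite X] (ρ : X →* A)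
  (χ : X →* Rˣ)

/-- `x ↦ χ(x) ρ(x)` -/
noncomputable def quoP : MonoidAlgebra R X →ₐ[R] MonoidAlgebra R A :=
  MonoidAlgebra.lift R (MonoidAlgebra R A) X
    { toFun := fun x => ((χ x : Rˣ) : R) • dl R (ρ x)
      map_one' := by simp [dl_one]
      map_mul' := fun x y => by
        rw [map_mul, map_mul, dl_mul, Units.val_mul, smul_mul_smul_comm] }

/-- the idempotent -/
noncomputable def quoE : MonoidAlgebra R X := idp ρ.ker (χ.comp ρ.ker.subtype)

theorem quoP_dl (x : X) : quoP ρ χ (dl R x) = ((χ x : Rˣ) : R) • dl R (ρ x) := by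
  unfold quoP dl
  rw [MonoidAlgebra.lift_single, one_smul]
  rfl

private theorem Quo_sum [Fintype X] (y : MonoidAlgebra R X) :
    quoP ρ χ y = ∑ g, (y.coeff g * ((χ g : Rˣ) : R)) • dl R (ρ g) := by
  conv_lhs => rw [eq_sum_dl y]
  rw [map_sum]
  refine Finset.sum_congr rfl fun g _ => ?_
  rw [map_smul, quoP_dl, smul_smul]

theorem quoP_surjective (hρ : Function.Surjective ρ) : Function.Surjective (quoP ρ χ) := by
  classical
  have hA : Finite A := Finite.of_surjective ρ hρ
  have : Fintype A := Fintype.ofFinite A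
  intro y
  choose s hs using hρ
  refine ⟨∑ a : A, (y.coeff a * (((χ (s a))⁻¹ : Rˣ) : R)) • dl R (s a), ?_⟩
  rw [map_sum]
  conv_rhs => rw [eq_sum_dl y]
  refine Finset.sum_congr rfl fun a _ => ?_
  rw [map_smul, quoP_dl, smul_smul, mul_assoc, Units.inv_mul, mul_one, hs]

theorem quoE_central (y : MonoidAlgebra R X) : y * quoE ρ χ = quoE ρ χ * y := by
  have : Fintype X := Fintype.ofFinite X
  refine (central_iff (quoE ρ χ)).2 (fun g => ?_) y
  refine cj_idp_of_mem _ _ ?_
  intro n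
  show χ ((MulAut.conjNormal g n : ρ.ker) : X) = χ n
  rw [MulAut.conjNormal_apply, map_mul, map_mul, map_inv, mul_comm (χ g), mul_inv_cancel_right]

theorem quoP_quoE (hN : IsUnit ((Nat.card ρ.ker : ℕ) : R)) : quoP ρ χ (quoE ρ χ) = 1 := by
  classical
  have : Fintype ρ.ker := Fintype.ofFinite _
  unfold quoE idp
  rw [finsum_eq_sum_of_fintype, map_smul, map_sum]
  have h1 : ∀ n : ρ.ker, quoP ρ χ ((((χ.comp ρ.ker.subtype) n⁻¹ : Rˣ) : R) • dl R (n : X)) =
      1 := by
    intro n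
    have h2 : ρ (n : X) = 1 := n.2
    have h3 : ((χ.comp ρ.ker.subtype) n⁻¹ : Rˣ) = (χ (n : X))⁻¹ := by
      show χ ((n⁻¹ : ρ.ker) : X) = _
      rw [Subgroup.coe_inv, map_inv]
    rw [h3, map_smul, quoP_dl, smul_smul, Units.inv_mul, one_smul, h2, dl_one]
  rw [Finset.sum_congr rfl fun n _ => h1 n, Finset.sum_const, Finset.card_univ,
    ← Nat.card_eq_fintype_card, ← Nat.cast_smul_eq_nsmul R, smul_smul,
    Ring.inverse_mul_cancel _ hN, one_smul]

/-- The coefficient of `P(y)` at `ρ(x)` is `∑ χ(n x) y_(n x)` over `n ∈ N`, and if `y e = y` then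
`y_(n x) = χ(n)⁻¹ y_x`. -/
theorem coeff_quoP (hN : IsUnit ((Nat.card ρ.ker : ℕ) : R)) {y : MonoidAlgebra R X}
    (hy : y * quoE ρ χ = y) (x : X) : (quoP ρ χ y).coeff (ρ x) =
      ((Nat.card ρ.ker : ℕ) : R) * (((χ x : Rˣ) : R) * y.coeff x) := by
  classical
  have : Fintype X := Fintype.ofFinite X
  -- equivariance
  have h1 : ∀ n : ρ.ker, y.coeff ((n : X) * x) * ((χ n : Rˣ) : R) = y.coeff x := by
    intro n
    have h2 : dl R (n : X) * y = ((χ n : Rˣ) : R) • y := by
      conv_lhs => rw [← hy, quoE_central, ← mul_assoc]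
      unfold quoE
      rw [dl_mul_idp, smul_mul_assoc]
      have h3 : idp ρ.ker (χ.comp ρ.ker.subtype) * y = y := by
        have := quoE_central ρ χ y
        rw [hy] at this
        exact this.symm
      rw [h3]
      rfl
    have h3 := congrArg (fun z : MonoidAlgebra R X => z.coeff ((n : X) * x)) h2
    simp only [coeff_dl_mul, inv_mul_cancel_left, coeff_smul, Finsupp.smul_apply,
      smul_eq_mul] at h3
    rw [h3, mul_comm]
  have h2 : (quoP ρ χ y).coeff (ρ x) =
      ∑ g, if ρ g = ρ x then y.coeff g * ((χ g : Rˣ) : R) else 0 := by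
    rw [Quo_sum, coeff_sum, Finset.sum_apply']
    refine Finset.sum_congr rfl fun g _ => ?_
    rw [coeff_smul, Finsupp.smul_apply, coeff_dl, smul_eq_mul]
    split_ifs <;> simp
  rw [h2, ← Equiv.sum_comp (Equiv.mulRight x)
    (fun g => if ρ g = ρ x then y.coeff g * ((χ g : Rˣ) : R) else 0)]
  have h3 : ∀ g : X, (if ρ (Equiv.mulRight x g) = ρ x then
      y.coeff (Equiv.mulRight x g) * ((χ (Equiv.mulRight x g) : Rˣ) : R) else 0) =
      if g ∈ ρ.ker then ((χ x : Rˣ) : R) * y.coeff x else 0 := by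
    intro g
    show (if ρ (g * x) = ρ x then y.coeff (g * x) * ((χ (g * x) : Rˣ) : R) else 0) = _
    by_cases hg : g ∈ ρ.ker
    · have hg' : ρ (g * x) = ρ x := by
        rw [map_mul, MonoidHom.mem_ker.1 hg, one_mul]
      have h4 : y.coeff (g * x) * ((χ g : Rˣ) : R) = y.coeff x := h1 ⟨g, hg⟩
      rw [if_pos hg', if_pos hg, map_mul χ, Units.val_mul, ← mul_assoc, h4, mul_comm]
    · have hg' : ρ (g * x) ≠ ρ x := by
        intro hc
        apply hg
        rw [map_mul] at hc
        exact MonoidHom.mem_ker.2 (mul_eq_right.1 hc)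
      rw [if_neg hg', if_neg hg]
  rw [Finset.sum_congr rfl fun g _ => h3 g, ← Finset.sum_filter, Finset.sum_const, nsmul_eq_mul]
  congr 2
  have : Fintype ρ.ker := Fintype.ofFinite _
  rw [Nat.card_eq_fintype_card]
  exact (Fintype.card_of_subtype (p := fun x => x ∈ ρ.ker) _ fun x => by
    rw [Finset.mem_filter]
    exact ⟨fun h => h.2, fun h => ⟨Finset.mem_univ _, h⟩⟩).symm

/-- from `coeff_quoP` -/
theorem quoP_injOn (hN : IsUnit ((Nat.card ρ.ker : ℕ) : R)) {y : MonoidAlgebra R X}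
    (hy : y * quoE ρ χ = y) (h : quoP ρ χ y = 0) : y = 0 := by
  ext x
  have h1 := coeff_quoP ρ χ hN hy x
  rw [h, coeff_zero, Finsupp.zero_apply] at h1
  have h2 : ((χ x : Rˣ) : R) * y.coeff x = 0 := by
    rwa [eq_comm, hN.mul_right_eq_zero] at h1
  rw [Units.mul_right_eq_zero] at h2
  rw [h2]
  rfl

/-- `P` is an isomorphism of the ideal of `e` onto `R A`, so it maps blocks to blocks. -/
theorem quoP_isBlk (hρ : Function.Surjective ρ) (hN : IsUnit ((Nat.card ρ.ker : ℕ) : R))
    {b : MonoidAlgebra R X} (hb : IsBlk b) (hbe : b * quoE ρ χ = b) : IsBlk (quoP ρ χ b) := by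
  have hee : quoE ρ χ * quoE ρ χ = quoE ρ χ := idp_idem _ _ hN
  refine ⟨?_, ?_, ?_, ?_⟩
  · rw [← map_mul, hb.idem]
  · intro z
    obtain ⟨w, rfl⟩ := quoP_surjective ρ χ hρ z
    rw [← map_mul, ← map_mul, hb.central]
  · intro h
    exact hb.ne_zero (quoP_injOn ρ χ hN hbe h)
  · intro f hf hc
    obtain ⟨w, hw⟩ := quoP_surjective ρ χ hρ f
    obtain ⟨w', hw'⟩ : ∃ w', w' = w * quoE ρ χ := ⟨_, rfl⟩
    have h1 : quoP ρ χ w' = f := by
      rw [hw', map_mul, quoP_quoE ρ χ hN, mul_one, hw]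
    have h2 : w' * quoE ρ χ = w' := by rw [hw', mul_assoc, hee]
    have h3 : w' * w' = w' := by
      have h4 : (w' * w' - w') * quoE ρ χ = w' * w' - w' := by
        rw [sub_mul, mul_assoc, h2]
      have h5 : quoP ρ χ (w' * w' - w') = 0 := by
        rw [map_sub, map_mul, h1, hf, sub_self]
      exact sub_eq_zero.1 (quoP_injOn ρ χ hN h4 h5)
    have h4 : ∀ x, x * w' = w' * x := by
      intro x
      have h5 : (x * w' - w' * x) * quoE ρ χ = x * w' - w' * x := by
        rw [sub_mul, mul_assoc, h2, mul_assoc, quoE_central ρ χ x, ← mul_assoc, h2]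
      have h6 : quoP ρ χ (x * w' - w' * x) = 0 := by
        rw [map_sub, map_mul, map_mul, h1, hc, sub_self]
      exact sub_eq_zero.1 (quoP_injOn ρ χ hN h5 h6)
    rcases hb.prim w' h3 h4 with h5 | h5
    · left
      rw [← h1, ← map_mul, h5, map_zero]
    · right
      rw [← h1, ← map_mul, h5]

private theorem Quo_cj (x : X) (a : MonoidAlgebra R X) :
    quoP ρ χ (cj x a) = cj (ρ x) (quoP ρ χ a) := by
  unfold cj
  rw [map_mul, map_mul, quoP_dl, quoP_dl, smul_mul_assoc, smul_mul_assoc, mul_smul_comm,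
    smul_smul, map_inv, Units.mul_inv, one_smul, map_inv]

/-- `b = Tr_D^X(a)` implies `P(b) = Tr_(ρD)^A(|N : N ∩ ..| P(a))`: if `D ∩ N = 1` then the map
`X ⧸ D → A ⧸ ρ(D)` has fibres of order `|N|`. -/
theorem quoP_trFrom (hρ : Function.Surjective ρ) {b : MonoidAlgebra R X} {D : Subgroup X}
    (hD : D ⊓ ρ.ker = ⊥) (h : TrFrom b D) : TrFrom (quoP ρ χ b) (D.map ρ) := by
  classical
  have hA : Finite A := Finite.of_surjective ρ hρ
  have : Fintype (X ⧸ D) := Fintype.ofFinite _
  have : Fintype (A ⧸ D.map ρ) := Fintype.ofFinite _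
  have : Fintype ρ.ker := Fintype.ofFinite _
  obtain ⟨a, ha, rfl⟩ := (trFrom_iff b D).1 h
  rw [trFrom_iff]
  refine ⟨((Nat.card ρ.ker : ℕ) : R) • quoP ρ χ a, ?_, ?_⟩
  · rintro _ ⟨d, hd, rfl⟩
    rw [cj_smul, ← Quo_cj, ha d hd]
  · -- a transversal
    choose s hs using fun p : A ⧸ D.map ρ => hρ (Quotient.out p)
    have hbij : Function.Bijective
        (fun t : ρ.ker × (A ⧸ D.map ρ) => (((t.1 : X) * s t.2 : X) : X ⧸ D)) := by
      constructor
      · rintro ⟨n, p⟩ ⟨n', p'⟩ h1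
        have h2 : ((n : X) * s p)⁻¹ * ((n' : X) * s p') ∈ D := QuotientGroup.eq.1 h1
        have hn : ρ (n : X) = 1 := n.2
        have hn' : ρ (n' : X) = 1 := n'.2
        have h3 : (Quotient.out p)⁻¹ * Quotient.out p' ∈ D.map ρ := by
          refine ⟨_, h2, ?_⟩
          rw [map_mul, map_inv, map_mul, map_mul, hn, hn', one_mul, one_mul, hs, hs]
        have h4 : p = p' := by
          rw [← QuotientGroup.out_eq' p, ← QuotientGroup.out_eq' p']
          exact QuotientGroup.eq.2 h3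
        subst h4
        have h5 : ((n : X) * s p)⁻¹ * ((n' : X) * s p) ∈ D ⊓ ρ.ker := by
          refine ⟨h2, MonoidHom.mem_ker.2 ?_⟩
          rw [map_mul, map_inv, map_mul, map_mul, hn, hn', one_mul, inv_mul_cancel]
        rw [hD, Subgroup.mem_bot, inv_mul_eq_one] at h5
        have h6 : n = n' := Subtype.ext (mul_right_cancel h5)
        rw [h6]
      · intro q
        obtain ⟨x, hx⟩ := QuotientGroup.mk_surjective q
        have h1 : ((ρ x : A) : A ⧸ D.map ρ) = ((Quotient.out ((ρ x : A) : A ⧸ D.map ρ) : A) :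
            A ⧸ D.map ρ) := (QuotientGroup.out_eq' _).symm
        rw [QuotientGroup.eq] at h1
        obtain ⟨d, hd, h2⟩ := h1
        have h3 : x * d * (s ((ρ x : A) : A ⧸ D.map ρ))⁻¹ ∈ ρ.ker := by
          rw [MonoidHom.mem_ker, map_mul, map_mul, map_inv, hs, h2]
          group
        refine ⟨(⟨_, h3⟩, ((ρ x : A) : A ⧸ D.map ρ)), ?_⟩
        rw [← hx]
        show ((x * d * (s ((ρ x : A) : A ⧸ D.map ρ))⁻¹ * s ((ρ x : A) : A ⧸ D.map ρ) : X) :
          X ⧸ D) = (x : X ⧸ D)
        rw [inv_mul_cancel_right, eq_comm, QuotientGroup.eq, inv_mul_cancel_left]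
        exact hd
    rw [tr_transversal ha _ hbij, map_sum]
    have h1 : ∀ t : ρ.ker × (A ⧸ D.map ρ), quoP ρ χ (cj ((t.1 : X) * s t.2) a) =
        cj (Quotient.out t.2) (quoP ρ χ a) := by
      intro t
      have hn : ρ (t.1 : X) = 1 := t.1.2
      rw [Quo_cj, map_mul, hn, one_mul, hs]
    rw [Finset.sum_congr rfl fun t _ => h1 t, Fintype.sum_prod_type]
    simp only [Finset.sum_const, Finset.card_univ]
    unfold tr
    simp only [cj_smul]
    rw [← Finset.smul_sum, ← Nat.card_eq_fintype_card, Nat.cast_smul_eq_nsmul]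

end Pool.Agent.URing
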