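import Pool.Agent.URing.WBase

/-!
# The elements `A_y` (modules WA1, WA2)

`A_y = |Z|⁻¹ ∑ [y, n] e` over `n ∈ N`.
-/

set_option autoImplicit false

namespace Pool.Agent.URing

open MonoidAlgebra Pool.Agent.UBlocks

namespace WD

variable {R F V Y X : Type*} [CommRing R] [Field F] [AddCommGroup V] [Module F V]
    [Group Y] [Group X] (W : WD R F V Y X)

noncomputable def A (y : Y) : MonoidAlgebra R X :=
  Ring.inverse ((Nat.card W.Z : ℕ) : R) •
    ∑ᶠ n : W.N, dl R (W.σ y * n * (W.σ y)⁻¹ * (n : X)⁻¹) * W.e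

theorem A_eq [Fintype W.N] (y : Y) : W.A y = Ring.inverse ((Nat.card W.Z : ℕ) : R) •
    ∑ n : W.N, dl R (W.σ y * n * (W.σ y)⁻¹ * (n : X)⁻¹) * W.e := by
  rw [A, finsum_eq_sum_of_fintype]

/-- `[y, n] ∈ N` -/
theorem br_mem (y : Y) {n : X} (hn : n ∈ W.N) : W.σ y * n * (W.σ y)⁻¹ * n⁻¹ ∈ W.N :=
  W.N.mul_mem (W.normal_N.conj_mem n hn _) (W.N.inv_mem hn)

theorem θ_br (y : Y) {n : X} (hn : n ∈ W.N) :
    W.θ (W.σ y * n * (W.σ y)⁻¹ * n⁻¹) = W.ρ y (W.θ n) - W.θ n := by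
  rw [W.θ_mul _ (W.normal_N.conj_mem n hn _) _ (W.N.inv_mem hn), W.θ_inv hn, W.θ_equi y n hn,
    sub_eq_add_neg]

theorem br_mem_Z (y : Y) {n : X} (hn : n ∈ W.N) :
    W.σ y * n * (W.σ y)⁻¹ * n⁻¹ ∈ W.Z ↔ W.θ n ∈ W.fx y := by
  rw [← W.θ_ker _ (W.br_mem y hn), W.θ_br y hn, sub_eq_zero, W.mem_fx]

variable [Finite X]

/-! ### module WA1 -/

theorem A_mul_e (y : Y) : W.A y * W.e = W.A y := by
  have : Fintype W.N := Fintype.ofFinite _
  rw [A_eq, smul_mul_assoc, Finset.sum_mul]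
  congr 1
  refine Finset.sum_congr rfl fun n _ => ?_
  rw [mul_assoc, W.e_idem]

theorem coeff_A_zero (y : Y) {g : X} (hg : g ∉ W.N) : (W.A y).coeff g = 0 := by
  have : Fintype W.N := Fintype.ofFinite _
  rw [A_eq, coeff_smul, Finsupp.smul_apply, coeff_sum, Finsupp.finsetSum_apply,
    Finset.sum_eq_zero, smul_zero]
  intro n _
  refine W.coeff_dl_e_zero (fun h => hg ?_)
  have h1 := W.N.mul_mem (W.br_mem y n.2) (W.le h)
  rwa [mul_inv_cancel_left] at h1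

/-- `y n y⁻¹ [y, m] = [y, n m] n` -/
theorem dl_mul_A (y : Y) {n : X} (hn : n ∈ W.N) :
    dl R (W.σ y * n * (W.σ y)⁻¹) * W.A y = W.A y * dl R n := by
  have : Fintype W.N := Fintype.ofFinite _
  rw [A_eq, mul_smul_comm, smul_mul_assoc, Finset.mul_sum, Finset.sum_mul]
  congr 1
  refine Fintype.sum_equiv (Equiv.mulLeft (⟨n, hn⟩ : W.N)) _ _ fun m => ?_
  have h1 : (((Equiv.mulLeft (⟨n, hn⟩ : W.N)) m : W.N) : X) = n * m := rfl
  rw [h1, ← mul_assoc, ← dl_mul, mul_assoc (dl R _) W.e, ← W.e_central,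
    ← mul_assoc (dl R _) (dl R n) W.e, ← dl_mul]
  congr 2
  group

/-- `x [y, n] x⁻¹ = [x y x⁻¹, x n x⁻¹]`, `N` is normal -/
theorem cj_A (x y : Y) : cj (W.σ x) (W.A y) = W.A (x * y * x⁻¹) := by
  have : Fintype W.N := Fintype.ofFinite _
  have he : cj (W.σ x) W.e = W.e := (cj_eq_iff _ _).mpr (W.e_central _)
  rw [A_eq, A_eq, cj_smul, cj_sum]
  congr 1
  refine Fintype.sum_equiv (MulAut.conjNormal (W.σ x) : MulAut W.N).toEquiv _ _ fun m => ?_
  have h1 : (((MulAut.conjNormal (W.σ x) : MulAut W.N).toEquiv m : W.N) : X) =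
      W.σ x * m * (W.σ x)⁻¹ := rfl
  rw [h1, cj_mul, he]
  congr 1
  have h2 : cj (W.σ x) (dl R (W.σ y * m * (W.σ y)⁻¹ * (m : X)⁻¹)) =
      dl R (W.σ x * (W.σ y * m * (W.σ y)⁻¹ * (m : X)⁻¹) * (W.σ x)⁻¹) := by
    rw [cj, ← dl_mul, ← dl_mul]
  rw [h2, map_mul, map_mul, map_inv]
  congr 1
  group

theorem A_one [Finite V] : W.A 1 = ((Nat.card V : ℕ) : R) • W.e := by
  have : Fintype W.N := Fintype.ofFinite _
  rw [A_eq]
  have h : ∀ n : W.N, dl R (W.σ 1 * n * (W.σ 1)⁻¹ * (n : X)⁻¹) * W.e = W.e := fun n => by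
    rw [map_one, one_mul, inv_one, mul_one, mul_inv_cancel, dl_one, one_mul]
  rw [Finset.sum_congr rfl (fun n _ => h n), Finset.sum_const, Finset.card_univ,
    ← Nat.card_eq_fintype_card, W.card_N, ← Nat.cast_smul_eq_nsmul R, smul_smul, Nat.cast_mul,
    ← mul_assoc, Ring.inverse_mul_cancel _ W.unit_Z, one_mul]

/-- `[y⁻¹, y n y⁻¹] = [y, n]⁻¹` -/
theorem A_inv (y : Y) : W.A y⁻¹ = Ring.inverse ((Nat.card W.Z : ℕ) : R) •
    ∑ᶠ n : W.N, dl R (W.σ y * n * (W.σ y)⁻¹ * (n : X)⁻¹)⁻¹ * W.e := by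
  have : Fintype W.N := Fintype.ofFinite _
  rw [A_eq, finsum_eq_sum_of_fintype]
  congr 1
  refine (Fintype.sum_equiv (MulAut.conjNormal (W.σ y) : MulAut W.N).toEquiv _ _ fun m => ?_).symm
  have h1 : (((MulAut.conjNormal (W.σ y) : MulAut W.N).toEquiv m : W.N) : X) =
      W.σ y * m * (W.σ y)⁻¹ := rfl
  rw [h1, map_inv]
  congr 2
  group

/-- `m([y, n]) = 1` since `σ(y) ∈ Z` (`σ_mem`) and `m` is invariant -/
theorem A_of_mem [Finite V] {y : Y} (h : W.σ y ∈ W.N) :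
    W.A y = ((Nat.card V : ℕ) : R) • W.e := by
  have : Fintype W.N := Fintype.ofFinite _
  have hZ := W.σ_mem h
  rw [A_eq]
  have h : ∀ n : W.N, dl R (W.σ y * n * (W.σ y)⁻¹ * (n : X)⁻¹) * W.e = W.e := fun n => by
    have h1 : (n : X) * (W.σ y)⁻¹ * (n : X)⁻¹ ∈ W.Z :=
      W.normal_Z.conj_mem _ (W.Z.inv_mem hZ) _
    have h2 : W.σ y * n * (W.σ y)⁻¹ * (n : X)⁻¹ = W.σ y * ((n : X) * (W.σ y)⁻¹ * (n : X)⁻¹) := by
      group
    rw [h2, W.dl_mul_e (W.Z.mul_mem hZ h1), W.m_mul _ hZ _ h1,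
      W.m_conj _ _ (W.Z.inv_mem hZ), W.m_inv hZ, mul_inv_cancel, Units.val_one, one_smul]
  rw [Finset.sum_congr rfl (fun n _ => h n), Finset.sum_const, Finset.card_univ,
    ← Nat.card_eq_fintype_card, W.card_N, ← Nat.cast_smul_eq_nsmul R, smul_smul, Nat.cast_mul,
    ← mul_assoc, Ring.inverse_mul_cancel _ W.unit_Z, one_mul]

/-! ### module WA2 -/

/-- every element of `V` has `|Z|` preimages -/
theorem sum_θ {A : Type*} [AddCommMonoid A] [Finite V] (f : V → A) :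
    ∑ᶠ n : W.N, f (W.θ n) = Nat.card W.Z • ∑ᶠ v, f v := by
  classical
  have : Fintype W.N := Fintype.ofFinite _
  have : Fintype V := Fintype.ofFinite _
  rw [finsum_eq_sum_of_fintype, finsum_eq_sum_of_fintype, Finset.smul_sum,
    ← Finset.sum_fiberwise (Finset.univ : Finset W.N) (fun n : W.N => W.θ n)]
  refine Finset.sum_congr rfl fun v _ => ?_
  rw [Finset.sum_congr rfl (g := fun _ => f v)
    (fun n hn => by rw [(Finset.mem_filter.mp hn).2]), Finset.sum_const]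
  congr 1
  obtain ⟨a, ha, hav⟩ := W.θ_surj v
  have h1 : ({n : W.N | W.θ n = v} : Finset W.N).card = Nat.card {n : W.N // W.θ n = v} := by
    rw [Nat.card_eq_fintype_card, Fintype.card_subtype]
  rw [h1]
  refine (Nat.card_congr ?_).symm
  exact
    { toFun := fun c => ⟨⟨a * c, W.N.mul_mem ha (W.le c.2)⟩, by
        show W.θ (a * c) = v
        rw [W.θ_mul a ha c (W.le c.2), (W.θ_ker c (W.le c.2)).mpr c.2, add_zero, hav]⟩
      invFun := fun n => ⟨a⁻¹ * (n.1 : X),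
        (W.θ_eq_iff ha n.1.2).mp (hav.trans n.2.symm)⟩
      left_inv := fun c => Subtype.ext (inv_mul_cancel_left a (c : X))
      right_inv := fun n => Subtype.ext (Subtype.ext (mul_inv_cancel_left a (n.1 : X))) }

/-- `τ(A_y) = |C_V(y)|`: the terms with `[y, n] ∈ Z` are those with `θ(n)` fixed by `y`, and for
them `m([y, n]) = 1` by `m_fixed`. -/
theorem coeff_A_one [Finite V] (y : Y) : ((Nat.card W.Z : ℕ) : R) * (W.A y).coeff 1 =
    ((Nat.card (W.fx y) : ℕ) : R) := by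
  classical
  have : Fintype W.N := Fintype.ofFinite _
  have : Fintype V := Fintype.ofFinite _
  have h : ∀ n : W.N, (dl R (W.σ y * n * (W.σ y)⁻¹ * (n : X)⁻¹) * W.e).coeff 1 =
      (fun v => if v ∈ W.fx y then Ring.inverse ((Nat.card W.Z : ℕ) : R) else 0) (W.θ n) := by
    intro n
    show _ = if W.θ n ∈ W.fx y then Ring.inverse ((Nat.card W.Z : ℕ) : R) else 0
    split_ifs with hv
    · have h1 := (W.br_mem_Z y n.2).mpr hv
      rw [W.coeff_dl_e (by rw [mul_one]; exact W.Z.inv_mem h1), inv_one, one_mul,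
        (W.m_fixed n.2 ((W.mem_fx).mp hv)).2, Units.val_one, mul_one]
    · refine W.coeff_dl_e_zero (fun h1 => hv ((W.br_mem_Z y n.2).mp ?_))
      rw [mul_one] at h1
      exact inv_inv (W.σ y * n * (W.σ y)⁻¹ * (n : X)⁻¹) ▸ W.Z.inv_mem h1
  rw [A_eq, coeff_smul, Finsupp.smul_apply, coeff_sum, Finsupp.finsetSum_apply,
    Finset.sum_congr rfl (fun n _ => h n), ← finsum_eq_sum_of_fintype,
    W.sum_θ (fun v => if v ∈ W.fx y then Ring.inverse ((Nat.card W.Z : ℕ) : R) else 0),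
    finsum_eq_sum_of_fintype, ← Finset.sum_filter, Finset.sum_const, smul_eq_mul, ← mul_assoc,
    Ring.mul_inverse_cancel _ W.unit_Z, one_mul, nsmul_eq_mul, nsmul_eq_mul]
  have hc : (Finset.univ.filter (fun v => v ∈ W.fx y)).card = Nat.card (W.fx y) := by
    rw [Nat.card_eq_fintype_card, Fintype.card_subtype]
  rw [hc, mul_comm ((Nat.card (W.fx y) : ℕ) : R), ← mul_assoc,
    Ring.mul_inverse_cancel _ W.unit_Z, one_mul]

/-- `A_y A_(y⁻¹) = |Z|⁻¹ ∑_n A_y y⁻¹ n y n⁻¹ e = |Z|⁻¹ ∑_n n A_y n⁻¹`, and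
`n [y, m] n⁻¹ e = ω(n, [y, m]) [y, m] e`; the sum over `n` is `|N|` if `[y, m] ∈ Z` and `0` otherwise
(`sum_com`). -/
theorem A_mul_A_inv [Finite V] [IsDomain R] (y : Y) : W.A y * W.A y⁻¹ =
    (((Nat.card V : ℕ) : R) * ((Nat.card (W.fx y) : ℕ) : R)) • W.e := by
  classical
  have : Fintype W.N := Fintype.ofFinite _
  have : Fintype V := Fintype.ofFinite _
  set c := Ring.inverse ((Nat.card W.Z : ℕ) : R) with hc
  -- `A_y A_(y⁻¹) = c ∑ p A_y p⁻¹`
  have h1 : W.A y * W.A y⁻¹ = c • ∑ p : W.N, dl R (p : X) * W.A y * dl R (p : X)⁻¹ := by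
    rw [A_inv, finsum_eq_sum_of_fintype, mul_smul_comm, Finset.mul_sum]
    congr 1
    refine Fintype.sum_equiv (MulAut.conjNormal (W.σ y) : MulAut W.N).toEquiv _ _ fun m => ?_
    have h1 : (((MulAut.conjNormal (W.σ y) : MulAut W.N).toEquiv m : W.N) : X) =
        W.σ y * m * (W.σ y)⁻¹ := rfl
    have h2 : (W.σ y * m * (W.σ y)⁻¹ * (m : X)⁻¹)⁻¹ =
        (m : X) * (W.σ y * m * (W.σ y)⁻¹)⁻¹ := by group
    rw [h1, W.dl_mul_A y m.2, h2, dl_mul, mul_assoc (dl R _) (dl R _) W.e, W.e_central,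
      ← mul_assoc, ← mul_assoc, mul_assoc (W.A y) (dl R (m : X)) W.e, W.e_central, ← mul_assoc,
      W.A_mul_e]
  -- conjugation of the terms
  have h2 : ∀ p q : W.N, dl R (p : X) * (dl R (W.σ y * q * (W.σ y)⁻¹ * (q : X)⁻¹) * W.e) *
      dl R (p : X)⁻¹ = ((W.com (p : X) (W.σ y * q * (W.σ y)⁻¹ * (q : X)⁻¹) : Rˣ) : R) •
        (dl R (W.σ y * q * (W.σ y)⁻¹ * (q : X)⁻¹) * W.e) := by
    intro p q
    have hg := W.br_mem y q.2
    set g := W.σ y * q * (W.σ y)⁻¹ * (q : X)⁻¹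
    rw [mul_assoc (dl R (p : X)), mul_assoc (dl R g), ← W.e_central, ← mul_assoc (dl R g),
      ← mul_assoc (dl R (p : X)), ← dl_mul, ← dl_mul]
    have h3 : (p : X) * (g * (p : X)⁻¹) = (p * g * (p : X)⁻¹ * g⁻¹) * g := by group
    rw [h3, dl_mul, mul_assoc, W.e_central (dl R g), ← mul_assoc,
      W.dl_mul_e (W.comm_mem p.2 hg), smul_mul_assoc]
    rfl
  have h4 : ∀ q : W.N, ∑ p : W.N, dl R (p : X) *
      (dl R (W.σ y * q * (W.σ y)⁻¹ * (q : X)⁻¹) * W.e) * dl R (p : X)⁻¹ =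
      (fun v => if v ∈ W.fx y then ((Nat.card W.N : ℕ) : R) • W.e else 0) (W.θ q) := by
    intro q
    have hg := W.br_mem y q.2
    show _ = if W.θ q ∈ W.fx y then ((Nat.card W.N : ℕ) : R) • W.e else 0
    rw [Finset.sum_congr rfl (fun p _ => h2 p q), ← Finset.sum_smul,
      ← finsum_eq_sum_of_fintype, W.sum_com hg]
    split_ifs with h5 h6 h6
    · rw [W.dl_mul_e h5, (W.m_fixed q.2 ((W.mem_fx).mp h6)).2, Units.val_one, one_smul]
    · exact absurd ((W.br_mem_Z y q.2).mp h5) h6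
    · exact absurd ((W.br_mem_Z y q.2).mpr h6) h5
    · rw [zero_smul]
  have h5 : ∑ p : W.N, dl R (p : X) * W.A y * dl R (p : X)⁻¹ =
      c • ∑ q : W.N, ∑ p : W.N, dl R (p : X) *
        (dl R (W.σ y * q * (W.σ y)⁻¹ * (q : X)⁻¹) * W.e) * dl R (p : X)⁻¹ := by
    rw [Finset.sum_comm, Finset.smul_sum]
    refine Finset.sum_congr rfl fun p _ => ?_
    rw [A_eq, mul_smul_comm, smul_mul_assoc, Finset.mul_sum, Finset.sum_mul]
  rw [h1, h5, Finset.sum_congr rfl (fun q _ => h4 q), ← finsum_eq_sum_of_fintype,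
    W.sum_θ (fun v => if v ∈ W.fx y then ((Nat.card W.N : ℕ) : R) • W.e else 0),
    finsum_eq_sum_of_fintype, ← Finset.sum_filter, Finset.sum_const]
  have hcard : (Finset.univ.filter (fun v => v ∈ W.fx y)).card = Nat.card (W.fx y) := by
    rw [Nat.card_eq_fintype_card, Fintype.card_subtype]
  rw [hcard, W.card_N, ← Nat.cast_smul_eq_nsmul R, ← Nat.cast_smul_eq_nsmul R, smul_smul,
    smul_smul, smul_smul, smul_smul, Nat.cast_mul]
  congr 1
  have hu := Ring.inverse_mul_cancel _ W.unit_Z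
  rw [← hc] at hu
  linear_combination (((Nat.card V : ℕ) : R) * ((Nat.card (W.fx y) : ℕ) : R)) *
    (c * ((Nat.card W.Z : ℕ) : R) + 1) * hu

omit [Finite X] in
theorem fx_inv (y : Y) : W.fx y⁻¹ = W.fx y := by
  ext v
  rw [W.mem_fx, W.mem_fx]
  have h1 : ∀ v, W.ρ y (W.ρ y⁻¹ v) = v := fun v => by
    rw [← Module.End.mul_apply, ← map_mul, mul_inv_cancel, map_one, Module.End.one_apply]
  have h2 : ∀ v, W.ρ y⁻¹ (W.ρ y v) = v := fun v => by
    rw [← Module.End.mul_apply, ← map_mul, inv_mul_cancel, map_one, Module.End.one_apply]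
  constructor
  · intro h
    conv_lhs => rw [← h]
    exact h1 v
  · intro h
    conv_lhs => rw [← h]
    exact h2 v

omit [Finite X] in
theorem fx_one : W.fx 1 = ⊤ := by
  ext v
  rw [W.mem_fx, map_one, Module.End.one_apply]
  exact ⟨fun _ => Submodule.mem_top, fun _ => rfl⟩

omit [Finite X] in
/-- `|C_V(y)| = q0^(2 k(y))` -/
theorem card_fx [Finite F] [Finite V] (y : Y) : Nat.card (W.fx y) = W.q0 ^ (2 * W.k y) := by
  rw [Module.natCard_eq_pow_finrank (K := F) (V := W.fx y), W.card_F, ← pow_mul]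
  rfl

omit [Finite X] in
theorem card_V [Finite F] [Finite V] : Nat.card V = W.q0 ^ (2 * Module.finrank F V) := by
  rw [Module.natCard_eq_pow_finrank (K := F) (V := V), W.card_F, ← pow_mul]

end WD

end Pool.Agent.URing
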