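import Pool.Agent.URing.Lin
import Pool.Agent.URing.GaussF

/-!
# Weil data (module WB)

`N`, `Z` normal subgroups of `X`, `Z ≤ N`, `m` a linear character of `Z` invariant under `X`, `N/Z` a
vector space over a finite field `F` of order `q0^2` with a nondegenerate commutator form, `X = N Y`,
`Y` acts by linear maps and has a central element `z` acting as a primitive `(q0+1)`-th root of
unity.  All maps are total functions on `X` used at elements of the subgroups only.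
-/

set_option autoImplicit false

namespace Pool.Agent.URing

open MonoidAlgebra Pool.Agent.UBlocks

structure WD (R F V Y X : Type*) [CommRing R] [Field F] [AddCommGroup V] [Module F V]
    [Group Y] [Group X] where
  q0 : ℕ
  card_F : Nat.card F = q0 ^ 2
  unit_q0 : IsUnit ((q0 : ℕ) : R)
  N : Subgroup X
  Z : Subgroup X
  normal_N : N.Normal
  normal_Z : Z.Normal
  le : Z ≤ N
  unit_N : IsUnit ((Nat.card N : ℕ) : R)
  m : X → Rˣ
  m_mul : ∀ a ∈ Z, ∀ b ∈ Z, m (a * b) = m a * m b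
  m_conj : ∀ x, ∀ a ∈ Z, m (x * a * x⁻¹) = m a
  θ : X → V
  θ_mul : ∀ a ∈ N, ∀ b ∈ N, θ (a * b) = θ a + θ b
  θ_surj : ∀ v, ∃ a ∈ N, θ a = v
  θ_ker : ∀ a ∈ N, θ a = 0 ↔ a ∈ Z
  σ : Y →* X
  inj : Function.Injective σ
  ρ : Y →* Module.End F V
  θ_equi : ∀ y, ∀ a ∈ N, θ (σ y * a * (σ y)⁻¹) = ρ y (θ a)
  gen : ∀ x : X, ∃ a ∈ N, ∃ y, x = a * σ y
  z : Y
  z_central : ∀ y, y * z = z * y
  u0 : F
  prim : IsPrimitiveRoot u0 (q0 + 1)
  ρ_z : ∀ v, ρ z v = u0 • v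
  nondeg : ∀ a ∈ N, a ∉ Z → ∃ b ∈ N, m (a * b * a⁻¹ * b⁻¹) ≠ 1

namespace WD

variable {R F V Y X : Type*} [CommRing R] [Field F] [AddCommGroup V] [Module F V]
    [Group Y] [Group X]

instance (W : WD R F V Y X) : W.N.Normal := W.normal_N

instance (W : WD R F V Y X) : W.Z.Normal := W.normal_Z

variable (W : WD R F V Y X)

/-- the linear character of `Z` -/
def μ : W.Z →* Rˣ := MonoidHom.mk' (fun a => W.m a) (fun a b => W.m_mul a a.2 b b.2)

theorem μ_apply (a : W.Z) : W.μ a = W.m a := rfl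

/-- the central idempotent -/
noncomputable def e : MonoidAlgebra R X := idp W.Z W.μ

/-- the commutator form -/
def com (a b : X) : Rˣ := W.m (a * b * a⁻¹ * b⁻¹)

/-- the fixed points of `y` -/
def fx (y : Y) : Submodule F V := LinearMap.ker (W.ρ y - 1)

/-- the dimension of the space of fixed points -/
noncomputable def k (y : Y) : ℕ := Module.finrank F (W.fx y)

/-- if `q0 = 0` then `R = 0`; otherwise `F` is finite -/
private theorem WB_cases : (W.q0 = 0 ∧ Subsingleton R) ∨ (Finite F ∧ 2 ≤ W.q0) := by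
  by_cases h0 : W.q0 = 0
  · left
    refine ⟨h0, ?_⟩
    have h := W.unit_q0
    rw [h0, Nat.cast_zero] at h
    exact subsingleton_of_zero_eq_one (isUnit_zero_iff.1 h)
  · right
    have hfin : Finite F := by
      refine Nat.finite_of_card_ne_zero ?_
      rw [W.card_F]
      exact pow_ne_zero 2 h0
    exact ⟨hfin, two_le_of_card W.card_F⟩

theorem mem_fx {y : Y} {v : V} : v ∈ W.fx y ↔ W.ρ y v = v := by
  unfold fx
  rw [LinearMap.mem_ker, LinearMap.sub_apply, Module.End.one_apply, sub_eq_zero]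

theorem m_one : W.m 1 = 1 := by
  have h := W.m_mul 1 W.Z.one_mem 1 W.Z.one_mem
  rw [one_mul] at h
  exact mul_eq_left.1 h.symm

theorem m_inv {a : X} (ha : a ∈ W.Z) : W.m a⁻¹ = (W.m a)⁻¹ := by
  have h := W.m_mul a ha a⁻¹ (W.Z.inv_mem ha)
  rw [mul_inv_cancel, W.m_one] at h
  exact (inv_eq_of_mul_eq_one_right h.symm).symm

theorem θ_one : W.θ 1 = 0 := (W.θ_ker 1 W.N.one_mem).2 W.Z.one_mem

theorem θ_inv {a : X} (ha : a ∈ W.N) : W.θ a⁻¹ = -W.θ a := by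
  have h := W.θ_mul a⁻¹ (W.N.inv_mem ha) a ha
  rw [inv_mul_cancel, W.θ_one] at h
  exact eq_neg_of_add_eq_zero_left h.symm

theorem θ_eq_iff {a b : X} (ha : a ∈ W.N) (hb : b ∈ W.N) :
    W.θ a = W.θ b ↔ a⁻¹ * b ∈ W.Z := by
  rw [← W.θ_ker _ (W.N.mul_mem (W.N.inv_mem ha) hb), W.θ_mul _ (W.N.inv_mem ha) _ hb, W.θ_inv ha]
  constructor
  · intro h
    rw [h, neg_add_cancel]
  · intro h
    exact (neg_add_eq_zero.1 h)

/-- `N / Z` is abelian -/
theorem comm_mem {a b : X} (ha : a ∈ W.N) (hb : b ∈ W.N) : a * b * a⁻¹ * b⁻¹ ∈ W.Z := by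
  have h1 := W.N.mul_mem ha hb
  have h2 := W.N.mul_mem h1 (W.N.inv_mem ha)
  rw [← W.θ_ker _ (W.N.mul_mem h2 (W.N.inv_mem hb)), W.θ_mul _ h2 _ (W.N.inv_mem hb),
    W.θ_mul _ h1 _ (W.N.inv_mem ha), W.θ_mul _ ha _ hb, W.θ_inv ha, W.θ_inv hb]
  abel

theorem com_mul_left {a a' b : X} (ha : a ∈ W.N) (ha' : a' ∈ W.N) (hb : b ∈ W.N) :
    W.com (a * a') b = W.com a b * W.com a' b := by
  unfold com
  have h1 : a * a' * b * (a * a')⁻¹ * b⁻¹ =
      (a * (a' * b * a'⁻¹ * b⁻¹) * a⁻¹) * (a * b * a⁻¹ * b⁻¹) := by group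
  rw [h1, W.m_mul _ (W.normal_Z.conj_mem _ (W.comm_mem ha' hb) a) _ (W.comm_mem ha hb),
    W.m_conj a _ (W.comm_mem ha' hb), mul_comm]

theorem com_mul_right {a b b' : X} (ha : a ∈ W.N) (hb : b ∈ W.N) (hb' : b' ∈ W.N) :
    W.com a (b * b') = W.com a b * W.com a b' := by
  unfold com
  have h1 : a * (b * b') * a⁻¹ * (b * b')⁻¹ =
      (a * b * a⁻¹ * b⁻¹) * (b * (a * b' * a⁻¹ * b'⁻¹) * b⁻¹) := by group
  rw [h1, W.m_mul _ (W.comm_mem ha hb) _ (W.normal_Z.conj_mem _ (W.comm_mem ha hb') b),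
    W.m_conj b _ (W.comm_mem ha hb')]

theorem com_swap {a b : X} (ha : a ∈ W.N) (hb : b ∈ W.N) : W.com b a = (W.com a b)⁻¹ := by
  unfold com
  rw [← W.m_inv (W.comm_mem ha hb)]
  congr 1
  group

theorem com_self (a : X) : W.com a a = 1 := by
  unfold com
  rw [mul_inv_cancel_right, mul_inv_cancel, W.m_one]

theorem com_of_mem_left {a b : X} (ha : a ∈ W.Z) (hb : b ∈ W.N) : W.com a b = 1 := by
  unfold com
  have h1 : a * b * a⁻¹ * b⁻¹ = a * (b * a⁻¹ * b⁻¹) := by group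
  rw [h1, W.m_mul _ ha _ (W.normal_Z.conj_mem _ (W.Z.inv_mem ha) b),
    W.m_conj b _ (W.Z.inv_mem ha), W.m_inv ha, mul_inv_cancel]

theorem com_of_mem_right {a b : X} (ha : a ∈ W.N) (hb : b ∈ W.Z) : W.com a b = 1 := by
  rw [W.com_swap (W.le hb) ha, W.com_of_mem_left hb ha, inv_one]

/-- the form depends on the images in `V` only -/
theorem com_congr {a a' b b' : X} (ha : a ∈ W.N) (ha' : a' ∈ W.N) (hb : b ∈ W.N)
    (hb' : b' ∈ W.N) (h : W.θ a = W.θ a') (h' : W.θ b = W.θ b') : W.com a b = W.com a' b' := by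
  have h1 := (W.θ_eq_iff ha ha').1 h
  have h2 := (W.θ_eq_iff hb hb').1 h'
  have e1 : a' = a * (a⁻¹ * a') := by group
  have e2 : b' = b * (b⁻¹ * b') := by group
  rw [e1, e2, W.com_mul_left ha (W.le h1) (W.N.mul_mem hb (W.le h2)),
    W.com_of_mem_left h1 (W.N.mul_mem hb (W.le h2)), mul_one,
    W.com_mul_right ha hb (W.le h2), W.com_of_mem_right ha h2, mul_one]

theorem com_conj (x : X) {a b : X} (ha : a ∈ W.N) (hb : b ∈ W.N) :
    W.com (x * a * x⁻¹) (x * b * x⁻¹) = W.com a b := by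
  unfold com
  have h1 : x * a * x⁻¹ * (x * b * x⁻¹) * (x * a * x⁻¹)⁻¹ * (x * b * x⁻¹)⁻¹ =
      x * (a * b * a⁻¹ * b⁻¹) * x⁻¹ := by group
  rw [h1, W.m_conj x _ (W.comm_mem ha hb)]

private theorem WB_sub (h : Subsingleton R) {a : X} (ha : a ∈ W.N) : a ∈ W.Z := by
  by_contra hcon
  obtain ⟨b, _, hb⟩ := W.nondeg a ha hcon
  exact hb (Units.ext (Subsingleton.elim _ _))

private theorem WB_u0 (h : 2 ≤ W.q0) : W.u0 - 1 ≠ 0 :=
  sub_ne_zero.2 (W.prim.ne_one (by omega))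

private theorem WB_comm (y : Y) : W.σ W.z * W.σ y * (W.σ W.z)⁻¹ = W.σ y := by
  rw [← map_mul, ← W.z_central y, map_mul, mul_inv_cancel_right]

/-- `z` commutes with `y`, so `θ(σ y) = u0 θ(σ y)` -/
theorem σ_mem {y : Y} (h : W.σ y ∈ W.N) : W.σ y ∈ W.Z := by
  rcases W.WB_cases with ⟨_, hs⟩ | ⟨_, hq⟩
  · exact W.WB_sub hs h
  · have h1 := W.θ_equi W.z _ h
    rw [W.WB_comm, W.ρ_z] at h1
    rw [← W.θ_ker _ h]
    have h2 : (W.u0 - 1) • W.θ (W.σ y) = 0 := by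
      rw [sub_smul, one_smul, ← h1, sub_self]
    exact (smul_eq_zero.1 h2).resolve_left (W.WB_u0 hq)

theorem ρ_of_mem {y : Y} (h : W.σ y ∈ W.N) : W.ρ y = 1 := by
  refine LinearMap.ext fun v => ?_
  obtain ⟨a, ha, rfl⟩ := W.θ_surj v
  rw [← W.θ_equi y a ha, W.θ_mul _ (W.N.mul_mem h ha) _ (W.N.inv_mem h), W.θ_mul _ h _ ha,
    W.θ_inv h, Module.End.one_apply]
  abel

/-- `f(a) = m([y, a])` for `θ(a)` fixed by `y` is multiplicative, trivial on `Z`, and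
`f(z a z⁻¹) = f(a)`; every fixed vector is `(u0 - 1) v'` with `v'` fixed, so `f = 1`. -/
theorem m_fixed {y : Y} {a : X} (ha : a ∈ W.N) (h : W.ρ y (W.θ a) = W.θ a) :
    W.σ y * a * (W.σ y)⁻¹ * a⁻¹ ∈ W.Z ∧ W.m (W.σ y * a * (W.σ y)⁻¹ * a⁻¹) = 1 := by
  have hmem : ∀ b ∈ W.N, W.ρ y (W.θ b) = W.θ b → W.σ y * b * (W.σ y)⁻¹ * b⁻¹ ∈ W.Z := by
    intro b hb hfix
    have h1 := W.normal_N.conj_mem b hb (W.σ y)
    rw [← W.θ_ker _ (W.N.mul_mem h1 (W.N.inv_mem hb)), W.θ_mul _ h1 _ (W.N.inv_mem hb),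
      W.θ_equi y b hb, W.θ_inv hb, hfix, add_neg_cancel]
  refine ⟨hmem a ha h, ?_⟩
  rcases W.WB_cases with ⟨_, hs⟩ | ⟨_, hq⟩
  · exact Units.ext (Subsingleton.elim _ _)
  · -- multiplicativity
    have hmul : ∀ b ∈ W.N, ∀ c ∈ W.N, W.ρ y (W.θ b) = W.θ b → W.ρ y (W.θ c) = W.θ c →
        W.m (W.σ y * (b * c) * (W.σ y)⁻¹ * (b * c)⁻¹) =
          W.m (W.σ y * b * (W.σ y)⁻¹ * b⁻¹) * W.m (W.σ y * c * (W.σ y)⁻¹ * c⁻¹) := by
      intro b hb c hc hfb hfc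
      have h1 : W.σ y * (b * c) * (W.σ y)⁻¹ * (b * c)⁻¹ = (W.σ y * b * (W.σ y)⁻¹ * b⁻¹) *
          (b * (W.σ y * c * (W.σ y)⁻¹ * c⁻¹) * b⁻¹) := by group
      rw [h1, W.m_mul _ (hmem b hb hfb) _ (W.normal_Z.conj_mem _ (hmem c hc hfc) b),
        W.m_conj b _ (hmem c hc hfc)]
    have hZ : ∀ c ∈ W.Z, W.m (W.σ y * c * (W.σ y)⁻¹ * c⁻¹) = 1 := by
      intro c hc
      rw [W.m_mul _ (W.normal_Z.conj_mem _ hc _) _ (W.Z.inv_mem hc), W.m_conj _ _ hc,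
        W.m_inv hc, mul_inv_cancel]
    obtain ⟨b, hb, hθb⟩ := W.θ_surj ((W.u0 - 1)⁻¹ • W.θ a)
    have hfb : W.ρ y (W.θ b) = W.θ b := by
      rw [hθb, map_smul, h]
    have hzb := W.normal_N.conj_mem b hb (W.σ W.z)
    have hθz : W.θ (W.σ W.z * b * (W.σ W.z)⁻¹) = W.u0 • W.θ b := by
      rw [W.θ_equi W.z b hb, W.ρ_z]
    have hfz : W.ρ y (W.θ (W.σ W.z * b * (W.σ W.z)⁻¹)) =
        W.θ (W.σ W.z * b * (W.σ W.z)⁻¹) := by
      rw [hθz, map_smul, hfb]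
    have hbi := W.N.inv_mem hb
    have hfbi : W.ρ y (W.θ b⁻¹) = W.θ b⁻¹ := by
      rw [W.θ_inv hb, map_neg, hfb]
    set d := W.σ W.z * b * (W.σ W.z)⁻¹ * b⁻¹ with hd
    have hdN : d ∈ W.N := W.N.mul_mem hzb hbi
    have hθd : W.θ d = W.θ a := by
      rw [hd, W.θ_mul _ hzb _ hbi, hθz, W.θ_inv hb, hθb, ← sub_eq_add_neg]
      rw [← one_smul F ((W.u0 - 1)⁻¹ • W.θ a), smul_smul W.u0, ← sub_smul, mul_one, smul_smul,
        mul_inv_cancel₀ (W.WB_u0 hq), one_smul]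
    -- `f d = 1`
    have hfd : W.m (W.σ y * d * (W.σ y)⁻¹ * d⁻¹) = 1 := by
      rw [hd, hmul _ hzb _ hbi hfz hfbi]
      have h2 : W.σ y * (W.σ W.z * b * (W.σ W.z)⁻¹) * (W.σ y)⁻¹ *
          (W.σ W.z * b * (W.σ W.z)⁻¹)⁻¹ =
          W.σ W.z * (W.σ y * b * (W.σ y)⁻¹ * b⁻¹) * (W.σ W.z)⁻¹ := by
        have h3 : W.σ W.z * W.σ y = W.σ y * W.σ W.z := by
          rw [← map_mul, ← map_mul, W.z_central]
        have h4 : (W.σ W.z)⁻¹ * (W.σ y)⁻¹ = (W.σ y)⁻¹ * (W.σ W.z)⁻¹ := by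
          rw [← mul_inv_rev, ← mul_inv_rev, h3]
        calc W.σ y * (W.σ W.z * b * (W.σ W.z)⁻¹) * (W.σ y)⁻¹ * (W.σ W.z * b * (W.σ W.z)⁻¹)⁻¹
            = (W.σ y * W.σ W.z) * b * ((W.σ W.z)⁻¹ * (W.σ y)⁻¹) *
              (W.σ W.z * b⁻¹ * (W.σ W.z)⁻¹) := by group
          _ = (W.σ W.z * W.σ y) * b * ((W.σ y)⁻¹ * (W.σ W.z)⁻¹) *
              (W.σ W.z * b⁻¹ * (W.σ W.z)⁻¹) := by rw [h3, h4]
          _ = _ := by group
      rw [h2, W.m_conj _ _ (hmem b hb hfb), ← hmul b hb b⁻¹ hbi hfb hfbi, mul_inv_cancel,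
        mul_one, mul_inv_cancel, inv_one, mul_one, W.m_one]
    have hc : d⁻¹ * a ∈ W.Z := (W.θ_eq_iff hdN ha).1 hθd
    have hda : a = d * (d⁻¹ * a) := by group
    have hfd' : W.ρ y (W.θ d) = W.θ d := by rw [hθd, h]
    have hfc : W.ρ y (W.θ (d⁻¹ * a)) = W.θ (d⁻¹ * a) := by
      rw [(W.θ_ker _ (W.le hc)).2 hc, map_zero]
    rw [hda, hmul d hdN _ (W.le hc) hfd' hfc, hfd, hZ _ hc, mul_one]

section Fin

variable [Finite X]

theorem unit_Z : IsUnit ((Nat.card W.Z : ℕ) : R) := by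
  refine isUnit_of_dvd_unit ?_ W.unit_N
  exact Nat.cast_dvd_cast (Subgroup.card_dvd_of_le W.le)

theorem e_idem : W.e * W.e = W.e := idp_idem W.Z W.μ W.unit_Z

theorem e_ne_zero [Nontrivial R] : W.e ≠ 0 := idp_ne_zero W.Z W.μ W.unit_Z

theorem e_central (x : MonoidAlgebra R X) : x * W.e = W.e * x := by
  have : Fintype X := Fintype.ofFinite X
  refine (central_iff W.e).2 (fun g => ?_) x
  refine cj_idp_of_mem W.Z W.μ ?_
  intro n
  exact W.m_conj g n n.2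

theorem dl_mul_e {a : X} (ha : a ∈ W.Z) : dl R a * W.e = ((W.m a : Rˣ) : R) • W.e :=
  dl_mul_idp W.Z W.μ ⟨a, ha⟩

/-- `(g e)_h = |Z|⁻¹ m(g⁻¹ h)⁻¹` if `g⁻¹ h` is in `Z` -/
theorem coeff_dl_e {g h : X} (hgh : g⁻¹ * h ∈ W.Z) :
    (dl R g * W.e).coeff h = Ring.inverse ((Nat.card W.Z : ℕ) : R) *
      ((W.m (h⁻¹ * g) : Rˣ) : R) := by
  rw [coeff_dl_mul]
  have h1 := coeff_idp W.Z W.μ ⟨g⁻¹ * h, hgh⟩
  have h2 : h⁻¹ * g = (g⁻¹ * h)⁻¹ := by group
  rw [h2]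
  exact h1

theorem coeff_dl_e_zero {g h : X} (hgh : g⁻¹ * h ∉ W.Z) : (dl R g * W.e).coeff h = 0 := by
  rw [coeff_dl_mul]
  exact coeff_idp_zero W.Z W.μ hgh

/-- `a b e = ω(a, b) b a e` -/
theorem dl_comm {a b : X} (ha : a ∈ W.N) (hb : b ∈ W.N) :
    dl R (a * b) * W.e = ((W.com a b : Rˣ) : R) • (dl R (b * a) * W.e) := by
  have h1 : a * b = (a * b * a⁻¹ * b⁻¹) * (b * a) := by group
  rw [h1, dl_mul, mul_assoc, W.e_central (dl R (b * a)), ← mul_assoc,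
    W.dl_mul_e (W.comm_mem ha hb), smul_mul_assoc]
  rfl

theorem card_N [Finite V] : Nat.card W.N = Nat.card W.Z * Nat.card V := by
  let φ : W.N →* Multiplicative V := MonoidHom.mk' (fun a => Multiplicative.ofAdd (W.θ a))
    (fun a b => by
      rw [← ofAdd_add]
      exact congrArg _ (W.θ_mul a a.2 b b.2))
  have h1 : φ.ker = W.Z.subgroupOf W.N := by
    ext a
    rw [MonoidHom.mem_ker, Subgroup.mem_subgroupOf, ← W.θ_ker a a.2]
    exact Iff.rfl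
  have h2 : φ.range = ⊤ := by
    rw [MonoidHom.range_eq_top]
    intro v
    obtain ⟨a, ha, hv⟩ := W.θ_surj (Multiplicative.toAdd v)
    exact ⟨⟨a, ha⟩, congrArg Multiplicative.ofAdd hv⟩
  have h3 := Subgroup.card_mul_index φ.ker
  rw [Subgroup.index_ker, h2, h1] at h3
  rw [← h3]
  congr 1
  · exact Nat.card_congr (Subgroup.subgroupOfEquivOfLe W.le).toEquiv
  · exact Nat.card_congr (Subgroup.topEquiv.toEquiv.trans Multiplicative.toAdd)

/-- Sum of the form over `N`: `|N|` or `0`. -/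
theorem sum_com [IsDomain R] {a : X} (ha : a ∈ W.N) :
    ∑ᶠ n : W.N, ((W.com (n : X) a : Rˣ) : R) =
      (open Classical in if a ∈ W.Z then ((Nat.card W.N : ℕ) : R) else 0) := by
  have : Fintype W.N := Fintype.ofFinite W.N
  rw [finsum_eq_sum_of_fintype]
  split_ifs with hZ
  · rw [Finset.sum_congr rfl fun n _ => by rw [W.com_of_mem_right n.2 hZ, Units.val_one]]
    simp
  · obtain ⟨b, hb, hne⟩ := W.nondeg a ha hZ
    have hne' : W.com b a ≠ 1 := by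
      intro h
      apply hne
      have h1 := W.com_swap hb ha
      rw [h, inv_one] at h1
      exact h1
    set T := ∑ n : W.N, ((W.com (n : X) a : Rˣ) : R) with hT
    have h1 : ((W.com b a : Rˣ) : R) * T = T := by
      rw [hT, Finset.mul_sum]
      refine Fintype.sum_equiv (Equiv.mulLeft (⟨b, hb⟩ : W.N)) _ _ fun n => ?_
      rw [← Units.val_mul, ← W.com_mul_left hb n.2 ha]
      rfl
    have h2 : (((W.com b a : Rˣ) : R) - 1) * T = 0 := by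
      rw [sub_mul, h1, one_mul, sub_self]
    refine (mul_eq_zero.1 h2).resolve_left fun h3 => hne' ?_
    exact Units.ext (sub_eq_zero.1 h3)

/-- An element of the ideal of `e` in `R N` commuting with `N` is a multiple of `e`: the
coefficients at `g` and at `n g n⁻¹` are equal, and `x_(n g n⁻¹) = ω(n, g)⁻¹ x_g`. -/
theorem eq_smul_e [IsDomain R] {x : MonoidAlgebra R X} (hx : x * W.e = x)
    (hs : ∀ g, g ∉ W.N → x.coeff g = 0) (hc : ∀ n ∈ W.N, dl R n * x = x * dl R n) :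
    x = (((Nat.card W.Z : ℕ) : R) * x.coeff 1) • W.e := by
  -- translation by elements of `Z`
  have hZ : ∀ c ∈ W.Z, ∀ g, x.coeff (g * c⁻¹) = ((W.m c : Rˣ) : R) * x.coeff g := by
    intro c hcZ g
    rw [← coeff_mul_dl]
    have h1 : x * dl R c = ((W.m c : Rˣ) : R) • x := by
      rw [← hx, mul_assoc, ← W.e_central, W.dl_mul_e hcZ, mul_smul_comm]
    rw [h1, coeff_smul, Finsupp.smul_apply, smul_eq_mul]
  -- conjugation
  have hcj : ∀ n ∈ W.N, ∀ g, x.coeff (n⁻¹ * g * n) = x.coeff g := by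
    intro n hn g
    rw [← coeff_cj, (cj_eq_iff n x).2 (hc n hn)]
  have hsupp : ∀ g, g ∉ W.Z → x.coeff g = 0 := by
    intro g hg
    by_cases hgN : g ∈ W.N
    · obtain ⟨b, hb, hne⟩ := W.nondeg g hgN hg
      have h1 := hcj b⁻¹ (W.N.inv_mem hb) g
      have hgi := W.N.inv_mem hgN
      have hcZ := W.comm_mem hb hgi
      have h2 : b⁻¹⁻¹ * g * b⁻¹ = g * (b * g⁻¹ * b⁻¹ * g⁻¹⁻¹)⁻¹ := by group
      rw [h2, hZ _ hcZ] at h1
      have h3 : W.com b g⁻¹ = W.com g b := by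
        have h4 := W.com_mul_right hb hgN hgi
        rw [mul_inv_cancel, W.com_of_mem_right hb W.Z.one_mem] at h4
        rw [W.com_swap hb hgN]
        exact (inv_eq_of_mul_eq_one_right h4.symm).symm
      have h5 : (((W.com b g⁻¹ : Rˣ) : R) - 1) * x.coeff g = 0 := by
        rw [sub_mul, one_mul, sub_eq_zero]
        exact h1
      refine (mul_eq_zero.1 h5).resolve_left fun h6 => hne ?_
      rw [h3] at h6
      exact Units.ext (sub_eq_zero.1 h6)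
    · exact hs g hgN
  ext g
  rw [coeff_smul, Finsupp.smul_apply, smul_eq_mul]
  by_cases hg : g ∈ W.Z
  · have h1 := coeff_idp W.Z W.μ ⟨g, hg⟩
    have h2 : W.e.coeff g = Ring.inverse ((Nat.card W.Z : ℕ) : R) *
        ((W.m g⁻¹ : Rˣ) : R) := h1
    have h3 := hZ g⁻¹ (W.Z.inv_mem hg) 1
    rw [inv_inv, one_mul] at h3
    rw [h2, h3]
    have h4 := Ring.mul_inverse_cancel _ W.unit_Z
    linear_combination (-(((W.m g⁻¹ : Rˣ) : R) * x.coeff 1)) * h4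
  · rw [hsupp g hg]
    have h1 : W.e.coeff g = 0 := coeff_idp_zero W.Z W.μ hg
    rw [h1, mul_zero]

end Fin

end WD

end Pool.Agent.URing
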