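import Pool.Agent.URing.WBase
import Pool.Agent.URing.Glau

/-!
# Local Weil data (modules WL1, WL2)

For an `ℓ`-subgroup `E` of `Y`: `N_X(σE)`, `N_Y(E)`, the fixed points of `E` on `V`.
-/

set_option autoImplicit false

namespace Pool.Agent.URing

open MonoidAlgebra Pool.Agent.UBlocks

namespace WD

variable {R F V Y X : Type*} [CommRing R] [Field F] [AddCommGroup V] [Module F V]
    [Group Y] [Group X] (W : WD R F V Y X)

/-- the fixed points of a subgroup of `Y` -/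
def fix (E : Subgroup Y) : Submodule F V where
  carrier := {v | ∀ d ∈ E, W.ρ d v = v}
  add_mem' {v w} hv hw d hd := by rw [map_add, hv d hd, hw d hd]
  zero_mem' d _ := map_zero _
  smul_mem' c v hv d hd := by rw [map_smul, hv d hd]

theorem mem_fix {E : Subgroup Y} {v : V} : v ∈ W.fix E ↔ ∀ d ∈ E, W.ρ d v = v := Iff.rfl

/-- `N_Y(E)` preserves the fixed points of `E` -/
theorem ρ_fix {E : Subgroup Y} {y : Y} (hy : y ∈ nz E) {v : V} (hv : v ∈ W.fix E) :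
    W.ρ y v ∈ W.fix E := by
  intro d hd
  have h1 : y⁻¹ * d * y ∈ E := by
    have := (Subgroup.mem_normalizer_iff.1 ((nz E).inv_mem hy) d).1 hd
    rwa [inv_inv] at this
  have h2 : d * y = y * (y⁻¹ * d * y) := by group
  have h3 : W.ρ d (W.ρ y v) = W.ρ (d * y) v := by rw [map_mul]; rfl
  rw [h3, h2, map_mul]
  change W.ρ y (W.ρ (y⁻¹ * d * y) v) = W.ρ y v
  rw [hv _ h1]

theorem map_mem_nz {E : Subgroup Y} {y : Y} (hy : y ∈ nz E) : W.σ y ∈ nz (E.map W.σ) := by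
  rw [Subgroup.mem_normalizer_iff] at hy ⊢
  intro x
  constructor
  · rintro ⟨d, hd, rfl⟩
    exact ⟨y * d * y⁻¹, (hy d).1 hd, by rw [map_mul, map_mul, map_inv]⟩
  · rintro ⟨d, hd, h⟩
    refine ⟨y⁻¹ * d * y, ?_, ?_⟩
    · rw [SetLike.mem_coe, hy]
      have : y * (y⁻¹ * d * y) * y⁻¹ = d := by group
      rwa [this]
    · rw [map_mul, map_mul, h, map_inv]
      group

theorem z_mem (E : Subgroup Y) : W.z ∈ nz E := by
  rw [Subgroup.mem_normalizer_iff]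
  intro d
  have h : W.z * d * W.z⁻¹ = d := by rw [← W.z_central d, mul_inv_cancel_right]
  rw [h]

private theorem WL_cent_le {X : Type*} [Group X] (Q : Subgroup X) :
    Subgroup.centralizer (Q : Set X) ≤ nz Q := by
  intro x hx
  rw [Subgroup.mem_normalizer_iff]
  rw [Subgroup.mem_centralizer_iff] at hx
  intro h
  constructor
  · intro hh
    have := hx h hh
    have e : x * h * x⁻¹ = h := by rw [← this, mul_inv_cancel_right]
    rw [e]
    exact hh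
  · intro hh
    have h1 := hx _ hh
    have e : x * h * x⁻¹ = h := by
      have h2 : x * h = x * (x * h * x⁻¹) := by
        rw [← h1]
        group
      exact (mul_left_cancel h2).symm
    rw [e] at hh
    exact hh

section Loc

variable {ℓ : ℕ} [Fact ℓ.Prime] [Finite X]

/-! ### module WL1 -/

/-- an element of `N ∩ N_X(σE)` commutes with `σE` (`mem_centralizer_of_nz`), so `θ` maps it to a
fixed point of `E` -/
theorem θ_mem_fix (hℓ : ¬ ℓ ∣ Nat.card W.N) {E : Subgroup Y} (hE : IsPGroup ℓ E) {a : X}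
    (ha : a ∈ W.N) (hz : a ∈ nz (E.map W.σ)) : W.θ a ∈ W.fix E := by
  intro d hd
  have h1 := mem_centralizer_of_nz hℓ (hE.map W.σ) ha hz
  have h2 := Subgroup.mem_centralizer_iff.1 h1 (W.σ d) ⟨d, hd, rfl⟩
  rw [← W.θ_equi d a ha, h2, mul_inv_cancel_right]

/-- The coset `Z a` of a preimage `a` of a fixed vector is stable under `σE` (`[σ d, a] ∈ Z`);
`exists_fixed`. -/
theorem exists_fixed_preimage (hℓ : ¬ ℓ ∣ Nat.card W.N) {E : Subgroup Y} (hE : IsPGroup ℓ E)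
    {v : V} (hv : v ∈ W.fix E) :
    ∃ a ∈ W.N, a ∈ Subgroup.centralizer (E.map W.σ : Set X) ∧ W.θ a = v := by
  obtain ⟨a, ha, hav⟩ := W.θ_surj v
  have hZ : ¬ ℓ ∣ Nat.card W.Z := fun h => hℓ (h.trans (Subgroup.card_dvd_of_le W.le))
  obtain ⟨l, hl, hla⟩ := exists_fixed (L := W.Z) (D := E.map W.σ) (x := a) hZ (hE.map W.σ)
    (fun d _ l hl => W.normal_Z.conj_mem l hl d) (by
      rintro _ ⟨d, hd, rfl⟩
      have h1 : W.σ d * a * (W.σ d)⁻¹ ∈ W.N := W.normal_N.conj_mem a ha _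
      rw [← W.θ_ker _ (W.N.mul_mem h1 (W.N.inv_mem ha)), W.θ_mul _ h1 _ (W.N.inv_mem ha),
        W.θ_equi d a ha, W.θ_inv ha, hav, hv d hd, add_neg_cancel])
  refine ⟨l * a, W.N.mul_mem (W.le hl) ha, hla, ?_⟩
  rw [W.θ_mul _ (W.le hl) _ ha, (W.θ_ker l (W.le hl)).2 hl, zero_add, hav]

/-- Let `x = a σ(y)` normalise `σE`.  For `d ∈ E`: `σ(y d y⁻¹) ∈ σ(E) N`, and `σ(Y) ∩ N ≤ Z`
(`σ_mem`), so `y d y⁻¹ ∈ E T`, `T = σ⁻¹(Z)` normal in `Y` of order prime to `ℓ`; `exists_mul_mem_nz` in `Y`. -/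
theorem gen_loc (hℓ : ¬ ℓ ∣ Nat.card W.N) {E : Subgroup Y} (hE : IsPGroup ℓ E) {x : X}
    (hx : x ∈ nz (E.map W.σ)) :
    ∃ a ∈ W.N, a ∈ nz (E.map W.σ) ∧ ∃ y ∈ nz E, x = a * W.σ y := by
  obtain ⟨a, ha, y, rfl⟩ := W.gen x
  have hfin : Finite Y := Finite.of_injective W.σ W.inj
  have hT : ¬ ℓ ∣ Nat.card (W.Z.comap W.σ) := by
    intro h
    apply hℓ
    refine h.trans ?_
    rw [Nat.card_congr ((W.Z.comap W.σ).equivMapOfInjective W.σ W.inj).toEquiv]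
    apply Subgroup.card_dvd_of_le
    rintro _ ⟨t, ht, rfl⟩
    exact W.le ht
  have hTn : (W.Z.comap W.σ).Normal := W.normal_Z.comap W.σ
  obtain ⟨t, ht, hty⟩ := exists_mul_mem_nz (N := W.Z.comap W.σ) (D := E) (x := y) hT hE (by
    intro d hd
    have h1 := (Subgroup.mem_normalizer_iff.1 hx (W.σ d)).1 ⟨d, hd, rfl⟩
    obtain ⟨d₁, hd₁, h2⟩ := h1
    refine ⟨d₁, hd₁, d₁⁻¹ * (y * d * y⁻¹), ?_, by group⟩
    apply W.σ_mem
    have h3 : W.σ (d₁⁻¹ * (y * d * y⁻¹)) = ((W.σ d₁)⁻¹ * a⁻¹ * W.σ d₁) * a := by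
      have h4 : W.σ (y * d * y⁻¹) = a⁻¹ * W.σ d₁ * a := by
        rw [h2, map_mul, map_mul, map_inv]
        group
      rw [map_mul, map_inv, h4]
      group
    rw [h3]
    refine W.N.mul_mem ?_ ha
    have := W.normal_N.conj_mem a⁻¹ (W.N.inv_mem ha) (W.σ d₁)⁻¹
    rwa [inv_inv] at this)
  have ht' : W.σ t ∈ W.N := W.le ht
  have e1 : a * W.σ y = a * (W.σ t)⁻¹ * W.σ (t * y) := by
    rw [map_mul]
    group
  refine ⟨a * (W.σ t)⁻¹, W.N.mul_mem ha (W.N.inv_mem ht'), ?_, t * y, hty, e1⟩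
  have h5 : a * (W.σ t)⁻¹ = a * W.σ y * (W.σ (t * y))⁻¹ := by
    rw [e1, mul_inv_cancel_right]
  rw [h5]
  exact (nz (E.map W.σ)).mul_mem hx ((nz (E.map W.σ)).inv_mem (W.map_mem_nz hty))

/-- `x ↦ com a x` is a homomorphism on `N`, invariant under `σE` since `a` commutes with `σE`;
`hom_eq_of_centralizer`. -/
theorem nondeg_loc (hℓ : ¬ ℓ ∣ Nat.card W.N) {E : Subgroup Y} (hE : IsPGroup ℓ E) {a : X}
    (ha : a ∈ W.N) (hz : a ∈ nz (E.map W.σ)) (haZ : a ∉ W.Z) :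
    ∃ b ∈ W.N, b ∈ nz (E.map W.σ) ∧ W.m (a * b * a⁻¹ * b⁻¹) ≠ 1 := by
  by_contra hcon
  push Not at hcon
  have hac := mem_centralizer_of_nz hℓ (hE.map W.σ) ha hz
  have key : (MonoidHom.mk' (fun b : W.N => W.com a b)
      (fun b b' => W.com_mul_right ha b.2 b'.2) : W.N →* Rˣ) = 1 := by
    refine hom_eq_of_centralizer (ℓ := ℓ) (D := E.map W.σ) hℓ (hE.map W.σ) ?_ ?_ ?_
    · intro d hd n
      have h1 := Subgroup.mem_centralizer_iff.1 hac d hd
      have h2 : d * a * d⁻¹ = a := by rw [h1, mul_inv_cancel_right]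
      have h3 := W.com_conj d ha n.2
      rw [h2] at h3
      exact h3
    · intro d _ n
      rfl
    · intro n hn
      exact hcon n n.2 (WL_cent_le _ hn)
  obtain ⟨b, hb, hne⟩ := W.nondeg a ha haZ
  exact hne (DFunLike.congr_fun key ⟨b, hb⟩)

/-! ### module WL2 -/

private theorem WL_card (hℓ : ¬ ℓ ∣ Nat.card W.N) (E : Subgroup Y) :
    ¬ ℓ ∣ Nat.card (W.N.subgroupOf (nz (E.map W.σ))) := by
  intro h
  apply hℓ
  refine h.trans ?_
  rw [Nat.card_congr ((W.N.subgroupOf (nz (E.map W.σ))).equivMapOfInjective _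
    (nz (E.map W.σ)).subtype_injective).toEquiv]
  apply Subgroup.card_dvd_of_le
  rintro _ ⟨n, hn, rfl⟩
  exact hn

private theorem WL_θ (hℓ : ¬ ℓ ∣ Nat.card W.N) {E : Subgroup Y} (hE : IsPGroup ℓ E)
    {a : nz (E.map W.σ)} (ha : (a : X) ∈ W.N) :
    (open Classical in if h : W.θ (a : X) ∈ W.fix E then (⟨W.θ (a : X), h⟩ : W.fix E) else 0) =
      ⟨W.θ (a : X), W.θ_mem_fix hℓ hE ha a.2⟩ :=
  dif_pos _

/-- The local Weil data. -/
noncomputable def loc (hR : ∀ n : ℕ, ¬ ℓ ∣ n → IsUnit ((n : ℕ) : R))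
    (hℓ : ¬ ℓ ∣ Nat.card W.N) (E : Subgroup Y) (hE : IsPGroup ℓ E) :
    WD R F (W.fix E) (nz E) (nz (E.map W.σ)) where
  q0 := W.q0
  card_F := W.card_F
  unit_q0 := W.unit_q0
  N := W.N.subgroupOf (nz (E.map W.σ))
  Z := W.Z.subgroupOf (nz (E.map W.σ))
  normal_N := inferInstance
  normal_Z := inferInstance
  le := fun _ h => W.le h
  unit_N := hR _ (W.WL_card hℓ E)
  m x := W.m (x : X)
  m_mul a ha b hb := W.m_mul a ha b hb
  m_conj x a ha := W.m_conj x a ha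
  θ x := open Classical in if h : W.θ x ∈ W.fix E then ⟨W.θ x, h⟩ else 0
  θ_mul := by
    intro a ha b hb
    have hab : ((a * b : nz (E.map W.σ)) : X) ∈ W.N := W.N.mul_mem ha hb
    rw [W.WL_θ hℓ hE ha, W.WL_θ hℓ hE hb, W.WL_θ hℓ hE hab]
    exact Subtype.ext (W.θ_mul _ ha _ hb)
  θ_surj := by
    rintro ⟨v, hv⟩
    obtain ⟨a, ha, hac, hav⟩ := W.exists_fixed_preimage hℓ hE hv
    refine ⟨⟨a, WL_cent_le _ hac⟩, ha, ?_⟩
    rw [W.WL_θ hℓ hE (a := ⟨a, WL_cent_le _ hac⟩) ha]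
    exact Subtype.ext hav
  θ_ker := by
    intro a ha
    rw [W.WL_θ hℓ hE ha, ← Subtype.coe_inj]
    exact W.θ_ker _ ha
  σ := (W.σ.comp (nz E).subtype).codRestrict (nz (E.map W.σ))
    (fun y => W.map_mem_nz y.2)
  inj := by
    intro y y' h
    exact Subtype.ext (W.inj (congrArg Subtype.val h))
  ρ :=
    { toFun := fun y => ((W.ρ y).restrict (fun _ hv => W.ρ_fix y.2 hv))
      map_one' := by
        ext v
        change W.ρ ((1 : nz E) : Y) (v : V) = v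
        rw [OneMemClass.coe_one, map_one]
        rfl
      map_mul' := by
        intro y y'
        ext v
        change W.ρ ((y * y' : nz E) : Y) (v : V) = W.ρ y (W.ρ y' v)
        rw [Subgroup.coe_mul, map_mul]
        rfl }
  θ_equi := by
    intro y a ha
    have hca : ((((W.σ.comp (nz E).subtype).codRestrict (nz (E.map W.σ))
        (fun y => W.map_mem_nz y.2)) y * a * (((W.σ.comp (nz E).subtype).codRestrict
        (nz (E.map W.σ)) (fun y => W.map_mem_nz y.2)) y)⁻¹ : nz (E.map W.σ)) : X) ∈ W.N :=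
      W.normal_N.conj_mem _ ha _
    rw [W.WL_θ hℓ hE ha, W.WL_θ hℓ hE hca]
    exact Subtype.ext (W.θ_equi y a ha)
  gen := by
    rintro ⟨x, hx⟩
    obtain ⟨a, ha, haz, y, hy, e1⟩ := W.gen_loc hℓ hE hx
    exact ⟨⟨a, haz⟩, ha, ⟨y, hy⟩, Subtype.ext e1⟩
  z := ⟨W.z, W.z_mem E⟩
  z_central y := Subtype.ext (W.z_central y)
  u0 := W.u0
  prim := W.prim
  ρ_z := by
    intro v
    exact Subtype.ext (W.ρ_z v)
  nondeg := by
    intro a ha haZ
    obtain ⟨b, hb, hbz, hne⟩ := W.nondeg_loc hℓ hE ha a.2 haZ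
    exact ⟨⟨b, hbz⟩, hb, hne⟩

end Loc

end WD

end Pool.Agent.URing
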