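import Pool.Agent.URing.WMul
import Pool.Agent.URing.WLoc

/-!
# Signs (modules WS1, WS2, WS3, WS4)
-/

set_option autoImplicit false

namespace Pool.Agent.URing

open MonoidAlgebra Pool.Agent.UBlocks

namespace WD

variable {R F V Y X : Type*} [CommRing R] [Field F] [AddCommGroup V] [Module F V]
    [Group Y] [Group X] (W : WD R F V Y X)

/-- the dimension of the fixed points of `E` and `t` -/
noncomputable def kE (E : Subgroup Y) (t : Y) : ℕ := Module.finrank F ↥(W.fix E ⊓ W.fx t)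

variable {ℓ : ℕ} [Fact ℓ.Prime] [Finite X] {k : Type*} [Field k] [CharP k ℓ] (π : R →+* k)

/-! ### module WS1 -/

theorem loc_k (hR : ∀ n : ℕ, ¬ ℓ ∣ n → IsUnit ((n : ℕ) : R)) (hℓ : ¬ ℓ ∣ Nat.card W.N)
    (E : Subgroup Y) (hE : IsPGroup ℓ E) (t : nz E) :
    (W.loc hR hℓ E hE).k t = W.kE E t := by
  unfold WD.k kE
  rw [← Submodule.finrank_map_subtype_eq (W.fix E) ((W.loc hR hℓ E hE).fx t)]
  have h1 : ((W.loc hR hℓ E hE).fx t).map (W.fix E).subtype = W.fix E ⊓ W.fx t := by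
    ext v
    rw [Submodule.mem_map, Submodule.mem_inf]
    constructor
    · rintro ⟨v, hv, rfl⟩
      refine ⟨v.2, ?_⟩
      rw [W.mem_fx]
      have h2 := ((W.loc hR hℓ E hE).mem_fx).1 hv
      exact congrArg Subtype.val h2
    · rintro ⟨h2, h3⟩
      refine ⟨⟨v, h2⟩, ?_, rfl⟩
      rw [(W.loc hR hℓ E hE).mem_fx]
      exact Subtype.ext ((W.mem_fx).1 h3)
  rw [h1]

/-- `E` acts on the fixed points of `t`: `|C_V(t)| = |C_V(t) ∩ C_V(E)|` modulo `ℓ`. -/
theorem s_sq [Finite F] [Finite V] {E : Subgroup Y} (hE : IsPGroup ℓ E) {t : Y}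
    (ht : t ∈ Subgroup.centralizer (E : Set Y)) :
    (π W.s) ^ (2 * W.k t) = (π W.s) ^ (2 * W.kE E t) := by
  have hcomm : ∀ d : E, ∀ v : V, v ∈ W.fx t → W.ρ (d : Y) v ∈ W.fx t := by
    intro d v hv
    rw [W.mem_fx] at hv ⊢
    have h1 : (d : Y) * t = t * d := Subgroup.mem_centralizer_iff.1 ht d d.2
    have h2 : W.ρ t (W.ρ (d : Y) v) = W.ρ (t * d) v := by rw [map_mul]; rfl
    rw [h2, ← h1, map_mul]
    show W.ρ (d : Y) (W.ρ t v) = _
    rw [hv]
  let act : MulAction E (W.fx t) :=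
    { smul := fun d v => ⟨W.ρ (d : Y) v, hcomm d v v.2⟩
      one_smul := fun v => Subtype.ext (by
        show W.ρ ((1 : E) : Y) (v : V) = v
        rw [Subgroup.coe_one, map_one]
        rfl)
      mul_smul := fun d d' v => Subtype.ext (by
        show W.ρ ((d * d' : E) : Y) (v : V) = W.ρ (d : Y) (W.ρ (d' : Y) (v : V))
        rw [Subgroup.coe_mul, map_mul]
        rfl) }
  have h1 := @IsPGroup.card_modEq_card_fixedPoints ℓ E _ hE _ (W.fx t) act _
  have h2 : Nat.card (MulAction.fixedPoints E (W.fx t)) = Nat.card ↥(W.fix E ⊓ W.fx t) := by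
    refine Nat.card_congr
      { toFun := fun v => ⟨(v : W.fx t), ⟨fun d hd => ?_, (v : W.fx t).2⟩⟩
        invFun := fun v => ⟨⟨v, v.2.2⟩, fun d => Subtype.ext (v.2.1 d d.2)⟩
        left_inv := fun v => rfl
        right_inv := fun v => rfl }
    exact congrArg Subtype.val (v.2 ⟨d, hd⟩)
  have h3 : Nat.card ↥(W.fix E ⊓ W.fx t) = W.q0 ^ (2 * W.kE E t) := by
    rw [Module.natCard_eq_pow_finrank (K := F), W.card_F, ← pow_mul]
    rfl
  have h4 : ((Nat.card (W.fx t) : ℕ) : k) = ((Nat.card ↥(W.fix E ⊓ W.fx t) : ℕ) : k) := by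
    rw [← h2]
    exact (CharP.natCast_eq_natCast k ℓ).2 h1
  have h5 : ((Nat.card (W.fx t) : ℕ) : k) = (π W.s) ^ (2 * W.k t) := by
    have := congrArg π (W.card_fx_s t)
    rw [map_natCast, Units.val_pow_eq_pow_val, map_pow] at this
    exact this
  have h6 : ((Nat.card ↥(W.fix E ⊓ W.fx t) : ℕ) : k) = (π W.s) ^ (2 * W.kE E t) := by
    rw [h3, W.s_val, map_neg, map_natCast, Nat.cast_pow, pow_mul, pow_mul, neg_sq]
  rw [← h5, ← h6, h4]

theorem kE_one (E : Subgroup Y) : W.kE E 1 = Module.finrank F (W.fix E) := by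
  unfold kE
  rw [W.fx_one, inf_top_eq]

theorem k_one : W.k 1 = Module.finrank F V := by
  unfold WD.k
  rw [W.fx_one, finrank_top]

/-! ### module WS2 -/

omit [Finite X] in
private theorem WS2_conj {g h y : Y} (hgy : g * y = y * g) (hhy : h * y = y * h) {a b : X}
    (ha : a ∈ W.N) (hb : b ∈ W.N) (hK : (W.θ a, W.θ b) ∈ W.K g h) :
    W.Q g h (W.σ y * a * (W.σ y)⁻¹) (W.σ y * b * (W.σ y)⁻¹) = W.Q g h a b := by
  have hc : ∀ (x : Y), x * y = y * x → ∀ (a : X), W.σ x * (W.σ y * a * (W.σ y)⁻¹) * (W.σ x)⁻¹ *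
      (W.σ y * a * (W.σ y)⁻¹)⁻¹ =
      W.σ y * (W.σ x * a * (W.σ x)⁻¹ * a⁻¹) * (W.σ y)⁻¹ := by
    intro x hxy a
    have h1 : W.σ x * W.σ y = W.σ y * W.σ x := by
      rw [← map_mul, ← map_mul, hxy]
    have h2 : (W.σ y)⁻¹ * (W.σ x)⁻¹ = (W.σ x)⁻¹ * (W.σ y)⁻¹ := by
      rw [← mul_inv_rev, ← mul_inv_rev, h1]
    calc W.σ x * (W.σ y * a * (W.σ y)⁻¹) * (W.σ x)⁻¹ * (W.σ y * a * (W.σ y)⁻¹)⁻¹ =
        (W.σ x * W.σ y) * a * ((W.σ y)⁻¹ * (W.σ x)⁻¹) *
          (W.σ y * a⁻¹ * (W.σ y)⁻¹) := by group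
      _ = _ := by rw [h1, h2]; group
  unfold Q
  rw [hc g hgy, hc h hhy]
  have h1 : W.σ y * (W.σ g * a * (W.σ g)⁻¹ * a⁻¹) * (W.σ y)⁻¹ *
      (W.σ y * (W.σ h * b * (W.σ h)⁻¹ * b⁻¹) * (W.σ y)⁻¹) =
      W.σ y * ((W.σ g * a * (W.σ g)⁻¹ * a⁻¹) * (W.σ h * b * (W.σ h)⁻¹ * b⁻¹)) *
        (W.σ y)⁻¹ := by group
  rw [h1, W.m_conj _ _ ((W.Q_mem ha hb).2 hK)]

/-- `E` acts on `K(g, h)` and preserves `q`; so `∑ q` over `K(g, h)` is congruent to the sum over the
fixed points of `E`, which is the sum for the local data; apply `sum_eq` to both. -/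
theorem sum_mod [Finite F] [Finite V] [IsDomain R] [CharZero R]
    (hR : ∀ n : ℕ, ¬ ℓ ∣ n → IsUnit ((n : ℕ) : R))
    (hℓ : ¬ ℓ ∣ Nat.card W.N) {E : Subgroup Y} (hE : IsPGroup ℓ E) {g h : Y}
    (hg : g ∈ Subgroup.centralizer (E : Set Y)) (hh : h ∈ Subgroup.centralizer (E : Set Y)) :
    (π W.s) ^ (Module.finrank F V + W.k g + W.k h + W.k (g * h)) =
      (π W.s) ^ (Module.finrank F (W.fix E) + W.kE E g + W.kE E h + W.kE E (g * h)) := by
  classical
  let L := W.loc hR hℓ E hE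
  let g' : nz E := ⟨g, Subgroup.centralizer_le_normalizer _ hg⟩
  let h' : nz E := ⟨h, Subgroup.centralizer_le_normalizer _ hh⟩
  obtain ⟨q, hq⟩ := W.exists_Qf g h
  obtain ⟨q', hq'⟩ := L.exists_Qf g' h'
  have e1 := W.sum_eq g h q hq
  have e2 := L.sum_eq g' h' q' hq'
  have hLs : L.s = W.s := rfl
  have hk1 : L.k g' = W.kE E g := W.loc_k hR hℓ E hE g'
  have hk2 : L.k h' = W.kE E h := W.loc_k hR hℓ E hE h'
  have hk3 : L.k (g' * h') = W.kE E (g * h) := W.loc_k hR hℓ E hE (g' * h')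
  rw [hLs, hk1, hk2, hk3] at e2
  have := Fintype.ofFinite (W.K g h)
  have := Fintype.ofFinite (L.K g' h')
  rw [finsum_eq_sum_of_fintype] at e1 e2
  have f1 := congrArg π e1
  have f2 := congrArg π e2
  rw [Units.val_pow_eq_pow_val, map_pow, map_sum] at f1 f2
  rw [← f1, ← f2]
  -- the action
  have hcg : ∀ d : E, g * d = d * g := fun d => (Subgroup.mem_centralizer_iff.1 hg d d.2).symm
  have hch : ∀ d : E, h * d = d * h := fun d => (Subgroup.mem_centralizer_iff.1 hh d d.2).symm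
  have hρ : ∀ (x : Y) (d : E), x * d = d * x → ∀ v : V, W.ρ x (W.ρ (d : Y) v) =
      W.ρ (d : Y) (W.ρ x v) := by
    intro x d hx v
    have h2 : W.ρ x (W.ρ (d : Y) v) = W.ρ (x * d) v := by rw [map_mul]; rfl
    rw [h2, hx, map_mul]
    rfl
  have hmem : ∀ (d : E) (x : W.K g h), (W.ρ (d : Y) x.1.1, W.ρ (d : Y) x.1.2) ∈ W.K g h := by
    intro d x
    have hx := (W.mem_K (v := x.1.1) (w := x.1.2)).1 x.2
    rw [W.mem_K, hρ g d (hcg d), hρ h d (hch d), ← map_sub, ← map_sub, ← map_add, hx, map_zero]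
  let act : MulAction E (W.K g h) :=
    { smul := fun d x => ⟨(W.ρ (d : Y) x.1.1, W.ρ (d : Y) x.1.2), hmem d x⟩
      one_smul := fun x => Subtype.ext (Prod.ext (by
        show W.ρ ((1 : E) : Y) x.1.1 = x.1.1
        rw [Subgroup.coe_one, map_one]; rfl) (by
        show W.ρ ((1 : E) : Y) x.1.2 = x.1.2
        rw [Subgroup.coe_one, map_one]; rfl))
      mul_smul := fun d d' x => Subtype.ext (Prod.ext (by
        show W.ρ ((d * d' : E) : Y) x.1.1 = W.ρ (d : Y) (W.ρ (d' : Y) x.1.1)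
        rw [Subgroup.coe_mul, map_mul]; rfl) (by
        show W.ρ ((d * d' : E) : Y) x.1.2 = W.ρ (d : Y) (W.ρ (d' : Y) x.1.2)
        rw [Subgroup.coe_mul, map_mul]; rfl)) }
  have hinv : ∀ (d : E) (x : W.K g h), π ((q.q (act.toSMul.smul d x) : Rˣ) : R) =
      π ((q.q x : Rˣ) : R) := by
    rintro d ⟨⟨v, w⟩, hx⟩
    obtain ⟨a, ha, rfl⟩ := W.θ_surj v
    obtain ⟨b, hb, rfl⟩ := W.θ_surj w
    have h1 := W.normal_N.conj_mem a ha (W.σ (d : Y))
    have h2 := W.normal_N.conj_mem b hb (W.σ (d : Y))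
    have h3 : (W.θ (W.σ (d : Y) * a * (W.σ (d : Y))⁻¹), W.θ (W.σ (d : Y) * b * (W.σ (d : Y))⁻¹)) ∈
        W.K g h := by
      rw [W.θ_equi _ _ ha, W.θ_equi _ _ hb]
      exact hmem d ⟨_, hx⟩
    have h4 : act.toSMul.smul d ⟨(W.θ a, W.θ b), hx⟩ = ⟨_, h3⟩ := by
      apply Subtype.ext
      show (W.ρ (d : Y) (W.θ a), W.ρ (d : Y) (W.θ b)) =
        (W.θ (W.σ (d : Y) * a * (W.σ (d : Y))⁻¹), W.θ (W.σ (d : Y) * b * (W.σ (d : Y))⁻¹))
      rw [W.θ_equi _ _ ha, W.θ_equi _ _ hb]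
    rw [h4, hq _ h1 _ h2 h3, hq _ ha _ hb hx, W.WS2_conj (hcg d) (hch d) ha hb hx]
  rw [@sum_fixed E (W.K g h) k _ act _ ℓ _ hE _ _ (fun x => π ((q.q x : Rˣ) : R)) hinv _]
  symm
  refine Finset.sum_of_injOn (fun x : L.K g' h' => (⟨((x.1.1 : V), (x.1.2 : V)), by
      have hx := (L.mem_K (v := x.1.1) (w := x.1.2)).1 x.2
      rw [W.mem_K]
      exact congrArg Subtype.val hx⟩ : W.K g h)) ?_ ?_ ?_ ?_
  · intro x _ x' _ hxx
    have h1 := congrArg Subtype.val hxx
    have h2 := congrArg Prod.fst h1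
    have h3 := congrArg Prod.snd h1
    exact Subtype.ext (Prod.ext (Subtype.ext h2) (Subtype.ext h3))
  · intro x _
    rw [Finset.mem_coe, Finset.mem_filter]
    refine ⟨Finset.mem_univ _, fun d => ?_⟩
    apply Subtype.ext
    show (W.ρ (d : Y) (x.1.1 : V), W.ρ (d : Y) (x.1.2 : V)) = ((x.1.1 : V), (x.1.2 : V))
    rw [x.1.1.2 d d.2, x.1.2.2 d d.2]
  · intro x hx hx'
    exfalso
    apply hx'
    rw [Finset.mem_filter] at hx
    have h1 : ∀ d ∈ E, W.ρ d x.1.1 = x.1.1 := fun d hd =>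
      congrArg (fun y : W.K g h => y.1.1) (hx.2 ⟨d, hd⟩)
    have h2 : ∀ d ∈ E, W.ρ d x.1.2 = x.1.2 := fun d hd =>
      congrArg (fun y : W.K g h => y.1.2) (hx.2 ⟨d, hd⟩)
    refine ⟨⟨(⟨x.1.1, h1⟩, ⟨x.1.2, h2⟩), ?_⟩, Finset.mem_coe.2 (Finset.mem_univ _), rfl⟩
    rw [L.mem_K]
    exact Subtype.ext ((W.mem_K (v := x.1.1) (w := x.1.2)).1 x.2)
  · intro x _
    obtain ⟨a, ha, hac, hav⟩ := W.exists_fixed_preimage hℓ hE x.1.1.2
    obtain ⟨b, hb, hbc, hbv⟩ := W.exists_fixed_preimage hℓ hE x.1.2.2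
    let a' : nz (E.map W.σ) := ⟨a, Subgroup.centralizer_le_normalizer _ hac⟩
    let b' : nz (E.map W.σ) := ⟨b, Subgroup.centralizer_le_normalizer _ hbc⟩
    have ha' : a' ∈ L.N := ha
    have hb' : b' ∈ L.N := hb
    have hθa : L.θ a' = x.1.1 := by
      have h1 : W.θ a ∈ W.fix E := by rw [hav]; exact x.1.1.2
      show (if h : W.θ a ∈ W.fix E then (⟨W.θ a, h⟩ : W.fix E) else 0) = x.1.1
      rw [dif_pos h1]
      exact Subtype.ext hav
    have hθb : L.θ b' = x.1.2 := by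
      have h1 : W.θ b ∈ W.fix E := by rw [hbv]; exact x.1.2.2
      show (if h : W.θ b ∈ W.fix E then (⟨W.θ b, h⟩ : W.fix E) else 0) = x.1.2
      rw [dif_pos h1]
      exact Subtype.ext hbv
    have hK' : (L.θ a', L.θ b') ∈ L.K g' h' := by
      rw [hθa, hθb]
      exact x.2
    have hx1 : x = ⟨(L.θ a', L.θ b'), hK'⟩ := Subtype.ext (Prod.ext hθa.symm hθb.symm)
    have hK : (W.θ a, W.θ b) ∈ W.K g h := by
      have hx := (L.mem_K (v := x.1.1) (w := x.1.2)).1 x.2
      rw [W.mem_K, hav, hbv]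
      exact congrArg Subtype.val hx
    have h5 : q'.q x = W.Q g h a b := by
      rw [hx1, hq' a' ha' b' hb' hK']
      rfl
    have h6 : q.q ⟨((x.1.1 : V), (x.1.2 : V)), by
        have hx := (L.mem_K (v := x.1.1) (w := x.1.2)).1 x.2
        rw [W.mem_K]
        exact congrArg Subtype.val hx⟩ = W.Q g h a b := by
      rw [← hq a ha b hb hK]
      congr 1
      apply Subtype.ext
      show ((x.1.1 : V), (x.1.2 : V)) = (W.θ a, W.θ b)
      rw [hav, hbv]
    rw [h5, ← h6]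

/-! ### module WS3 -/

/-- `ℓ = 2`: `s = -q0 = 1` in `k`.  `ℓ` odd: `δ(t) = s^(k(t)) / s^(k_E(t))`, `E = ⟨d⟩`, has square 1
(`s_sq`); `g = h = z` in `sum_mod`: `k(z) = k(z²) = 0` (`u0² ≠ 1`), so `s^(n) = s^(n_E)`, and `δ` is a
homomorphism from the centraliser of `d` to `{1, -1}`.  Let `t' = t^(ℓ^a)` be of order prime to `ℓ`:
`δ(t) = δ(t')`, `δ(d) = 1` (odd order), `δ(t' d) = δ(t')`, and a vector fixed by `t' d` is fixed by `d` (a
power of `t' d`), so `δ(t' d) = 1`. -/
theorem sign_step [Finite F] [Finite V] [IsDomain R] [CharZero R]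
    (hR : ∀ n : ℕ, ¬ ℓ ∣ n → IsUnit ((n : ℕ) : R))
    (hℓ : ¬ ℓ ∣ Nat.card W.N) {d t : Y} (hd : IsPGroup ℓ (Subgroup.zpowers d))
    (ht : t * d = d * t) :
    (π W.s) ^ (Module.finrank F V + W.k t) =
      (π W.s) ^ (Module.finrank F (W.fix (Subgroup.zpowers d)) +
        W.kE (Subgroup.zpowers d) t) := by
  classical
  have hℓp : ℓ.Prime := Fact.out
  have hfY : Finite Y := Finite.of_injective W.σ W.inj
  set S : k := π W.s with hS
  have hS0 : S ≠ 0 := ((W.s.isUnit).map π).ne_zero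
  rcases hℓp.eq_two_or_odd' with h2 | hodd
  · -- characteristic 2
    subst h2
    have hS1 : S = 1 := by
      have h1 : S = -((W.q0 : ℕ) : k) := by
        rw [hS, W.s_val, map_neg, map_natCast]
      rcases Nat.even_or_odd W.q0 with he | ho
      · exfalso
        apply hS0
        rw [h1, (CharP.cast_eq_zero_iff k 2 W.q0).2 he.two_dvd, neg_zero]
      · obtain ⟨m, hm⟩ := ho
        have h20 : (2 : k) = 0 := by
          have := (CharP.cast_eq_zero_iff k 2 2).2 (dvd_refl 2)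
          exact_mod_cast this
        rw [h1, hm]
        push_cast
        rw [h20, zero_mul, zero_add]
        have : (1 : k) + 1 = 0 := by
          rw [← h20]; norm_num
        exact neg_eq_of_add_eq_zero_left this
    rw [hS1, one_pow, one_pow]
  · set E := Subgroup.zpowers d with hEdef
    -- `z` has no fixed points
    have hq2 : 2 ≤ W.q0 := two_le_of_card W.card_F
    have hfz : W.fx W.z = ⊥ := by
      rw [eq_bot_iff]
      intro v hv
      rw [W.mem_fx, W.ρ_z] at hv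
      have h1 : (W.u0 - 1) • v = 0 := by rw [sub_smul, one_smul, hv, sub_self]
      rcases smul_eq_zero.1 h1 with h3 | h3
      · exfalso
        exact W.prim.ne_one (by omega) (sub_eq_zero.1 h3)
      · exact h3
    have hfz2 : W.fx (W.z * W.z) = ⊥ := by
      rw [eq_bot_iff]
      intro v hv
      rw [W.mem_fx, map_mul] at hv
      have hv' : W.ρ W.z (W.ρ W.z v) = v := hv
      rw [W.ρ_z, W.ρ_z, smul_smul] at hv'
      have h1 : (W.u0 * W.u0 - 1) • v = 0 := by rw [sub_smul, one_smul, hv', sub_self]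
      rcases smul_eq_zero.1 h1 with h3 | h3
      · exfalso
        have h4 : W.u0 ^ 2 = 1 := by rw [sq]; exact sub_eq_zero.1 h3
        have h5 := W.prim.dvd_of_pow_eq_one 2 h4
        have h6 := Nat.le_of_dvd (by norm_num) h5
        omega
      · exact h3
    have hkz : W.k W.z = 0 := by unfold WD.k; rw [hfz]; exact finrank_bot F V
    have hkz2 : W.k (W.z * W.z) = 0 := by unfold WD.k; rw [hfz2]; exact finrank_bot F V
    have hkEz : W.kE E W.z = 0 := by unfold kE; rw [hfz, inf_bot_eq]; exact finrank_bot F V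
    have hkEz2 : W.kE E (W.z * W.z) = 0 := by
      unfold kE; rw [hfz2, inf_bot_eq]; exact finrank_bot F V
    have hzc : W.z ∈ Subgroup.centralizer (E : Set Y) := by
      rw [Subgroup.mem_centralizer_iff]
      intro y _
      exact W.z_central y
    have hn : S ^ Module.finrank F V = S ^ Module.finrank F (W.fix E) := by
      have h1 := W.sum_mod π hR hℓ hd hzc hzc
      rw [hkz, hkz2, hkEz, hkEz2] at h1
      simpa using h1
    -- the sign
    let δ : Y → k := fun t => S ^ W.k t * (S ^ W.kE E t)⁻¹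
    have hδ2 : ∀ t ∈ Subgroup.centralizer (E : Set Y), δ t * δ t = 1 := by
      intro t ht
      have h1 := W.s_sq π hd ht
      have h3 : S ^ (2 * W.kE E t) ≠ 0 := pow_ne_zero _ hS0
      calc δ t * δ t = S ^ (2 * W.k t) * (S ^ (2 * W.kE E t))⁻¹ := by
            simp only [δ]
            rw [two_mul, two_mul, pow_add, pow_add, mul_inv]
            ring
        _ = 1 := by rw [← h1, mul_inv_cancel₀ (pow_ne_zero _ hS0)]
    have hδm : ∀ g ∈ Subgroup.centralizer (E : Set Y), ∀ h ∈ Subgroup.centralizer (E : Set Y),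
        δ (g * h) = δ g * δ h := by
      intro g hg h hh
      have h1 := W.sum_mod π hR hℓ hd hg hh
      rw [pow_add, pow_add, pow_add, pow_add, pow_add, pow_add, ← hS, hn] at h1
      have h3 : δ g * δ h * δ (g * h) = 1 := by
        have h4 : S ^ W.k g * S ^ W.k h * S ^ W.k (g * h) =
            S ^ W.kE E g * S ^ W.kE E h * S ^ W.kE E (g * h) := by
          have h5 : S ^ Module.finrank F (W.fix E) ≠ 0 := pow_ne_zero _ hS0
          apply mul_left_cancel₀ h5
          calc _ = S ^ Module.finrank F (W.fix E) * S ^ W.k g * S ^ W.k h * S ^ W.k (g * h) := by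
                ring
            _ = _ := by rw [h1]; ring
        simp only [δ]
        have h6 : S ^ W.kE E g ≠ 0 := pow_ne_zero _ hS0
        have h7 : S ^ W.kE E h ≠ 0 := pow_ne_zero _ hS0
        have h8 : S ^ W.kE E (g * h) ≠ 0 := pow_ne_zero _ hS0
        calc S ^ W.k g * (S ^ W.kE E g)⁻¹ * (S ^ W.k h * (S ^ W.kE E h)⁻¹) *
              (S ^ W.k (g * h) * (S ^ W.kE E (g * h))⁻¹) =
            (S ^ W.k g * S ^ W.k h * S ^ W.k (g * h)) *
              ((S ^ W.kE E g)⁻¹ * (S ^ W.kE E h)⁻¹ * (S ^ W.kE E (g * h))⁻¹) := by ring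
          _ = 1 := by rw [h4]; field_simp
      have h4 := hδ2 _ (Subgroup.mul_mem _ hg hh)
      calc δ (g * h) = (δ g * δ h * δ (g * h)) * δ (g * h) := by rw [h3, one_mul]
        _ = δ g * δ h * (δ (g * h) * δ (g * h)) := by ring
        _ = _ := by rw [h4, mul_one]
    have hδ1 : δ 1 = 1 := by
      have h1 := hδm 1 (Subgroup.one_mem _) 1 (Subgroup.one_mem _)
      rw [mul_one] at h1
      have h3 := hδ2 1 (Subgroup.one_mem _)
      rw [h3] at h1
      exact h1
    have hδp : ∀ g ∈ Subgroup.centralizer (E : Set Y), ∀ i : ℕ, δ (g ^ i) = δ g ^ i := by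
      intro g hg i
      induction i with
      | zero => rw [pow_zero, pow_zero, hδ1]
      | succ i ih => rw [pow_succ, pow_succ, hδm _ (Subgroup.pow_mem _ hg _) _ hg, ih]
    have hδodd : ∀ g ∈ Subgroup.centralizer (E : Set Y), ∀ i : ℕ, Odd i → δ (g ^ i) = δ g := by
      rintro g hg i ⟨m, rfl⟩
      rw [hδp g hg, pow_succ, pow_mul, sq, hδ2 g hg, one_pow, one_mul]
    have htc : t ∈ Subgroup.centralizer (E : Set Y) := by
      rw [Subgroup.mem_centralizer_iff]
      rintro _ ⟨i, rfl⟩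
      have h1 : Commute t d := ht
      exact ((h1.zpow_right i).eq).symm
    have hdc : d ∈ Subgroup.centralizer (E : Set Y) := by
      rw [Subgroup.mem_centralizer_iff]
      rintro _ ⟨i, rfl⟩
      exact ((Commute.refl d).zpow_left i).eq
    -- the order of `d`
    obtain ⟨b, hb⟩ := (IsPGroup.iff_orderOf.1 hd) ⟨d, Subgroup.mem_zpowers d⟩
    have hdo : orderOf d = ℓ ^ b := by
      rw [← hb]
      exact (Subgroup.orderOf_mk d (Subgroup.mem_zpowers d)).symm
    have hδd : δ d = 1 := by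
      have h1 := hδodd d hdc (ℓ ^ b) (hodd.pow)
      rw [← h1, ← hdo, pow_orderOf_eq_one, hδ1]
    -- the part of `t` of order prime to `ℓ`
    have ho0 : orderOf t ≠ 0 := (orderOf_pos t).ne'
    obtain ⟨a, m, hm, htm⟩ := Nat.exists_eq_pow_mul_and_not_dvd ho0 ℓ hℓp.ne_one
    set t' := t ^ ℓ ^ a with ht'
    have ht'c : t' ∈ Subgroup.centralizer (E : Set Y) := Subgroup.pow_mem _ htc _
    have ht'm : t' ^ m = 1 := by
      rw [ht', ← pow_mul, ← htm, pow_orderOf_eq_one]
    have hδt : δ t' = δ t := hδodd t htc _ hodd.pow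
    have hcop : Nat.Coprime m (ℓ ^ b) :=
      ((Nat.Prime.coprime_iff_not_dvd hℓp).2 hm).symm.pow_right _
    obtain ⟨j, hj1, hj2⟩ := Nat.chineseRemainder hcop 0 1
    have hcomm : Commute t' d := (show Commute t d from ht).pow_left _
    have hpow : (t' * d) ^ j = d := by
      rw [hcomm.mul_pow]
      have h1 : t' ^ j = 1 := by
        obtain ⟨i, hi⟩ := (Nat.modEq_zero_iff_dvd.1 hj1)
        rw [hi, pow_mul, ht'm, one_pow]
      have h3 : d ^ j = d := by
        have h4 : d ^ j = d ^ 1 := by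
          rw [pow_eq_pow_iff_modEq, hdo]
          exact hj2
        rw [h4, pow_one]
      rw [h1, h3, one_mul]
    have hfix : W.fix E ⊓ W.fx (t' * d) = W.fx (t' * d) := by
      rw [inf_eq_right]
      intro v hv
      rw [W.mem_fx] at hv
      have h1 : ∀ i : ℕ, W.ρ ((t' * d) ^ i) v = v := by
        intro i
        induction i with
        | zero => rw [pow_zero, map_one]; rfl
        | succ i ih =>
          rw [pow_succ, map_mul]
          show W.ρ ((t' * d) ^ i) (W.ρ (t' * d) v) = v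
          rw [hv, ih]
      have h3 : W.ρ d v = v := by
        have := h1 j
        rwa [hpow] at this
      have h4 : ∀ i : ℕ, W.ρ (d ^ i) v = v := by
        intro i
        induction i with
        | zero => rw [pow_zero, map_one]; rfl
        | succ i ih =>
          rw [pow_succ, map_mul]
          show W.ρ (d ^ i) (W.ρ d v) = v
          rw [h3, ih]
      intro y hy
      obtain ⟨i, hi⟩ := (mem_powers_iff_mem_zpowers.2 hy : y ∈ Submonoid.powers d)
      rw [← hi]
      exact h4 i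
    have hδtd : δ (t' * d) = 1 := by
      have h1 : W.kE E (t' * d) = W.k (t' * d) := by
        unfold kE WD.k
        rw [hfix]
      simp only [δ]
      rw [h1, mul_inv_cancel₀ (pow_ne_zero _ hS0)]
    have hδt1 : δ t = 1 := by
      rw [← hδt]
      have h1 := hδm t' ht'c d hdc
      rw [hδtd, hδd, mul_one] at h1
      exact h1.symm
    have hkt : S ^ W.k t = S ^ W.kE E t := by
      have h1 : S ^ W.kE E t ≠ 0 := pow_ne_zero _ hS0
      have h3 : S ^ W.k t * (S ^ W.kE E t)⁻¹ = 1 := hδt1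
      rw [← div_eq_mul_inv, div_eq_one_iff_eq h1] at h3
      exact h3
    rw [pow_add, pow_add, hn, hkt]

/-! ### module WS4 -/

/-- the stabiliser of a vector -/
private def WS4_st (v : V) : Subgroup Y where
  carrier := {y | W.ρ y v = v}
  mul_mem' {a b} ha hb := by
    show W.ρ (a * b) v = v
    rw [map_mul]
    show W.ρ a (W.ρ b v) = v
    rw [show W.ρ b v = v from hb, show W.ρ a v = v from ha]
  one_mem' := by
    show W.ρ 1 v = v
    rw [map_one]
    rfl
  inv_mem' {a} ha := by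
    show W.ρ a⁻¹ v = v
    have h1 : W.ρ a⁻¹ (W.ρ a v) = v := by
      have h2 : W.ρ a⁻¹ (W.ρ a v) = W.ρ (a⁻¹ * a) v := by rw [map_mul]; rfl
      rw [h2, inv_mul_cancel, map_one]
      rfl
    rwa [show W.ρ a v = v from ha] at h1

omit [Finite X] in
private theorem WS4_mem_fix {E : Subgroup Y} {v : V} : v ∈ W.fix E ↔ E ≤ W.WS4_st v := Iff.rfl

omit [Finite X] in
private theorem WS4_fix_sup {E : Subgroup Y} {d : Y} {v : V} :
    v ∈ W.fix (E ⊔ Subgroup.zpowers d) ↔ v ∈ W.fix E ∧ W.ρ d v = v := by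
  rw [WS4_mem_fix, sup_le_iff, WS4_mem_fix, Subgroup.zpowers_le]
  rfl

omit [Finite X] in
private theorem WS4_fix_zpowers {d : Y} {v : V} :
    v ∈ W.fix (Subgroup.zpowers d) ↔ W.ρ d v = v := by
  rw [WS4_mem_fix, Subgroup.zpowers_le]
  rfl

private theorem WS4_exists {E' E : Subgroup Y} [Finite Y] (hE : IsPGroup ℓ E)
    (hne : ¬ E ≤ E') (hle : E' ≤ E) : ∃ d ∈ E, d ∉ E' ∧ d ∈ nz E' := by
  have hnil : Group.IsNilpotent E := hE.isNilpotent
  have hlt : E'.subgroupOf E < ⊤ := by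
    rw [lt_top_iff_ne_top]
    intro h
    exact hne (Subgroup.subgroupOf_eq_top.mp h)
  obtain ⟨x, hx, hx'⟩ := SetLike.exists_of_lt (Group.normalizerCondition_of_isNilpotent _ hlt)
  refine ⟨x, x.2, fun h => hx' h, ?_⟩
  rw [Subgroup.mem_normalizer_iff] at hx ⊢
  intro h
  constructor
  · intro hh
    exact (hx ⟨h, hle hh⟩).mp hh
  · intro hh
    have h1 : h ∈ E := by
      have h2 := E.mul_mem (E.mul_mem (E.inv_mem x.2) (hle hh)) x.2
      have h3 : (x : Y)⁻¹ * (x * h * (x : Y)⁻¹) * x = h := by group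
      rwa [h3] at h2
    exact (hx ⟨h, h1⟩).mpr hh

/-- Choose a maximal subgroup `E' ≤ E` with this property.  If `E' ≠ E` then there is `d ∈ E` not in
`E'` which normalises `E'` (`E` is an `ℓ`-group: `normalizerCondition_of_isNilpotent`); apply
`sign_step` to the local data at `E'` and `⟨d, _⟩`, `⟨t, _⟩`: the fixed points of `d` on the fixed
points of `E'` are the fixed points of `E' ⊔ ⟨d⟩`. -/
theorem sign [Finite F] [Finite V] [IsDomain R] [CharZero R]
    (hR : ∀ n : ℕ, ¬ ℓ ∣ n → IsUnit ((n : ℕ) : R))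
    (hℓ : ¬ ℓ ∣ Nat.card W.N) {E : Subgroup Y} (hE : IsPGroup ℓ E)
    {t : Y} (ht : t ∈ Subgroup.centralizer (E : Set Y)) :
    (π W.s) ^ (Module.finrank F V + W.k t) =
      (π W.s) ^ (Module.finrank F (W.fix E) + W.kE E t) := by
  classical
  have hfY : Finite Y := Finite.of_injective W.σ W.inj
  let s : Set (Subgroup Y) := {E' | E' ≤ E ∧ (π W.s) ^ (Module.finrank F V + W.k t) =
      (π W.s) ^ (Module.finrank F (W.fix E') + W.kE E' t)}
  have hfix0 : W.fix ⊥ = ⊤ := by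
    rw [eq_top_iff]
    intro v _ d hd
    rw [Subgroup.mem_bot.1 hd, map_one]
    rfl
  have hbot : (⊥ : Subgroup Y) ∈ s := by
    refine ⟨bot_le, ?_⟩
    unfold kE WD.k
    rw [hfix0, top_inf_eq, finrank_top]
  obtain ⟨E', hE's, hmax⟩ := (Set.toFinite s).exists_maximal ⟨_, hbot⟩
  obtain ⟨hle, hP⟩ := hE's
  have hEE : E ≤ E' := by
    by_contra hnle
    obtain ⟨d, hd, hdE', hdn⟩ := WS4_exists hE hnle hle
    have hE' : IsPGroup ℓ E' := hE.to_le hle
    have htn : t ∈ nz E' := by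
      apply Subgroup.centralizer_le_normalizer
      rw [Subgroup.mem_centralizer_iff] at ht ⊢
      intro y hy
      exact ht y (hle hy)
    let L := W.loc hR hℓ E' hE'
    let d' : nz E' := ⟨d, hdn⟩
    let t' : nz E' := ⟨t, htn⟩
    have hLℓ : ¬ ℓ ∣ Nat.card L.N := by
      intro h
      apply hℓ
      refine h.trans ?_
      exact Subgroup.card_comap_dvd_of_injective W.N (nz (E'.map W.σ)).subtype
        (nz (E'.map W.σ)).subtype_injective
    have hd' : IsPGroup ℓ (Subgroup.zpowers d') := by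
      have h1 : IsPGroup ℓ (E.subgroupOf (nz E')) := hE.comap_subtype
      refine h1.to_le ?_
      rw [Subgroup.zpowers_le]
      exact hd
    have htd : t' * d' = d' * t' := Subtype.ext
      ((Subgroup.mem_centralizer_iff.1 ht d hd).symm)
    have h1 := L.sign_step π hR hLℓ hd' htd
    have hLs : L.s = W.s := rfl
    have hk : L.k t' = W.kE E' t := W.loc_k hR hℓ E' hE' t'
    have hmemL : ∀ v : W.fix E', v ∈ L.fix (Subgroup.zpowers d') ↔
        (v : V) ∈ W.fix (E' ⊔ Subgroup.zpowers d) := by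
      intro v
      rw [L.WS4_fix_zpowers, W.WS4_fix_sup]
      constructor
      · intro h
        exact ⟨v.2, congrArg Subtype.val h⟩
      · intro h
        exact Subtype.ext h.2
    have hf1 : Module.finrank F (L.fix (Subgroup.zpowers d')) =
        Module.finrank F (W.fix (E' ⊔ Subgroup.zpowers d)) := by
      rw [← Submodule.finrank_map_subtype_eq (W.fix E') (L.fix (Subgroup.zpowers d'))]
      have h2 : (L.fix (Subgroup.zpowers d')).map (W.fix E').subtype =
          W.fix (E' ⊔ Subgroup.zpowers d) := by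
        ext v
        rw [Submodule.mem_map]
        constructor
        · rintro ⟨v, hv, rfl⟩
          exact (hmemL v).1 hv
        · intro hv
          exact ⟨⟨v, (W.WS4_fix_sup.1 hv).1⟩, (hmemL _).2 hv, rfl⟩
      rw [h2]
    have hf2 : L.kE (Subgroup.zpowers d') t' = W.kE (E' ⊔ Subgroup.zpowers d) t := by
      unfold kE
      rw [← Submodule.finrank_map_subtype_eq (W.fix E')
        (L.fix (Subgroup.zpowers d') ⊓ L.fx t')]
      have h2 : (L.fix (Subgroup.zpowers d') ⊓ L.fx t').map (W.fix E').subtype =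
          W.fix (E' ⊔ Subgroup.zpowers d) ⊓ W.fx t := by
        ext v
        rw [Submodule.mem_map, Submodule.mem_inf]
        constructor
        · rintro ⟨v, hv, rfl⟩
          refine ⟨(hmemL v).1 hv.1, ?_⟩
          rw [W.mem_fx]
          exact congrArg Subtype.val (L.mem_fx.1 hv.2)
        · rintro ⟨hv, hv'⟩
          refine ⟨⟨v, (W.WS4_fix_sup.1 hv).1⟩, ⟨(hmemL _).2 hv, ?_⟩, rfl⟩
          exact L.mem_fx.2 (Subtype.ext (W.mem_fx.1 hv'))
      rw [h2]
    rw [hLs, hk, hf1, hf2] at h1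
    have h2 : E' ⊔ Subgroup.zpowers d ∈ s :=
      ⟨sup_le hle (Subgroup.zpowers_le.2 hd), hP.trans h1⟩
    have h3 := hmax h2 le_sup_left
    exact hdE' (h3 (Subgroup.mem_sup_right (Subgroup.mem_zpowers d)))
  have : E' = E := le_antisymm hle hEE
  rw [← this]
  exact hP

end WD

end Pool.Agent.URing
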