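import Pool.Agent.URing.WXf
import Pool.Agent.URing.WSign
import Pool.Agent.URing.Dom

/-!
# The Weil representation relates blocks (modules WBR, WLC, WDM)
-/

set_option autoImplicit false

namespace Pool.Agent.URing

open MonoidAlgebra IsLocalRing Pool.Agent.UBlocks

universe u

/-- Sums over a normal subgroup of order prime to `ℓ` of functions invariant under an
`ℓ`-subgroup `D`: only the elements of the normaliser of `D` contribute. -/
private theorem WD_sum {ℓ : ℕ} [Fact ℓ.Prime] {X : Type*} [Group X] [Finite X] {k : Type*}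
    [Field k] [CharP k ℓ] {N : Subgroup X} [N.Normal] (hN : ¬ ℓ ∣ Nat.card N) {D : Subgroup X}
    (hD : IsPGroup ℓ D) (f : X → k) (hf : ∀ d ∈ D, ∀ n ∈ N, f (d * n * d⁻¹) = f n) :
    ∑ᶠ n : N, f n = ∑ᶠ n : N.subgroupOf (nz D), f ((n : nz D) : X) := by
  classical
  have : Fintype N := Fintype.ofFinite _
  have : Fintype (N.subgroupOf (nz D)) := Fintype.ofFinite _
  let act : MulAction D N :=
    { smul := fun d l => ⟨(d : X) * (l : X) * (d : X)⁻¹,
        Subgroup.Normal.conj_mem inferInstance _ l.2 _⟩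
      one_smul := fun l => Subtype.ext (by
        show ((1 : D) : X) * (l : X) * ((1 : D) : X)⁻¹ = l
        simp)
      mul_smul := fun d e l => Subtype.ext (by
        show ((d * e : D) : X) * (l : X) * ((d * e : D) : X)⁻¹ =
          (d : X) * ((e : X) * (l : X) * (e : X)⁻¹) * (d : X)⁻¹
        rw [Subgroup.coe_mul]
        group) }
  have hsm : ∀ (d : D) (l : N), ((d • l : N) : X) = (d : X) * (l : X) * (d : X)⁻¹ :=
    fun _ _ => rfl
  rw [finsum_eq_sum_of_fintype, finsum_eq_sum_of_fintype,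
    sum_fixed hD (fun n : N => f (n : X)) (fun d n => by rw [hsm]; exact hf d d.2 n n.2),
    Finset.sum_subtype (p := fun n : N => n ∈ MulAction.fixedPoints D N) _ (fun n => by simp)]
  have hcen : ∀ n : N, n ∈ MulAction.fixedPoints D N →
      (n : X) ∈ Subgroup.centralizer (D : Set X) := by
    intro n hn
    refine Subgroup.mem_centralizer_iff.2 fun d hd => ?_
    have h3 := congrArg Subtype.val (hn ⟨d, hd⟩)
    rw [hsm] at h3
    have h4 : d * (n : X) * d⁻¹ = n := h3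
    calc d * (n : X) = d * (n : X) * d⁻¹ * d := by group
      _ = _ := by rw [h4]
  refine Fintype.sum_equiv
    { toFun := fun n => ⟨⟨((n : N) : X), Subgroup.centralizer_le_normalizer _ (hcen n n.2)⟩,
        (n : N).2⟩
      invFun := fun n => ⟨⟨((n : nz D) : X), n.2⟩, fun d => Subtype.ext (by
        have h1 : (d : X) * ((n : nz D) : X) = ((n : nz D) : X) * (d : X) :=
          Subgroup.mem_centralizer_iff.1 (mem_centralizer_of_nz hN hD n.2 (n : nz D).2) d d.2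
        rw [hsm]
        show (d : X) * ((n : nz D) : X) * (d : X)⁻¹ = ((n : nz D) : X)
        rw [h1]
        group)⟩
      left_inv := fun n => rfl
      right_inv := fun n => rfl } _ _ fun n => rfl

private theorem WD_card {ℓ : ℕ} [Fact ℓ.Prime] {X : Type*} [Group X] [Finite X] {k : Type*}
    [Field k] [CharP k ℓ] {N : Subgroup X} [N.Normal] (hN : ¬ ℓ ∣ Nat.card N) {D : Subgroup X}
    (hD : IsPGroup ℓ D) :
    ((Nat.card N : ℕ) : k) = ((Nat.card (N.subgroupOf (nz D)) : ℕ) : k) := by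
  classical
  have : Fintype N := Fintype.ofFinite _
  have : Fintype (N.subgroupOf (nz D)) := Fintype.ofFinite _
  have h := WD_sum hN hD (fun _ : X => (1 : k)) fun _ _ _ _ => rfl
  rw [finsum_eq_sum_of_fintype, finsum_eq_sum_of_fintype, Finset.sum_const, Finset.sum_const,
    nsmul_eq_mul, nsmul_eq_mul, mul_one, mul_one, Finset.card_univ, Finset.card_univ,
    ← Nat.card_eq_fintype_card, ← Nat.card_eq_fintype_card] at h
  exact h

private theorem WD_inv {R k : Type*} [CommRing R] [Field k] (π : R →+* k) {a : ℕ}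
    (ha : IsUnit ((a : ℕ) : R)) : π (Ring.inverse ((a : ℕ) : R)) = ((a : ℕ) : k)⁻¹ := by
  refine eq_inv_of_mul_eq_one_left ?_
  rw [← map_natCast π, ← map_mul, Ring.inverse_mul_cancel _ ha, map_one]

private theorem WD_sub {ℓ : ℕ} {X : Type*} [Group X] {N : Subgroup X} (hN : ¬ ℓ ∣ Nat.card N)
    (D : Subgroup X) : ¬ ℓ ∣ Nat.card (N.subgroupOf (nz D)) := by
  intro h
  apply hN
  refine h.trans ?_
  rw [Nat.card_congr ((N.subgroupOf (nz D)).equivMapOfInjective _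
    (nz D).subtype_injective).toEquiv]
  apply Subgroup.card_dvd_of_le
  rintro _ ⟨n, hn, rfl⟩
  exact hn

namespace WD

section Gen

variable {R F V Y X : Type*} [CommRing R] [Field F] [AddCommGroup V] [Module F V]
    [Group Y] [Group X] (W : WD R F V Y X) {ℓ : ℕ} [Fact ℓ.Prime] [Finite X] {k : Type*}
    [Field k] [CharP k ℓ] (π : R →+* k)

/-! ### module WBR -/

open Classical in
/-- the term of `n` in the coefficient of `A_y` at `g` -/
private noncomputable def WBR_t (W : WD R F V Y X) (y : Y) (g n : X) : R :=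
  if (W.σ y * n * (W.σ y)⁻¹ * n⁻¹)⁻¹ * g ∈ W.Z then
    ((W.m (g⁻¹ * (W.σ y * n * (W.σ y)⁻¹ * n⁻¹)) : Rˣ) : R) else 0

omit [Fact ℓ.Prime] in
private theorem WBR_coeff (y : Y) (g : X) : (W.A y).coeff g =
    Ring.inverse ((Nat.card W.Z : ℕ) : R) * (Ring.inverse ((Nat.card W.Z : ℕ) : R) *
      ∑ᶠ n : W.N, WBR_t W y g n) := by
  classical
  have : Fintype W.N := Fintype.ofFinite _
  have hsum : ∑ n : W.N, (dl R (W.σ y * n * (W.σ y)⁻¹ * (n : X)⁻¹) * W.e).coeff g =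
      Ring.inverse ((Nat.card W.Z : ℕ) : R) * ∑ n : W.N, WBR_t W y g n := by
    rw [Finset.mul_sum]
    refine Finset.sum_congr rfl fun n _ => ?_
    unfold WBR_t
    split_ifs with h
    · rw [W.coeff_dl_e h]
    · rw [W.coeff_dl_e_zero h, mul_zero]
  unfold A
  rw [finsum_eq_sum_of_fintype, finsum_eq_sum_of_fintype, coeff_smul, Finsupp.smul_apply,
    smul_eq_mul, coeff_sum, Finset.sum_apply', hsum]

private theorem WBR_Z (hℓ : ¬ ℓ ∣ Nat.card W.N) : ¬ ℓ ∣ Nat.card W.Z := fun h =>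
  hℓ (h.trans (Subgroup.card_dvd_of_le W.le))

/-- `([t, n] e)_g` is an `E`-invariant function of `n ∈ N` (`E` commutes with `t` and `g`), so the sum
over `N` is congruent to the sum over the centraliser of `σE` in `N`; `|Z|` is congruent to the
order of the centraliser of `σE` in `Z`. -/
theorem br_A (hR : ∀ n : ℕ, ¬ ℓ ∣ n → IsUnit ((n : ℕ) : R)) (hℓ : ¬ ℓ ∣ Nat.card W.N)
    {E : Subgroup Y} (hE : IsPGroup ℓ E) (t : nz E)
    (ht : (t : Y) ∈ Subgroup.centralizer (E : Set Y)) (g : nz (E.map W.σ))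
    (hg : (g : X) ∈ Subgroup.centralizer (E.map W.σ : Set X)) :
    π (((W.loc hR hℓ E hE).A t).coeff g) = π ((W.A (t : Y)).coeff (g : X)) := by
  classical
  have hD : IsPGroup ℓ (E.map W.σ) := hE.map _
  have hZ : ¬ ℓ ∣ Nat.card W.Z := W.WBR_Z hℓ
  have hZ' : ¬ ℓ ∣ Nat.card (W.Z.subgroupOf (nz (E.map W.σ))) := WD_sub hZ _
  have hinv : π (Ring.inverse ((Nat.card (W.loc hR hℓ E hE).Z : ℕ) : R)) =
      π (Ring.inverse ((Nat.card W.Z : ℕ) : R)) := by
    have h1 := WD_inv π (hR _ hZ')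
    have h2 := WD_inv π (hR _ hZ)
    rw [h2, WD_card (k := k) hZ hD]
    exact h1
  -- invariance
  have hinvar : ∀ d ∈ E.map W.σ, ∀ n ∈ W.N,
      π (WBR_t W (t : Y) (g : X) (d * n * d⁻¹)) = π (WBR_t W (t : Y) (g : X) n) := by
    rintro d hd n -
    congr 1
    obtain ⟨d', hd', rfl⟩ := hd
    have hct : W.σ d' * W.σ (t : Y) = W.σ (t : Y) * W.σ d' := by
      rw [← map_mul, Subgroup.mem_centralizer_iff.1 ht d' hd', map_mul]
    have hcg : W.σ d' * (g : X) = (g : X) * W.σ d' :=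
      Subgroup.mem_centralizer_iff.1 hg _ ⟨d', hd', rfl⟩
    obtain ⟨x, hx⟩ : ∃ x, x = W.σ (t : Y) * n * (W.σ (t : Y))⁻¹ * n⁻¹ := ⟨_, rfl⟩
    have h1 : W.σ (t : Y) * (W.σ d' * n * (W.σ d')⁻¹) * (W.σ (t : Y))⁻¹ *
        (W.σ d' * n * (W.σ d')⁻¹)⁻¹ = W.σ d' * x * (W.σ d')⁻¹ := by
      have h2 : (W.σ d')⁻¹ * (W.σ (t : Y))⁻¹ = (W.σ (t : Y))⁻¹ * (W.σ d')⁻¹ := by
        rw [← mul_inv_rev, ← mul_inv_rev, hct]
      rw [hx]
      calc W.σ (t : Y) * (W.σ d' * n * (W.σ d')⁻¹) * (W.σ (t : Y))⁻¹ *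
          (W.σ d' * n * (W.σ d')⁻¹)⁻¹ =
          (W.σ (t : Y) * W.σ d') * n * ((W.σ d')⁻¹ * (W.σ (t : Y))⁻¹) * W.σ d' * n⁻¹ *
            (W.σ d')⁻¹ := by group
        _ = _ := by
          rw [← hct, h2]
          group
    have hci : (W.σ d')⁻¹ * (g : X) = (g : X) * (W.σ d')⁻¹ := by
      rw [inv_mul_eq_iff_eq_mul, ← mul_assoc, hcg, mul_inv_cancel_right]
    have h2 : (W.σ d' * x * (W.σ d')⁻¹)⁻¹ * (g : X) =
        W.σ d' * (x⁻¹ * (g : X)) * (W.σ d')⁻¹ := by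
      calc (W.σ d' * x * (W.σ d')⁻¹)⁻¹ * (g : X) =
          W.σ d' * x⁻¹ * ((W.σ d')⁻¹ * (g : X)) := by group
        _ = _ := by
          rw [hci]
          group
    have h3 : (g : X)⁻¹ * (W.σ d' * x * (W.σ d')⁻¹) =
        W.σ d' * ((g : X)⁻¹ * x) * (W.σ d')⁻¹ := by
      have h4 : (g : X)⁻¹ * W.σ d' = W.σ d' * (g : X)⁻¹ := by
        rw [inv_mul_eq_iff_eq_mul, ← mul_assoc, ← hcg, mul_inv_cancel_right]
      calc (g : X)⁻¹ * (W.σ d' * x * (W.σ d')⁻¹) =
          ((g : X)⁻¹ * W.σ d') * x * (W.σ d')⁻¹ := by group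
        _ = _ := by
          rw [h4]
          group
    unfold WBR_t
    rw [h1, h2, h3, ← hx]
    by_cases hc : x⁻¹ * (g : X) ∈ W.Z
    · have hc' : W.σ d' * (x⁻¹ * (g : X)) * (W.σ d')⁻¹ ∈ W.Z := W.normal_Z.conj_mem _ hc _
      have hc2 : (g : X)⁻¹ * x ∈ W.Z := by
        have := W.Z.inv_mem hc
        rwa [mul_inv_rev, inv_inv] at this
      rw [if_pos hc, if_pos hc', W.m_conj _ _ hc2]
    · have hc' : W.σ d' * (x⁻¹ * (g : X)) * (W.σ d')⁻¹ ∉ W.Z := by
        intro h4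
        apply hc
        have := W.normal_Z.conj_mem _ h4 (W.σ d')⁻¹
        simpa [mul_assoc] using this
      rw [if_neg hc, if_neg hc']
  have hsum : π (∑ᶠ n : (W.loc hR hℓ E hE).N, WBR_t (W.loc hR hℓ E hE) t g n) =
      π (∑ᶠ n : W.N, WBR_t W (t : Y) (g : X) n) := by
    have e1 : ∀ n : (W.loc hR hℓ E hE).N, WBR_t (W.loc hR hℓ E hE) t g n =
        WBR_t W (t : Y) (g : X) (((n : nz (E.map W.σ)) : X)) := fun n => rfl
    have : Fintype (W.loc hR hℓ E hE).N := Fintype.ofFinite _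
    have : Fintype W.N := Fintype.ofFinite _
    have e2 := WD_sum hℓ hD (fun n => π (WBR_t W (t : Y) (g : X) n)) hinvar
    rw [finsum_eq_sum_of_fintype, map_sum, ← finsum_eq_sum_of_fintype,
      finsum_eq_sum_of_fintype (fun n : W.N => WBR_t W (t : Y) (g : X) n), map_sum,
      ← finsum_eq_sum_of_fintype, e2]
    rfl
  rw [WBR_coeff, WBR_coeff, map_mul, map_mul, map_mul, map_mul, hinv, hsum]

/-- `br_A` and `sign` -/
theorem br_w [Finite F] [Finite V] [IsDomain R] [CharZero R]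
    (hR : ∀ n : ℕ, ¬ ℓ ∣ n → IsUnit ((n : ℕ) : R)) (hℓ : ¬ ℓ ∣ Nat.card W.N)
    {E : Subgroup Y} (hE : IsPGroup ℓ E) (t : nz E)
    (ht : (t : Y) ∈ Subgroup.centralizer (E : Set Y)) (g : nz (E.map W.σ))
    (hg : (g : X) ∈ Subgroup.centralizer (E.map W.σ : Set X)) :
    π (((W.loc hR hℓ E hE).w t).coeff g) = π ((W.w (t : Y)).coeff (g : X)) := by
  have h1 := W.br_A π hR hℓ hE t ht g hg
  have h2 := W.sign π hR hℓ hE ht
  have h3 : (W.loc hR hℓ E hE).s = W.s := rfl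
  have hs : ∀ m : ℕ, π (((W.s⁻¹ ^ m : Rˣ) : R)) = ((π (W.s : R)) ^ m)⁻¹ := by
    intro m
    refine eq_inv_of_mul_eq_one_left ?_
    rw [← map_pow, ← map_mul, ← Units.val_pow_eq_pow_val, ← Units.val_mul, inv_pow,
      inv_mul_cancel, Units.val_one, map_one]
  unfold w
  rw [coeff_smul, Finsupp.smul_apply, coeff_smul, Finsupp.smul_apply, smul_eq_mul, smul_eq_mul,
    map_mul, map_mul, h1, h3, W.loc_k hR hℓ E hE t, hs, hs, h2]

/-! ### module WLC -/

/-- Local data: `E = (W.loc D).xf`.  `Ψ(t) = w_(t⁻¹) σ(t)`, coefficients at `x`: those of `w_(t⁻¹)` at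
`x σ(t)⁻¹`, an element of the centraliser of `σD` if and only if `x` is; `w_(t⁻¹)` of the local data
is supported on `N ∩ N_X(σD)`, in the centraliser.  `e`: `coeff_idp`, `card_inf_centralizer` in `Y`. -/
theorem exists_loc [Finite F] [Finite V] [IsDomain R] [CharZero R]
    (hR : ∀ n : ℕ, ¬ ℓ ∣ n → IsUnit ((n : ℕ) : R)) (hℓ : ¬ ℓ ∣ Nat.card W.N)
    (hζ : ∃ ζ : R, IsPrimitiveRoot ζ (Nat.card W.N)) (D : Subgroup Y) (hD : IsPGroup ℓ D) :
    Nonempty (XfLoc π (W.xf hζ) D) := by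
  classical
  have hY : Finite Y := Finite.of_injective W.σ W.inj
  have hDX : IsPGroup ℓ (D.map W.σ) := hD.map _
  have hζ' : ∃ ζ : R, IsPrimitiveRoot ζ (Nat.card (W.loc hR hℓ D hD).N) := by
    obtain ⟨ζ, h⟩ := hζ
    have hdvd : Nat.card (W.N.subgroupOf (nz (D.map W.σ))) ∣ Nat.card W.N := by
      rw [Nat.card_congr ((W.N.subgroupOf (nz (D.map W.σ))).equivMapOfInjective _
        (nz (D.map W.σ)).subtype_injective).toEquiv]
      apply Subgroup.card_dvd_of_le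
      rintro _ ⟨n, hn, rfl⟩
      exact hn
    obtain ⟨m, hm⟩ := hdvd
    exact ⟨ζ ^ m, h.pow Nat.card_pos (by rw [hm, mul_comm]; rfl)⟩
  -- centralisers
  have hσ : ∀ t : Y, t ∈ Subgroup.centralizer (D : Set Y) →
      W.σ t ∈ Subgroup.centralizer ((D.map W.σ : Subgroup X) : Set X) := by
    intro t ht
    refine Subgroup.mem_centralizer_iff.2 ?_
    rintro _ ⟨d, hd, rfl⟩
    rw [← map_mul, Subgroup.mem_centralizer_iff.1 ht d hd, map_mul]
  -- the subgroup `T`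
  obtain ⟨T, hT⟩ : ∃ T : Subgroup Y, T = W.Z.comap W.σ := ⟨_, rfl⟩
  have hTn : T.Normal := by rw [hT]; exact W.normal_Z.comap _
  have hTℓ : ¬ ℓ ∣ Nat.card T := by
    intro h
    apply W.WBR_Z hℓ
    refine h.trans ?_
    rw [Nat.card_congr (T.equivMapOfInjective _ W.inj).toEquiv]
    apply Subgroup.card_dvd_of_le
    rintro _ ⟨n, hn, rfl⟩
    rw [hT] at hn
    exact hn
  have hTcard := WD_card (k := k) hTℓ hD
  have hTinv : π (Ring.inverse ((Nat.card (T.subgroupOf (nz D)) : ℕ) : R)) =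
      π (Ring.inverse ((Nat.card T : ℕ) : R)) := by
    rw [WD_inv π (hR _ hTℓ), WD_inv π (hR _ (WD_sub hTℓ D)), hTcard]
  refine ⟨{ E := (W.loc hR hℓ D hD).xf hζ', sig := fun g => rfl, psi := ?_, supp := ?_,
            e1 := ?_, e0 := ?_ }⟩
  · intro t ht (x : nz (D.map W.σ)) hx
    show π (((W.loc hR hℓ D hD).Psi (dl R t)).coeff x) = π ((W.Psi (dl R (t : Y))).coeff (x : X))
    rw [Psi_dl, Psi_dl, coeff_mul_dl, coeff_mul_dl]
    exact W.br_w π hR hℓ hD t⁻¹ (Subgroup.inv_mem _ ht)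
      (x * ((W.loc hR hℓ D hD).σ t)⁻¹) (Subgroup.mul_mem _ hx (Subgroup.inv_mem _ (hσ t ht)))
  · intro t ht (x : nz (D.map W.σ)) hx
    show π (((W.loc hR hℓ D hD).Psi (dl R t)).coeff x) = 0
    rw [Psi_dl, coeff_mul_dl, coeff_w_zero, map_zero]
    intro hc
    apply hx
    have h1 : (x : X) * (W.σ (t : Y))⁻¹ ∈
        Subgroup.centralizer ((D.map W.σ : Subgroup X) : Set X) :=
      mem_centralizer_of_nz hℓ hDX hc (x * ((W.loc hR hℓ D hD).σ t)⁻¹).2
    have h2 := Subgroup.mul_mem _ h1 (hσ t ht)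
    rwa [inv_mul_cancel_right] at h2
  · intro t ht
    show π ((W.loc hR hℓ D hD).eY.coeff t) = π (W.eY.coeff (t : Y))
    by_cases htZ : W.σ (t : Y) ∈ W.Z
    · have h1 : W.eY.coeff (t : Y) = Ring.inverse ((Nat.card T : ℕ) : R) *
          ((W.m (W.σ (t : Y))⁻¹ : Rˣ) : R) := by
        rw [hT]
        exact coeff_idp (W.Z.comap W.σ) (W.μ.comp (W.σ.subgroupComap W.Z)) ⟨(t : Y), htZ⟩ |>.trans
          (by
            congr 2
            show W.m (W.σ (t : Y)⁻¹) = _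
            rw [map_inv])
      have h2 : (W.loc hR hℓ D hD).eY.coeff t =
          Ring.inverse ((Nat.card (T.subgroupOf (nz D)) : ℕ) : R) *
          ((W.m (W.σ (t : Y))⁻¹ : Rˣ) : R) := by
        have h3 := coeff_idp ((W.loc hR hℓ D hD).Z.comap (W.loc hR hℓ D hD).σ)
          ((W.loc hR hℓ D hD).μ.comp ((W.loc hR hℓ D hD).σ.subgroupComap (W.loc hR hℓ D hD).Z))
          ⟨t, htZ⟩
        refine h3.trans ?_
        rw [hT]
        congr 2
        show W.m (W.σ (t : Y)⁻¹) = _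
        rw [map_inv]
      rw [h1, h2, map_mul, map_mul, hTinv]
    · have h1 : W.eY.coeff (t : Y) = 0 := coeff_idp_zero _ _ htZ
      have h2 : (W.loc hR hℓ D hD).eY.coeff t = 0 := coeff_idp_zero _ _ htZ
      rw [h1, h2]
  · intro t ht
    show π ((W.loc hR hℓ D hD).eY.coeff t) = 0
    have h2 : (W.loc hR hℓ D hD).eY.coeff t = 0 := by
      refine coeff_idp_zero _ _ fun hc => ht ?_
      have h3 : (t : Y) ∈ T := by
        rw [hT]
        exact hc
      exact mem_centralizer_of_nz hTℓ hD h3 t.2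
    rw [h2, map_zero]

end Gen

/-! ### module WDM -/

/-- `Xf.dom` for `xf` and `exists_loc`. -/
theorem dom {ℓ : ℕ} [Fact ℓ.Prime] {Λ : Type u} {F V : Type*} {Y X : Type} [CommRing Λ]
    [IsDomain Λ] [CharZero Λ] [IsLocalRing Λ] [IsNoetherianRing Λ]
    [IsAdicComplete (maximalIdeal Λ) Λ] [CharP (ResidueField Λ) ℓ] [Field F] [Finite F]
    [AddCommGroup V] [Module F V] [Finite V] [Group Y] [Group X] [Finite X]
    (W : WD Λ F V Y X) (hℓ : ¬ ℓ ∣ Nat.card W.N)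
    (hζ : ∃ ζ : Λ, IsPrimitiveRoot ζ (Nat.card W.N)) : Dom ℓ Λ Y W.e := by
  have hR : ∀ n : ℕ, ¬ ℓ ∣ n → IsUnit ((n : ℕ) : Λ) := by
    intro n hn
    rw [← residue_ne_zero_iff_isUnit, map_natCast, Ne, CharP.cast_eq_zero_iff (ResidueField Λ) ℓ]
    exact hn
  exact (W.xf hζ).dom fun D hD => W.exists_loc (residue Λ) hR hℓ hζ D hD

end WD

end Pool.Agent.URing
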