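import Pool.Agent.URing.WA
import Pool.Agent.URing.Gauss

/-!
# Multiplicativity (modules WQ, WM)
-/

set_option autoImplicit false

namespace Pool.Agent.URing

open MonoidAlgebra Pool.Agent.UBlocks

namespace WD

variable {R F V Y X : Type*} [CommRing R] [Field F] [AddCommGroup V] [Module F V]
    [Group Y] [Group X] (W : WD R F V Y X)

/-! ### module WQ -/

/-- the pairs `(v, w)` with `(g - 1) v + (h - 1) w = 0` -/
def K (g h : Y) : Submodule F (V × V) :=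
  LinearMap.ker ((W.ρ g - 1).coprod (W.ρ h - 1))

theorem mem_K {g h : Y} {v w : V} :
    (v, w) ∈ W.K g h ↔ (W.ρ g v - v) + (W.ρ h w - w) = 0 := by
  unfold K
  rw [LinearMap.mem_ker, LinearMap.coprod_apply]
  rfl

private theorem WQ_θ {g : Y} {a : X} (ha : a ∈ W.N) :
    W.σ g * a * (W.σ g)⁻¹ * a⁻¹ ∈ W.N ∧
      W.θ (W.σ g * a * (W.σ g)⁻¹ * a⁻¹) = W.ρ g (W.θ a) - W.θ a := by
  have h1 : W.σ g * a * (W.σ g)⁻¹ ∈ W.N := W.normal_N.conj_mem a ha _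
  refine ⟨W.N.mul_mem h1 (W.N.inv_mem ha), ?_⟩
  rw [W.θ_mul _ h1 _ (W.N.inv_mem ha), W.θ_equi g a ha, W.θ_inv ha, sub_eq_add_neg]

/-- `m([g, a] [h, b])` -/
def Q (g h : Y) (a b : X) : Rˣ :=
  W.m ((W.σ g * a * (W.σ g)⁻¹ * a⁻¹) * (W.σ h * b * (W.σ h)⁻¹ * b⁻¹))

theorem Q_mem {g h : Y} {a b : X} (ha : a ∈ W.N) (hb : b ∈ W.N) :
    (W.σ g * a * (W.σ g)⁻¹ * a⁻¹) * (W.σ h * b * (W.σ h)⁻¹ * b⁻¹) ∈ W.Z ↔
      (W.θ a, W.θ b) ∈ W.K g h := by
  have h1 := W.WQ_θ (g := g) ha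
  have h2 := W.WQ_θ (g := h) hb
  rw [mem_K, ← W.θ_ker _ (W.N.mul_mem h1.1 h2.1), W.θ_mul _ h1.1 _ h2.1, h1.2, h2.2]

/-- Modulo the kernel of `m` the elements of `Z` commute with those of `N`; the product for
`(a a', b b')` is `[g,a] a [g,a'] a⁻¹ [h,b] b [h,b'] b⁻¹`. -/
theorem Q_mul {g h : Y} {a b a' b' : X} (ha : a ∈ W.N) (hb : b ∈ W.N) (ha' : a' ∈ W.N)
    (hb' : b' ∈ W.N) (hK : (W.θ a, W.θ b) ∈ W.K g h) (hK' : (W.θ a', W.θ b') ∈ W.K g h) :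
    W.Q g h (a * a') (b * b') = W.Q g h a b * W.Q g h a' b' *
      W.com (W.σ g * a * (W.σ g)⁻¹ * b⁻¹) (W.σ g * a' * (W.σ g)⁻¹ * a'⁻¹) := by
  have hA := (W.WQ_θ (g := g) ha).1
  have hA' := (W.WQ_θ (g := g) ha').1
  have hB := (W.WQ_θ (g := h) hb).1
  have hB' := (W.WQ_θ (g := h) hb').1
  have hAB := (W.Q_mem (g := g) (h := h) ha hb).2 hK
  have hAB' := (W.Q_mem (g := g) (h := h) ha' hb').2 hK'
  unfold Q
  set A := W.σ g * a * (W.σ g)⁻¹ * a⁻¹ with hAdef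
  set A' := W.σ g * a' * (W.σ g)⁻¹ * a'⁻¹ with hA'def
  set B := W.σ h * b * (W.σ h)⁻¹ * b⁻¹ with hBdef
  set B' := W.σ h * b' * (W.σ h)⁻¹ * b'⁻¹ with hB'def
  have e1 : W.σ g * (a * a') * (W.σ g)⁻¹ * (a * a')⁻¹ = A * (a * A' * a⁻¹) := by
    rw [hAdef, hA'def]; group
  have e2 : W.σ h * (b * b') * (W.σ h)⁻¹ * (b * b')⁻¹ = B * (b * B' * b⁻¹) := by
    rw [hBdef, hB'def]; group
  have z1 := W.comm_mem ha hA'
  have z2 := W.comm_mem hb hB'
  have z3 := W.comm_mem hA' hB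
  have e3 : (A * (a * A' * a⁻¹)) * (B * (b * B' * b⁻¹)) =
      (A * (a * A' * a⁻¹ * A'⁻¹) * A⁻¹) *
      ((A * A' * B) * (b * B' * b⁻¹ * B'⁻¹) * (A * A' * B)⁻¹) *
      (A * (A' * B * A'⁻¹ * B⁻¹) * A⁻¹) * (A * B) * (A' * B') := by group
  have c1 : A * (a * A' * a⁻¹ * A'⁻¹) * A⁻¹ ∈ W.Z := W.normal_Z.conj_mem _ z1 _
  have c2 : (A * A' * B) * (b * B' * b⁻¹ * B'⁻¹) * (A * A' * B)⁻¹ ∈ W.Z :=
    W.normal_Z.conj_mem _ z2 _
  have c3 : A * (A' * B * A'⁻¹ * B⁻¹) * A⁻¹ ∈ W.Z := W.normal_Z.conj_mem _ z3 _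
  rw [e1, e2, e3, W.m_mul _ (W.Z.mul_mem (W.Z.mul_mem (W.Z.mul_mem c1 c2) c3) hAB) _ hAB',
    W.m_mul _ (W.Z.mul_mem (W.Z.mul_mem c1 c2) c3) _ hAB, W.m_mul _ (W.Z.mul_mem c1 c2) _ c3,
    W.m_mul _ c1 _ c2, W.m_conj _ _ z1, W.m_conj _ _ z2, W.m_conj _ _ z3]
  have f1 : W.m (a * A' * a⁻¹ * A'⁻¹) = W.com a A' := rfl
  have f2 : W.m (b * B' * b⁻¹ * B'⁻¹) = W.com b⁻¹ A' := by
    have g1 : W.com b A' * W.com b B' = 1 := by
      rw [← W.com_mul_right hb hA' hB', W.com_of_mem_right hb hAB']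
    have g2 : W.com b A' * W.com b⁻¹ A' = 1 := by
      rw [← W.com_mul_left hb (W.N.inv_mem hb) hA', mul_inv_cancel]
      exact W.com_of_mem_left W.Z.one_mem hA'
    have g3 : W.com b B' = W.com b⁻¹ A' := mul_left_cancel (g1.trans g2.symm)
    exact g3
  have f3 : W.m (A' * B * A'⁻¹ * B⁻¹) = W.com A A' := by
    have g1 : W.com A' A * W.com A' B = 1 := by
      rw [← W.com_mul_right hA' hA hB, W.com_of_mem_right hA' hAB]
    have g2 : W.com A A' = (W.com A' A)⁻¹ := W.com_swap hA' hA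
    have g3 : W.com A' B = (W.com A' A)⁻¹ := eq_inv_of_mul_eq_one_right g1
    rw [g2, ← g3]
    rfl
  have f4 : W.com (W.σ g * a * (W.σ g)⁻¹ * b⁻¹) A' =
      W.com A A' * W.com a A' * W.com b⁻¹ A' := by
    rw [← W.com_mul_left hA ha hA', ← W.com_mul_left (W.N.mul_mem hA ha) (W.N.inv_mem hb) hA']
    congr 2
    rw [hAdef]; group
  rw [f1, f2, f3, f4]
  simp only [mul_comm, mul_left_comm, mul_assoc]

theorem Q_congr {g h : Y} {a b a' b' : X} (ha : a ∈ W.N) (hb : b ∈ W.N) (ha' : a' ∈ W.N)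
    (hb' : b' ∈ W.N) (hK : (W.θ a, W.θ b) ∈ W.K g h) (h1 : W.θ a = W.θ a')
    (h2 : W.θ b = W.θ b') : W.Q g h a b = W.Q g h a' b' := by
  have hc := (W.θ_eq_iff ha ha').1 h1
  have hd := (W.θ_eq_iff hb hb').1 h2
  have hK0 : (W.θ (a⁻¹ * a'), W.θ (b⁻¹ * b')) ∈ W.K g h := by
    rw [(W.θ_ker _ (W.le hc)).2 hc, (W.θ_ker _ (W.le hd)).2 hd, mem_K]
    simp
  have h3 := W.Q_mul ha hb (W.le hc) (W.le hd) hK hK0
  rw [mul_inv_cancel_left, mul_inv_cancel_left] at h3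
  have hcz : ∀ (y : Y) {c : X}, c ∈ W.Z → W.σ y * c * (W.σ y)⁻¹ * c⁻¹ ∈ W.Z ∧
      W.m (W.σ y * c * (W.σ y)⁻¹ * c⁻¹) = 1 := by
    intro y c hc
    have h4 := W.normal_Z.conj_mem c hc (W.σ y)
    refine ⟨W.Z.mul_mem h4 (W.Z.inv_mem hc), ?_⟩
    rw [W.m_mul _ h4 _ (W.Z.inv_mem hc), W.m_conj _ _ hc, W.m_inv hc, mul_inv_cancel]
  have h4 : W.Q g h (a⁻¹ * a') (b⁻¹ * b') = 1 := by
    unfold Q
    rw [W.m_mul _ (hcz g hc).1 _ (hcz h hd).1, (hcz g hc).2, (hcz h hd).2, one_mul]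
  have h5 : W.com (W.σ g * a * (W.σ g)⁻¹ * b⁻¹)
      (W.σ g * (a⁻¹ * a') * (W.σ g)⁻¹ * (a⁻¹ * a')⁻¹) = 1 :=
    W.com_of_mem_right (W.N.mul_mem (W.normal_N.conj_mem a ha _) (W.N.inv_mem hb)) (hcz g hc).1
  rw [h3, h4, h5, mul_one, mul_one]

/-- `z` commutes with `g` and `h` -/
theorem Q_z {g h : Y} {a b : X} (ha : a ∈ W.N) (hb : b ∈ W.N)
    (hK : (W.θ a, W.θ b) ∈ W.K g h) :
    W.Q g h (W.σ W.z * a * (W.σ W.z)⁻¹) (W.σ W.z * b * (W.σ W.z)⁻¹) = W.Q g h a b := by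
  have hc : ∀ (y : Y) (a : X), W.σ y * (W.σ W.z * a * (W.σ W.z)⁻¹) * (W.σ y)⁻¹ *
      (W.σ W.z * a * (W.σ W.z)⁻¹)⁻¹ =
      W.σ W.z * (W.σ y * a * (W.σ y)⁻¹ * a⁻¹) * (W.σ W.z)⁻¹ := by
    intro y a
    have h1 : W.σ y * W.σ W.z = W.σ W.z * W.σ y := by
      rw [← map_mul, ← map_mul, W.z_central]
    have h2 : (W.σ W.z)⁻¹ * (W.σ y)⁻¹ = (W.σ y)⁻¹ * (W.σ W.z)⁻¹ := by
      rw [← mul_inv_rev, ← mul_inv_rev, h1]
    calc W.σ y * (W.σ W.z * a * (W.σ W.z)⁻¹) * (W.σ y)⁻¹ * (W.σ W.z * a * (W.σ W.z)⁻¹)⁻¹ =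
        (W.σ y * W.σ W.z) * a * ((W.σ W.z)⁻¹ * (W.σ y)⁻¹) *
          (W.σ W.z * a⁻¹ * (W.σ W.z)⁻¹) := by group
      _ = _ := by rw [h1, h2]; group
  unfold Q
  rw [hc, hc]
  have h1 : W.σ W.z * (W.σ g * a * (W.σ g)⁻¹ * a⁻¹) * (W.σ W.z)⁻¹ *
      (W.σ W.z * (W.σ h * b * (W.σ h)⁻¹ * b⁻¹) * (W.σ W.z)⁻¹) =
      W.σ W.z * ((W.σ g * a * (W.σ g)⁻¹ * a⁻¹) * (W.σ h * b * (W.σ h)⁻¹ * b⁻¹)) *
        (W.σ W.z)⁻¹ := by group
  rw [h1, W.m_conj _ _ ((W.Q_mem ha hb).2 hK)]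

/-- a preimage in `N` -/
private noncomputable def WQ_sec (v : V) : X := (W.θ_surj v).choose

private theorem WQ_sec_mem (v : V) : W.WQ_sec v ∈ W.N := (W.θ_surj v).choose_spec.1

private theorem WQ_sec_θ (v : V) : W.θ (W.WQ_sec v) = v := (W.θ_surj v).choose_spec.2

/-- The quadratic function on `K(g, h)`.  Choose preimages `a` of `v`.  Every element of norm 1 is a
power of `u0`, the action of a power of `z`. -/
theorem exists_Qf [Finite F] (g h : Y) : ∃ q : Qf W.q0 F (W.K g h) R, ∀ a ∈ W.N, ∀ b ∈ W.N,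
    ∀ hK : (W.θ a, W.θ b) ∈ W.K g h, q.q ⟨_, hK⟩ = W.Q g h a b := by
  have hm := W.WQ_sec_mem
  have hθ := W.WQ_sec_θ
  have hKs : ∀ x : W.K g h, (W.θ (W.WQ_sec x.1.1), W.θ (W.WQ_sec x.1.2)) ∈ W.K g h := by
    intro x
    rw [hθ, hθ]
    exact x.2
  -- the first argument of the form
  have hL : ∀ x : V × V, W.σ g * W.WQ_sec x.1 * (W.σ g)⁻¹ * (W.WQ_sec x.2)⁻¹ ∈ W.N ∧
      W.θ (W.σ g * W.WQ_sec x.1 * (W.σ g)⁻¹ * (W.WQ_sec x.2)⁻¹) = W.ρ g x.1 - x.2 := by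
    intro x
    have h1 := W.normal_N.conj_mem _ (hm x.1) (W.σ g)
    refine ⟨W.N.mul_mem h1 (W.N.inv_mem (hm _)), ?_⟩
    rw [W.θ_mul _ h1 _ (W.N.inv_mem (hm _)), W.θ_equi g _ (hm _), W.θ_inv (hm _), hθ, hθ,
      sub_eq_add_neg]
  have hR : ∀ x : V × V, W.σ g * W.WQ_sec x.1 * (W.σ g)⁻¹ * (W.WQ_sec x.1)⁻¹ ∈ W.N ∧
      W.θ (W.σ g * W.WQ_sec x.1 * (W.σ g)⁻¹ * (W.WQ_sec x.1)⁻¹) = W.ρ g x.1 - x.1 := by
    intro x
    have h1 := W.WQ_θ (g := g) (hm x.1)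
    rw [hθ] at h1
    exact h1
  have hqadd : ∀ x y : W.K g h, W.Q g h (W.WQ_sec (x + y : V × V).1) (W.WQ_sec (x + y : V × V).2) =
      W.Q g h (W.WQ_sec x.1.1) (W.WQ_sec x.1.2) * W.Q g h (W.WQ_sec y.1.1) (W.WQ_sec y.1.2) *
      W.com (W.σ g * W.WQ_sec x.1.1 * (W.σ g)⁻¹ * (W.WQ_sec x.1.2)⁻¹)
        (W.σ g * W.WQ_sec y.1.1 * (W.σ g)⁻¹ * (W.WQ_sec y.1.1)⁻¹) := by
    intro x y
    rw [← W.Q_mul (hm _) (hm _) (hm _) (hm _) (hKs x) (hKs y)]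
    refine W.Q_congr (hm _) (hm _) (W.N.mul_mem (hm _) (hm _)) (W.N.mul_mem (hm _) (hm _))
      (hKs (x + y)) ?_ ?_
    · rw [W.θ_mul _ (hm _) _ (hm _), hθ, hθ, hθ]
      rfl
    · rw [W.θ_mul _ (hm _) _ (hm _), hθ, hθ, hθ]
      rfl
  have hz : ∀ x : W.K g h, W.Q g h (W.WQ_sec (W.u0 • x : V × V).1) (W.WQ_sec (W.u0 • x : V × V).2) =
      W.Q g h (W.WQ_sec x.1.1) (W.WQ_sec x.1.2) := by
    intro x
    rw [← W.Q_z (hm _) (hm _) (hKs x)]
    refine W.Q_congr (hm _) (hm _) (W.normal_N.conj_mem _ (hm _) _)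
      (W.normal_N.conj_mem _ (hm _) _) (hKs (W.u0 • x)) ?_ ?_
    · rw [W.θ_equi _ _ (hm _), hθ, hθ, W.ρ_z]
      rfl
    · rw [W.θ_equi _ _ (hm _), hθ, hθ, W.ρ_z]
      rfl
  refine ⟨{ q := fun x => W.Q g h (W.WQ_sec x.1.1) (W.WQ_sec x.1.2)
            β := fun x y => W.com (W.σ g * W.WQ_sec x.1.1 * (W.σ g)⁻¹ * (W.WQ_sec x.1.2)⁻¹)
              (W.σ g * W.WQ_sec y.1.1 * (W.σ g)⁻¹ * (W.WQ_sec y.1.1)⁻¹)
            q_add := hqadd
            add_left := ?_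
            add_right := ?_
            inv := ?_ }, ?_⟩
  · intro x y w
    rw [← W.com_mul_left (hL x.1).1 (hL y.1).1 (hR w.1).1]
    refine W.com_congr (hL (x + y : W.K g h).1).1 (W.N.mul_mem (hL x.1).1 (hL y.1).1)
      (hR w.1).1 (hR w.1).1 ?_ rfl
    rw [(hL (x + y : W.K g h).1).2, W.θ_mul _ (hL x.1).1 _ (hL y.1).1, (hL x.1).2, (hL y.1).2]
    show W.ρ g (x.1.1 + y.1.1) - (x.1.2 + y.1.2) = _
    rw [map_add]
    abel
  · intro x y w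
    rw [← W.com_mul_right (hL x.1).1 (hR y.1).1 (hR w.1).1]
    refine W.com_congr (hL x.1).1 (hL x.1).1 (hR (y + w : W.K g h).1).1
      (W.N.mul_mem (hR y.1).1 (hR w.1).1) rfl ?_
    rw [(hR (y + w : W.K g h).1).2, W.θ_mul _ (hR y.1).1 _ (hR w.1).1, (hR y.1).2, (hR w.1).2]
    show W.ρ g (y.1.1 + w.1.1) - (y.1.1 + w.1.1) = _
    rw [map_add]
    abel
  · intro c hc x
    have : NeZero (W.q0 + 1) := ⟨Nat.succ_ne_zero _⟩
    obtain ⟨i, -, rfl⟩ := W.prim.eq_pow_of_pow_eq_one hc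
    induction i with
    | zero => rw [pow_zero, one_smul]
    | succ i ih =>
      have h1 : (W.u0 ^ (i + 1) • x : W.K g h) = W.u0 • (W.u0 ^ i • x) := by
        rw [smul_smul, pow_succ']
      rw [h1]
      exact (hz (W.u0 ^ i • x)).trans (ih (by
        rw [← pow_mul, mul_comm, pow_mul, W.prim.pow_eq_one, one_pow]))
  · intro a ha b hb hK
    exact W.Q_congr (hm _) (hm _) ha hb (hKs ⟨_, hK⟩) (hθ _) (hθ _)

/-! ### module WM1 -/

/-- sum over `N` of a function of the image in `V` -/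
private theorem WM1_sum [Fintype W.N] [Fintype V] (φ : V → R) :
    ∑ a : W.N, φ (W.θ (a : X)) = ((Nat.card W.Z : ℕ) : R) * ∑ v, φ v := by
  classical
  have : Finite W.Z := Finite.of_injective (Subgroup.inclusion W.le)
    (Subgroup.inclusion_injective W.le)
  have : Fintype W.Z := Fintype.ofFinite _
  choose s hs hθ using W.θ_surj
  have hθz : ∀ z : W.Z, W.θ (z : X) = 0 := fun z => (W.θ_ker z (W.le z.2)).2 z.2
  have hb : Function.Bijective (fun p : W.Z × V =>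
      (⟨(p.1 : X) * s p.2, W.N.mul_mem (W.le p.1.2) (hs p.2)⟩ : W.N)) := by
    constructor
    · rintro ⟨z, v⟩ ⟨z', v'⟩ h
      have h1 : (z : X) * s v = (z' : X) * s v' := congrArg Subtype.val h
      have h2 := congrArg W.θ h1
      rw [W.θ_mul _ (W.le z.2) _ (hs v), W.θ_mul _ (W.le z'.2) _ (hs v'), hθz, hθz, hθ, hθ,
        zero_add, zero_add] at h2
      subst h2
      have h3 : z = z' := Subtype.ext (mul_right_cancel h1)
      rw [h3]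
    · intro a
      have h1 : (a : X) * (s (W.θ a))⁻¹ ∈ W.Z := by
        have h2 := W.N.mul_mem a.2 (W.N.inv_mem (hs (W.θ a)))
        rw [← W.θ_ker _ h2, W.θ_mul _ a.2 _ (W.N.inv_mem (hs (W.θ a))), W.θ_inv (hs _), hθ,
          add_neg_cancel]
      exact ⟨(⟨_, h1⟩, W.θ a), Subtype.ext (inv_mul_cancel_right _ _)⟩
  rw [← Equiv.sum_comp (Equiv.ofBijective _ hb) (fun a : W.N => φ (W.θ (a : X))),
    Fintype.sum_prod_type]
  have h1 : ∀ (z : W.Z) (v : V), φ (W.θ ((Equiv.ofBijective _ hb (z, v) : W.N) : X)) = φ v := by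
    intro z v
    show φ (W.θ ((z : X) * s v)) = φ v
    rw [W.θ_mul _ (W.le z.2) _ (hs v), hθz, hθ, zero_add]
  simp only [h1]
  rw [Finset.sum_const, Finset.card_univ, nsmul_eq_mul, Nat.card_eq_fintype_card]

/-- the common part of the two sums -/
private theorem WM1_key [Finite X] [Finite V] (g h : Y) (r : W.K g h → Rˣ)
    (f : X → X → X)
    (hf : ∀ a ∈ W.N, ∀ b ∈ W.N, f a b ∈ W.Z ↔ (W.θ a, W.θ b) ∈ W.K g h)
    (hm : ∀ a ∈ W.N, ∀ b ∈ W.N, ∀ hK : (W.θ a, W.θ b) ∈ W.K g h,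
      W.m (f a b) = r ⟨_, hK⟩) [Fintype W.N] :
    ((Nat.card W.Z : ℕ) : R) * (Ring.inverse ((Nat.card W.Z : ℕ) : R) •
      Ring.inverse ((Nat.card W.Z : ℕ) : R) •
        ∑ a : W.N, ∑ b : W.N, dl R (f a b) * W.e).coeff 1 = ∑ᶠ x : W.K g h, ((r x : Rˣ) : R) := by
  classical
  have : Fintype V := Fintype.ofFinite V
  have : Fintype (W.K g h) := Fintype.ofFinite _
  obtain ⟨Φ, hΦ⟩ : ∃ Φ : V → V → R, Φ = fun v w =>
      if hK : (v, w) ∈ W.K g h then ((r ⟨_, hK⟩ : Rˣ) : R) else 0 := ⟨_, rfl⟩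
  have hZ := W.unit_Z
  have h1 : ∀ a b : W.N, (dl R (f a b) * W.e).coeff 1 =
      Ring.inverse ((Nat.card W.Z : ℕ) : R) * Φ (W.θ (a : X)) (W.θ (b : X)) := by
    intro a b
    by_cases hK : (W.θ (a : X), W.θ (b : X)) ∈ W.K g h
    · have h2 := (hf a a.2 b b.2).2 hK
      rw [W.coeff_dl_e (by simpa using W.Z.inv_mem h2), inv_one, one_mul, hm a a.2 b b.2 hK, hΦ]
      simp only
      rw [dif_pos hK]
    · have h2 : f a b ∉ W.Z := fun hc => hK ((hf a a.2 b b.2).1 hc)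
      have h3 : (f a b)⁻¹ * 1 ∉ W.Z := by
        rw [mul_one]
        exact fun hc => h2 (by simpa using W.Z.inv_mem hc)
      rw [W.coeff_dl_e_zero h3, hΦ]
      simp only
      rw [dif_neg hK, mul_zero]
  have h2 : (∑ a : W.N, ∑ b : W.N, dl R (f a b) * W.e).coeff 1 =
      ∑ a : W.N, ∑ b : W.N, Ring.inverse ((Nat.card W.Z : ℕ) : R) *
        Φ (W.θ (a : X)) (W.θ (b : X)) := by
    rw [coeff_sum, Finset.sum_apply']
    refine Finset.sum_congr rfl fun a _ => ?_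
    rw [coeff_sum, Finset.sum_apply']
    exact Finset.sum_congr rfl fun b _ => h1 a b
  have h3 : ∑ a : W.N, ∑ b : W.N, Φ (W.θ (a : X)) (W.θ (b : X)) =
      ((Nat.card W.Z : ℕ) : R) * (((Nat.card W.Z : ℕ) : R) * ∑ v, ∑ w, Φ v w) := by
    have h4 : ∀ a : W.N, ∑ b : W.N, Φ (W.θ (a : X)) (W.θ (b : X)) =
        ((Nat.card W.Z : ℕ) : R) * ∑ w, Φ (W.θ (a : X)) w := fun a => W.WM1_sum _
    rw [Finset.sum_congr rfl fun a _ => h4 a,
      W.WM1_sum (fun v => ((Nat.card W.Z : ℕ) : R) * ∑ w, Φ v w), ← Finset.mul_sum]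
  have h4 : ∑ v, ∑ w, Φ v w = ∑ x : W.K g h, ((r x : Rˣ) : R) := by
    rw [← Fintype.sum_prod_type (fun p : V × V => Φ p.1 p.2)]
    have h5 : ∑ p : V × V, Φ p.1 p.2 =
        ∑ p ∈ Finset.univ.filter (fun p : V × V => p ∈ W.K g h), Φ p.1 p.2 := by
      refine (Finset.sum_filter_of_ne fun p _ hp => ?_).symm
      by_contra hc
      apply hp
      rw [hΦ]
      simp only
      rw [dif_neg hc]
    rw [h5, Finset.sum_subtype (p := fun p => p ∈ W.K g h) _ (fun p => by simp)]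
    refine Finset.sum_congr rfl fun x _ => ?_
    rw [hΦ]
    simp only
    rw [dif_pos x.2]
  rw [finsum_eq_sum_of_fintype, coeff_smul, Finsupp.smul_apply, coeff_smul, Finsupp.smul_apply, h2,
    smul_eq_mul, smul_eq_mul]
  simp only [← Finset.mul_sum]
  rw [h3, h4, ← mul_assoc, Ring.mul_inverse_cancel _ hZ, one_mul, ← mul_assoc,
    ← mul_assoc (Ring.inverse ((Nat.card W.Z : ℕ) : R) * Ring.inverse ((Nat.card W.Z : ℕ) : R)),
    mul_assoc (Ring.inverse ((Nat.card W.Z : ℕ) : R)) (Ring.inverse ((Nat.card W.Z : ℕ) : R)),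
    Ring.inverse_mul_cancel _ hZ, mul_one, ← mul_assoc, Ring.inverse_mul_cancel _ hZ, one_mul]

private theorem WM1_e [Finite X] (x y : X) :
    dl R x * W.e * (dl R y * W.e) = dl R (x * y) * W.e := by
  calc dl R x * W.e * (dl R y * W.e) = dl R x * (W.e * dl R y) * W.e := by
        simp only [mul_assoc]
    _ = dl R x * (dl R y * W.e) * W.e := by rw [← W.e_central (dl R y)]
    _ = dl R x * dl R y * (W.e * W.e) := by simp only [mul_assoc]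
    _ = _ := by rw [W.e_idem, dl_mul]

/-- `τ(A_g A_h) = ∑ q` over `K(g, h)`: the term of `(a, b) ∈ N × N` is `m([g,a][h,b])` if the product
is in `Z`, and `0` otherwise; every `(v, w)` is the image of `|Z|^2` pairs. -/
theorem tau_A_mul_A [Finite X] [Finite V] [Finite F] (g h : Y) (q : Qf W.q0 F (W.K g h) R)
    (hq : ∀ a ∈ W.N, ∀ b ∈ W.N, ∀ hK : (W.θ a, W.θ b) ∈ W.K g h,
      q.q ⟨_, hK⟩ = W.Q g h a b) :
    ((Nat.card W.Z : ℕ) : R) * (W.A g * W.A h).coeff 1 = ∑ᶠ x : W.K g h, ((q.q x : Rˣ) : R) := by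
  classical
  have : Fintype W.N := Fintype.ofFinite _
  rw [← W.WM1_key g h q.q (fun a b => (W.σ g * a * (W.σ g)⁻¹ * a⁻¹) *
    (W.σ h * b * (W.σ h)⁻¹ * b⁻¹)) (fun a ha b hb => W.Q_mem ha hb)
    (fun a ha b hb hK => (hq a ha b hb hK).symm)]
  congr 2
  unfold A
  rw [finsum_eq_sum_of_fintype, finsum_eq_sum_of_fintype, smul_mul_assoc, mul_smul_comm,
    Finset.sum_mul_sum]
  refine congrArg (fun t : MonoidAlgebra R X => (Ring.inverse ((Nat.card W.Z : ℕ) : R) •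
    Ring.inverse ((Nat.card W.Z : ℕ) : R) • t).coeff) ?_
  refine Finset.sum_congr rfl fun a _ => Finset.sum_congr rfl fun b _ => ?_
  exact W.WM1_e _ _

/-- the same for the inverses, by `A_inv` -/
theorem tau_A_inv_mul_A_inv [Finite X] [Finite V] [Finite F] (g h : Y)
    (q : Qf W.q0 F (W.K g h) R)
    (hq : ∀ a ∈ W.N, ∀ b ∈ W.N, ∀ hK : (W.θ a, W.θ b) ∈ W.K g h,
      q.q ⟨_, hK⟩ = W.Q g h a b) :
    ((Nat.card W.Z : ℕ) : R) * (W.A h⁻¹ * W.A g⁻¹).coeff 1 =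
      ∑ᶠ x : W.K g h, (((q.q x)⁻¹ : Rˣ) : R) := by
  classical
  have : Fintype W.N := Fintype.ofFinite _
  rw [← W.WM1_key g h (fun x => (q.q x)⁻¹) (fun a b => ((W.σ g * a * (W.σ g)⁻¹ * a⁻¹) *
    (W.σ h * b * (W.σ h)⁻¹ * b⁻¹))⁻¹) (fun a ha b hb => by
      rw [W.Z.inv_mem_iff]
      exact W.Q_mem ha hb)
    (fun a ha b hb hK => by
      rw [W.m_inv ((W.Q_mem ha hb).2 hK), hq a ha b hb hK]
      rfl)]
  congr 2
  rw [A_inv, A_inv, finsum_eq_sum_of_fintype, finsum_eq_sum_of_fintype, smul_mul_assoc,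
    mul_smul_comm, Finset.sum_mul_sum, Finset.sum_comm]
  refine congrArg (fun t : MonoidAlgebra R X => (Ring.inverse ((Nat.card W.Z : ℕ) : R) •
    Ring.inverse ((Nat.card W.Z : ℕ) : R) • t).coeff) ?_
  refine Finset.sum_congr rfl fun a _ => Finset.sum_congr rfl fun b _ => ?_
  rw [W.WM1_e, mul_inv_rev (W.σ g * (a : X) * (W.σ g)⁻¹ * (a : X)⁻¹)]

/-! ### module WM2 -/

/-- the unit `-q0` -/
noncomputable def s : Rˣ := -W.unit_q0.unit

theorem s_val : ((W.s : Rˣ) : R) = -(W.q0 : R) := by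
  unfold s
  rw [Units.val_neg, IsUnit.unit_spec]

private theorem WM2_pow (m : ℕ) : ((W.s ^ (2 * m) : Rˣ) : R) = ((W.q0 ^ (2 * m) : ℕ) : R) := by
  rw [Units.val_pow_eq_pow_val, s_val, pow_mul, neg_sq, ← pow_mul]
  push_cast
  rfl

theorem card_V_s [Finite F] [Finite V] :
    ((Nat.card V : ℕ) : R) = ((W.s ^ (2 * Module.finrank F V) : Rˣ) : R) := by
  rw [WM2_pow, pow_mul, ← W.card_F, ← Module.natCard_eq_pow_finrank]

theorem card_fx_s [Finite F] [Finite V] (y : Y) :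
    ((Nat.card (W.fx y) : ℕ) : R) = ((W.s ^ (2 * W.k y) : Rˣ) : R) := by
  rw [WM2_pow, pow_mul, ← W.card_F, k, ← Module.natCard_eq_pow_finrank]

/-- products of elements supported on a subgroup -/
private theorem WM2_supp [Finite X] (N : Subgroup X) {x y : MonoidAlgebra R X}
    (hx : ∀ g, g ∉ N → x.coeff g = 0) (hy : ∀ g, g ∉ N → y.coeff g = 0) :
    ∀ g, g ∉ N → (x * y).coeff g = 0 := by
  intro g hg
  have : Fintype X := Fintype.ofFinite X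
  rw [coeff_mul_eq]
  refine Finset.sum_eq_zero fun a _ => ?_
  by_cases ha : a ∈ N
  · rw [hy (a⁻¹ * g) fun hc => hg (by simpa using N.mul_mem ha hc), mul_zero]
  · rw [hx a ha, zero_mul]

private theorem WM2_k_inv [Finite X] (y : Y) : W.k y⁻¹ = W.k y := by
  unfold k
  rw [W.fx_inv]

/-- a unit can be cancelled -/
private theorem WM2_cancel {u : Rˣ} {x y : MonoidAlgebra R X}
    (h : ((u : Rˣ) : R) • x = ((u : Rˣ) : R) • y) : x = y := by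
  have h1 := congrArg (fun t => ((u⁻¹ : Rˣ) : R) • t) h
  simpa only [smul_smul, Units.inv_mul, one_smul] using h1

/-- `A_g A_h A_((gh)⁻¹)` commutes with `N`, so `A_g A_h` is a multiple of `A_(gh)`; comparison of
`τ`: the factor is `s^(j - 2 k(gh))` if `τ(A_g A_h) = s^j`. -/
theorem A_mul_A [Finite X] [Finite F] [Finite V] [IsDomain R] (g h : Y) {j : ℕ}
    (hj : ((Nat.card W.Z : ℕ) : R) * (W.A g * W.A h).coeff 1 = ((W.s ^ j : Rˣ) : R)) :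
    ((W.s ^ (2 * W.k (g * h)) : Rˣ) : R) • (W.A g * W.A h) =
      ((W.s ^ j : Rˣ) : R) • W.A (g * h) := by
  obtain ⟨B, hB⟩ : ∃ B, B = W.A g * W.A h * W.A (g * h)⁻¹ := ⟨_, rfl⟩
  -- `B` is a multiple of `e`
  have h1 : B * W.e = B := by rw [hB, mul_assoc, W.A_mul_e]
  have h2 : ∀ x, x ∉ W.N → B.coeff x = 0 := by
    rw [hB]
    exact WM2_supp W.N (WM2_supp W.N (fun x hx => W.coeff_A_zero g hx)
      fun x hx => W.coeff_A_zero h hx) fun x hx => W.coeff_A_zero _ hx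
  have h3 : ∀ n ∈ W.N, dl R n * B = B * dl R n := by
    intro n hn
    have e1 := W.dl_mul_A (g * h)⁻¹ hn
    have hn1 : W.σ (g * h)⁻¹ * n * (W.σ (g * h)⁻¹)⁻¹ ∈ W.N :=
      W.normal_N.conj_mem n hn _
    have e2 := W.dl_mul_A h hn1
    have hn2 : W.σ h * (W.σ (g * h)⁻¹ * n * (W.σ (g * h)⁻¹)⁻¹) * (W.σ h)⁻¹ ∈ W.N :=
      W.normal_N.conj_mem _ hn1 _
    have e3 := W.dl_mul_A g hn2
    have e4 : W.σ g * (W.σ h * (W.σ (g * h)⁻¹ * n * (W.σ (g * h)⁻¹)⁻¹) * (W.σ h)⁻¹) *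
        (W.σ g)⁻¹ = n := by
      rw [map_inv, map_mul]
      group
    rw [e4] at e3
    rw [hB]
    calc dl R n * (W.A g * W.A h * W.A (g * h)⁻¹) =
        dl R n * W.A g * (W.A h * W.A (g * h)⁻¹) := by simp only [mul_assoc]
      _ = W.A g * (dl R (W.σ h * (W.σ (g * h)⁻¹ * n * (W.σ (g * h)⁻¹)⁻¹) * (W.σ h)⁻¹) *
          W.A h) * W.A (g * h)⁻¹ := by rw [e3]; simp only [mul_assoc]
      _ = W.A g * W.A h * (dl R (W.σ (g * h)⁻¹ * n * (W.σ (g * h)⁻¹)⁻¹) *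
          W.A (g * h)⁻¹) := by rw [e2]; simp only [mul_assoc]
      _ = W.A g * W.A h * W.A (g * h)⁻¹ * dl R n := by rw [e1]; simp only [mul_assoc]
  have h4 := W.eq_smul_e h1 h2 h3
  obtain ⟨β, hβ⟩ : ∃ β : R, β = ((Nat.card W.Z : ℕ) : R) * B.coeff 1 := ⟨_, rfl⟩
  rw [← hβ] at h4
  -- multiply by `A (g h)`
  have h5 := W.A_mul_A_inv (g * h)⁻¹
  rw [inv_inv, W.fx_inv, W.card_V_s, W.card_fx_s, ← Units.val_mul] at h5
  have h6 : ((W.s ^ (2 * Module.finrank F V) * W.s ^ (2 * W.k (g * h)) : Rˣ) : R) •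
      (W.A g * W.A h) = β • W.A (g * h) := by
    have e1 : B * W.A (g * h) = β • W.A (g * h) := by
      rw [h4, smul_mul_assoc, ← W.e_central, W.A_mul_e]
    rw [← e1, hB, mul_assoc, h5, mul_smul_comm, mul_assoc, W.A_mul_e]
  -- the factor
  have h7 : β = ((W.s ^ (2 * Module.finrank F V) : Rˣ) : R) * ((W.s ^ j : Rˣ) : R) := by
    have e1 := congrArg (fun t : MonoidAlgebra R X => ((Nat.card W.Z : ℕ) : R) * t.coeff 1) h6
    simp only [coeff_smul, Finsupp.smul_apply, smul_eq_mul] at e1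
    rw [mul_left_comm, hj, mul_left_comm _ β, W.coeff_A_one, W.card_fx_s, Units.val_mul,
      mul_right_comm] at e1
    exact ((Units.mul_left_inj _).1 e1).symm
  rw [h7, Units.val_mul, ← smul_smul, ← smul_smul] at h6
  exact WM2_cancel h6

/-- `gauss` for the quadratic function of `exists_Qf`; `A_mul_A` for `(g, h)` and for `(h⁻¹, g⁻¹)`;
`A_g A_h A_(h⁻¹) A_(g⁻¹)` computed in two ways gives `s^(2j) = s^(2(n + k(g) + k(h) + k(gh)))`, and
`s = -q0`, `q0 > 1`, has infinite order in characteristic 0. -/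
theorem sum_eq [Finite X] [Finite F] [Finite V] [IsDomain R] [CharZero R] (g h : Y)
    (q : Qf W.q0 F (W.K g h) R) (hq : ∀ a ∈ W.N, ∀ b ∈ W.N,
      ∀ hK : (W.θ a, W.θ b) ∈ W.K g h, q.q ⟨_, hK⟩ = W.Q g h a b) :
    ∑ᶠ x : W.K g h, ((q.q x : Rˣ) : R) =
      ((W.s ^ (Module.finrank F V + W.k g + W.k h + W.k (g * h)) : Rˣ) : R) := by
  have : Finite (W.K g h) := Subtype.finite
  obtain ⟨j, hj1, hj2⟩ := gauss W.card_F q
  have hsj : ((W.s ^ j : Rˣ) : R) = (-(W.q0 : R)) ^ j := by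
    rw [Units.val_pow_eq_pow_val, s_val]
  rw [← hsj] at hj1 hj2
  have h1 := W.A_mul_A g h (j := j) ((W.tau_A_mul_A g h q hq).trans hj1)
  have h2 := W.A_mul_A h⁻¹ g⁻¹ (j := j) ((W.tau_A_inv_mul_A_inv g h q hq).trans hj2)
  rw [← mul_inv_rev, WM2_k_inv] at h2
  have h3 : ∀ y, W.A y * W.A y⁻¹ =
      ((W.s ^ (2 * Module.finrank F V + 2 * W.k y) : Rˣ) : R) • W.e := by
    intro y
    rw [W.A_mul_A_inv, W.card_V_s, W.card_fx_s, ← Units.val_mul, ← pow_add]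
  have h4 : (((W.s ^ (2 * W.k (g * h)) * W.s ^ (2 * W.k (g * h)) : Rˣ) *
      (W.s ^ (2 * Module.finrank F V + 2 * W.k h) *
        W.s ^ (2 * Module.finrank F V + 2 * W.k g)) : Rˣ) : R) • W.e =
      (((W.s ^ j * W.s ^ j) * W.s ^ (2 * Module.finrank F V + 2 * W.k (g * h)) : Rˣ) : R) •
        W.e := by
    have e1 : W.A g * W.A h * (W.A h⁻¹ * W.A g⁻¹) =
        ((W.s ^ (2 * Module.finrank F V + 2 * W.k h) *
          W.s ^ (2 * Module.finrank F V + 2 * W.k g) : Rˣ) : R) • W.e := by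
      calc W.A g * W.A h * (W.A h⁻¹ * W.A g⁻¹) = W.A g * (W.A h * W.A h⁻¹) * W.A g⁻¹ := by
            simp only [mul_assoc]
        _ = ((W.s ^ (2 * Module.finrank F V + 2 * W.k h) : Rˣ) : R) •
            (W.A g * W.A g⁻¹) := by
          rw [h3, mul_smul_comm, W.A_mul_e, smul_mul_assoc]
        _ = _ := by rw [h3, smul_smul, ← Units.val_mul]
    have e2 : (((W.s ^ (2 * W.k (g * h)) : Rˣ) : R) • (W.A g * W.A h)) *
        (((W.s ^ (2 * W.k (g * h)) : Rˣ) : R) • (W.A h⁻¹ * W.A g⁻¹)) =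
        (((W.s ^ j : Rˣ) : R) • W.A (g * h)) * (((W.s ^ j : Rˣ) : R) • W.A (g * h)⁻¹) := by
      rw [h1, h2]
    rw [smul_mul_smul_comm, smul_mul_smul_comm, e1, h3, smul_smul, smul_smul, ← Units.val_mul,
      ← Units.val_mul, ← Units.val_mul, ← Units.val_mul] at e2
    exact e2
  -- compare the exponents
  have h5 : (W.s ^ (2 * W.k (g * h)) * W.s ^ (2 * W.k (g * h)) : Rˣ) *
      (W.s ^ (2 * Module.finrank F V + 2 * W.k h) *
        W.s ^ (2 * Module.finrank F V + 2 * W.k g)) =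
      (W.s ^ j * W.s ^ j) * W.s ^ (2 * Module.finrank F V + 2 * W.k (g * h)) := by
    obtain ⟨x, hx⟩ : ∃ x, W.e.coeff x ≠ 0 := by
      by_contra hcon
      push Not at hcon
      apply W.e_ne_zero
      ext x
      rw [hcon x]
      rfl
    have e1 := congrArg (fun t : MonoidAlgebra R X => t.coeff x) h4
    simp only [coeff_smul, Finsupp.smul_apply, smul_eq_mul] at e1
    exact Units.ext (mul_right_cancel₀ hx e1)
  have hq0 : 2 ≤ W.q0 := two_le_of_card W.card_F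
  have h6 : ∀ a b : ℕ, W.s ^ a = W.s ^ b → a = b := by
    intro a b hab
    have e1 : (-(W.q0 : R)) ^ a = (-(W.q0 : R)) ^ b := by
      rw [← s_val, ← Units.val_pow_eq_pow_val, ← Units.val_pow_eq_pow_val, hab]
    have e2 : (-(W.q0 : ℤ)) ^ a = (-(W.q0 : ℤ)) ^ b := by
      have : (((-(W.q0 : ℤ)) ^ a : ℤ) : R) = (((-(W.q0 : ℤ)) ^ b : ℤ) : R) := by
        push_cast
        exact e1
      exact_mod_cast this
    have e3 := congrArg Int.natAbs e2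
    rw [Int.natAbs_pow, Int.natAbs_pow, Int.natAbs_neg, Int.natAbs_natCast] at e3
    exact Nat.pow_right_injective hq0 e3
  have h7 := h6 _ _ (by simpa only [← pow_add] using h5)
  have h8 : j = Module.finrank F V + W.k g + W.k h + W.k (g * h) := by omega
  rw [hj1, h8]

/-- `w_y = s^(-(n + k(y))) A_y` -/
noncomputable def w (y : Y) : MonoidAlgebra R X :=
  (((W.s⁻¹) ^ (Module.finrank F V + W.k y) : Rˣ) : R) • W.A y

theorem w_mul [Finite X] [Finite F] [Finite V] [IsDomain R] [CharZero R] (g h : Y) :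
    W.w g * W.w h = W.w (g * h) := by
  obtain ⟨q, hq⟩ := W.exists_Qf g h
  have h1 := W.A_mul_A g h ((W.tau_A_mul_A g h q hq).trans (W.sum_eq g h q hq))
  unfold w
  refine WM2_cancel (u := W.s ^ (2 * W.k (g * h))) ?_
  rw [smul_mul_smul_comm, smul_smul, mul_comm _ (_ * _), ← smul_smul, h1, smul_smul, smul_smul]
  congr 1
  rw [← Units.val_mul, ← Units.val_mul, ← Units.val_mul]
  congr 1
  rw [inv_pow, inv_pow, inv_pow]
  have e1 : W.s ^ (Module.finrank F V + W.k g + W.k h + W.k (g * h)) *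
      W.s ^ (Module.finrank F V + W.k (g * h)) =
      W.s ^ (2 * W.k (g * h)) * (W.s ^ (Module.finrank F V + W.k g) *
        W.s ^ (Module.finrank F V + W.k h)) := by
    rw [← pow_add, ← pow_add, ← pow_add]
    congr 1
    ring
  rw [← mul_inv, eq_mul_inv_iff_mul_eq, mul_assoc, e1, mul_left_comm, inv_mul_cancel, mul_one]

theorem w_of_mem [Finite X] [Finite F] [Finite V] {y : Y} (h : W.σ y ∈ W.N) :
    W.w y = W.e := by
  have h1 : W.fx y = ⊤ := by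
    rw [Submodule.eq_top_iff']
    intro v
    rw [W.mem_fx, W.ρ_of_mem h]
    rfl
  have h2 : W.k y = Module.finrank F V := by
    unfold k
    rw [h1, finrank_top]
  unfold w
  rw [W.A_of_mem h, W.card_V_s, smul_smul, h2, ← two_mul, ← Units.val_mul, inv_pow,
    inv_mul_cancel, Units.val_one, one_smul]

theorem w_one [Finite X] [Finite F] [Finite V] : W.w 1 = W.e :=
  W.w_of_mem (by rw [map_one]; exact W.N.one_mem)

theorem w_mul_e [Finite X] (y : Y) : W.w y * W.e = W.w y := by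
  unfold w
  rw [smul_mul_assoc, W.A_mul_e]

theorem coeff_w_zero [Finite X] (y : Y) {g : X} (hg : g ∉ W.N) : (W.w y).coeff g = 0 := by
  unfold w
  rw [coeff_smul, Finsupp.smul_apply, W.coeff_A_zero y hg, smul_zero]

theorem dl_mul_w [Finite X] (y : Y) {n : X} (hn : n ∈ W.N) :
    dl R (W.σ y * n * (W.σ y)⁻¹) * W.w y = W.w y * dl R n := by
  unfold w
  rw [mul_smul_comm, W.dl_mul_A y hn, smul_mul_assoc]

/-- `k(x y x⁻¹) = k(y)` -/
theorem cj_w [Finite X] (x y : Y) : cj (W.σ x) (W.w y) = W.w (x * y * x⁻¹) := by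
  have hinv : ∀ (a b : Y), a * b = 1 → W.ρ a ∘ₗ W.ρ b = LinearMap.id := by
    intro a b hab
    have h := map_mul W.ρ a b
    rw [hab, map_one] at h
    exact h.symm
  obtain ⟨E, hE⟩ : ∃ E : V ≃ₗ[F] V, ∀ v, E v = W.ρ x v :=
    ⟨LinearEquiv.ofLinearMap (W.ρ x) (W.ρ x⁻¹) (hinv _ _ (mul_inv_cancel x))
      (hinv _ _ (inv_mul_cancel x)), fun _ => rfl⟩
  have hρ : ∀ (a b : Y) (v : V), W.ρ (a * b) v = W.ρ a (W.ρ b v) := by
    intro a b v
    rw [map_mul]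
    rfl
  have h1 : (W.fx y).map (E : V →ₗ[F] V) = W.fx (x * y * x⁻¹) := by
    ext v
    rw [Submodule.mem_map]
    constructor
    · rintro ⟨v', hv', rfl⟩
      rw [W.mem_fx] at hv' ⊢
      show W.ρ (x * y * x⁻¹) (E v') = E v'
      rw [hE, ← hρ, inv_mul_cancel_right, hρ, hv']
    · intro hv
      rw [W.mem_fx] at hv
      refine ⟨W.ρ x⁻¹ v, ?_, ?_⟩
      · rw [W.mem_fx, ← hρ]
        conv_rhs => rw [← hv, ← hρ]
        congr 2
        group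
      · show E (W.ρ x⁻¹ v) = v
        rw [hE, ← hρ, mul_inv_cancel, map_one]
        rfl
  have h2 : W.k (x * y * x⁻¹) = W.k y := by
    unfold k
    rw [← h1]
    exact LinearEquiv.finrank_map_eq E (W.fx y)
  unfold w
  rw [cj_smul, W.cj_A, h2]

end WD

end Pool.Agent.URing
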