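import Pool.Agent.URing.WBase
import Pool.Agent.URing.LinExt

/-!
# Polarisations (modules WP1, WP2)
-/

set_option autoImplicit false

namespace Pool.Agent.URing

open MonoidAlgebra Pool.Agent.UBlocks

namespace WD

variable {R F V Y X : Type*} [CommRing R] [Field F] [AddCommGroup V] [Module F V]
    [Group Y] [Group X] (W : WD R F V Y X)

/-- the elements of `N` orthogonal to a subset of `N` -/
private def orth (T : Set X) (hT : T ⊆ W.N) : Subgroup X where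
  carrier := {x | x ∈ W.N ∧ ∀ a ∈ T, W.com a x = 1}
  mul_mem' {x y} hx hy := ⟨W.N.mul_mem hx.1 hy.1, fun a ha => by
    rw [W.com_mul_right (hT ha) hx.1 hy.1, hx.2 a ha, hy.2 a ha, one_mul]⟩
  one_mem' := ⟨W.N.one_mem, fun a ha => W.com_of_mem_right (hT ha) W.Z.one_mem⟩
  inv_mem' {x} hx := ⟨W.N.inv_mem hx.1, fun a ha => by
    have h := W.com_mul_right (hT ha) hx.1 (W.N.inv_mem hx.1)
    rw [mul_inv_cancel, W.com_of_mem_right (hT ha) W.Z.one_mem, hx.2 a ha, one_mul] at h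
    exact h.symm⟩

/-- A maximal subgroup among those between `Z` and `N` on which the form is trivial.  If `n ∈ N` has
`com n x = 1` for all `x ∈ P` then the form is trivial on the subgroup generated by `P` and `n`. -/
theorem exists_max [Finite X] : ∃ P : Subgroup X, W.Z ≤ P ∧ P ≤ W.N ∧
    (∀ a ∈ P, ∀ b ∈ P, W.com a b = 1) ∧ ∀ n ∈ W.N, (∀ a ∈ P, W.com a n = 1) → n ∈ P := by
  let S : Set (Subgroup X) := {P | W.Z ≤ P ∧ P ≤ W.N ∧ ∀ a ∈ P, ∀ b ∈ P, W.com a b = 1}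
  have hS : S.Nonempty := ⟨W.Z, le_refl _, W.le, fun a ha b hb =>
    W.com_of_mem_left ha (W.le hb)⟩
  obtain ⟨P, hP⟩ := S.toFinite.exists_maximal hS
  refine ⟨P, hP.1.1, hP.1.2.1, hP.1.2.2, fun n hn h => ?_⟩
  have hle : P ⊔ Subgroup.zpowers n ≤ W.N :=
    sup_le hP.1.2.1 (by rwa [Subgroup.zpowers_le])
  have h1 : ∀ a ∈ P ⊔ Subgroup.zpowers n, ∀ b ∈ P ⊔ Subgroup.zpowers n, W.com a b = 1 := by
    -- elements of `P ∪ {n}` are orthogonal to `P` and to `n`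
    have h2 : ∀ a ∈ (P : Set X) ∪ {n}, ∀ b ∈ (P : Set X) ∪ {n}, W.com a b = 1 := by
      intro a ha b hb
      rcases ha with ha | ha <;> rcases hb with hb | hb
      · exact hP.1.2.2 a ha b hb
      · rw [Set.mem_singleton_iff.mp hb]
        exact h a ha
      · rw [Set.mem_singleton_iff.mp ha, W.com_swap (hP.1.2.1 hb) hn, h b hb, inv_one]
      · rw [Set.mem_singleton_iff.mp ha, Set.mem_singleton_iff.mp hb, W.com_self]
    have hT : (P : Set X) ∪ {n} ⊆ W.N := by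
      rintro x (hx | hx)
      · exact hP.1.2.1 hx
      · rw [Set.mem_singleton_iff.mp hx]
        exact hn
    have h3 : P ⊔ Subgroup.zpowers n ≤ W.orth _ hT := by
      refine sup_le (fun b hb => ⟨hP.1.2.1 hb, fun a ha => h2 a ha b (Or.inl hb)⟩) ?_
      rw [Subgroup.zpowers_le]
      exact ⟨hn, fun a ha => h2 a ha n (Or.inr rfl)⟩
    have h4 : P ⊔ Subgroup.zpowers n ≤ W.orth ((P ⊔ Subgroup.zpowers n : Subgroup X) : Set X)
        hle := by
      have h5 : ∀ b ∈ (P : Set X) ∪ {n}, ∀ a ∈ P ⊔ Subgroup.zpowers n, W.com a b = 1 := by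
        intro b hb a ha
        rw [W.com_swap (hT hb) (hle ha), (h3 ha).2 b hb, inv_one]
      refine sup_le (fun b hb => ⟨hP.1.2.1 hb, fun a ha => h5 b (Or.inl hb) a ha⟩) ?_
      rw [Subgroup.zpowers_le]
      exact ⟨hn, fun a ha => h5 n (Or.inr rfl) a ha⟩
    intro a ha b hb
    exact (h4 hb).2 a ha
  have h2 : P ⊔ Subgroup.zpowers n ∈ S := ⟨hP.1.1.trans le_sup_left, hle, h1⟩
  exact hP.2 h2 le_sup_left (Subgroup.mem_sup_right (Subgroup.mem_zpowers n))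

/-- `exists_ext` with `b = 1` (`e ≠ 0`) -/
theorem exists_pol_char [Finite X] [IsDomain R]
    (hζ : ∃ ζ : R, IsPrimitiveRoot ζ (Nat.card W.N)) {P : Subgroup X} (hZ : W.Z ≤ P)
    (hP : P ≤ W.N) (hcom : ∀ a ∈ P, ∀ b ∈ P, W.com a b = 1) :
    ∃ ν : P →* Rˣ, ∀ a (h : a ∈ W.Z), ν ⟨a, hZ h⟩ = W.m a := by
  obtain ⟨d, hd⟩ := Subgroup.card_dvd_of_le hP
  obtain ⟨ζ, hζ⟩ := hζ
  have hu : IsUnit ((Nat.card P : ℕ) : R) := by
    have h' := W.unit_N
    rw [hd, Nat.cast_mul] at h'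
    exact isUnit_of_mul_isUnit_left h'
  obtain ⟨ν, h1, -⟩ := exists_ext W.Z P hZ
    ⟨ζ ^ d, hζ.pow Nat.card_pos (by rw [hd, mul_comm])⟩ hu W.μ
    (fun g hg h hh => ⟨W.comm_mem (hP hg) (hP hh), hcom g hg h hh⟩) (b := 1)
    (by rw [one_mul]; exact W.e_ne_zero)
  exact ⟨ν, fun a h => h1 a h⟩

/-- `ε n ε = ν(n) ε` for `n ∈ P`; for `n ∉ P` choose `x ∈ P` with `com x n ≠ 1`:
`ν(x) ε n ε = ε x n ε = com(x, n) ε n x ε = com(x, n) ν(x) ε n ε`. -/
theorem pol_corner [Finite X] [IsDomain R] {P : Subgroup X} (hZ : W.Z ≤ P) (hP : P ≤ W.N)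
    (hmax : ∀ n ∈ W.N, (∀ a ∈ P, W.com a n = 1) → n ∈ P) (ν : P →* Rˣ)
    (hν : ∀ a (h : a ∈ W.Z), ν ⟨a, hZ h⟩ = W.m a) {n : X} (hn : n ∈ W.N) :
    ∃ c : R, idp P ν * dl R n * idp P ν = c • idp P ν := by
  have hu : IsUnit ((Nat.card P : ℕ) : R) := by
    obtain ⟨d, hd⟩ := Subgroup.card_dvd_of_le hP
    have h' := W.unit_N
    rw [hd, Nat.cast_mul] at h'
    exact isUnit_of_mul_isUnit_left h'
  by_cases hnP : n ∈ P
  · refine ⟨((ν ⟨n, hnP⟩ : Rˣ) : R), ?_⟩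
    have h1 := idp_mul_dl P ν ⟨n, hnP⟩
    rw [show idp P ν * dl R n = _ from h1, smul_mul_assoc, idp_idem P ν hu]
  · refine ⟨0, ?_⟩
    rw [zero_smul]
    have h2 : ∃ a ∈ P, W.com a n ≠ 1 := by
      by_contra h
      push Not at h
      exact hnP (hmax n hn h)
    obtain ⟨x, hx, hxn⟩ := h2
    have hc := W.comm_mem (hP hx) hn
    have h1 : idp P ν * dl R x = ((ν ⟨x, hx⟩ : Rˣ) : R) • idp P ν := idp_mul_dl P ν ⟨x, hx⟩
    have h1' : dl R x * idp P ν = ((ν ⟨x, hx⟩ : Rˣ) : R) • idp P ν := dl_mul_idp P ν ⟨x, hx⟩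
    have h3 : idp P ν * dl R (x * n * x⁻¹ * n⁻¹) = ((W.com x n : Rˣ) : R) • idp P ν := by
      have h := idp_mul_dl P ν ⟨_, hZ hc⟩
      rw [hν _ hc] at h
      exact h
    have h4 : x * n = (x * n * x⁻¹ * n⁻¹) * (n * x) := by group
    have h5 : idp P ν * dl R (x * n) * idp P ν =
        ((ν ⟨x, hx⟩ : Rˣ) : R) • (idp P ν * dl R n * idp P ν) := by
      rw [dl_mul, ← mul_assoc, h1, smul_mul_assoc, smul_mul_assoc]
    have h6 : idp P ν * dl R (x * n) * idp P ν = ((W.com x n : Rˣ) : R) •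
        (((ν ⟨x, hx⟩ : Rˣ) : R) • (idp P ν * dl R n * idp P ν)) := by
      rw [h4, dl_mul, ← mul_assoc, h3, smul_mul_assoc, smul_mul_assoc, dl_mul, mul_assoc,
        mul_assoc, h1', mul_smul_comm, mul_smul_comm, ← mul_assoc]
    rw [h5] at h6
    have h7 : (1 - ((W.com x n : Rˣ) : R)) •
        (((ν ⟨x, hx⟩ : Rˣ) : R) • (idp P ν * dl R n * idp P ν)) = 0 := by
      rw [sub_smul, one_smul, ← h6, sub_self]
    have h8 : (1 : R) - ((W.com x n : Rˣ) : R) ≠ 0 := by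
      intro h
      exact hxn (Units.ext (sub_eq_zero.mp h).symm)
    rw [smul_smul] at h7
    rcases smul_eq_zero.mp h7 with h | h
    · exact absurd h (mul_ne_zero h8 (Units.ne_zero _))
    · exact h

theorem pol_mul_e [Finite X] {P : Subgroup X} (hZ : W.Z ≤ P) (hP : P ≤ W.N)
    (ν : P →* Rˣ) (hν : ∀ a (h : a ∈ W.Z), ν ⟨a, hZ h⟩ = W.m a) : idp P ν * W.e = idp P ν := by
  have : Fintype W.Z := Fintype.ofFinite _
  have h1 : ∀ a : W.Z, idp P ν * (((W.μ a⁻¹ : Rˣ) : R) • dl R (a : X)) = idp P ν := by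
    intro a
    have h2 : idp P ν * dl R (a : X) = ((W.m a : Rˣ) : R) • idp P ν := by
      have h := idp_mul_dl P ν ⟨a, hZ a.2⟩
      rw [hν _ a.2] at h
      exact h
    rw [mul_smul_comm, h2, smul_smul, W.μ_apply, ← Units.val_mul]
    have h3 : W.m ((a⁻¹ : W.Z) : X) * W.m a = 1 := by
      rw [← W.m_mul _ (a⁻¹).2 _ a.2]
      show W.m ((a : X)⁻¹ * a) = 1
      rw [inv_mul_cancel, W.m_one]
    rw [h3, Units.val_one, one_smul]
  have h0 : W.e = Ring.inverse ((Nat.card W.Z : ℕ) : R) •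
      ∑ a : W.Z, ((W.μ a⁻¹ : Rˣ) : R) • dl R (a : X) := by
    rw [e, idp, finsum_eq_sum_of_fintype]
  rw [h0, mul_smul_comm, Finset.mul_sum,
    Finset.sum_congr rfl (fun a _ => h1 a), Finset.sum_const, Finset.card_univ,
    ← Nat.card_eq_fintype_card, ← Nat.cast_smul_eq_nsmul R, smul_smul,
    Ring.inverse_mul_cancel _ W.unit_Z, one_smul]

/-- `∑ n x n⁻¹ e = ∑ ω(n, x) x e` is `|N| x e` if `x ∈ Z` and `0` otherwise (`sum_com`). -/
theorem pol_sum [Finite X] [IsDomain R] {P : Subgroup X} (hZ : W.Z ≤ P) (hP : P ≤ W.N)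
    (ν : P →* Rˣ) (hν : ∀ a (h : a ∈ W.Z), ν ⟨a, hZ h⟩ = W.m a) :
    ∃ c : Rˣ, ∑ᶠ n : W.N, dl R (n : X) * idp P ν * dl R (n : X)⁻¹ = ((c : Rˣ) : R) • W.e := by
  classical
  have : Fintype W.N := Fintype.ofFinite _
  have : Fintype P := Fintype.ofFinite _
  have hu : IsUnit ((Nat.card P : ℕ) : R) := by
    obtain ⟨d, hd⟩ := Subgroup.card_dvd_of_le hP
    have h' := W.unit_N
    rw [hd, Nat.cast_mul] at h'
    exact isUnit_of_mul_isUnit_left h'
  refine ⟨hu.unit⁻¹ * W.unit_N.unit * W.unit_Z.unit, ?_⟩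
  have h2 : ∀ (n : W.N) (x : P), dl R (n : X) * (dl R (x : X) * W.e) * dl R (n : X)⁻¹ =
      ((W.com (n : X) x : Rˣ) : R) • (dl R (x : X) * W.e) := by
    intro n x
    have hx := hP x.2
    rw [mul_assoc (dl R (n : X)), mul_assoc (dl R (x : X)), ← W.e_central,
      ← mul_assoc (dl R (x : X)), ← mul_assoc (dl R (n : X)), ← dl_mul, ← dl_mul]
    have h3 : (n : X) * (x * (n : X)⁻¹) = (n * x * (n : X)⁻¹ * (x : X)⁻¹) * x := by group
    rw [h3, dl_mul, mul_assoc, W.e_central (dl R (x : X)), ← mul_assoc,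
      W.dl_mul_e (W.comm_mem n.2 hx), smul_mul_assoc]
    rfl
  have h3 : ∀ x : P, ∑ n : W.N, dl R (n : X) * (dl R (x : X) * W.e) * dl R (n : X)⁻¹ =
      if (x : X) ∈ W.Z then ((Nat.card W.N : ℕ) : R) • (((W.m x : Rˣ) : R) • W.e) else 0 := by
    intro x
    rw [Finset.sum_congr rfl (fun n _ => h2 n x), ← Finset.sum_smul,
      ← finsum_eq_sum_of_fintype, W.sum_com (hP x.2)]
    split_ifs with h
    · rw [W.dl_mul_e h]
    · rw [zero_smul]
  have h4 : ∀ x : P, ((ν x⁻¹ : Rˣ) : R) •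
      (if (x : X) ∈ W.Z then ((Nat.card W.N : ℕ) : R) • (((W.m x : Rˣ) : R) • W.e) else 0) =
      if (x : X) ∈ W.Z then ((Nat.card W.N : ℕ) : R) • W.e else 0 := by
    intro x
    split_ifs with h
    · have h5 : ν x⁻¹ = (W.m x)⁻¹ := by
        rw [map_inv]
        exact congrArg _ (hν x h)
      rw [h5, smul_comm, smul_smul _ _ W.e, ← Units.val_mul, inv_mul_cancel, Units.val_one, one_smul]
    · rw [smul_zero]
  have h5 : ∑ᶠ n : W.N, dl R (n : X) * idp P ν * dl R (n : X)⁻¹ =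
      Ring.inverse ((Nat.card P : ℕ) : R) • ∑ x : P, ((ν x⁻¹ : Rˣ) : R) •
        ∑ n : W.N, dl R (n : X) * (dl R (x : X) * W.e) * dl R (n : X)⁻¹ := by
    rw [finsum_eq_sum_of_fintype]
    conv_lhs => rw [← W.pol_mul_e hZ hP ν hν]
    rw [idp, finsum_eq_sum_of_fintype]
    simp only [smul_mul_assoc, mul_smul_comm, Finset.mul_sum, Finset.sum_mul, Finset.smul_sum]
    rw [Finset.sum_comm]
  have hcard : (Finset.univ.filter (fun x : P => (x : X) ∈ W.Z)).card = Nat.card W.Z := by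
    rw [← Fintype.card_subtype, ← Nat.card_eq_fintype_card]
    refine Nat.card_congr ?_
    exact
      { toFun := fun x => ⟨x.1, x.2⟩
        invFun := fun x => ⟨⟨x, hZ x.2⟩, x.2⟩
        left_inv := fun _ => rfl
        right_inv := fun _ => rfl }
  rw [h5, Finset.sum_congr rfl (fun x _ => by rw [h3 x, h4 x]), ← Finset.sum_filter,
    Finset.sum_const, hcard, ← Nat.cast_smul_eq_nsmul R, smul_smul, smul_smul]
  congr 1
  rw [Units.val_mul, Units.val_mul, IsUnit.unit_spec, IsUnit.unit_spec]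
  have h6 : Ring.inverse ((Nat.card P : ℕ) : R) = ((hu.unit⁻¹ : Rˣ) : R) := by
    rw [← Ring.inverse_unit, IsUnit.unit_spec]
  rw [h6]
  ring

/-- The polarisation idempotent. -/
theorem exists_pol [Finite X] [IsDomain R]
    (hζ : ∃ ζ : R, IsPrimitiveRoot ζ (Nat.card W.N)) : ∃ ε : MonoidAlgebra R X,
      ε * ε = ε ∧ ε * W.e = ε ∧ (∀ g, g ∉ W.N → ε.coeff g = 0) ∧
      (∀ n ∈ W.N, ∃ c : R, ε * dl R n * ε = c • ε) ∧
      ∃ c : Rˣ, ∑ᶠ n : W.N, dl R (n : X) * ε * dl R (n : X)⁻¹ = ((c : Rˣ) : R) • W.e := by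
  obtain ⟨P, h1, h2, h3, h4⟩ := W.exists_max
  obtain ⟨ν, hν⟩ := W.exists_pol_char hζ h1 h2 h3
  have hu : IsUnit ((Nat.card P : ℕ) : R) := by
    have h := Subgroup.card_dvd_of_le h2
    obtain ⟨d, hd⟩ := h
    have h' := W.unit_N
    rw [hd, Nat.cast_mul] at h'
    exact isUnit_of_mul_isUnit_left h'
  refine ⟨idp P ν, idp_idem P ν hu, W.pol_mul_e h1 h2 ν hν, fun g hg => ?_, fun n hn => ?_, ?_⟩
  · exact coeff_idp_zero P ν (fun h => hg (h2 h))
  · exact W.pol_corner h1 h2 h4 ν hν hn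
  · exact W.pol_sum h1 h2 ν hν

end WD

end Pool.Agent.URing
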