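import Pool.Agent.URing.WMul
import Pool.Agent.URing.WPol

/-!
# The Weil representation as transfer data (modules WX1, WX2)

`Ψ(y) = w_(y⁻¹) σ(y)`.
-/

set_option autoImplicit false

namespace Pool.Agent.URing

open MonoidAlgebra Pool.Agent.UBlocks

namespace WD

variable {R F V Y X : Type*} [CommRing R] [Field F] [AddCommGroup V] [Module F V]
    [Group Y] [Group X] (W : WD R F V Y X)

/-- `Ψ` -/
noncomputable def Psi : MonoidAlgebra R Y →ₗ[R] MonoidAlgebra R X :=
  Finsupp.lsum R (fun y => LinearMap.toSpanSingleton R _ (W.w y⁻¹ * dl R (W.σ y))) ∘ₗ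
    (MonoidAlgebra.coeffLinearEquiv R).toLinearMap

/-- the idempotent of `R Y` -/
noncomputable def eY : MonoidAlgebra R Y := idp (W.Z.comap W.σ) (W.μ.comp (W.σ.subgroupComap W.Z))

theorem Psi_dl (y : Y) : W.Psi (dl R y) = W.w y⁻¹ * dl R (W.σ y) := by
  simp [Psi, dl]

private theorem WX_Psi [Fintype Y] (a : MonoidAlgebra R Y) :
    W.Psi a = ∑ y, a.coeff y • (W.w y⁻¹ * dl R (W.σ y)) := by
  conv_lhs => rw [eq_sum_dl a]
  rw [map_sum]
  exact Finset.sum_congr rfl fun y _ => by rw [map_smul, Psi_dl]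

variable [Finite X] [Finite F] [Finite V]

/-! ### module WX1 -/

theorem Psi_one : W.Psi 1 = W.e := by
  rw [← dl_one, Psi_dl, inv_one, map_one, dl_one, mul_one, W.w_one]

/-- `w_(y⁻¹) y w_(x⁻¹) x = w_(y⁻¹) w_(y x⁻¹ y⁻¹) y x = w_(x⁻¹ y⁻¹) y x` -/
theorem Psi_mul [IsDomain R] [CharZero R] (a b : MonoidAlgebra R Y) :
    W.Psi (a * b) = W.Psi a * W.Psi b := by
  classical
  have : Finite Y := Finite.of_injective W.σ W.inj
  have := Fintype.ofFinite Y
  have key : ∀ y x : Y, W.Psi (dl R y * dl R x) = W.Psi (dl R y) * W.Psi (dl R x) := by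
    intro y x
    rw [← dl_mul, Psi_dl, Psi_dl, Psi_dl]
    have h1 : dl R (W.σ y) * W.w x⁻¹ = W.w (y * x⁻¹ * y⁻¹) * dl R (W.σ y) := by
      rw [← W.cj_w]
      unfold cj
      rw [mul_assoc _ (dl R (W.σ y)⁻¹), dl_inv_mul, mul_one]
    calc W.w (y * x)⁻¹ * dl R (W.σ (y * x)) =
        W.w (y⁻¹ * (y * x⁻¹ * y⁻¹)) * (dl R (W.σ y) * dl R (W.σ x)) := by
          rw [map_mul, dl_mul]
          congr 2
          group
      _ = W.w y⁻¹ * (W.w (y * x⁻¹ * y⁻¹) * dl R (W.σ y)) * dl R (W.σ x) := by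
          rw [← W.w_mul]; simp only [mul_assoc]
      _ = _ := by rw [← h1]; simp only [mul_assoc]
  rw [eq_sum_dl a, eq_sum_dl b, Finset.sum_mul, map_sum, map_sum, Finset.sum_mul]
  refine Finset.sum_congr rfl fun y _ => ?_
  rw [map_sum, Finset.mul_sum, map_sum, Finset.mul_sum]
  refine Finset.sum_congr rfl fun x _ => ?_
  rw [smul_mul_smul_comm, map_smul, key, map_smul, map_smul, smul_mul_smul_comm]

theorem Psi_cj (y : Y) (a : MonoidAlgebra R Y) : cj (W.σ y) (W.Psi a) = W.Psi (cj y a) := by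
  classical
  have : Finite Y := Finite.of_injective W.σ W.inj
  have := Fintype.ofFinite Y
  have key : ∀ x : Y, cj (W.σ y) (W.Psi (dl R x)) = W.Psi (cj y (dl R x)) := by
    intro x
    have h1 : cj y (dl R x) = dl R (y * x * y⁻¹) := by
      unfold cj
      rw [dl_mul, dl_mul]
    have h2 : cj (W.σ y) (dl R (W.σ x)) = dl R (W.σ (y * x * y⁻¹)) := by
      unfold cj
      rw [map_mul, map_mul, map_inv, dl_mul, dl_mul]
    rw [h1, Psi_dl, Psi_dl, cj_mul, W.cj_w, h2]
    congr 2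
    group
  rw [eq_sum_dl a, map_sum, cj_sum, cj_sum, map_sum]
  refine Finset.sum_congr rfl fun x _ => ?_
  rw [map_smul, cj_smul, cj_smul, map_smul, key]

/-- `n w_(y⁻¹) y = w_(y⁻¹) y n` for `n ∈ N` -/
theorem Psi_comm {x : MonoidAlgebra R X} (hx : ∀ g, g ∉ W.N → x.coeff g = 0)
    (a : MonoidAlgebra R Y) : x * W.Psi a = W.Psi a * x := by
  classical
  have : Finite Y := Finite.of_injective W.σ W.inj
  have := Fintype.ofFinite Y
  have := Fintype.ofFinite X
  have key : ∀ g ∈ W.N, ∀ y : Y, dl R g * (W.w y⁻¹ * dl R (W.σ y)) =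
      (W.w y⁻¹ * dl R (W.σ y)) * dl R g := by
    intro g hg y
    have h1 := W.dl_mul_w y⁻¹ (n := W.σ y * g * (W.σ y)⁻¹) (W.normal_N.conj_mem g hg _)
    have h2 : W.σ y⁻¹ * (W.σ y * g * (W.σ y)⁻¹) * (W.σ y⁻¹)⁻¹ = g := by
      rw [map_inv]; group
    rw [h2] at h1
    calc dl R g * (W.w y⁻¹ * dl R (W.σ y)) = (dl R g * W.w y⁻¹) * dl R (W.σ y) :=
          (mul_assoc _ _ _).symm
      _ = W.w y⁻¹ * dl R (W.σ y * g * (W.σ y)⁻¹) * dl R (W.σ y) := by rw [h1]
      _ = W.w y⁻¹ * dl R (W.σ y * g) := by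
          rw [mul_assoc, ← dl_mul, inv_mul_cancel_right]
      _ = _ := by rw [dl_mul, mul_assoc]
  rw [WX_Psi, eq_sum_dl x, Finset.sum_mul, Finset.mul_sum]
  refine Finset.sum_congr rfl fun g _ => ?_
  by_cases hg : g ∈ W.N
  · rw [Finset.mul_sum, Finset.sum_mul]
    refine Finset.sum_congr rfl fun y _ => ?_
    rw [smul_mul_smul_comm, smul_mul_smul_comm, key g hg y, mul_comm (x.coeff g)]
  · rw [hx g hg, zero_smul, zero_mul, mul_zero]

omit [Finite F] [Finite V] in
private theorem WX_unit : IsUnit ((Nat.card (W.Z.comap W.σ) : ℕ) : R) := by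
  have h1 : Nat.card (W.Z.comap W.σ) ∣ Nat.card W.N :=
    (Subgroup.card_comap_dvd_of_injective W.Z W.σ W.inj).trans (Subgroup.card_dvd_of_le W.le)
  obtain ⟨d, hd⟩ := h1
  have h2 := W.unit_N
  rw [hd, Nat.cast_mul] at h2
  exact isUnit_of_mul_isUnit_left h2

omit [Finite F] [Finite V] in
private theorem WX_finY (W : WD R F V Y X) : Finite Y := Finite.of_injective W.σ W.inj

theorem eY_idem : W.eY * W.eY = W.eY := by
  have := W.WX_finY
  exact idp_idem _ _ W.WX_unit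

theorem eY_central (a : MonoidAlgebra R Y) : a * W.eY = W.eY * a := by
  have := W.WX_finY
  have := Fintype.ofFinite Y
  refine (central_iff _).2 (fun y => ?_) a
  refine cj_idp_of_mem _ _ ?_
  rw [mem_stb]
  rintro ⟨n, hn⟩
  apply Units.ext
  have h1 := W.m_conj (W.σ y) (W.σ n) hn
  show ((W.m (W.σ (y * n * y⁻¹)) : Rˣ) : R) = ((W.m (W.σ n) : Rˣ) : R)
  rw [map_mul, map_mul, map_inv, h1]

/-- `Ψ(y) = m(σ(y)) e` if `σ(y) ∈ Z` -/
theorem Psi_eY : W.Psi W.eY = W.e := by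
  classical
  have := W.WX_finY
  have := Fintype.ofFinite (W.Z.comap W.σ)
  unfold eY idp
  rw [finsum_eq_sum_of_fintype, map_smul, map_sum]
  have h1 : ∀ n : W.Z.comap W.σ, W.Psi (((((W.μ.comp (W.σ.subgroupComap W.Z)) n⁻¹ : Rˣ)) : R) •
      dl R (n : Y)) = W.e := by
    rintro ⟨n, hn⟩
    have hn' : W.σ n ∈ W.Z := hn
    have hinv : W.σ n⁻¹ ∈ W.N := by
      rw [map_inv]
      exact W.N.inv_mem (W.le hn')
    rw [map_smul, Psi_dl, W.w_of_mem hinv, ← W.e_central, W.dl_mul_e hn', smul_smul]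
    have h2 : (W.μ.comp (W.σ.subgroupComap W.Z)) (⟨n, hn⟩ : W.Z.comap W.σ)⁻¹ =
        (W.m (W.σ n))⁻¹ := by
      rw [map_inv]
      rfl
    rw [h2, Units.inv_mul, one_smul]
  rw [Finset.sum_congr rfl fun n _ => h1 n, Finset.sum_const, Finset.card_univ,
    ← Nat.card_eq_fintype_card, ← Nat.cast_smul_eq_nsmul R, smul_smul,
    Ring.inverse_mul_cancel _ W.WX_unit, one_smul]

/-! ### module WX2 -/

/-- The terms `a_y w_(y⁻¹) σ(y)` for `y` in a coset `T y`, `T = σ⁻¹(Z) = σ⁻¹(N)`, are supported on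
`N σ(y)`, and `w_((t y)⁻¹) σ(t y) = m(σ(t)) w_(y⁻¹) σ(y)`.  `w_(y⁻¹)` is invertible modulo `e`, so
`∑_t a_(t y) m(σ(t)) = 0` for all `y`: these are the coefficients of `a e_Y` up to `|T|⁻¹`. -/
theorem Psi_ker [IsDomain R] [CharZero R] (a : MonoidAlgebra R Y) (h : W.Psi a = 0) :
    a * W.eY = 0 := by
  classical
  have := W.WX_finY
  have := Fintype.ofFinite Y
  have := Fintype.ofFinite X
  have hfT := Fintype.ofFinite (W.Z.comap W.σ)
  -- the element of the coset
  have hcos : ∀ (t : W.Z.comap W.σ) (y : Y), W.w (t * y)⁻¹ * dl R (W.σ (t * y)) =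
      ((W.m (W.σ t) : Rˣ) : R) • (W.w y⁻¹ * dl R (W.σ y)) := by
    rintro ⟨t, ht⟩ y
    have ht' : W.σ t ∈ W.Z := ht
    have hinv : W.σ t⁻¹ ∈ W.N := by
      rw [map_inv]
      exact W.N.inv_mem (W.le ht')
    show W.w (t * y)⁻¹ * dl R (W.σ (t * y)) = ((W.m (W.σ t) : Rˣ) : R) • _
    calc W.w (t * y)⁻¹ * dl R (W.σ (t * y)) =
        W.w y⁻¹ * (W.w t⁻¹ * dl R (W.σ t)) * dl R (W.σ y) := by
          rw [mul_inv_rev, ← W.w_mul, map_mul, dl_mul]; simp only [mul_assoc]
      _ = W.w y⁻¹ * (((W.m (W.σ t) : Rˣ) : R) • W.e) * dl R (W.σ y) := by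
          rw [W.w_of_mem hinv, ← W.e_central, W.dl_mul_e ht']
      _ = _ := by
          rw [mul_smul_comm, smul_mul_assoc, W.w_mul_e]
  have hc : ∀ y₀ : Y, ∑ t : W.Z.comap W.σ, a.coeff (t * y₀) * ((W.m (W.σ t) : Rˣ) : R) = 0 := by
    intro y₀
    set c := ∑ t : W.Z.comap W.σ, a.coeff (t * y₀) * ((W.m (W.σ t) : Rˣ) : R) with hcdef
    have h1 : c • W.w y₀⁻¹ = 0 := by
      ext g
      rw [coeff_smul, Finsupp.smul_apply, smul_eq_mul, coeff_zero, Finsupp.zero_apply]
      by_cases hg : g ∈ W.N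
      · have h2 : (W.Psi a).coeff (g * W.σ y₀) = 0 := by rw [h]; simp
        rw [WX_Psi, coeff_sum, Finset.sum_apply'] at h2
        rw [← h2]
        have h3 : ∑ t : W.Z.comap W.σ, (a.coeff (t * y₀) • (W.w (t * y₀)⁻¹ *
            dl R (W.σ (t * y₀)))).coeff (g * W.σ y₀) =
            ∑ y : Y, (a.coeff y • (W.w y⁻¹ * dl R (W.σ y))).coeff (g * W.σ y₀) := by
          refine Finset.sum_of_injOn (fun t : W.Z.comap W.σ => (t : Y) * y₀) ?_ ?_ ?_ ?_
          · intro t _ t' _ htt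
            exact Subtype.ext (mul_right_cancel htt)
          · intro t _
            exact Finset.mem_coe.2 (Finset.mem_univ _)
          · intro y _ hy
            rw [coeff_smul, Finsupp.smul_apply, coeff_mul_dl, W.coeff_w_zero, smul_zero]
            intro hmem
            apply hy
            have h4 : W.σ (y₀ * y⁻¹) ∈ W.N := by
              have h5 := W.N.mul_mem (W.N.inv_mem hg) hmem
              rw [map_mul, map_inv]
              have h6 : g⁻¹ * (g * W.σ y₀ * (W.σ y)⁻¹) = W.σ y₀ * (W.σ y)⁻¹ := by group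
              rwa [h6] at h5
            have h5 : W.σ (y * y₀⁻¹) ∈ W.Z := by
              apply W.σ_mem
              have h6 : y * y₀⁻¹ = (y₀ * y⁻¹)⁻¹ := by group
              rw [h6, map_inv]
              exact W.N.inv_mem h4
            refine ⟨⟨y * y₀⁻¹, h5⟩, Finset.mem_coe.2 (Finset.mem_univ _), ?_⟩
            show y * y₀⁻¹ * y₀ = y
            group
          · intro t _
            rfl
        rw [← h3, hcdef, Finset.sum_mul]
        refine Finset.sum_congr rfl fun t _ => ?_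
        rw [hcos, coeff_smul, Finsupp.smul_apply, coeff_smul, Finsupp.smul_apply, coeff_mul_dl,
          smul_eq_mul, smul_eq_mul, mul_inv_cancel_right]
        ring
      · rw [W.coeff_w_zero _ hg, mul_zero]
    have h2 : c • W.e = 0 := by
      have h3 : (c • W.w y₀⁻¹) * W.w y₀ = 0 := by rw [h1, zero_mul]
      rw [smul_mul_assoc, W.w_mul, inv_mul_cancel, W.w_one] at h3
      exact h3
    have h3 : (c • W.e).coeff 1 = 0 := by rw [h2]; simp
    rw [coeff_smul, Finsupp.smul_apply, smul_eq_mul] at h3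
    rcases mul_eq_zero.1 h3 with h4 | h4
    · exact h4
    · exfalso
      have h5 : W.e.coeff 1 = Ring.inverse ((Nat.card W.Z : ℕ) : R) *
          ((W.μ (1 : W.Z)⁻¹ : Rˣ) : R) := coeff_idp W.Z W.μ 1
      rw [h5] at h4
      have hu : IsUnit (Ring.inverse ((Nat.card W.Z : ℕ) : R)) := W.unit_Z.ringInverse
      exact (hu.mul (Units.isUnit _)).ne_zero h4
  rw [W.eY_central]
  ext y₀
  rw [coeff_zero, Finsupp.zero_apply]
  unfold eY idp
  rw [finsum_eq_sum_of_fintype, smul_mul_assoc, coeff_smul, Finsupp.smul_apply, Finset.sum_mul,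
    coeff_sum, Finset.sum_apply']
  have h1 : ∑ t : W.Z.comap W.σ, (((((W.μ.comp (W.σ.subgroupComap W.Z)) t⁻¹ : Rˣ)) : R) •
      dl R (t : Y) * a).coeff y₀ = ∑ t : W.Z.comap W.σ,
        a.coeff (t * y₀) * ((W.m (W.σ t) : Rˣ) : R) := by
    rw [← Equiv.sum_comp (Equiv.inv (W.Z.comap W.σ))]
    refine Finset.sum_congr rfl fun t _ => ?_
    rw [smul_mul_assoc, coeff_smul, Finsupp.smul_apply, coeff_dl_mul, smul_eq_mul]
    simp only [Equiv.inv_apply, inv_inv]
    rw [mul_comm]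
    congr 1
    show a.coeff (((t⁻¹ : W.Z.comap W.σ) : Y)⁻¹ * y₀) = _
    rw [Subgroup.coe_inv, inv_inv]
  rw [h1, hc, smul_zero]

/-- `x = n σ(y)`: `ε x ε = ε n e σ(y) ε = ε n w_y w_(y⁻¹) σ(y) ε = (ε n w_y ε) Ψ(y)`, and `n w_y` is a
combination of elements of `N`, so `ε n w_y ε = c ε`. -/
theorem Psi_corner [IsDomain R] [CharZero R] {ε : MonoidAlgebra R X} (h1 : ε * ε = ε)
    (h2 : ε * W.e = ε) (h3 : ∀ g, g ∉ W.N → ε.coeff g = 0)
    (h4 : ∀ n ∈ W.N, ∃ c : R, ε * dl R n * ε = c • ε) (x : X) :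
    ∃ a, ε * dl R x * ε = W.Psi a * ε := by
  classical
  have := Fintype.ofFinite X
  obtain ⟨n, hn, y, rfl⟩ := W.gen x
  -- elements supported on `N`
  have key : ∀ z : MonoidAlgebra R X, (∀ g, g ∉ W.N → z.coeff g = 0) →
      ∃ c : R, ε * z * ε = c • ε := by
    intro z hz
    have h5 : ∀ g : X, ∃ c : R, ε * (z.coeff g • dl R g) * ε = c • ε := by
      intro g
      by_cases hg : g ∈ W.N
      · obtain ⟨c, hc⟩ := h4 g hg
        exact ⟨z.coeff g * c, by rw [mul_smul_comm, smul_mul_assoc, hc, smul_smul]⟩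
      · exact ⟨0, by rw [hz g hg, zero_smul, mul_zero, zero_mul, zero_smul]⟩
    choose c hc using h5
    refine ⟨∑ g, c g, ?_⟩
    conv_lhs => rw [eq_sum_dl z]
    rw [Finset.mul_sum, Finset.sum_mul, Finset.sum_smul]
    exact Finset.sum_congr rfl fun g _ => hc g
  obtain ⟨c, hc⟩ := key (dl R n * W.w y) (fun g hg => by
    rw [coeff_dl_mul]
    apply W.coeff_w_zero
    intro h
    apply hg
    have := W.N.mul_mem hn h
    rwa [mul_inv_cancel_left] at this)
  have he : W.w y * W.w y⁻¹ = W.e := by rw [W.w_mul, mul_inv_cancel, W.w_one]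
  have hcomm := W.Psi_comm h3 (dl R y)
  have hcomm2 : (W.Psi (dl R y) * ε) * ε = ε * (W.Psi (dl R y) * ε) := by
    calc (W.Psi (dl R y) * ε) * ε = (ε * W.Psi (dl R y)) * ε := by rw [hcomm]
      _ = _ := mul_assoc _ _ _
  refine ⟨c • dl R y, ?_⟩
  calc ε * dl R (n * W.σ y) * ε = (ε * W.e) * (dl R n * dl R (W.σ y)) * ε := by
        rw [h2, dl_mul]
    _ = ε * dl R n * W.e * dl R (W.σ y) * ε := by
        calc ε * W.e * (dl R n * dl R (W.σ y)) * ε = ε * (W.e * dl R n) * dl R (W.σ y) * ε := by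
              simp only [mul_assoc]
          _ = _ := by rw [← W.e_central]; simp only [mul_assoc]
    _ = ε * dl R n * (W.w y * W.w y⁻¹) * dl R (W.σ y) * ε := by rw [he]
    _ = ε * (dl R n * W.w y) * (W.Psi (dl R y) * (ε * ε)) := by
        rw [Psi_dl, h1]; simp only [mul_assoc]
    _ = ε * (dl R n * W.w y) * ((W.Psi (dl R y) * ε) * ε) := by simp only [mul_assoc]
    _ = (ε * (dl R n * W.w y) * ε) * (W.Psi (dl R y) * ε) := by
        rw [hcomm2]; simp only [mul_assoc]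
    _ = c • (ε * W.Psi (dl R y) * ε) := by rw [hc, smul_mul_assoc, mul_assoc]
    _ = c • (W.Psi (dl R y) * (ε * ε)) := by rw [hcomm, mul_assoc]
    _ = _ := by rw [h1, map_smul, smul_mul_assoc]

/-- `[X : σ(Y)]` divides `|N|`, and `e` is central. -/
theorem exists_index : ∃ u : Rˣ,
    ∑ᶠ q : X ⧸ W.σ.range, cj (Quotient.out q) W.e = (u : R) • W.e := by
  classical
  have := Fintype.ofFinite (X ⧸ W.σ.range)
  have htr : MulAction.IsPretransitive W.N (X ⧸ W.σ.range) := by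
    have hbase : ∀ q : X ⧸ W.σ.range, ∃ g : W.N, g • ((1 : X) : X ⧸ W.σ.range) = q := by
      intro q
      obtain ⟨x, rfl⟩ := QuotientGroup.mk_surjective q
      obtain ⟨n, hn, y, rfl⟩ := W.gen x
      refine ⟨⟨n, hn⟩, ?_⟩
      show ((n * 1 : X) : X ⧸ W.σ.range) = ((n * W.σ y : X) : X ⧸ W.σ.range)
      rw [QuotientGroup.eq]
      refine ⟨y, ?_⟩
      group
    refine ⟨fun p q => ?_⟩
    obtain ⟨g, hg⟩ := hbase p
    obtain ⟨g', hg'⟩ := hbase q
    refine ⟨g' * g⁻¹, ?_⟩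
    rw [← hg, ← hg', mul_smul, inv_smul_smul]
  have h1 : Nat.card (X ⧸ W.σ.range) ∣ Nat.card W.N := by
    rw [← MulAction.index_stabilizer_of_transitive W.N ((1 : X) : X ⧸ W.σ.range)]
    exact Subgroup.index_dvd_card _
  have h2 : IsUnit ((Nat.card (X ⧸ W.σ.range) : ℕ) : R) := by
    obtain ⟨d, hd⟩ := h1
    have h3 := W.unit_N
    rw [hd, Nat.cast_mul] at h3
    exact isUnit_of_mul_isUnit_left h3
  refine ⟨h2.unit, ?_⟩
  have h3 : ∀ q : X ⧸ W.σ.range, cj (Quotient.out q) W.e = W.e := fun q =>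
    (cj_eq_iff _ _).2 (W.e_central _)
  rw [finsum_eq_sum_of_fintype, Finset.sum_congr rfl fun q _ => h3 q, Finset.sum_const,
    Finset.card_univ, ← Nat.card_eq_fintype_card, ← Nat.cast_smul_eq_nsmul R, IsUnit.unit_spec]

/-- the chosen polarisation idempotent -/
noncomputable def pol [IsDomain R] (hζ : ∃ ζ : R, IsPrimitiveRoot ζ (Nat.card W.N)) :
    MonoidAlgebra R X := Classical.choose (W.exists_pol hζ)

theorem pol_span [IsDomain R] (hζ : ∃ ζ : R, IsPrimitiveRoot ζ (Nat.card W.N)) :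
    ∃ c : Rˣ, ∑ᶠ n : W.N, dl R (n : X) * W.pol hζ * dl R (n : X)⁻¹ = ((c : Rˣ) : R) • W.e :=
  (Classical.choose_spec (W.exists_pol hζ)).2.2.2.2

omit [Finite F] [Finite V] in
private theorem WX_supp (c : R) (n : W.N) : ∀ g, g ∉ W.N → (c • dl R (n : X)).coeff g = 0 := by
  classical
  intro g hg
  rw [coeff_smul, Finsupp.smul_apply, coeff_dl, if_neg, smul_zero]
  rintro rfl
  exact hg n.2

omit [Finite X] [Finite F] [Finite V] in
private theorem WX_supp' (n : W.N) : ∀ g, g ∉ W.N → (dl R (n : X)⁻¹).coeff g = 0 := by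
  classical
  intro g hg
  rw [coeff_dl, if_neg]
  rintro rfl
  exact hg (W.N.inv_mem n.2)

/-- The transfer data of the Weil representation. -/
noncomputable def xf [IsDomain R] [CharZero R]
    (hζ : ∃ ζ : R, IsPrimitiveRoot ζ (Nat.card W.N)) : Xf R Y X where
  σ := W.σ
  inj := W.inj
  Ψ := W.Psi
  mul := W.Psi_mul
  equi := W.Psi_cj
  e := W.eY
  e_idem := W.eY_idem
  e_central := W.eY_central
  Ψ_e := by rw [W.Psi_eY, W.Psi_one]
  ker := W.Psi_ker
  ε := W.pol hζ
  ε_idem := (Classical.choose_spec (W.exists_pol hζ)).1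
  ε_comm := W.Psi_comm (Classical.choose_spec (W.exists_pol hζ)).2.2.1
  one_ε := by
    rw [W.Psi_one, ← W.e_central]
    exact (Classical.choose_spec (W.exists_pol hζ)).2.1
  corner := W.Psi_corner (Classical.choose_spec (W.exists_pol hζ)).1
    (Classical.choose_spec (W.exists_pol hζ)).2.1
    (Classical.choose_spec (W.exists_pol hζ)).2.2.1
    (Classical.choose_spec (W.exists_pol hζ)).2.2.2.1
  ι := Fin (Nat.card W.N)
  fin := inferInstance
  m i := (((Classical.choose (W.pol_span hζ))⁻¹ : Rˣ) : R) •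
    dl R ((Finite.equivFin W.N).symm i : X)
  m' i := dl R ((Finite.equivFin W.N).symm i : X)⁻¹
  m_comm i a := W.Psi_comm (W.WX_supp _ _) a
  m'_comm i a := W.Psi_comm (W.WX_supp' _) a
  span := by
    have := Fintype.ofFinite W.N
    have h : ∑ n : W.N, dl R (n : X) * W.pol hζ * dl R (n : X)⁻¹ =
        ((Classical.choose (W.pol_span hζ) : Rˣ) : R) • W.e := by
      rw [← finsum_eq_sum_of_fintype]
      exact Classical.choose_spec (W.pol_span hζ)
    rw [W.Psi_one]
    calc ∑ i, (((Classical.choose (W.pol_span hζ))⁻¹ : Rˣ) : R) •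
          dl R ((Finite.equivFin W.N).symm i : X) * W.pol hζ *
          dl R ((Finite.equivFin W.N).symm i : X)⁻¹ =
        ∑ i, (((Classical.choose (W.pol_span hζ))⁻¹ : Rˣ) : R) •
          (dl R ((Finite.equivFin W.N).symm i : X) * W.pol hζ *
          dl R ((Finite.equivFin W.N).symm i : X)⁻¹) := by
          exact Finset.sum_congr rfl fun i _ => by rw [smul_mul_assoc, smul_mul_assoc]
      _ = (((Classical.choose (W.pol_span hζ))⁻¹ : Rˣ) : R) •
          ∑ n : W.N, dl R (n : X) * W.pol hζ * dl R (n : X)⁻¹ := by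
          rw [← Finset.smul_sum]
          congr 1
          exact Equiv.sum_comp (Finite.equivFin W.N).symm
            (fun n : W.N => dl R (n : X) * W.pol hζ * dl R (n : X)⁻¹)
      _ = W.e := by rw [h, smul_smul, Units.inv_mul, one_smul]
  u := Classical.choose W.exists_index
  f := W.e
  f_idem := W.e_idem
  f_one := by rw [W.Psi_one, W.e_idem]
  trace := by
    rw [W.Psi_one]
    exact Classical.choose_spec W.exists_index

end WD

end Pool.Agent.URing
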